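import Pool.Agent.Helper40.SD.SolidOdd

/-!
# Double solids: characteristic two

`uni_solid_two`: the function field of `r² + r = B(x, y, z)`, `deg B ≤ 6`, is uniruled in
characteristic two: lines on which the coefficients of `B` satisfy `c₅ = 0`, `c₆ = c₃²`.
-/

set_option autoImplicit false

namespace Pool.Agent.Helper40.SD

open IntermediateField Pool.Agent.Helper75.QC

/-- two equations in three unknowns -/
theorem exists_line_two {M : Type} [Field M] [IsAlgClosed M] (B : MvPolynomial (Fin 3) M)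
    (P : Fin 3 → M) : ∃ d : Fin 3 → M, d ≠ 0 ∧ (onLine B P d).coeff 5 = 0 ∧
      (onLine B P d).coeff 3 ^ 2 + (onLine B P d).coeff 6 = 0 := by
  let R := MvPolynomial (Fin 3) M
  let Φ : Polynomial R := onLine (MvPolynomial.map (MvPolynomial.C) B)
    (fun i => MvPolynomial.C (P i)) (fun i => MvPolynomial.X i)
  have hΦ : ∀ x : Fin 3 → M, Φ.map (MvPolynomial.eval x) = onLine B P x := by
    intro x
    rw [onLine_map, MvPolynomial.map_map]
    have h1 : (MvPolynomial.eval x).comp MvPolynomial.C = RingHom.id M := by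
      ext a
      simp
    rw [h1, MvPolynomial.map_id]
    congr 1
    · funext i
      simp
    · funext i
      simp
  have hc : ∀ (x : Fin 3 → M) (k : ℕ), MvPolynomial.eval x (Φ.coeff k) =
      (onLine B P x).coeff k := by
    intro x k
    rw [← hΦ, Polynomial.coeff_map]
  have h0 : ∀ k, 0 < k → MvPolynomial.eval (0 : Fin 3 → M) (Φ.coeff k) = 0 := by
    intro k hk
    rw [hc, onLine_zero, Polynomial.coeff_C_of_ne_zero hk.ne']
  obtain ⟨x, hx0, hx⟩ := exists_zero (k := M) (σ := Fin 3) (ι := Fin 2)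
    ![Φ.coeff 5, Φ.coeff 3 ^ 2 + Φ.coeff 6] (fun j => by
      fin_cases j
      · exact h0 5 (by norm_num)
      · change MvPolynomial.eval 0 (Φ.coeff 3 ^ 2 + Φ.coeff 6) = 0
        rw [map_add, map_pow, h0 3 (by norm_num), h0 6 (by norm_num)]
        simp) (by simp)
  refine ⟨x, hx0, ?_, ?_⟩
  · have h1 := hx 0
    rw [← hc]
    exact h1
  · have h1 := hx 1
    change MvPolynomial.eval x (Φ.coeff 3 ^ 2 + Φ.coeff 6) = 0 at h1
    rw [map_add, map_pow, hc, hc] at h1
    exact h1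

/-- a curve of Artin and Schreier of genus zero -/
theorem as_param {Ω E : Type} [Field Ω] [Field E] [Algebra Ω E] (M : IntermediateField Ω E)
    [IsAlgClosed M] (h2 : (2 : E) = 0) (c₀ c₁ c₂ c₃ c₄ : M) (t r : E)
    (h : r ^ 2 + r = c₀ + c₁ * t + c₂ * t ^ 2 + c₃ * t ^ 3 + c₄ * t ^ 4 + c₃ ^ 2 * t ^ 6) :
    ∃ θ : E, ∀ F : IntermediateField Ω E, M ≤ F → θ ∈ F → t ∈ F ∧ r ∈ F := by
  obtain ⟨s, hs⟩ := IsAlgClosed.exists_pow_nat_eq c₄ (n := 2) (by norm_num)
  obtain ⟨u, hu⟩ := IsAlgClosed.exists_pow_nat_eq (c₂ + s) (n := 2) (by norm_num)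
  have hs' : ((s : E)) ^ 2 = c₄ := by exact_mod_cast congrArg Subtype.val hs
  have hu' : ((u : E)) ^ 2 = c₂ + s := by exact_mod_cast congrArg Subtype.val hu
  set v : E := r + c₃ * t ^ 3 + s * t ^ 2 + u * t with hv
  have h1 : v ^ 2 + v = c₀ + (c₁ + u) * t := by
    rw [hv]
    linear_combination h + t ^ 4 * hs' + t ^ 2 * hu' + (r * c₃ * t ^ 3 + r * s * t ^ 2 +
      r * u * t + c₃ * s * t ^ 5 + c₃ * u * t ^ 4 + s * u * t ^ 3 + c₃ ^ 2 * t ^ 6 +
      c₃ * t ^ 3 + s * t ^ 2 + c₄ * t ^ 4 + c₂ * t ^ 2) * h2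
  have hr : r = v - c₃ * t ^ 3 - s * t ^ 2 - u * t := by rw [hv]; ring
  by_cases h3 : (c₁ + u : E) = 0
  · rw [h3, zero_mul, add_zero] at h1
    obtain ⟨ρ, hρ⟩ := IsAlgClosed.exists_root
      (Polynomial.X ^ 2 + Polynomial.X - Polynomial.C c₀ : Polynomial M) (by
        have : (Polynomial.X ^ 2 + Polynomial.X - Polynomial.C c₀ : Polynomial M).degree = 2 := by
          compute_degree!
        rw [this]
        norm_num)
    rw [Polynomial.IsRoot.def] at hρ
    simp only [Polynomial.eval_sub, Polynomial.eval_add, Polynomial.eval_pow, Polynomial.eval_X,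
      Polynomial.eval_C] at hρ
    have hρ' : ((ρ : E)) ^ 2 + ρ - c₀ = 0 := by exact_mod_cast congrArg Subtype.val hρ
    have h4 : (v - ρ) * (v + ρ + 1) = 0 := by linear_combination h1 - hρ'
    have hvM : v ∈ M := by
      rcases mul_eq_zero.1 h4 with h5 | h5
      · rw [sub_eq_zero.1 h5]
        exact ρ.2
      · have h6 : v = -(ρ + 1) := by linear_combination h5
        rw [h6]
        exact M.neg_mem (M.add_mem ρ.2 M.one_mem)
    refine ⟨t, fun F hF hθ => ⟨hθ, ?_⟩⟩
    rw [hr]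
    exact F.sub_mem (F.sub_mem (F.sub_mem (hF hvM) (F.mul_mem (hF c₃.2) (pow_mem hθ 3)))
      (F.mul_mem (hF s.2) (pow_mem hθ 2))) (F.mul_mem (hF u.2) hθ)
  · refine ⟨v, fun F hF hθ => ?_⟩
    have h4 : t = (v ^ 2 + v - c₀) / (c₁ + u) := by
      rw [eq_div_iff h3]
      linear_combination -h1
    have ht : t ∈ F := by
      rw [h4]
      exact F.div_mem (F.sub_mem (F.add_mem (pow_mem hθ 2) hθ) (hF c₀.2))
        (F.add_mem (hF c₁.2) (hF u.2))
    refine ⟨ht, ?_⟩
    rw [hr]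
    exact F.sub_mem (F.sub_mem (F.sub_mem hθ (F.mul_mem (hF c₃.2) (pow_mem ht 3)))
      (F.mul_mem (hF s.2) (pow_mem ht 2))) (F.mul_mem (hF u.2) ht)

theorem uni_solid_two {Ω K : Type} [Field Ω] [IsAlgClosed Ω] [Field K] [Algebra Ω K]
    (h2 : (2 : Ω) = 0) (B : MvPolynomial (Fin 3) Ω) (hB : B.totalDegree ≤ 6) (x : Fin 3 → K)
    (r : K) (hr : r ^ 2 + r = MvPolynomial.aeval x B)
    (hgen : adjoin Ω (Set.range x ∪ {r}) = ⊤) : Uniruled Ω K 3 := by
  have hψ : (Polynomial.X ^ 2 + Polynomial.X : Polynomial Ω).natDegree = 2 := by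
    compute_degree!
  refine solid_setup (Polynomial.X ^ 2 + Polynomial.X) (by rw [hψ]; norm_num) B x r
    (by simpa using hr) hgen ?_
  intro E _ _ M _ P _
  have h2E : (2 : E) = 0 := by
    have := congrArg (algebraMap Ω E) h2
    rwa [map_ofNat, map_zero] at this
  have h2M : (2 : M) = 0 := by
    have := congrArg (algebraMap Ω M) h2
    rwa [map_ofNat, map_zero] at this
  set B' := MvPolynomial.map (algebraMap Ω M) B with hB'
  obtain ⟨d, hd, h5, h36⟩ := exists_line_two B' P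
  have h6 : (onLine B' P d).coeff 6 = (onLine B' P d).coeff 3 ^ 2 := by
    linear_combination h36 - (onLine B' P d).coeff 3 ^ 2 * h2M
  refine ⟨d, hd, fun t r hr => ?_⟩
  have h3 := aeval_onLine M B P d t
  have hdeg := natDegree_onLine B' ((totalDegree_map_le _ _).trans hB) P d
  rw [← hB', Polynomial.aeval_eq_sum_range' (Nat.lt_succ_of_le hdeg)] at h3
  simp only [Finset.sum_range_succ, Finset.sum_range_zero, h5, h6] at h3
  refine as_param M h2E ((onLine B' P d).coeff 0) ((onLine B' P d).coeff 1)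
    ((onLine B' P d).coeff 2) ((onLine B' P d).coeff 3) ((onLine B' P d).coeff 4) t r ?_
  have h7 : Polynomial.aeval r (Polynomial.X ^ 2 + Polynomial.X : Polynomial Ω) = r ^ 2 + r := by
    simp
  rw [← h7, hr, ← h3]
  simp only [Algebra.smul_def, IntermediateField.algebraMap_apply]
  push_cast
  ring

end Pool.Agent.Helper40.SD
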