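import Pool.Agent.Helper40.SD.SolidOdd
import Pool.Agent.Helper40.SD.SolidTwo
import Pool.Agent.Helper75.QC.Insep

/-!
# The threefolds `v (1 - v) = s^d f(x, y)`, `deg f ≤ d ≤ 6`

They are the double solids `v (1 - v) = F(s x, s y, s)`, `F` the homogeneous form of `f`.
-/

set_option autoImplicit false

namespace Pool.Agent.Helper40.SD

open IntermediateField Pool.Agent.Helper75.QC

/-- the homogeneous form -/
theorem exists_homog {Ω : Type} [Field Ω] (f : MvPolynomial (Fin 2) Ω) (d : ℕ)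
    (hf : f.totalDegree ≤ d) : ∃ F : MvPolynomial (Fin 3) Ω, F.totalDegree ≤ d ∧
      ∀ (E : Type) [Field E] [Algebra Ω E] (x y s : E),
        MvPolynomial.aeval ![s * x, s * y, s] F = s ^ d * MvPolynomial.aeval ![x, y] f := by
  have hdeg : ∀ m ∈ f.support, m 0 + m 1 ≤ d := by
    intro m hm
    have := MvPolynomial.le_totalDegree hm
    rw [Finsupp.sum_fintype _ _ (by simp), Fin.sum_univ_two] at this
    omega
  refine ⟨∑ m ∈ f.support, MvPolynomial.C (f.coeff m) * MvPolynomial.X 0 ^ m 0 *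
    MvPolynomial.X 1 ^ m 1 * MvPolynomial.X 2 ^ (d - (m 0 + m 1)), ?_, ?_⟩
  · refine MvPolynomial.totalDegree_finsetSum_le fun m hm => ?_
    refine (MvPolynomial.totalDegree_mul _ _).trans ?_
    have h1 : (MvPolynomial.C (f.coeff m) * MvPolynomial.X 0 ^ m 0 * MvPolynomial.X 1 ^ m 1 :
        MvPolynomial (Fin 3) Ω).totalDegree ≤ m 0 + m 1 := by
      refine (MvPolynomial.totalDegree_mul _ _).trans ?_
      have h2 : (MvPolynomial.C (f.coeff m) * MvPolynomial.X 0 ^ m 0 :
          MvPolynomial (Fin 3) Ω).totalDegree ≤ m 0 := by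
        refine (MvPolynomial.totalDegree_mul _ _).trans ?_
        rw [MvPolynomial.totalDegree_C, MvPolynomial.totalDegree_X_pow, zero_add]
      rw [MvPolynomial.totalDegree_X_pow]
      exact Nat.add_le_add_right h2 _
    rw [MvPolynomial.totalDegree_X_pow]
    have := hdeg m hm
    omega
  · intro E _ _ x y s
    rw [map_sum, MvPolynomial.aeval_def, MvPolynomial.eval₂_eq', Finset.mul_sum]
    refine Finset.sum_congr rfl fun m hm => ?_
    have h1 : s ^ d = s ^ (m 0) * s ^ (m 1) * s ^ (d - (m 0 + m 1)) := by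
      rw [← pow_add, ← pow_add]
      congr 1
      have := hdeg m hm
      omega
    rw [Fin.prod_univ_two, h1]
    simp only [map_mul, map_pow, MvPolynomial.aeval_X, MvPolynomial.aeval_C]
    simp
    ring

/-- **Double solids.** -/
theorem uni_five {Ω N : Type} [Field Ω] [IsAlgClosed Ω] [Field N] [Algebra Ω N]
    (f : MvPolynomial (Fin 2) Ω) (d : ℕ) (hd : d ≤ 6) (hf : f.totalDegree ≤ d) (x y v s : N)
    (hs0 : s ≠ 0) (hs : v * (1 - v) = s ^ d * MvPolynomial.aeval ![x, y] f) :
    Uniruled Ω (adjoin Ω {x, y, v, s} : IntermediateField Ω N) 3 := by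
  obtain ⟨F, hF, hFe⟩ := exists_homog f d hf
  set K := (adjoin Ω {x, y, v, s} : IntermediateField Ω N) with hK
  have mx : x ∈ K := subset_adjoin _ _ (by simp)
  have my : y ∈ K := subset_adjoin _ _ (by simp)
  have mv : v ∈ K := subset_adjoin _ _ (by simp)
  have ms : s ∈ K := subset_adjoin _ _ (by simp)
  set X : K := ⟨x, mx⟩ with hX
  set Y : K := ⟨y, my⟩ with hY
  set V : K := ⟨v, mv⟩ with hV
  set S : K := ⟨s, ms⟩ with hS
  have hS0 : S ≠ 0 := by
    intro h
    exact hs0 (congrArg Subtype.val h)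
  have htop : adjoin Ω {X, Y, V, S} = ⊤ := by
    apply lift_injective K
    rw [lift_top, lift_adjoin]
    simp only [Set.image_insert_eq, Set.image_singleton]
    exact hK.symm
  have hVS : V * (1 - V) = MvPolynomial.aeval ![S * X, S * Y, S] F := by
    rw [hFe]
    apply Subtype.ext
    have h2 : ((MvPolynomial.aeval ![X, Y] f : K) : N) = MvPolynomial.aeval ![x, y] f :=
      map_aeval75 K.val X Y f
    change v * (1 - v) = s ^ d * _
    rw [h2, hs]
  have hall : ∀ r : K, V ∈ adjoin Ω (Set.range ![S * X, S * Y, S] ∪ {r}) →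
      adjoin Ω (Set.range ![S * X, S * Y, S] ∪ {r}) = ⊤ := by
    intro r hr
    have m0 : S * X ∈ adjoin Ω (Set.range ![S * X, S * Y, S] ∪ {r}) :=
      subset_adjoin _ _ (Or.inl ⟨0, rfl⟩)
    have m1 : S * Y ∈ adjoin Ω (Set.range ![S * X, S * Y, S] ∪ {r}) :=
      subset_adjoin _ _ (Or.inl ⟨1, rfl⟩)
    have m2 : S ∈ adjoin Ω (Set.range ![S * X, S * Y, S] ∪ {r}) :=
      subset_adjoin _ _ (Or.inl ⟨2, rfl⟩)
    rw [eq_top_iff, ← htop, adjoin_le_iff]
    rintro a (rfl | rfl | rfl | rfl)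
    · have := div_mem m0 m2
      rwa [mul_div_cancel_left₀ _ hS0] at this
    · have := div_mem m1 m2
      rwa [mul_div_cancel_left₀ _ hS0] at this
    · exact hr
    · exact m2
  by_cases h2 : (2 : Ω) = 0
  · have h2K : (2 : K) = 0 := by
      have := congrArg (algebraMap Ω K) h2
      rwa [map_ofNat, map_zero] at this
    refine uni_solid_two h2 F (hF.trans hd) ![S * X, S * Y, S] V ?_ (hall V ?_)
    · rw [← hVS]
      linear_combination V ^ 2 * h2K
    · exact subset_adjoin _ _ (Or.inr rfl)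
  · have h2K : (2 : K) ≠ 0 := by
      intro h
      apply h2
      apply (algebraMap Ω K).injective
      rw [map_ofNat, map_zero, h]
    refine uni_solid h2 (1 - 4 * F) ?_ ![S * X, S * Y, S] (1 - 2 * V) ?_ (hall _ ?_)
    · refine (MvPolynomial.totalDegree_sub _ _).trans (max_le ?_ ?_)
      · rw [MvPolynomial.totalDegree_one]
        omega
      · have e4 : (4 : MvPolynomial (Fin 3) Ω) = MvPolynomial.C 4 := by rw [map_ofNat]
        rw [e4]
        refine (MvPolynomial.totalDegree_mul _ _).trans ?_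
        rw [MvPolynomial.totalDegree_C]
        omega
    · rw [map_sub, map_one, map_mul, map_ofNat, ← hVS]
      ring
    · have h3 : (1 - 2 * V) ∈ adjoin Ω (Set.range ![S * X, S * Y, S] ∪ {1 - 2 * V}) :=
        subset_adjoin _ _ (Or.inr rfl)
      have h4 : V = (1 - (1 - 2 * V)) / 2 := by
        field_simp
        ring
      have h5 : (2 : K) ∈ adjoin Ω (Set.range ![S * X, S * Y, S] ∪ {1 - 2 * V}) := by
        exact_mod_cast (adjoin Ω (Set.range ![S * X, S * Y, S] ∪ {1 - 2 * V})).natCast_mem 2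
      have h6 := div_mem (sub_mem (one_mem _) h3) h5
      rw [← h4] at h6
      exact h6

/-- The threefold `v (1 - v) = s³ f(x, y)`, `deg f ≤ 6`. -/
theorem uni_three {Ω N : Type} [Field Ω] [IsAlgClosed Ω] [Field N] [Algebra Ω N]
    (f : MvPolynomial (Fin 2) Ω) (hf : f.totalDegree ≤ 6) (x y v s : N)
    (hs0 : s ≠ 0) (hs : v * (1 - v) = s ^ 3 * MvPolynomial.aeval ![x, y] f) :
    Uniruled Ω (adjoin Ω {x, y, v, s} : IntermediateField Ω N) 3 := by
  set E := AlgebraicClosure N
  let ι : N →ₐ[Ω] E := IsScalarTower.toAlgHom Ω N E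
  obtain ⟨σ, hσ⟩ := IsAlgClosed.exists_pow_nat_eq (ι s) (n := 2) (by norm_num)
  have hσ0 : σ ≠ 0 := by
    rintro rfl
    apply hs0
    have h0 : ι s = 0 := by
      rw [← hσ]
      norm_num
    exact (map_eq_zero ι).1 h0
  have h1 := uni_five f 6 le_rfl hf (ι x) (ι y) (ι v) σ hσ0 (by
    have h2 := congrArg ι hs
    rw [map_mul, map_mul, map_sub, map_one, map_pow, map_aeval75 ι x y f, ← hσ, ← pow_mul] at h2
    exact h2)
  have hle : (adjoin Ω {x, y, v, s} : IntermediateField Ω N) ≤
      (adjoin Ω {ι x, ι y, ι v, σ} : IntermediateField Ω E).comap ι := by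
    rw [adjoin_le_iff]
    rintro a (rfl | rfl | rfl | rfl)
    · exact subset_adjoin Ω {ι a, ι y, ι v, σ} (by simp)
    · exact subset_adjoin Ω {ι x, ι a, ι v, σ} (by simp)
    · exact subset_adjoin Ω {ι x, ι y, ι a, σ} (by simp)
    · change ι a ∈ adjoin Ω {ι x, ι y, ι v, σ}
      rw [← hσ]
      exact pow_mem (subset_adjoin Ω {ι x, ι y, ι v, σ} (by simp)) 2
  let g : (adjoin Ω {x, y, v, s} : IntermediateField Ω N) →ₐ[Ω]
      (adjoin Ω {ι x, ι y, ι v, σ} : IntermediateField Ω E) :=
    { toFun := fun k => ⟨ι k, hle k.2⟩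
      map_one' := Subtype.ext (map_one ι)
      map_mul' := fun b c => Subtype.ext (map_mul ι _ _)
      map_zero' := Subtype.ext (map_zero ι)
      map_add' := fun b c => Subtype.ext (map_add ι _ _)
      commutes' := fun r => Subtype.ext (ι.commutes r) }
  exact uniruled_of_hom g h1

end Pool.Agent.Helper40.SD
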