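import Pool.Agent.Helper40.SD.Solid

/-!
# Double solids: characteristic different from two

`uni_solid`: the function field of `r² = B(x, y, z)`, `deg B ≤ 6`, is uniruled: bitangent lines.
-/

set_option autoImplicit false

namespace Pool.Agent.Helper40.SD

open IntermediateField Pool.Agent.Helper75.QC

theorem aeval_onLine {Ω E : Type} [Field Ω] [Field E] [Algebra Ω E] (M : IntermediateField Ω E)
    {m : ℕ} (B : MvPolynomial (Fin m) Ω) (P d : Fin m → M) (t : E) :
    Polynomial.aeval t (onLine (MvPolynomial.map (algebraMap Ω M) B) P d) =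
      MvPolynomial.aeval (fun i => (P i : E) + d i * t) B := by
  unfold onLine
  rw [MvPolynomial.aeval_map_algebraMap]
  have : ((Polynomial.aeval (R := M) t).restrictScalars Ω).comp (MvPolynomial.aeval
      (fun i => Polynomial.C (P i) + Polynomial.C (d i) * Polynomial.X)) =
      MvPolynomial.aeval (R := Ω) (fun i => (P i : E) + d i * t) := by
    ext i
    simp
  exact DFunLike.congr_fun this B

theorem totalDegree_map_le {R R' : Type} [CommRing R] [CommRing R'] (f : R →+* R') {m : ℕ}
    (B : MvPolynomial (Fin m) R) : (MvPolynomial.map f B).totalDegree ≤ B.totalDegree :=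
  Finset.sup_mono (MvPolynomial.support_map_subset _ _)

theorem uni_solid {Ω K : Type} [Field Ω] [IsAlgClosed Ω] [Field K] [Algebra Ω K]
    (h2 : (2 : Ω) ≠ 0) (B : MvPolynomial (Fin 3) Ω) (hB : B.totalDegree ≤ 6) (x : Fin 3 → K)
    (r : K) (hr : r ^ 2 = MvPolynomial.aeval x B) (hgen : adjoin Ω (Set.range x ∪ {r}) = ⊤) :
    Uniruled Ω K 3 := by
  refine solid_setup (Polynomial.X ^ 2) (by simp) B x r (by simpa using hr) hgen ?_
  intro E _ _ M _ P hP
  have h2E : (2 : E) ≠ 0 := by
    intro h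
    apply h2
    apply (algebraMap Ω E).injective
    rw [map_ofNat, map_zero, h]
  set B' := MvPolynomial.map (algebraMap Ω M) B with hB'
  have hev : MvPolynomial.eval P B' = MvPolynomial.aeval P B := by
    rw [hB', MvPolynomial.eval_map, MvPolynomial.aeval_def]
  obtain ⟨d, q₁, q₂, h₁, h₂, hd, hl⟩ := exists_bitangent B'
    ((totalDegree_map_le _ _).trans hB) P (by rw [hev]; exact hP)
  refine ⟨d, hd, fun t r hr => ?_⟩
  have h3 := congrArg (Polynomial.aeval t) hl
  rw [hB', aeval_onLine] at h3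
  have h4 : r ^ 2 = (1 + q₁ * t + q₂ * t ^ 2) ^ 2 *
      ((MvPolynomial.eval P B' : M) + h₁ * t + h₂ * t ^ 2) := by
    have h5 : Polynomial.aeval r (Polynomial.X ^ 2 : Polynomial Ω) = r ^ 2 := by simp
    rw [← h5, hr, h3, dbl]
    simp only [map_mul, map_pow, map_add, Polynomial.aeval_C, Polynomial.aeval_X, map_one,
      IntermediateField.algebraMap_apply, ← hB']
  by_cases hQ : (1 + q₁ * t + q₂ * t ^ 2 : E) = 0
  · rw [hQ] at h4
    have h5 : r = 0 := by
      apply eq_zero_of_pow_eq_zero (n := 2)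
      rw [h4]
      ring
    exact ⟨t, fun F hF hθ => ⟨hθ, by rw [h5]; exact F.zero_mem⟩⟩
  · set Q : E := 1 + q₁ * t + q₂ * t ^ 2 with hQd
    obtain ⟨θ, hθ⟩ := conic_param M h2E (MvPolynomial.eval P B') h₁ h₂ t (r / Q) (by
      rw [div_pow, h4]
      field_simp)
    refine ⟨θ, fun F hF hθF => ?_⟩
    obtain ⟨e1, e2⟩ := hθ F hF hθF
    refine ⟨e1, ?_⟩
    have h5 : r = r / Q * Q := by field_simp
    have h6 : Q ∈ F := by
      rw [hQd]
      exact F.add_mem (F.add_mem F.one_mem (F.mul_mem (hF q₁.2) e1))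
        (F.mul_mem (hF q₂.2) (pow_mem e1 2))
    rw [h5]
    exact F.mul_mem e2 h6

end Pool.Agent.Helper40.SD
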