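import Pool.Agent.Helper40.SD.Gen

/-!
# Families of uniruled surfaces

If `K` is uniruled over `Ω'`, an algebraic extension of `Ω(s)`, it is uniruled over `Ω`.
-/

set_option autoImplicit false

namespace Pool.Agent.Helper40.SD

open IntermediateField Pool.Agent.Helper75.QC

/-- algebraicity over a larger subfield -/
theorem alg_of_le {Ω Ω' E : Type} [Field Ω] [Field Ω'] [Field E] [Algebra Ω E] [Algebra Ω' E]
    (A : IntermediateField Ω' E) (B : IntermediateField Ω E) (h : ∀ a ∈ A, a ∈ B) {e : E}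
    (he : IsAlgebraic A e) : IsAlgebraic B e := by
  obtain ⟨p, hp, hpe⟩ := he
  let j : A →+* B :=
    { toFun := fun b => ⟨b, h b b.2⟩
      map_one' := rfl
      map_mul' := fun b c => rfl
      map_zero' := rfl
      map_add' := fun b c => rfl }
  refine ⟨p.map j, ?_, ?_⟩
  · rw [Ne, Polynomial.map_eq_zero]
    exact hp
  · rw [Polynomial.aeval_def, Polynomial.eval₂_map]
    rw [Polynomial.aeval_def] at hpe
    rw [← hpe]
    rfl

theorem mem_succ {Ω Ω' E : Type} [Field Ω] [Field Ω'] [Field E] [Algebra Ω Ω'] [Algebra Ω E]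
    [Algebra Ω' E] [IsScalarTower Ω Ω' E] (s : Ω')
    (hΩ' : ∀ a : Ω', IsAlgebraic (adjoin Ω {s}) a) (S T : Set E) (hST : S ⊆ T)
    (hsT : algebraMap Ω' E s ∈ T) (θ : E) :
    ∀ e ∈ adjoin Ω' (Acl Ω' S ∪ {θ}), e ∈ adjoin Ω (Acl Ω T ∪ {θ}) := by
  classical
  have hΩ : ∀ a : Ω', algebraMap Ω' E a ∈ AF Ω T := by
    intro a
    set ι : Ω' →ₐ[Ω] E := IsScalarTower.toAlgHom Ω Ω' E with hι
    have hle : adjoin Ω ({s} : Set Ω') ≤ (AF Ω T).comap ι := by
      rw [adjoin_le_iff, Set.singleton_subset_iff]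
      exact subset_AF _ hsT
    apply AF_closed
    obtain ⟨p, hp, hpe⟩ := hΩ' a
    let j : adjoin Ω ({s} : Set Ω') →+* AF Ω T :=
      { toFun := fun b => ⟨ι b, hle b.2⟩
        map_one' := Subtype.ext (map_one ι)
        map_mul' := fun b c => Subtype.ext (map_mul ι _ _)
        map_zero' := Subtype.ext (map_zero ι)
        map_add' := fun b c => Subtype.ext (map_add ι _ _) }
    refine ⟨p.map j, ?_, ?_⟩
    · rw [Ne, Polynomial.map_eq_zero]
      exact hp
    · rw [Polynomial.aeval_def, Polynomial.eval₂_map]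
      have h3 : (algebraMap (AF Ω T) E).comp j =
          (ι : Ω' →+* E).comp (algebraMap (adjoin Ω ({s} : Set Ω')) Ω') := by
        ext b
        rfl
      rw [h3]
      have h4 := congrArg ι hpe
      rw [map_zero, Polynomial.aeval_def] at h4
      change (ι : Ω' →+* E) _ = 0 at h4
      rw [Polynomial.hom_eval₂] at h4
      exact h4
  let A' : IntermediateField Ω' E := { (AF Ω T).toSubfield with algebraMap_mem' := hΩ }
  have hA : adjoin Ω' S ≤ A' := adjoin_le_iff.2 (hST.trans (subset_AF _))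
  have hA' : ∀ a ∈ adjoin Ω' S, a ∈ AF Ω T := fun a ha => hA ha
  have hAFF : ∀ a ∈ AF Ω T, a ∈ adjoin Ω (Acl Ω T ∪ {θ}) := fun a ha =>
    subset_adjoin _ _ (Or.inl (mem_AF.1 ha))
  let F' : IntermediateField Ω' E :=
    { (adjoin Ω (Acl Ω T ∪ {θ})).toSubfield with algebraMap_mem' := fun a => hAFF _ (hΩ a) }
  have hle : adjoin Ω' (Acl Ω' S ∪ {θ}) ≤ F' := by
    rw [adjoin_le_iff]
    rintro a (ha | ha)
    · have ha' : IsAlgebraic (adjoin Ω' S) a := ha
      have h2 : IsAlgebraic (AF Ω T) a := alg_of_le (adjoin Ω' S) (AF Ω T) hA' ha'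
      exact hAFF _ (AF_closed h2)
    · have h3 : a ∈ adjoin Ω (Acl Ω T ∪ {θ}) := subset_adjoin Ω (Acl Ω T ∪ {θ}) (Or.inr ha)
      exact h3
  exact fun e he => hle he

/-- **Families of uniruled varieties.** -/
theorem uniruled_succ {Ω Ω' K K' : Type} [Field Ω] [Field Ω'] [Field K] [Field K'] [Algebra Ω Ω']
    [Algebra Ω K] [Algebra Ω K'] [Algebra Ω' K'] [IsScalarTower Ω Ω' K'] (s : Ω')
    (hΩ' : ∀ a : Ω', IsAlgebraic (adjoin Ω {s}) a) (h : K →ₐ[Ω] K') {i : ℕ}
    (hU : Uniruled Ω' K' i) : Uniruled Ω K (i + 1) := by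
  classical
  obtain ⟨E, iE, aE, g, S, θ, hS, hg⟩ := hU
  let _ : Algebra Ω E := ((algebraMap Ω' E).comp (algebraMap Ω Ω')).toAlgebra
  have : IsScalarTower Ω Ω' E := IsScalarTower.of_algebraMap_eq fun a => rfl
  refine ⟨E, iE, inferInstance, (g.restrictScalars Ω).comp h, insert (algebraMap Ω' E s) S, θ,
    (Finset.card_insert_le _ _).trans_lt (by omega), fun k => ?_⟩
  exact mem_succ s hΩ' (S : Set E) _ (by simp) (by simp) θ _ (hg (h k))

end Pool.Agent.Helper40.SD
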