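import Pool.Agent.Helper40.SD.Net
import Pool.Agent.Helper40.SD.Succ
import Pool.Agent.Helper40.SD.SolidOdd

/-!
# Pencils and nets of conics: uniruled fields
-/

set_option autoImplicit false

namespace Pool.Agent.Helper40.SD

open IntermediateField Pool.Agent.Helper75.QC

/-- an algebraic element is a constant -/
theorem mem_of_alg {Ω N : Type} [Field Ω] [IsAlgClosed Ω] [Field N] [Algebra Ω N] {W : N}
    (h : IsAlgebraic Ω W) : ∃ a : Ω, algebraMap Ω N a = W := by
  have h1 := h.isIntegral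
  obtain ⟨a, ha⟩ := minpoly.mem_range_of_degree_eq_one Ω W
    (IsAlgClosed.degree_eq_one_of_irreducible Ω (minpoly.irreducible h1))
  exact ⟨a, ha⟩

/-- `W^e = f / g`, `f` and `g` conics -/
theorem uni_two_conics {Ω N : Type} [Field Ω] [IsAlgClosed Ω] [Field N] [Algebra Ω N]
    (f g : MvPolynomial (Fin 2) Ω) (hf : f.totalDegree ≤ 2) (hg : g.totalDegree ≤ 2) {e : ℕ}
    (he : 0 < e) (x y W : N) (hg0 : MvPolynomial.aeval ![x, y] g ≠ 0)
    (hW : W ^ e * MvPolynomial.aeval ![x, y] g = MvPolynomial.aeval ![x, y] f) :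
    Uniruled Ω (adjoin Ω {x, y, W} : IntermediateField Ω N) 2 := by
  classical
  set E := AlgebraicClosure N
  let ι : N →ₐ[Ω] E := IsScalarTower.toAlgHom Ω N E
  set M := AF Ω {ι W} with hM
  have mW : ι W ∈ M := subset_AF _ (by simp)
  set Q : MvPolynomial (Fin 2) M := MvPolynomial.map (algebraMap Ω M) f -
    MvPolynomial.C (⟨ι W, mW⟩ ^ e) * MvPolynomial.map (algebraMap Ω M) g with hQ
  have hdeg : Q.totalDegree ≤ 2 := by
    refine (MvPolynomial.totalDegree_sub _ _).trans (max_le ?_ ?_)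
    · exact (totalDegree_map_le _ _).trans hf
    · refine (MvPolynomial.totalDegree_mul _ _).trans ?_
      rw [MvPolynomial.totalDegree_C, zero_add]
      exact (totalDegree_map_le _ _).trans hg
  by_cases hQ0 : Q = 0
  · apply uni_plane75
    have hg1 : g ≠ 0 := by
      rintro rfl
      rw [map_zero] at hg0
      exact hg0 rfl
    obtain ⟨m, hm⟩ := MvPolynomial.ne_zero_iff.1 hg1
    have h1 := congrArg (MvPolynomial.coeff m) hQ0
    rw [hQ, MvPolynomial.coeff_sub, MvPolynomial.coeff_C_mul, MvPolynomial.coeff_map,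
      MvPolynomial.coeff_map, MvPolynomial.coeff_zero] at h1
    have h2 : W ^ e = algebraMap Ω N (f.coeff m / g.coeff m) := by
      have h3 := congrArg (algebraMap M E) h1
      rw [map_sub, map_mul, map_zero, map_pow] at h3
      change algebraMap Ω E (f.coeff m) - (ι W) ^ e * algebraMap Ω E (g.coeff m) = 0 at h3
      have h4 : algebraMap Ω E (g.coeff m) ≠ 0 := by
        rw [Ne, map_eq_zero]
        exact hm
      have h5 : ι (W ^ e) = ι (algebraMap Ω N (f.coeff m / g.coeff m)) := by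
        rw [AlgHom.commutes, map_pow, map_div₀, eq_div_iff h4]
        linear_combination -h3
      exact ι.injective h5
    have h3 : IsAlgebraic Ω W := by
      refine IsAlgebraic.of_pow he ?_
      rw [h2]
      exact isAlgebraic_algebraMap _
    obtain ⟨a, rfl⟩ := mem_of_alg h3
    exact IntermediateField.algebraMap_mem _ _
  · have hev : MvPolynomial.aeval ![ι x, ι y] Q = 0 := by
      rw [hQ, map_sub, map_mul, MvPolynomial.aeval_C, MvPolynomial.aeval_map_algebraMap,
        MvPolynomial.aeval_map_algebraMap, ← map_aeval75 ι x y f, ← map_aeval75 ι x y g, ← hW,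
        map_mul, map_pow, map_pow]
      exact sub_self _
    obtain ⟨θ, hθ⟩ := conic_point M (fun e he => AF_closed he) Q hdeg hQ0 (ι x) (ι y) hev
    refine ⟨E, inferInstance, inferInstance, ι.comp (adjoin Ω {x, y, W}).val, {ι W}, θ, by simp,
      fun k => ?_⟩
    set F := adjoin Ω (Acl Ω ((({ι W} : Finset E)) : Set E) ∪ {θ}) with hF
    have hMF : M ≤ F := by
      intro a ha
      refine subset_adjoin _ _ (Or.inl ?_)
      rw [Finset.coe_singleton]
      exact mem_AF.1 ha
    obtain ⟨h1, h2⟩ := hθ F hMF (subset_adjoin _ _ (Or.inr rfl))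
    have hle : (adjoin Ω {x, y, W} : IntermediateField Ω N) ≤ F.comap ι := by
      rw [adjoin_le_iff]
      rintro a (rfl | rfl | rfl)
      · exact h1
      · exact h2
      · exact hMF mW
    exact hle k.2

/-- the net of conics in an algebraically closed field -/
theorem net_closed {Ω E : Type} [Field Ω] [IsAlgClosed Ω] [Field E] [Algebra Ω E] [IsAlgClosed E]
    (f g h : MvPolynomial (Fin 2) Ω) (hf : f.totalDegree ≤ 2) (hg : g.totalDegree ≤ 2)
    (hh : h.totalDegree ≤ 2) {n : ℕ} (α β : ℕ) (hn : 0 < n) (x y v s : E)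
    (hv : v ∉ adjoin Ω {x, y})
    (hf0 : MvPolynomial.aeval ![x, y] f ≠ 0) (hg0 : MvPolynomial.aeval ![x, y] g ≠ 0)
    (hh0 : MvPolynomial.aeval ![x, y] h ≠ 0)
    (hs : v ^ α * (1 - v) ^ β = s ^ n *
      ((MvPolynomial.aeval ![x, y] f / MvPolynomial.aeval ![x, y] h) ^ α *
      (MvPolynomial.aeval ![x, y] g / MvPolynomial.aeval ![x, y] h) ^ β)) :
    ∃ (S : Finset E) (θ : E), S.card ≤ 2 ∧ x ∈ adjoin Ω (Acl Ω (S : Set E) ∪ {θ}) ∧
      y ∈ adjoin Ω (Acl Ω (S : Set E) ∪ {θ}) ∧ v ∈ adjoin Ω (Acl Ω (S : Set E) ∪ {θ}) ∧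
      s ∈ adjoin Ω (Acl Ω (S : Set E) ∪ {θ}) := by
  classical
  have hv0 : v ≠ 0 := by
    rintro rfl
    exact hv (zero_mem _)
  have hv1 : 1 - v ≠ 0 := by
    intro h
    apply hv
    rw [← sub_eq_zero.1 h]
    exact one_mem _
  have hm0 : ∀ G : MvPolynomial (Fin 2) Ω, MvPolynomial.aeval ![x, y] G ∈ adjoin Ω {x, y} :=
    aeval_mem75 x y
  obtain ⟨a, ha⟩ : ∃ a, a = MvPolynomial.aeval ![x, y] f := ⟨_, rfl⟩
  obtain ⟨b, hb⟩ : ∃ a, a = MvPolynomial.aeval ![x, y] g := ⟨_, rfl⟩
  obtain ⟨c, hc⟩ : ∃ a, a = MvPolynomial.aeval ![x, y] h := ⟨_, rfl⟩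
  rw [← ha, ← hb, ← hc] at hs
  rw [← ha] at hf0
  rw [← hb] at hg0
  rw [← hc] at hh0
  obtain ⟨s₁, hs₁⟩ := IsAlgClosed.exists_pow_nat_eq (v * c / a) hn
  obtain ⟨s₂, hs₂⟩ := IsAlgClosed.exists_pow_nat_eq ((1 - v) * c / b) hn
  have hs₁0 : s₁ ≠ 0 := by
    rintro rfl
    rw [zero_pow hn.ne'] at hs₁
    exact div_ne_zero (mul_ne_zero hv0 hh0) hf0 hs₁.symm
  have hs₂0 : s₂ ≠ 0 := by
    rintro rfl
    rw [zero_pow hn.ne'] at hs₂
    exact div_ne_zero (mul_ne_zero hv1 hh0) hg0 hs₂.symm
  -- `s` is `s₁ s₂^β` up to a root of unity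
  have hζ : (s / (s₁ ^ α * s₂ ^ β)) ^ n = 1 := by
    rw [div_pow, mul_pow, ← pow_mul, ← pow_mul, mul_comm β n, mul_comm α n, pow_mul, pow_mul, hs₁,
      hs₂, div_eq_one_iff_eq (by
      exact mul_ne_zero (pow_ne_zero _ (div_ne_zero (mul_ne_zero hv0 hh0) hf0))
        (pow_ne_zero _ (div_ne_zero (mul_ne_zero hv1 hh0) hg0)))]
    have h1 : s ^ n = v ^ α * (1 - v) ^ β / ((a / c) ^ α * (b / c) ^ β) := by
      rw [hs]
      field_simp
    have h2 : (b / c) ^ β * ((1 - v) * c / b) ^ β = (1 - v) ^ β := by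
      rw [← mul_pow]
      congr 1
      field_simp
    have h3 : (a / c) ^ α * (v * c / a) ^ α = v ^ α := by
      rw [← mul_pow]
      congr 1
      field_simp
    rw [h1, div_eq_iff (mul_ne_zero (pow_ne_zero _ (div_ne_zero hf0 hh0))
      (pow_ne_zero _ (div_ne_zero hg0 hh0)))]
    rw [← h2, ← h3]
    ring
  obtain ⟨ζ, hζ'⟩ : ∃ ζ : Ω, algebraMap Ω E ζ = s / (s₁ ^ α * s₂ ^ β) := by
    apply mem_of_alg
    refine IsAlgebraic.of_pow hn ?_
    rw [hζ]
    exact isAlgebraic_one
  have hsζ : s = algebraMap Ω E ζ * (s₁ ^ α * s₂ ^ β) := by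
    rw [hζ']
    field_simp
  set S : Finset E := {s₁, s₂} with hS
  set M := AF Ω (S : Set E) with hM
  have m1 : s₁ ∈ M := subset_AF _ (by simp [hS])
  have m2 : s₂ ∈ M := subset_AF _ (by simp [hS])
  set Q : MvPolynomial (Fin 2) M :=
    MvPolynomial.C (⟨s₁, m1⟩ ^ n) * MvPolynomial.map (algebraMap Ω M) f +
    MvPolynomial.C (⟨s₂, m2⟩ ^ n) * MvPolynomial.map (algebraMap Ω M) g -
    MvPolynomial.map (algebraMap Ω M) h with hQ
  have hCm : ∀ (c : M) (g : MvPolynomial (Fin 2) Ω), g.totalDegree ≤ 2 →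
      (MvPolynomial.C c * MvPolynomial.map (algebraMap Ω M) g).totalDegree ≤ 2 := by
    intro c g hg
    refine (MvPolynomial.totalDegree_mul _ _).trans ?_
    rw [MvPolynomial.totalDegree_C, zero_add]
    exact (totalDegree_map_le _ _).trans hg
  have hdeg : Q.totalDegree ≤ 2 := by
    refine (MvPolynomial.totalDegree_sub _ _).trans (max_le ?_ ?_)
    · exact (MvPolynomial.totalDegree_add _ _).trans (max_le (hCm _ _ hf) (hCm _ _ hg))
    · exact (totalDegree_map_le _ _).trans hh
  have hv' : v = s₁ ^ n * (a / c) := by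
    rw [hs₁]
    field_simp
  by_cases hQ0 : Q = 0
  · have hco : ∀ m, s₁ ^ n * algebraMap Ω E (f.coeff m) + s₂ ^ n * algebraMap Ω E (g.coeff m) =
        algebraMap Ω E (h.coeff m) := by
      intro m
      have h1 := congrArg (fun P => algebraMap M E (MvPolynomial.coeff m P)) hQ0
      simp only [hQ, MvPolynomial.coeff_sub, MvPolynomial.coeff_add, MvPolynomial.coeff_C_mul,
        MvPolynomial.coeff_map, MvPolynomial.coeff_zero, map_zero, map_sub, map_add,
        map_mul (algebraMap M E)] at h1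
      change s₁ ^ n * algebraMap Ω E (f.coeff m) + s₂ ^ n * algebraMap Ω E (g.coeff m) -
        algebraMap Ω E (h.coeff m) = 0 at h1
      exact sub_eq_zero.1 h1
    have hf1 : f ≠ 0 := by
      rintro rfl
      apply hf0
      rw [ha, map_zero]
    obtain ⟨m, hm⟩ := MvPolynomial.ne_zero_iff.1 hf1
    have hmE : algebraMap Ω E (f.coeff m) ≠ 0 := by
      rw [Ne, map_eq_zero]
      exact hm
    by_cases hdep : ∀ m', f.coeff m * g.coeff m' = f.coeff m' * g.coeff m
    · -- `f`, `g`, `h` are proportional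
      have hgf : g = MvPolynomial.C (g.coeff m / f.coeff m) * f := by
        ext m'
        rw [MvPolynomial.coeff_C_mul]
        field_simp
        linear_combination hdep m'
      set r := g.coeff m / f.coeff m with hr
      obtain ⟨κ, hκ⟩ : ∃ κ : E, κ = s₁ ^ n + s₂ ^ n * algebraMap Ω E r := ⟨_, rfl⟩
      have hκm : ∀ m', κ * algebraMap Ω E (f.coeff m') = algebraMap Ω E (h.coeff m') := by
        intro m'
        rw [← hco m']
        have : g.coeff m' = r * f.coeff m' := by
          conv_lhs => rw [hgf]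
          rw [MvPolynomial.coeff_C_mul]
        rw [this, map_mul, hκ]
        ring
      have hκΩ : κ = algebraMap Ω E (h.coeff m / f.coeff m) := by
        rw [map_div₀, eq_div_iff hmE]
        exact hκm m
      set r' := h.coeff m / f.coeff m with hr'
      have hhf : h = MvPolynomial.C r' * f := by
        ext m'
        rw [MvPolynomial.coeff_C_mul]
        apply (algebraMap Ω E).injective
        rw [← hκm m', hκΩ, map_mul]
      have hbr : b = algebraMap Ω E r * a := by
        rw [hb, hgf, map_mul, MvPolynomial.aeval_C, ha]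
      have hcr : c = algebraMap Ω E r' * a := by
        rw [hc, hhf, map_mul, MvPolynomial.aeval_C, ha]
      have hr0 : algebraMap Ω E r ≠ 0 := by
        intro h0
        apply hg0
        rw [hbr, h0, zero_mul]
      have hr0' : algebraMap Ω E r' ≠ 0 := by
        intro h0
        apply hh0
        rw [hcr, h0, zero_mul]
      have hSx : (({x, v} : Finset E) : Set E) = {x, v} := by simp
      have mx : x ∈ AF Ω {x, v} := subset_AF _ (by simp)
      have mv : v ∈ AF Ω {x, v} := subset_AF _ (by simp)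
      have ms : s ∈ AF Ω {x, v} := by
        apply AF_root hn
        have h1 : s ^ n = v ^ α * (1 - v) ^ β / ((1 / algebraMap Ω E r') ^ α *
            (algebraMap Ω E r / algebraMap Ω E r') ^ β) := by
          have e1 : a / c = 1 / algebraMap Ω E r' := by
            rw [hcr]
            field_simp
          have e2 : b / c = algebraMap Ω E r / algebraMap Ω E r' := by
            rw [hcr, hbr]
            field_simp
          rw [hs, e1, e2]
          field_simp
        rw [h1]
        refine div_mem (mul_mem (pow_mem mv _) (pow_mem (sub_mem (one_mem _) mv) _)) (mul_mem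
          (pow_mem (div_mem (one_mem _) (IntermediateField.algebraMap_mem _ _)) _) (pow_mem (div_mem
          (IntermediateField.algebraMap_mem _ _) (IntermediateField.algebraMap_mem _ _)) _))
      refine ⟨{x, v}, y, Finset.card_le_two, ?_, ?_, ?_, ?_⟩
      all_goals rw [hSx]
      · exact subset_adjoin _ _ (Or.inl (mem_AF.1 mx))
      · exact subset_adjoin _ _ (Or.inr rfl)
      · exact subset_adjoin _ _ (Or.inl (mem_AF.1 mv))
      · exact subset_adjoin _ _ (Or.inl (mem_AF.1 ms))
    · -- `s₁ ^ n` is a constant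
      exfalso
      push Not at hdep
      obtain ⟨m', hm'⟩ := hdep
      have hD : f.coeff m * g.coeff m' - f.coeff m' * g.coeff m ≠ 0 := sub_ne_zero.2 hm'
      have hDE : algebraMap Ω E (f.coeff m * g.coeff m' - f.coeff m' * g.coeff m) ≠ 0 := by
        rw [Ne, map_eq_zero]
        exact hD
      have h1 : s₁ ^ n = algebraMap Ω E ((h.coeff m * g.coeff m' - h.coeff m' * g.coeff m) /
          (f.coeff m * g.coeff m' - f.coeff m' * g.coeff m)) := by
        rw [map_div₀, eq_div_iff hDE, map_sub, map_sub, map_mul, map_mul, map_mul, map_mul]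
        linear_combination algebraMap Ω E (g.coeff m') * hco m -
          algebraMap Ω E (g.coeff m) * hco m'
      apply hv
      rw [hv', h1]
      exact mul_mem (IntermediateField.algebraMap_mem _ _)
        (div_mem (by rw [ha]; exact hm0 f) (by rw [hc]; exact hm0 h))
  · have hev : MvPolynomial.aeval ![x, y] Q = 0 := by
      rw [hQ, map_sub, map_add, map_mul, map_mul, MvPolynomial.aeval_C, MvPolynomial.aeval_C,
        MvPolynomial.aeval_map_algebraMap, MvPolynomial.aeval_map_algebraMap,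
        MvPolynomial.aeval_map_algebraMap, map_pow, map_pow, ← ha, ← hb, ← hc]
      change s₁ ^ n * a + s₂ ^ n * b - c = 0
      rw [hs₁, hs₂]
      field_simp
      ring
    obtain ⟨θ, hθ⟩ := conic_point M (fun e he => AF_closed he) Q hdeg hQ0 x y hev
    set F := adjoin Ω (Acl Ω (S : Set E) ∪ {θ}) with hF
    have hMF : M ≤ F := by
      intro a ha
      exact subset_adjoin _ _ (Or.inl (mem_AF.1 ha))
    obtain ⟨h1, h2⟩ := hθ F hMF (subset_adjoin _ _ (Or.inr rfl))
    have hm : ∀ G : MvPolynomial (Fin 2) Ω, MvPolynomial.aeval ![x, y] G ∈ F := by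
      intro G
      refine (adjoin_le_iff.2 ?_) (aeval_mem75 x y G)
      rintro a (rfl | rfl)
      · exact h1
      · exact h2
    refine ⟨S, θ, Finset.card_le_two, h1, h2, ?_, ?_⟩
    · rw [← hF, hv', ha, hc]
      exact mul_mem (pow_mem (hMF m1) n) (div_mem (hm f) (hm h))
    · rw [← hF, hsζ]
      exact mul_mem (IntermediateField.algebraMap_mem _ _)
        (mul_mem (pow_mem (hMF m1) α) (pow_mem (hMF m2) β))

/-- **The net of conics.** -/
theorem uni_net {Ω N : Type} [Field Ω] [IsAlgClosed Ω] [Field N] [Algebra Ω N]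
    (f g h : MvPolynomial (Fin 2) Ω) (hf : f.totalDegree ≤ 2) (hg : g.totalDegree ≤ 2)
    (hh : h.totalDegree ≤ 2) {n : ℕ} (α β : ℕ) (hn : 0 < n) (x y v s : N)
    (hv : v ∉ adjoin Ω {x, y})
    (hf0 : MvPolynomial.aeval ![x, y] f ≠ 0) (hg0 : MvPolynomial.aeval ![x, y] g ≠ 0)
    (hh0 : MvPolynomial.aeval ![x, y] h ≠ 0)
    (hs : v ^ α * (1 - v) ^ β = s ^ n *
      ((MvPolynomial.aeval ![x, y] f / MvPolynomial.aeval ![x, y] h) ^ α *
      (MvPolynomial.aeval ![x, y] g / MvPolynomial.aeval ![x, y] h) ^ β)) :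
    Uniruled Ω (adjoin Ω {x, y, v, s} : IntermediateField Ω N) 3 := by
  obtain ⟨ι, -⟩ : ∃ i : N →ₐ[Ω] AlgebraicClosure N,
      i = IsScalarTower.toAlgHom Ω N (AlgebraicClosure N) := ⟨_, rfl⟩
  obtain ⟨S, θ, hS, h1, h2, h3, h4⟩ := net_closed f g h hf hg hh α β hn (ι x) (ι y) (ι v) (ι s)
    (by
      intro h5
      apply hv
      have h6 : adjoin Ω {ι x, ι y} = (adjoin Ω {x, y}).map ι := by
        rw [adjoin_map, Set.image_insert_eq, Set.image_singleton]
      rw [h6] at h5
      obtain ⟨w, hw, hwv⟩ := h5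
      rwa [← ι.injective hwv])
    (by rw [← map_aeval75]; exact (map_ne_zero ι).2 hf0)
    (by rw [← map_aeval75]; exact (map_ne_zero ι).2 hg0)
    (by rw [← map_aeval75]; exact (map_ne_zero ι).2 hh0)
    (by
      have h7 := congrArg ι hs
      rw [map_mul, map_pow, map_pow, map_sub, map_one, map_mul, map_pow, map_mul, map_pow, map_pow,
        map_div₀, map_div₀, map_aeval75 ι x y f, map_aeval75 ι x y g, map_aeval75 ι x y h] at h7
      exact h7)
  refine ⟨AlgebraicClosure N, inferInstance, inferInstance,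
    ι.comp (adjoin Ω {x, y, v, s} : IntermediateField Ω N).val, S, θ, by omega, ?_⟩
  have hle : (adjoin Ω {x, y, v, s} : IntermediateField Ω N) ≤
      (adjoin Ω (Acl Ω (S : Set (AlgebraicClosure N)) ∪ {θ})).comap ι := by
    rw [adjoin_le_iff]
    intro z hz
    show ι z ∈ adjoin Ω (Acl Ω (S : Set (AlgebraicClosure N)) ∪ {θ})
    rcases hz with rfl | rfl | rfl | rfl
    · exact h1
    · exact h2
    · exact h3
    · exact h4
  intro k
  exact hle k.2

end Pool.Agent.Helper40.SD
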