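import Mathlib

/-!
# Common zeros of `n` polynomials in more than `n` variables

Polynomials `f i`, `i ∈ ι`, in the variables `σ` over an algebraically closed field, with
`f i 0 = 0` and with fewer polynomials than variables, have a common zero which is not `0`.
-/

set_option autoImplicit false

namespace Pool.Agent.Helper40.SD

open MvPolynomial

/-- the translation by `a` -/
private noncomputable def transl {k σ : Type*} [Field k] (a : σ → k) :
    MvPolynomial σ k ≃ₐ[k] MvPolynomial σ k :=
  AlgEquiv.ofAlgHom (aeval fun i => X i + C (a i)) (aeval fun i => X i - C (a i))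
    (by ext i; simp) (by ext i; simp)

private theorem transl_aeval {k σ : Type*} [Field k] (a x : σ → k) (p : MvPolynomial σ k) :
    aeval x (transl a p) = aeval (x + a) p := by
  have h : (aeval x).comp (transl a).toAlgHom = aeval (x + a) := by
    ext i
    simp [transl]
  exact DFunLike.congr_fun h p

private theorem height_zero {k σ : Type*} [Field k] [IsAlgClosed k] [Finite σ] :
    (Nat.card σ : ℕ∞) ≤ (vanishingIdeal k ({0} : Set (σ → k))).height := by
  have h1 : ringKrullDim (MvPolynomial σ k) = (Nat.card σ : ℕ∞) := by
    rw [MvPolynomial.ringKrullDim_of_isNoetherianRing, ringKrullDim_eq_zero_of_field, zero_add]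
    rfl
  have h2 : ringKrullDim (MvPolynomial σ k) ≤
      (vanishingIdeal k ({0} : Set (σ → k))).height := by
    rw [ringKrullDim_le_iff_isMaximal_height_le]
    intro m hm
    obtain ⟨a, ha⟩ := isMaximal_iff_eq_vanishingIdeal_singleton.1 hm
    have h3 : (vanishingIdeal k ({0} : Set (σ → k))).comap (transl a).toRingEquiv = m := by
      ext p
      rw [ha, Ideal.mem_comap, mem_vanishingIdeal_singleton_iff, mem_vanishingIdeal_singleton_iff]
      have := transl_aeval a 0 p
      rw [zero_add] at this
      rw [← this]
      rfl
    rw [← h3, RingEquiv.height_comap]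
  rw [h1] at h2
  exact_mod_cast h2

/-- Fewer polynomials than variables, all of them vanishing at `0`, have a common zero which is
not `0`. -/
theorem exists_zero {k σ ι : Type*} [Field k] [IsAlgClosed k] [Finite σ] [Fintype ι]
    (f : ι → MvPolynomial σ k) (hf : ∀ i, eval 0 (f i) = 0) (hc : Fintype.card ι < Nat.card σ) :
    ∃ x : σ → k, x ≠ 0 ∧ ∀ i, eval x (f i) = 0 := by
  classical
  by_contra hcon
  push Not at hcon
  set s : Finset (MvPolynomial σ k) := Finset.univ.image f with hs
  have h1 : zeroLocus k (Ideal.span (s : Set (MvPolynomial σ k))) = {0} := by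
    rw [zeroLocus_span]
    ext x
    rw [Set.mem_ofPred_eq, Set.mem_singleton_iff]
    constructor
    · intro h
      by_contra hx
      obtain ⟨i, hi⟩ := hcon x hx
      apply hi
      exact h (f i) (by simp [hs])
    · rintro rfl p hp
      obtain ⟨i, -, rfl⟩ := Finset.mem_image.1 (Finset.mem_coe.1 hp)
      exact hf i
  have h2 : (Ideal.span (s : Set (MvPolynomial σ k))).radical =
      vanishingIdeal k ({0} : Set (σ → k)) := by
    rw [← h1, vanishingIdeal_zeroLocus_eq_radical]
  have h3 : vanishingIdeal k ({0} : Set (σ → k)) ∈
      (Ideal.span (s : Set (MvPolynomial σ k))).minimalPrimes := by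
    rw [← Ideal.radical_minimalPrimes, h2, Ideal.minimalPrimes_eq_subsingleton_self]
    rfl
  have h4 := Ideal.height_le_card_of_mem_minimalPrimes_span_finset h3
  have h5 : s.card ≤ Fintype.card ι := Finset.card_image_le
  have h6 := (height_zero (k := k) (σ := σ)).trans h4
  have h7 : Nat.card σ ≤ s.card := by exact_mod_cast h6
  omega

end Pool.Agent.Helper40.SD
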