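import Pool.Agent.Helper75.QC.Base
import Pool.Agent.Helper40.SD.Pdt

/-!
# Uniruled fields: general tools

`exists_embedding`: embeddings along transcendence bases; `uniruled_of_dep`: dependent elements;
`indep_line`: a line which is not contained in the surface `L = 0`, drawn through its generic point,
sweeps out the space.
-/

set_option autoImplicit false

namespace Pool.Agent.Helper40.SD

open IntermediateField Pool.Agent.Helper75.QC

/-- embeddings along transcendence bases -/
theorem exists_embedding {Ω K E ι : Type} [Field Ω] [Field K] [Algebra Ω K] [Field E]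
    [Algebra Ω E] [IsAlgClosed E] (x : ι → K) (hx : AlgebraicIndependent Ω x)
    (hK : ∀ k : K, IsAlgebraic (adjoin Ω (Set.range x)) k) (y : ι → E)
    (hy : AlgebraicIndependent Ω y) : ∃ g : K →ₐ[Ω] E, ∀ i, g (x i) = y i := by
  let e : adjoin Ω (Set.range x) →ₐ[Ω] E :=
    (adjoin Ω (Set.range y)).val.comp
      (hy.aevalEquivField.toAlgHom.comp hx.aevalEquivField.symm.toAlgHom)
  let _ : Algebra (adjoin Ω (Set.range x)) E := e.toRingHom.toAlgebra
  have : Algebra.IsAlgebraic (adjoin Ω (Set.range x)) K := ⟨hK⟩
  let g0 : K →ₐ[adjoin Ω (Set.range x)] E := IsAlgClosed.lift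
  have hg0 : ∀ a : adjoin Ω (Set.range x), g0 (a : K) = e a := fun a => g0.commutes a
  refine ⟨{ g0.toRingHom with commutes' := fun r => ?_ }, fun i => ?_⟩
  · have h1 := hg0 (algebraMap Ω _ r)
    rw [e.commutes] at h1
    exact h1
  · have hm : x i ∈ adjoin Ω (Set.range x) := subset_adjoin Ω _ ⟨i, rfl⟩
    have h1 := hg0 ⟨x i, hm⟩
    change g0 (x i) = y i
    rw [h1]
    have h2 : hx.aevalEquivField (algebraMap (MvPolynomial ι Ω)
        (FractionRing (MvPolynomial ι Ω)) (MvPolynomial.X i)) = ⟨x i, hm⟩ := by
      apply Subtype.ext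
      rw [hx.aevalEquivField_algebraMap_apply_coe, MvPolynomial.aeval_X]
    have h3 : hx.aevalEquivField.symm ⟨x i, hm⟩ = algebraMap (MvPolynomial ι Ω)
        (FractionRing (MvPolynomial ι Ω)) (MvPolynomial.X i) := by
      rw [← h2, AlgEquiv.symm_apply_apply]
    change ((hy.aevalEquivField (hx.aevalEquivField.symm ⟨x i, hm⟩) : adjoin Ω (Set.range y)) : E)
      = y i
    rw [h3, hy.aevalEquivField_algebraMap_apply_coe, MvPolynomial.aeval_X]

/-- a subfield of a uniruled field is uniruled -/
theorem uniruled_of_hom {Ω K K' : Type} [Field Ω] [Field K] [Algebra Ω K] [Field K']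
    [Algebra Ω K'] (h : K →ₐ[Ω] K') {i : ℕ} (hK : Uniruled Ω K' i) : Uniruled Ω K i := by
  obtain ⟨E, _, _, g, S, θ, hS, hg⟩ := hK
  exact ⟨E, inferInstance, inferInstance, g.comp h, S, θ, hS, fun k => hg (h k)⟩

/-- dependent generators -/
theorem uniruled_of_dep {Ω K : Type} [Field Ω] [Field K] [Algebra Ω K] {i : ℕ} (x : Fin i → K)
    (hx : ¬ AlgebraicIndependent Ω x) (hK : ∀ k : K, IsAlgebraic (adjoin Ω (Set.range x)) k) :
    Uniruled Ω K i := by
  classical
  have h0 : Algebra.IsAlgebraic (adjoin Ω (Set.range x)) K := ⟨hK⟩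
  have h1 : Algebra.IsAlgebraic (Algebra.adjoin Ω (Set.range x)) K :=
    isAlgebraic_adjoin_iff_top.1 h0
  obtain ⟨t, ht, hb⟩ := exists_isTranscendenceBasis_subset (R := Ω) (A := K) (Set.range x)
  have hfin : t.Finite := (Set.finite_range x).subset ht
  have hcard : hfin.toFinset.card < i := by
    by_contra hle
    push Not at hle
    have h2 : hfin.toFinset ⊆ Finset.univ.image x := by
      intro a ha
      rw [Set.Finite.mem_toFinset] at ha
      obtain ⟨j, hj⟩ := ht ha
      exact Finset.mem_image.2 ⟨j, Finset.mem_univ _, hj⟩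
    have h3 : (Finset.univ.image x).card ≤ i := by
      simpa using Finset.card_image_le (s := Finset.univ) (f := x)
    have h4 : hfin.toFinset = Finset.univ.image x :=
      Finset.eq_of_subset_of_card_le h2 (h3.trans hle)
    have h5 : (Finset.univ.image x).card = i := le_antisymm h3 (h4 ▸ hle)
    have h6 : Function.Injective x := by
      have := Finset.card_image_iff.1 (by rw [h5]; simp : (Finset.univ.image x).card =
        (Finset.univ : Finset (Fin i)).card)
      intro a b hab
      exact this (by simp) (by simp) hab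
    apply hx
    have h7 : t = Set.range x := by
      ext a
      rw [← hfin.mem_toFinset, h4]
      simp
    subst h7
    exact (algebraicIndependent_subtype_range h6).1 hb.1
  refine ⟨K, inferInstance, inferInstance, AlgHom.id Ω K, hfin.toFinset, 0, hcard, fun k => ?_⟩
  apply subset_adjoin
  left
  have h8 := hb.isAlgebraic_field
  have h9 : IsAlgebraic (adjoin Ω (Set.range ((↑) : t → K))) k := h8.isAlgebraic k
  rw [Subtype.range_coe] at h9
  change IsAlgebraic (adjoin Ω (hfin.toFinset : Set K)) k
  rw [Set.Finite.coe_toFinset]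
  exact h9

instance {Ω E : Type} [Field Ω] [Field E] [Algebra Ω E] [IsAlgClosed E] (S : Set E) :
    IsAlgClosed (AF Ω S) :=
  (algebraicClosure.isAlgClosure (adjoin Ω S) E).isAlgClosed

/-- a polynomial with coefficients in `M` which vanishes at a transcendental element -/
theorem coeff_zero_of {M E : Type} [Field M] [Field E] [Algebra M E] {t : E}
    (ht : Transcendental M t) (p : Polynomial M) (h : Polynomial.aeval t p = 0) : p = 0 := by
  by_contra hp
  exact ht ⟨p, hp, h⟩

/-- If the line through a generic point `P` of the hypersurface `L = 0` with the direction `d` is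
not contained in it, its generic point is a generic point of the space. -/
theorem indep_line {Ω E : Type} [Field Ω] [Field E] [Algebra Ω E] {m : ℕ} (M : IntermediateField Ω E)
    (P d : Fin m → M) (t : E) (ht : Transcendental M t) (L : MvPolynomial (Fin m) Ω)
    (hL0 : MvPolynomial.aeval P L = 0)
    (hL : ∀ G : MvPolynomial (Fin m) Ω, MvPolynomial.aeval P G = 0 → L ∣ G)
    (hLt : MvPolynomial.aeval (fun i => (P i : E) + d i * t) L ≠ 0) :
    AlgebraicIndependent Ω (fun i => (P i : E) + d i * t) := by
  have key : ∀ G : MvPolynomial (Fin m) Ω,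
      MvPolynomial.aeval (fun i => (P i : E) + d i * t) G = 0 → L ∣ G := by
    intro G hG
    apply hL
    set g : Polynomial M := MvPolynomial.aeval
      (fun i => Polynomial.C (P i) + Polynomial.C (d i) * Polynomial.X) G with hg
    have h1 : Polynomial.aeval t g = MvPolynomial.aeval (fun i => (P i : E) + d i * t) G := by
      have : ((Polynomial.aeval (R := M) t).restrictScalars Ω).comp (MvPolynomial.aeval
          (fun i => Polynomial.C (P i) + Polynomial.C (d i) * Polynomial.X)) =
          MvPolynomial.aeval (R := Ω) (fun i => (P i : E) + d i * t) := by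
        ext i
        simp
      exact DFunLike.congr_fun this G
    have h2 : g = 0 := coeff_zero_of ht g (h1.trans hG)
    have h3 : Polynomial.aeval (0 : M) g = MvPolynomial.aeval P G := by
      have : ((Polynomial.aeval (R := M) (0 : M)).restrictScalars Ω).comp (MvPolynomial.aeval
          (fun i => Polynomial.C (P i) + Polynomial.C (d i) * Polynomial.X)) =
          MvPolynomial.aeval (R := Ω) P := by
        ext i
        simp
      exact DFunLike.congr_fun this G
    rw [← h3, h2, map_zero]
  have hLu : ¬ IsUnit L := by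
    intro hu
    exact (hu.map (MvPolynomial.aeval P)).ne_zero hL0
  rw [algebraicIndependent_iff]
  intro G hG
  by_contra hne
  obtain ⟨k, G', hG', hGG⟩ := WfDvdMonoid.max_power_factor' hne hLu
  rw [hGG, map_mul, map_pow] at hG
  rcases mul_eq_zero.1 hG with h | h
  · exact hLt (eq_zero_of_pow_eq_zero h)
  · exact hG' (key G' h)

end Pool.Agent.Helper40.SD
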