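import Pool.Agent.Helper40.SD.Pencil
import Pool.Agent.Helper40.SD.Five
import Pool.Agent.Helper40.SD.NetUni
import Pool.Agent.Helper75.TC.Data

/-!
# The inputs of the criterion: a cubic and a conic, a quintic, three conics
-/

set_option autoImplicit false

namespace Pool.Agent.Helper40.SD

open IntermediateField Pool.Agent.Helper75.QC Pool.Agent.Helper75.TC

theorem uniruled_adjoin {Ω N E : Type} [Field Ω] [Field N] [Algebra Ω N] [Field E] [Algebra Ω E]
    (ι : N →ₐ[Ω] E) (S : Set N) (T : Set E) (h : ∀ a ∈ S, ι a ∈ adjoin Ω T) {i : ℕ}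
    (hU : Uniruled Ω (adjoin Ω T : IntermediateField Ω E) i) :
    Uniruled Ω (adjoin Ω S : IntermediateField Ω N) i := by
  have hle : (adjoin Ω S : IntermediateField Ω N) ≤ (adjoin Ω T).comap ι :=
    adjoin_le_iff.2 h
  let g : (adjoin Ω S : IntermediateField Ω N) →ₐ[Ω] (adjoin Ω T : IntermediateField Ω E) :=
    { toFun := fun k => ⟨ι k, hle k.2⟩
      map_one' := Subtype.ext (map_one ι)
      map_mul' := fun b c => Subtype.ext (map_mul ι _ _)
      map_zero' := Subtype.ext (map_zero ι)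
      map_add' := fun b c => Subtype.ext (map_add ι _ _)
      commutes' := fun r => Subtype.ext (ι.commutes r) }
  exact uniruled_of_hom g hU

/-- exceptional eigenvalues -/
theorem exc_zero {Ω L : Type} [Field Ω] [Field L] (T : BaseTheory Ω L) {n : ℕ}
    (hn : 0 < n) (hn' : (n : Ω) ≠ 0) {ζ : Ω} (hζ : IsPrimitiveRoot ζ n)
    {K : Type} [Field K] [Algebra Ω K] (x y w : K) (hK : adjoin Ω {x, y, w} = ⊤) (hw0 : w ≠ 0)
    (hw : w ^ n ∈ adjoin Ω {x, y}) (σ : K →ₐ[Ω] K)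
    (hσ : σ x = x ∧ σ y = y ∧ σ w = algebraMap Ω K ζ * w) (k : ℕ)
    (H : ∀ e m : ℕ, n = e * m → e ∣ k →
      Uniruled Ω (adjoin Ω {x, y, w ^ m} : IntermediateField Ω K) 2) (ξ : L) (hξn : ξ ^ n = 1)
    (hξk : ξ ^ k = 1) (t : T.H 2 K) (ht : T.map 2 σ t = ξ • t) : t = 0 := by
  obtain ⟨m, hm⟩ := orderOf_dvd_of_pow_eq_one hξn
  have hk : orderOf ξ ∣ k := orderOf_dvd_of_pow_eq_one hξk
  refine eigen_zero_gen T hn hn' hm hζ x y w hK hw0 hw σ hσ (H _ m hm hk) t ?_
  have h1 : ∀ j : ℕ, (T.map 2 σ ^ j) t = ξ ^ j • t := by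
    intro j
    induction j with
    | zero => simp
    | succ j ih => rw [pow_succ, Module.End.mul_apply, ht, map_smul, ih, smul_smul, pow_succ,
        mul_comm]
  rw [h1, pow_orderOf_eq_one, one_smul]

theorem not_mem_of_trans {Ω K N : Type} [Field Ω] [Field K] [Algebra Ω K] [Field N] [Algebra Ω N]
    (g : K →ₐ[Ω] N) (x y : K) (v : N) (hv : Transcendental g.fieldRange v) :
    v ∉ adjoin Ω {g x, g y} := by
  intro h
  apply hv
  have h1 : adjoin Ω {g x, g y} ≤ g.fieldRange := by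
    rw [adjoin_le_iff]
    rintro a (rfl | rfl)
    · exact ⟨x, rfl⟩
    · exact ⟨y, rfl⟩
  exact isAlgebraic_algebraMap (⟨v, h1 h⟩ : g.fieldRange)

theorem sub_ne_of_not_mem {Ω N : Type} [Field Ω] [Field N] [Algebra Ω N] (S : Set N) (v : N)
    (hv : v ∉ adjoin Ω S) : v ≠ 0 ∧ 1 - v ≠ 0 := by
  constructor
  · rintro rfl
    exact hv (zero_mem _)
  · intro h
    apply hv
    rw [← sub_eq_zero.1 h]
    exact one_mem _

/-! ### a cubic and a conic -/

theorem huni_B {Ω : Type} [Field Ω] [IsAlgClosed Ω] (f g : MvPolynomial (Fin 2) Ω)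
    (hf : f.totalDegree ≤ 3) (hg : g.totalDegree ≤ 2) {n : ℕ} (hn : 0 < n) {K : Type} [Field K]
    [Algebra Ω K] (x y w : K) (hw0 : w ≠ 0) (hg0 : val g x y ≠ 0)
    (hw : w ^ n * val g x y ^ 3 = val f x y ^ 2) (N : Type) [Field N] [Algebra Ω N]
    (ι : K →ₐ[Ω] N) (v s : N) (hv : Transcendental ι.fieldRange v)
    (hs : v ^ 1 * (1 - v) ^ 2 = s ^ n * ι w ^ n) :
    Uniruled Ω (adjoin Ω {ι x, ι y, v, s} : IntermediateField Ω N) 3 := by
  obtain ⟨hv0, hv1⟩ := sub_ne_of_not_mem _ v (not_mem_of_trans ι x y v hv)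
  have hf0 : val f x y ≠ 0 := by
    intro h
    rw [h] at hw
    have h1 : w ^ n * val g x y ^ 3 = 0 := by
      rw [hw]
      ring
    exact mul_ne_zero (pow_ne_zero _ hw0) (pow_ne_zero _ hg0) h1
  have e1 : MvPolynomial.aeval ![ι x, ι y] f = ι (val f x y) := (map_val ι x y f).symm
  have e2 : MvPolynomial.aeval ![ι x, ι y] g = ι (val g x y) := (map_val ι x y g).symm
  refine uni_pencil f g hf hg hn (ι x) (ι y) v s ?_ hv1 ?_ ?_ ?_
  · rintro rfl
    rw [zero_pow hn.ne', zero_mul, pow_one] at hs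
    exact mul_ne_zero hv0 (pow_ne_zero _ hv1) hs
  · rw [e1]
    exact (map_ne_zero ι).2 hf0
  · rw [e2]
    exact (map_ne_zero ι).2 hg0
  · rw [pow_one] at hs
    rw [hs, e1, e2, ← map_pow, ← map_pow, ← map_pow, ← map_div₀]
    congr 2
    rw [eq_div_iff (pow_ne_zero _ hg0)]
    exact hw

/-- `z³ = f(x, y)`, `deg f ≤ 3` -/
theorem uni_root3 {Ω N : Type} [Field Ω] [IsAlgClosed Ω] (h3 : (3 : Ω) ≠ 0) [Field N]
    [Algebra Ω N] (f : MvPolynomial (Fin 2) Ω) (hf : f.totalDegree ≤ 3) (x y z : N)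
    (hf0 : val f x y ≠ 0) (hz : z ^ 3 = val f x y) :
    Uniruled Ω (adjoin Ω {x, y, z} : IntermediateField Ω N) 2 := by
  set K := (adjoin Ω {x, y, z} : IntermediateField Ω N) with hK
  have mx : x ∈ K := subset_adjoin _ _ (by simp)
  have my : y ∈ K := subset_adjoin _ _ (by simp)
  have mz : z ∈ K := subset_adjoin _ _ (by simp)
  have hev : ∀ G : MvPolynomial (Fin 2) Ω,
      ((MvPolynomial.aeval ![(⟨x, mx⟩ : K), ⟨y, my⟩] G : K) : N) =
      MvPolynomial.aeval ![x, y] G := fun G => map_aeval75 K.val (⟨x, mx⟩ : K) ⟨y, my⟩ G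
  have hf1 : f ≠ 0 := by
    rintro rfl
    apply hf0
    unfold Pool.Agent.Helper75.TC.val
    rw [map_zero]
  refine uni_cubic (1 : Ω) one_ne_zero (-f) 0 (by rwa [MvPolynomial.totalDegree_neg]) (by simp) ?_
    ![(⟨x, mx⟩ : K), ⟨y, my⟩] (⟨z, mz⟩ : K) ?_ ?_
  · intro h
    have h1 : (MvPolynomial.C 27 : MvPolynomial (Fin 2) Ω) * f ^ 2 = 0 := by
      rw [map_ofNat]
      have h2 : (4 : MvPolynomial (Fin 2) Ω) * 0 ^ 3 - 27 * MvPolynomial.C 1 * (-f) ^ 2 = 0 := h
      rw [map_one] at h2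
      linear_combination -h2
    rcases mul_eq_zero.1 h1 with h2 | h2
    · have h4 : (27 : Ω) = 0 := by
        rw [← map_zero (MvPolynomial.C (σ := Fin 2) (R := Ω))] at h2
        exact MvPolynomial.C_injective _ _ h2
      have h5 : (27 : Ω) = 3 ^ 3 := by norm_num
      rw [h5] at h4
      exact h3 (eq_zero_of_pow_eq_zero h4)
    · exact hf1 (eq_zero_of_pow_eq_zero h2)
  · apply Subtype.ext
    rw [map_one, map_zero, map_neg]
    change (1 : N) * z ^ 3 - 0 * z + -(((MvPolynomial.aeval ![(⟨x, mx⟩ : K), ⟨y, my⟩] f : K) : N)) = 0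
    rw [hev, hz]
    unfold Pool.Agent.Helper75.TC.val
    ring
  · apply lift_injective K
    rw [lift_top, lift_adjoin]
    refine Eq.trans ?_ hK.symm
    congr 1
    ext a
    simp only [Set.image_union, Set.image_singleton, Set.mem_union, Set.mem_image,
      Set.mem_range, Set.mem_singleton_iff, Set.mem_insert_iff]
    constructor
    · rintro (⟨b, ⟨i, rfl⟩, rfl⟩ | rfl)
      · fin_cases i
        · exact Or.inl rfl
        · exact Or.inr (Or.inl rfl)
      · exact Or.inr (Or.inr rfl)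
    · rintro (rfl | rfl | rfl)
      · exact Or.inl ⟨_, ⟨0, rfl⟩, rfl⟩
      · exact Or.inl ⟨_, ⟨1, rfl⟩, rfl⟩
      · exact Or.inr rfl

theorem hexc_B {Ω L : Type} [Field Ω] [IsAlgClosed Ω] [Field L] (T : BaseTheory Ω L)
    (f g : MvPolynomial (Fin 2) Ω) (hf : f.totalDegree ≤ 3) (hg : g.totalDegree ≤ 2) {n : ℕ}
    (hn : 0 < n) (hn' : (n : Ω) ≠ 0) {K : Type} [Field K] [Algebra Ω K] (x y w : K)
    (hK : adjoin Ω {x, y, w} = ⊤) (hw0 : w ≠ 0) (hg0 : val g x y ≠ 0)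
    (hw : w ^ n * val g x y ^ 3 = val f x y ^ 2) (ζ : Ω) (σ : K →ₐ[Ω] K)
    (hζ : IsPrimitiveRoot ζ n) (hx : σ x = x) (hy : σ y = y)
    (hσ : σ w = algebraMap Ω K ζ * w) (ξ : L) (t : T.H 2 K) (hξ : ξ ^ n = 1)
    (hξ' : ξ ^ 1 = 1 ∨ ξ ^ 2 = 1 ∨ ξ ^ (1 + 2) = 1) (ht : T.map 2 σ t = ξ • t) : t = 0 := by
  have hf0 : val f x y ≠ 0 := by
    intro h
    rw [h] at hw
    have h1 : w ^ n * val g x y ^ 3 = 0 := by
      rw [hw]
      ring
    exact mul_ne_zero (pow_ne_zero _ hw0) (pow_ne_zero _ hg0) h1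
  have mx : x ∈ adjoin Ω {x, y} := subset_adjoin _ _ (by simp)
  have my : y ∈ adjoin Ω {x, y} := subset_adjoin _ _ (by simp)
  have hwF : w ^ n ∈ adjoin Ω {x, y} := by
    have h1 : w ^ n = val f x y ^ 2 / val g x y ^ 3 := by
      rw [eq_div_iff (pow_ne_zero _ hg0)]
      exact hw
    rw [h1]
    exact div_mem (pow_mem (val_mem f _ mx my) _) (pow_mem (val_mem g _ mx my) _)
  have H : ∀ k : ℕ, (k = 1 ∨ k = 2 ∨ k = 3) → ∀ e m : ℕ, n = e * m → e ∣ k →
      Uniruled Ω (adjoin Ω {x, y, w ^ m} : IntermediateField Ω K) 2 := by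
    intro k hk e m hem hek
    have hm0 : 0 < m := by
      rcases Nat.eq_zero_or_pos m with h | h
      · rw [hem, h, mul_zero] at hn
        exact absurd hn (lt_irrefl 0)
      · exact h
    have he : e = 1 ∨ e = 2 ∨ e = 3 := by
      have h1 : e ≤ 3 := (Nat.le_of_dvd (by omega) hek).trans (by omega)
      have h2 : 0 < e := Nat.pos_of_dvd_of_pos hek (by omega)
      omega
    have hcast : ∀ q : ℕ, e = q → (q : Ω) ≠ 0 := by
      rintro q rfl h
      apply hn'
      rw [hem]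
      push_cast
      rw [h, zero_mul]
    have hW : (w ^ m) ^ e * val g x y ^ 3 = val f x y ^ 2 := by
      rw [← pow_mul, mul_comm m e, ← hem]
      exact hw
    have hWF : ∀ z : K, w ^ m ∈ adjoin Ω {x, y, z} →
        Uniruled Ω (adjoin Ω {x, y, z} : IntermediateField Ω K) 2 →
        Uniruled Ω (adjoin Ω {x, y, w ^ m} : IntermediateField Ω K) 2 := by
      intro z hz hU
      refine uniruled_adjoin (AlgHom.id Ω K) _ _ ?_ hU
      rintro a (rfl | rfl | rfl)
      · exact subset_adjoin _ _ (by simp)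
      · exact subset_adjoin _ _ (by simp)
      · exact hz
    obtain ⟨W, hWd⟩ : ∃ W, W = w ^ m := ⟨_, rfl⟩
    rw [← hWd] at hW hWF ⊢
    have hW0 : W ≠ 0 := by
      rw [hWd]
      exact pow_ne_zero _ hw0
    rcases he with rfl | rfl | rfl
    · rw [hWd]
      rw [one_mul] at hem
      rw [← hem]
      exact uni_plane75 x y _ hwF
    · -- the double plane `W' ^ 2 = g`
      refine hWF (val f x y / (W * val g x y)) ?_ (uni_double75 (by exact_mod_cast hcast 2 rfl) g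
        (hg.trans (by norm_num)) x y _ ?_)
      · have h1 : W = val f x y / (val f x y / (W * val g x y) * val g x y) := by
          field_simp
        have hx' : x ∈ adjoin Ω {x, y, val f x y / (W * val g x y)} :=
          subset_adjoin _ _ (by simp)
        have hy' : y ∈ adjoin Ω {x, y, val f x y / (W * val g x y)} :=
          subset_adjoin _ _ (by simp)
        have hz' : val f x y / (W * val g x y) ∈ adjoin Ω {x, y, val f x y / (W * val g x y)} :=
          subset_adjoin _ _ (by simp)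
        have h2 := div_mem (val_mem f _ hx' hy') (mul_mem hz' (val_mem g _ hx' hy'))
        rw [← h1] at h2
        exact h2
      · change _ = val g x y
        rw [div_pow, mul_pow, ← hW]
        field_simp
    · -- the cubic surface `z ^ 3 = f`
      refine hWF (val f x y / (W * val g x y)) ?_ (uni_root3 (by exact_mod_cast hcast 3 rfl) f
        hf x y _ hf0 ?_)
      · have h1 : W = val f x y / (val f x y / (W * val g x y) * val g x y) := by
          field_simp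
        have hx' : x ∈ adjoin Ω {x, y, val f x y / (W * val g x y)} :=
          subset_adjoin _ _ (by simp)
        have hy' : y ∈ adjoin Ω {x, y, val f x y / (W * val g x y)} :=
          subset_adjoin _ _ (by simp)
        have hz' : val f x y / (W * val g x y) ∈ adjoin Ω {x, y, val f x y / (W * val g x y)} :=
          subset_adjoin _ _ (by simp)
        have h2 := div_mem (val_mem f _ hx' hy') (mul_mem hz' (val_mem g _ hx' hy'))
        rw [← h1] at h2
        exact h2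
      · have h1 : (W * val g x y) ^ 3 = val f x y ^ 2 := by
          rw [← hW]
          ring
        rw [div_pow, h1]
        field_simp
  rcases hξ' with h | h | h
  · exact exc_zero T hn hn' hζ x y w hK hw0 hwF σ ⟨hx, hy, hσ⟩ 1 (H 1 (by simp)) ξ hξ h t ht
  · exact exc_zero T hn hn' hζ x y w hK hw0 hwF σ ⟨hx, hy, hσ⟩ 2 (H 2 (by simp)) ξ hξ h t ht
  · exact exc_zero T hn hn' hζ x y w hK hw0 hwF σ ⟨hx, hy, hσ⟩ 3 (H 3 (by simp)) ξ hξ h t ht

/-! ### a quintic, and `w³ = f₆` -/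

theorem huni_C {Ω : Type} [Field Ω] [IsAlgClosed Ω] (f : MvPolynomial (Fin 2) Ω)
    (hf : f.totalDegree ≤ 5) {K : Type} [Field K] [Algebra Ω K] (x y w : K)
    (hw : w ^ 5 = val f x y) (N : Type) [Field N] [Algebra Ω N]
    (ι : K →ₐ[Ω] N) (v s : N) (hv : Transcendental ι.fieldRange v)
    (hs : v ^ 1 * (1 - v) ^ 1 = s ^ 5 * ι w ^ 5) :
    Uniruled Ω (adjoin Ω {ι x, ι y, v, s} : IntermediateField Ω N) 3 := by
  obtain ⟨hv0, hv1⟩ := sub_ne_of_not_mem _ v (not_mem_of_trans ι x y v hv)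
  rw [pow_one, pow_one] at hs
  refine uni_five f 5 (by norm_num) hf (ι x) (ι y) v s ?_ ?_
  · rintro rfl
    rw [zero_pow (by norm_num), zero_mul] at hs
    exact mul_ne_zero hv0 hv1 hs
  · rw [hs, ← map_pow, hw]
    congr 1
    exact map_val ι x y f

theorem huni_D {Ω : Type} [Field Ω] [IsAlgClosed Ω] (f : MvPolynomial (Fin 2) Ω)
    (hf : f.totalDegree ≤ 6) {K : Type} [Field K] [Algebra Ω K] (x y w : K)
    (hw : w ^ 3 = val f x y) (N : Type) [Field N] [Algebra Ω N]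
    (ι : K →ₐ[Ω] N) (v s : N) (hv : Transcendental ι.fieldRange v)
    (hs : v ^ 1 * (1 - v) ^ 1 = s ^ 3 * ι w ^ 3) :
    Uniruled Ω (adjoin Ω {ι x, ι y, v, s} : IntermediateField Ω N) 3 := by
  obtain ⟨hv0, hv1⟩ := sub_ne_of_not_mem _ v (not_mem_of_trans ι x y v hv)
  rw [pow_one, pow_one] at hs
  refine uni_three f hf (ι x) (ι y) v s ?_ ?_
  · rintro rfl
    rw [zero_pow (by norm_num), zero_mul] at hs
    exact mul_ne_zero hv0 hv1 hs
  · rw [hs, ← map_pow, hw]
    congr 1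
    exact map_val ι x y f

/-- exceptional eigenvalues for `n = 3, 5` -/
theorem hexc_C {Ω L : Type} [Field Ω] [Field L] (T : BaseTheory Ω L) {n : ℕ} (hn : 0 < n)
    (hodd : ¬ 2 ∣ n) (hn' : (n : Ω) ≠ 0) {K : Type} [Field K] [Algebra Ω K] (x y w : K)
    (hK : adjoin Ω {x, y, w} = ⊤) (hw0 : w ≠ 0) (hwF : w ^ n ∈ adjoin Ω {x, y}) (ζ : Ω)
    (σ : K →ₐ[Ω] K) (hζ : IsPrimitiveRoot ζ n) (hx : σ x = x) (hy : σ y = y)
    (hσ : σ w = algebraMap Ω K ζ * w) (ξ : L) (t : T.H 2 K) (hξ : ξ ^ n = 1)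
    (hξ' : ξ ^ 1 = 1 ∨ ξ ^ 1 = 1 ∨ ξ ^ (1 + 1) = 1) (ht : T.map 2 σ t = ξ • t) : t = 0 := by
  have h2 : ξ ^ 2 = 1 := by
    rcases hξ' with h | h | h
    · rw [pow_one] at h
      rw [h, one_pow]
    · rw [pow_one] at h
      rw [h, one_pow]
    · exact h
  refine exc_zero T hn hn' hζ x y w hK hw0 hwF σ ⟨hx, hy, hσ⟩ 2 (fun e m hem he => ?_) ξ hξ h2 t ht
  have he1 : e = 1 := by
    rcases (Nat.dvd_prime Nat.prime_two).1 he with h | h
    · exact h
    · exact absurd ⟨m, by rw [hem, h]⟩ hodd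
  rw [he1, one_mul] at hem
  rw [← hem]
  exact uni_plane75 x y _ hwF

/-! ### three conics -/

theorem huni_N {Ω : Type} [Field Ω] [IsAlgClosed Ω] (f g h : MvPolynomial (Fin 2) Ω)
    (hf : f.totalDegree ≤ 2) (hg : g.totalDegree ≤ 2) (hh : h.totalDegree ≤ 2) {n a b c : ℕ}
    (hn : 0 < n) (habc : n ∣ a + b + c) {K : Type} [Field K]
    [Algebra Ω K] (x y w : K) (hf0 : val f x y ≠ 0) (hg0 : val g x y ≠ 0)
    (hh0 : val h x y ≠ 0)
    (hw : w ^ n = val f x y ^ a * val g x y ^ b * val h x y ^ c) (N : Type) [Field N] [Algebra Ω N]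
    (ι : K →ₐ[Ω] N) (v s : N) (hv : Transcendental ι.fieldRange v)
    (hs : v ^ a * (1 - v) ^ b = s ^ n * ι w ^ n) :
    Uniruled Ω (adjoin Ω {ι x, ι y, v, s} : IntermediateField Ω N) 3 := by
  obtain ⟨k, hk⟩ := habc
  have e1 : MvPolynomial.aeval ![ι x, ι y] f = ι (val f x y) := (map_val ι x y f).symm
  have e2 : MvPolynomial.aeval ![ι x, ι y] g = ι (val g x y) := (map_val ι x y g).symm
  have e3 : MvPolynomial.aeval ![ι x, ι y] h = ι (val h x y) := (map_val ι x y h).symm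
  have i1 : ι (val f x y) ≠ 0 := (map_ne_zero ι).2 hf0
  have i2 : ι (val g x y) ≠ 0 := (map_ne_zero ι).2 hg0
  have i3 : ι (val h x y) ≠ 0 := (map_ne_zero ι).2 hh0
  have hU := uni_net f g h hf hg hh a b hn (ι x) (ι y) v (s * ι (val h x y) ^ k)
    (not_mem_of_trans ι x y v hv) (by rw [e1]; exact i1) (by rw [e2]; exact i2)
    (by rw [e3]; exact i3) (by
      rw [hs, e1, e2, e3, ← map_pow, hw, map_mul, map_mul, map_pow, map_pow, map_pow]
      have h1 : ι (val h x y) ^ (n * k) = ι (val h x y) ^ a * ι (val h x y) ^ b *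
          ι (val h x y) ^ c := by
        rw [← hk, pow_add, pow_add]
      have h2 : (s * ι (val h x y) ^ k) ^ n = s ^ n * (ι (val h x y) ^ a * ι (val h x y) ^ b *
          ι (val h x y) ^ c) := by
        rw [mul_pow, ← pow_mul, mul_comm k n, h1]
      rw [h2, div_pow, div_pow]
      field_simp)
  refine uniruled_adjoin (AlgHom.id Ω N) _ _ ?_ hU
  have mx : ι x ∈ adjoin Ω {ι x, ι y, v, s * ι (val h x y) ^ k} := subset_adjoin _ _ (by simp)
  have my : ι y ∈ adjoin Ω {ι x, ι y, v, s * ι (val h x y) ^ k} := subset_adjoin _ _ (by simp)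
  rintro z (rfl | rfl | rfl | rfl)
  · exact mx
  · exact my
  · exact subset_adjoin _ _ (by simp)
  · have ms : z * ι (val h x y) ^ k ∈ adjoin Ω {ι x, ι y, v, z * ι (val h x y) ^ k} :=
      subset_adjoin _ _ (by simp)
    have mh : ι (val h x y) ∈ adjoin Ω {ι x, ι y, v, z * ι (val h x y) ^ k} := by
      have h5 := val_mem h _ mx my
      have h6 : val h (ι x) (ι y) = ι (val h x y) := e3
      rwa [h6] at h5
    have h1 := div_mem ms (pow_mem mh k)
    rw [mul_div_cancel_right₀ _ (pow_ne_zero _ i3)] at h1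
    exact h1

/-- `W ^ e = A ^ e (f / g) ^ b`, `f` and `g` conics -/
theorem uni_conics_pow {Ω N : Type} [Field Ω] [IsAlgClosed Ω] [Field N] [Algebra Ω N]
    (f g : MvPolynomial (Fin 2) Ω) (hf : f.totalDegree ≤ 2) (hg : g.totalDegree ≤ 2) {e : ℕ}
    (he : 0 < e) (b : ℕ) (x y W A : N) (hA : A ∈ adjoin Ω {x, y}) (hA0 : A ≠ 0)
    (hf0 : val f x y ≠ 0) (hg0 : val g x y ≠ 0)
    (hW : W ^ e * val g x y ^ b = A ^ e * val f x y ^ b) :
    Uniruled Ω (adjoin Ω {x, y, W} : IntermediateField Ω N) 2 := by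
  obtain ⟨ι, -⟩ : ∃ i : N →ₐ[Ω] AlgebraicClosure N,
      i = IsScalarTower.toAlgHom Ω N (AlgebraicClosure N) := ⟨_, rfl⟩
  have i1 : ι (val f x y) ≠ 0 := (map_ne_zero ι).2 hf0
  have i2 : ι (val g x y) ≠ 0 := (map_ne_zero ι).2 hg0
  have iA : ι A ≠ 0 := (map_ne_zero ι).2 hA0
  obtain ⟨W', hW'⟩ := IsAlgClosed.exists_pow_nat_eq (ι (val f x y) / ι (val g x y)) he
  have hW0' : W' ≠ 0 := by
    rintro rfl
    rw [zero_pow he.ne'] at hW'
    exact div_ne_zero i1 i2 hW'.symm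
  have e1 : MvPolynomial.aeval ![ι x, ι y] f = ι (val f x y) := (map_val ι x y f).symm
  have e2 : MvPolynomial.aeval ![ι x, ι y] g = ι (val g x y) := (map_val ι x y g).symm
  have hU := uni_two_conics f g hf hg he (ι x) (ι y) W' (by rw [e2]; exact i2) (by
    rw [e1, e2, hW']
    field_simp)
  refine uniruled_adjoin ι _ _ ?_ hU
  have hWE : ι W ^ e * ι (val g x y) ^ b = ι A ^ e * ι (val f x y) ^ b := by
    rw [← map_pow, ← map_pow, ← map_mul, hW, map_mul, map_pow, map_pow]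
  have hζ : (ι W / (ι A * W' ^ b)) ^ e = 1 := by
    rw [div_pow, mul_pow, ← pow_mul, mul_comm b e, pow_mul, hW', div_pow,
      div_eq_one_iff_eq (mul_ne_zero (pow_ne_zero _ iA)
        (div_ne_zero (pow_ne_zero _ i1) (pow_ne_zero _ i2)))]
    field_simp
    exact hWE
  obtain ⟨ζ, hζ'⟩ : ∃ ζ : Ω, algebraMap Ω (AlgebraicClosure N) ζ = ι W / (ι A * W' ^ b) := by
    apply mem_of_alg
    refine IsAlgebraic.of_pow he ?_
    rw [hζ]
    exact isAlgebraic_one
  have hWζ : ι W = algebraMap Ω (AlgebraicClosure N) ζ * (ι A * W' ^ b) := by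
    rw [hζ', div_mul_cancel₀ _ (mul_ne_zero iA (pow_ne_zero _ hW0'))]
  have mx : ι x ∈ adjoin Ω {ι x, ι y, W'} := subset_adjoin _ _ (by simp)
  have my : ι y ∈ adjoin Ω {ι x, ι y, W'} := subset_adjoin _ _ (by simp)
  have mW : W' ∈ adjoin Ω {ι x, ι y, W'} := subset_adjoin _ _ (by simp)
  rintro a (rfl | rfl | rfl)
  · exact mx
  · exact my
  · rw [hWζ]
    have hle : adjoin Ω {x, y} ≤ (adjoin Ω {ι x, ι y, W'}).comap ι := by
      rw [adjoin_le_iff]
      rintro b (rfl | rfl)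
      · exact mx
      · exact my
    exact mul_mem (IntermediateField.algebraMap_mem _ _) (mul_mem (hle hA) (pow_mem mW _))

theorem hexc_N {Ω L : Type} [Field Ω] [IsAlgClosed Ω] [Field L] (T : BaseTheory Ω L)
    (f g h : MvPolynomial (Fin 2) Ω) (hf : f.totalDegree ≤ 2) (hg : g.totalDegree ≤ 2)
    (hh : h.totalDegree ≤ 2) {n a b c : ℕ} (hn : 0 < n) (hn' : (n : Ω) ≠ 0)
    (habc : n ∣ a + b + c) {K : Type} [Field K] [Algebra Ω K] (x y w : K)
    (hK : adjoin Ω {x, y, w} = ⊤) (hf0 : val f x y ≠ 0) (hg0 : val g x y ≠ 0)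
    (hh0 : val h x y ≠ 0)
    (hw : w ^ n = val f x y ^ a * val g x y ^ b * val h x y ^ c) (ζ : Ω)
    (σ : K →ₐ[Ω] K) (hζ : IsPrimitiveRoot ζ n) (hx : σ x = x) (hy : σ y = y)
    (hσ : σ w = algebraMap Ω K ζ * w) (ξ : L) (t : T.H 2 K) (hξ : ξ ^ n = 1)
    (hξ' : ξ ^ a = 1 ∨ ξ ^ b = 1 ∨ ξ ^ (a + b) = 1) (ht : T.map 2 σ t = ξ • t) : t = 0 := by
  have mx : x ∈ adjoin Ω {x, y} := subset_adjoin _ _ (by simp)
  have my : y ∈ adjoin Ω {x, y} := subset_adjoin _ _ (by simp)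
  have mf : val f x y ∈ adjoin Ω {x, y} := val_mem f _ mx my
  have mg : val g x y ∈ adjoin Ω {x, y} := val_mem g _ mx my
  have mh : val h x y ∈ adjoin Ω {x, y} := val_mem h _ mx my
  have hwF : w ^ n ∈ adjoin Ω {x, y} := by
    rw [hw]
    exact mul_mem (mul_mem (pow_mem mf _) (pow_mem mg _)) (pow_mem mh _)
  have hw0 : w ≠ 0 := by
    rintro rfl
    rw [zero_pow hn.ne'] at hw
    exact mul_ne_zero (mul_ne_zero (pow_ne_zero _ hf0) (pow_ne_zero _ hg0))
      (pow_ne_zero _ hh0) hw.symm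
  have he0 : ∀ e m : ℕ, n = e * m → 0 < e := by
    intro e m hem
    rcases Nat.eq_zero_or_pos e with h | h
    · rw [hem, h, zero_mul] at hn
      exact absurd hn (lt_irrefl 0)
    · exact h
  have hWe : ∀ e m : ℕ, n = e * m →
      (w ^ m) ^ e = val f x y ^ a * val g x y ^ b * val h x y ^ c := by
    intro e m hem
    rw [← pow_mul, mul_comm m e, ← hem, hw]
  rcases hξ' with hk | hk | hk
  · refine exc_zero T hn hn' hζ x y w hK hw0 hwF σ ⟨hx, hy, hσ⟩ a (fun e m hem he => ?_) ξ hξ hk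
      t ht
    have h1 : e ∣ b + c := by
      have h2 : e ∣ a + b + c := (Dvd.intro m hem.symm).trans habc
      rw [add_assoc] at h2
      exact (Nat.dvd_add_right he).1 h2
    obtain ⟨a', ha'⟩ := he
    obtain ⟨d', hd'⟩ := h1
    refine uni_conics_pow g h hg hh (he0 e m hem) b x y (w ^ m) (val f x y ^ a' * val h x y ^ d')
      (mul_mem (pow_mem mf _) (pow_mem mh _))
      (mul_ne_zero (pow_ne_zero _ hf0) (pow_ne_zero _ hh0)) hg0 hh0 ?_
    rw [hWe e m hem, mul_pow, ← pow_mul, ← pow_mul, mul_comm a' e, mul_comm d' e, ← ha', ← hd',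
      pow_add]
    ring
  · refine exc_zero T hn hn' hζ x y w hK hw0 hwF σ ⟨hx, hy, hσ⟩ b (fun e m hem he => ?_) ξ hξ hk
      t ht
    have h1 : e ∣ a + c := by
      have h2 : e ∣ a + b + c := (Dvd.intro m hem.symm).trans habc
      have h3 : a + b + c = b + (a + c) := by ring
      rw [h3] at h2
      exact (Nat.dvd_add_right he).1 h2
    obtain ⟨a', ha'⟩ := he
    obtain ⟨d', hd'⟩ := h1
    refine uni_conics_pow f h hf hh (he0 e m hem) a x y (w ^ m) (val g x y ^ a' * val h x y ^ d')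
      (mul_mem (pow_mem mg _) (pow_mem mh _))
      (mul_ne_zero (pow_ne_zero _ hg0) (pow_ne_zero _ hh0)) hf0 hh0 ?_
    rw [hWe e m hem, mul_pow, ← pow_mul, ← pow_mul, mul_comm a' e, mul_comm d' e, ← ha', ← hd',
      pow_add]
    ring
  · refine exc_zero T hn hn' hζ x y w hK hw0 hwF σ ⟨hx, hy, hσ⟩ (a + b) (fun e m hem he => ?_) ξ
      hξ hk t ht
    have h1 : e ∣ c := by
      have h2 : e ∣ a + b + c := (Dvd.intro m hem.symm).trans habc
      exact (Nat.dvd_add_right he).1 h2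
    obtain ⟨a', ha'⟩ := he
    obtain ⟨d', hd'⟩ := h1
    refine uni_conics_pow f g hf hg (he0 e m hem) a x y (w ^ m) (val g x y ^ a' * val h x y ^ d')
      (mul_mem (pow_mem mg _) (pow_mem mh _))
      (mul_ne_zero (pow_ne_zero _ hg0) (pow_ne_zero _ hh0)) hf0 hg0 ?_
    rw [hWe e m hem, mul_pow, ← pow_mul, ← pow_mul, mul_comm a' e, mul_comm d' e, ← ha', ← hd',
      pow_add]
    ring

/-- exponents equal to zero -/
theorem exists_ne_zero {Ω : Type} [Field Ω] (f : MvPolynomial (Fin 2) Ω) (hf : f.totalDegree ≤ 2)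
    (a : ℕ) {K : Type} [Field K] [Algebra Ω K] (x y : K) (h0 : val f x y ^ a ≠ 0) :
    ∃ f' : MvPolynomial (Fin 2) Ω, f'.totalDegree ≤ 2 ∧ val f' x y ≠ 0 ∧
      val f' x y ^ a = val f x y ^ a := by
  by_cases ha : a = 0
  · subst ha
    refine ⟨1, by simp, ?_, by simp⟩
    unfold Pool.Agent.Helper75.TC.val
    rw [map_one]
    exact one_ne_zero
  · refine ⟨f, hf, ?_, rfl⟩
    intro h
    rw [h, zero_pow ha] at h0
    exact h0 rfl

end Pool.Agent.Helper40.SD
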