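import Pool.Agent.Helper40.SD.ConeTwo
import Pool.Agent.Helper40.SD.Inp

/-!
# Elliptic towers `y² = h(x, wⁿ)`, `deg h ≤ 3`: the geometric inputs

`v (1 - v) = sⁿ wⁿ`: `y² = h(x, s⁻ⁿ v (1 - v))` is a double cover of the quadric cone over the
algebraic closure of `Ω(s)`, with weights `1` for `v` and `2` for `x`.
-/

set_option autoImplicit false

namespace Pool.Agent.Helper40.SD

open IntermediateField Pool.Agent.Helper75.QC

/-- the generators of a subfield -/
theorem range_top {Ω N : Type} [Field Ω] [Field N] [Algebra Ω N] (x y r : N)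
    (mx : x ∈ (adjoin Ω {x, y, r} : IntermediateField Ω N))
    (my : y ∈ (adjoin Ω {x, y, r} : IntermediateField Ω N))
    (mr : r ∈ (adjoin Ω {x, y, r} : IntermediateField Ω N)) :
    adjoin Ω (Set.range ![(⟨x, mx⟩ : (adjoin Ω {x, y, r} : IntermediateField Ω N)), ⟨y, my⟩] ∪
      {(⟨r, mr⟩ : (adjoin Ω {x, y, r} : IntermediateField Ω N))}) = ⊤ := by
  obtain ⟨K, hK⟩ : ∃ K, K = (adjoin Ω {x, y, r} : IntermediateField Ω N) := ⟨_, rfl⟩
  apply lift_injective (adjoin Ω {x, y, r} : IntermediateField Ω N)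
  rw [lift_top, lift_adjoin]
  congr 1
  ext a
  simp only [Set.image_union, Set.image_singleton, Set.mem_union, Set.mem_image,
    Set.mem_range, Set.mem_singleton_iff, Set.mem_insert_iff]
  constructor
  · rintro (⟨b, ⟨i, rfl⟩, rfl⟩ | rfl)
    · fin_cases i
      · exact Or.inl rfl
      · exact Or.inr (Or.inl rfl)
    · exact Or.inr (Or.inr rfl)
  · rintro (rfl | rfl | rfl)
    · exact Or.inl ⟨_, ⟨0, rfl⟩, rfl⟩
    · exact Or.inl ⟨_, ⟨1, rfl⟩, rfl⟩
    · exact Or.inr rfl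

theorem uni_cone_adjoin {Ω N : Type} [Field Ω] [IsAlgClosed Ω] [Field N] [Algebra Ω N]
    (h2 : (2 : Ω) ≠ 0) (B : MvPolynomial (Fin 2) Ω) (hB : WDeg 6 B) (x y r : N)
    (hr : r ^ 2 = MvPolynomial.aeval ![x, y] B) :
    Uniruled Ω (adjoin Ω {x, y, r} : IntermediateField Ω N) 2 := by
  have mx : x ∈ (adjoin Ω {x, y, r} : IntermediateField Ω N) := subset_adjoin _ _ (by simp)
  have my : y ∈ (adjoin Ω {x, y, r} : IntermediateField Ω N) := subset_adjoin _ _ (by simp)
  have mr : r ∈ (adjoin Ω {x, y, r} : IntermediateField Ω N) := subset_adjoin _ _ (by simp)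
  refine uni_cone h2 B hB _ _ ?_ (range_top x y r mx my mr)
  apply Subtype.ext
  change r ^ 2 = (adjoin Ω {x, y, r} : IntermediateField Ω N).val
    (MvPolynomial.aeval ![⟨x, mx⟩, ⟨y, my⟩] B)
  rw [map_aeval75 (adjoin Ω {x, y, r} : IntermediateField Ω N).val ⟨x, mx⟩ ⟨y, my⟩ B]
  exact hr

/-- `v (1 - v) = B(x, y)`, every characteristic -/
theorem uni_cone_kernel {Ω N : Type} [Field Ω] [IsAlgClosed Ω] [Field N] [Algebra Ω N]
    (B : MvPolynomial (Fin 2) Ω) (hB : WDeg 6 B) (x y v : N)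
    (hv : v * (1 - v) = MvPolynomial.aeval ![x, y] B) :
    Uniruled Ω (adjoin Ω {x, y, v} : IntermediateField Ω N) 2 := by
  by_cases h2 : (2 : Ω) = 0
  · have h2N : (2 : N) = 0 := by
      have := congrArg (algebraMap Ω N) h2
      rwa [map_ofNat, map_zero] at this
    have mx : x ∈ (adjoin Ω {x, y, v} : IntermediateField Ω N) := subset_adjoin _ _ (by simp)
    have my : y ∈ (adjoin Ω {x, y, v} : IntermediateField Ω N) := subset_adjoin _ _ (by simp)
    have mv : v ∈ (adjoin Ω {x, y, v} : IntermediateField Ω N) := subset_adjoin _ _ (by simp)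
    refine uni_cone_two h2 B hB _ _ ?_ (range_top x y v mx my mv)
    apply Subtype.ext
    change v ^ 2 + v = (adjoin Ω {x, y, v} : IntermediateField Ω N).val
      (MvPolynomial.aeval ![⟨x, mx⟩, ⟨y, my⟩] B)
    rw [map_aeval75 (adjoin Ω {x, y, v} : IntermediateField Ω N).val ⟨x, mx⟩ ⟨y, my⟩ B]
    change v ^ 2 + v = MvPolynomial.aeval ![x, y] B
    rw [← hv]
    linear_combination v ^ 2 * h2N
  · have h2N : (2 : N) ≠ 0 := by
      intro h
      apply h2
      apply (algebraMap Ω N).injective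
      rw [map_ofNat, map_zero, h]
    have hU := uni_cone_adjoin h2 (MvPolynomial.C 1 + MvPolynomial.C (-4) * B)
      (((WDeg.C _).mono (by norm_num)).add (((WDeg.C _).mul hB).mono (by norm_num))) x y
      (1 - 2 * v) (by
        rw [map_add, map_mul, MvPolynomial.aeval_C, MvPolynomial.aeval_C, ← hv, map_one, map_neg,
          map_ofNat]
        ring)
    refine uniruled_adjoin (AlgHom.id Ω N) _ _ ?_ hU
    rintro a (rfl | rfl | rfl)
    · exact subset_adjoin _ _ (by simp)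
    · exact subset_adjoin _ _ (by simp)
    · change a ∈ adjoin Ω {x, y, 1 - 2 * a}
      have h3 : 1 - 2 * a ∈ adjoin Ω {x, y, 1 - 2 * a} := subset_adjoin _ _ (by simp)
      have h4 : a = (1 - (1 - 2 * a)) / 2 := by
        field_simp
        ring
      have h5 : (2 : N) ∈ adjoin Ω {x, y, 1 - 2 * a} := by
        exact_mod_cast (adjoin Ω {x, y, 1 - 2 * a}).natCast_mem 2
      have h6 := div_mem (sub_mem (one_mem _) h3) h5
      rw [← h4] at h6
      exact h6

/-- the threefold `v (1 - v) = s^n f(x, y)` -/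
theorem uni_cone_family {Ω N : Type} [Field Ω] [IsAlgClosed Ω] [Field N] [Algebra Ω N]
    (f : MvPolynomial (Fin 2) Ω) (hf : WDeg 6 f) (n : ℕ) (x y v s : N)
    (hv : v * (1 - v) = s ^ n * MvPolynomial.aeval ![x, y] f) :
    Uniruled Ω (adjoin Ω {x, y, v, s} : IntermediateField Ω N) 3 := by
  obtain ⟨ι, -⟩ : ∃ i : N →ₐ[Ω] AlgebraicClosure N,
      i = IsScalarTower.toAlgHom Ω N (AlgebraicClosure N) := ⟨_, rfl⟩
  have hset : ({x, y, v, s} : Set N) = insert s {x, y, v} := by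
    ext a
    simp only [Set.mem_insert_iff, Set.mem_singleton_iff]
    tauto
  rw [hset]
  refine uni_family ι s {x, y, v} ?_
  have ms : ι s ∈ AF Ω {ι s} := subset_AF _ (by simp)
  have himg : ι '' {x, y, v} = {ι x, ι y, ι v} := by
    rw [Set.image_insert_eq, Set.image_insert_eq, Set.image_singleton]
  rw [himg]
  set σ : AF Ω {ι s} := ⟨ι s, ms⟩ with hσ
  refine uni_cone_kernel (MvPolynomial.C (σ ^ n) *
    MvPolynomial.map (algebraMap Ω (AF Ω {ι s})) f)
    (((WDeg.C _).mul (hf.map _)).mono (by norm_num)) (ι x) (ι y) (ι v) ?_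
  rw [map_mul, MvPolynomial.aeval_C, MvPolynomial.aeval_map_algebraMap, ← map_aeval75 ι x y f]
  have h3 := congrArg ι hv
  rw [map_mul, map_sub, map_one, map_mul, map_pow] at h3
  exact h3

/-- substitution of `(X₁, c X₀ (1 - X₀))` or of `(X₁, X₀ ^ 2)` in a polynomial of degree three -/
theorem wdeg_subst {R R' : Type} [CommRing R] [CommRing R'] [Algebra R R']
    (h : MvPolynomial (Fin 2) R) (hh : h.totalDegree ≤ 3) (P Q : MvPolynomial (Fin 2) R')
    (hP : WDeg 2 P) (hQ : WDeg 2 Q) :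
    WDeg 6 (MvPolynomial.aeval ![P, Q] h : MvPolynomial (Fin 2) R') := by
  classical
  rw [MvPolynomial.aeval_def, MvPolynomial.eval₂_eq']
  have key : ∀ (s : Finset (Fin 2 →₀ ℕ)) (F : (Fin 2 →₀ ℕ) → MvPolynomial (Fin 2) R'),
      (∀ m ∈ s, WDeg 6 (F m)) → WDeg 6 (∑ m ∈ s, F m) := by
    intro s F hF
    induction s using Finset.induction_on with
    | empty =>
      intro m hm
      simp at hm
    | insert a s ha ih =>
      rw [Finset.sum_insert ha]
      exact (hF a (Finset.mem_insert_self _ _)).add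
        (ih fun m hm => hF m (Finset.mem_insert_of_mem hm))
  refine key _ _ fun m hm => ?_
  have h1 := MvPolynomial.le_totalDegree hm
  rw [Finsupp.sum_fintype _ _ (by simp), Fin.sum_univ_two] at h1
  rw [Fin.prod_univ_two]
  have h2 : WDeg (0 + (2 * m 0 + 2 * m 1)) (algebraMap R (MvPolynomial (Fin 2) R')
      (h.coeff m) * (P ^ m 0 * Q ^ m 1)) := by
    refine WDeg.mul ?_ ((hP.pow _).mul (hQ.pow _))
    rw [IsScalarTower.algebraMap_apply R R' (MvPolynomial (Fin 2) R')]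
    exact WDeg.C _
  exact h2.mono (by omega)

theorem aeval_subst {R R' A : Type} [CommRing R] [CommRing R'] [CommRing A] [Algebra R R']
    [Algebra R A] [Algebra R' A] [IsScalarTower R R' A] (h : MvPolynomial (Fin 2) R)
    (P Q : MvPolynomial (Fin 2) R') (x y : A) :
    MvPolynomial.aeval ![x, y] (MvPolynomial.aeval ![P, Q] h : MvPolynomial (Fin 2) R') =
      MvPolynomial.aeval ![MvPolynomial.aeval ![x, y] P, MvPolynomial.aeval ![x, y] Q] h := by
  have : ((MvPolynomial.aeval (R := R') ![x, y]).restrictScalars R).comp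
      (MvPolynomial.aeval ![P, Q]) =
      MvPolynomial.aeval ![MvPolynomial.aeval ![x, y] P, MvPolynomial.aeval ![x, y] Q] := by
    ext i
    fin_cases i <;> simp
  exact DFunLike.congr_fun this h

/-- **The threefold of an elliptic tower.** -/
theorem uni_tower {Ω N : Type} [Field Ω] [IsAlgClosed Ω] [Field N] [Algebra Ω N]
    (h2 : (2 : Ω) ≠ 0) (h : MvPolynomial (Fin 2) Ω) (hh : h.totalDegree ≤ 3) (n : ℕ)
    (x y v s : N) (hy : y ^ 2 = MvPolynomial.aeval ![x, v * (1 - v) / s ^ n] h) :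
    Uniruled Ω (adjoin Ω {x, y, v, s} : IntermediateField Ω N) 3 := by
  obtain ⟨ι, -⟩ : ∃ i : N →ₐ[Ω] AlgebraicClosure N,
      i = IsScalarTower.toAlgHom Ω N (AlgebraicClosure N) := ⟨_, rfl⟩
  have hset : ({x, y, v, s} : Set N) = insert s {v, x, y} := by
    ext a
    simp only [Set.mem_insert_iff, Set.mem_singleton_iff]
    tauto
  rw [hset]
  refine uni_family ι s {v, x, y} ?_
  have ms : ι s ∈ AF Ω {ι s} := subset_AF _ (by simp)
  have himg : ι '' {v, x, y} = {ι v, ι x, ι y} := by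
    rw [Set.image_insert_eq, Set.image_insert_eq, Set.image_singleton]
  rw [himg]
  have h2' : (2 : AF Ω {ι s}) ≠ 0 := by
    intro h
    apply h2
    apply (algebraMap Ω (AF Ω {ι s})).injective
    rw [map_ofNat, map_zero, h]
  set σ : AF Ω {ι s} := ⟨ι s, ms⟩ with hσ
  refine uni_cone_adjoin h2' (MvPolynomial.aeval ![MvPolynomial.X 1,
    MvPolynomial.C ((σ ^ n)⁻¹) * (MvPolynomial.X 0 * (1 - MvPolynomial.X 0))] h)
    (wdeg_subst h hh _ _ WDeg.X1 ?_) (ι v) (ι x) (ι y) ?_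
  · have h3 : WDeg 1 (1 - MvPolynomial.X 0 : MvPolynomial (Fin 2) (AF Ω {ι s})) := by
      have h4 : (1 - MvPolynomial.X 0 : MvPolynomial (Fin 2) (AF Ω {ι s})) =
          MvPolynomial.C 1 + MvPolynomial.C (-1) * MvPolynomial.X 0 := by
        rw [map_one, map_neg, map_one]
        ring
      rw [h4]
      exact ((WDeg.C _).mono (by norm_num)).add (((WDeg.C _).mul WDeg.X0).mono (by norm_num))
    exact ((WDeg.C _).mul (WDeg.X0.mul h3)).mono (by norm_num)
  · rw [aeval_subst]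
    rw [← map_pow, hy, map_aeval75]
    congr 2
    funext i
    fin_cases i
    · simp
    · have h5 : MvPolynomial.aeval ![ι v, ι x] (MvPolynomial.C ((σ ^ n)⁻¹) *
          (MvPolynomial.X 0 * (1 - MvPolynomial.X 0)) : MvPolynomial (Fin 2) (AF Ω {ι s})) =
          ι (v * (1 - v) / s ^ n) := by
        rw [map_mul, map_mul, map_sub, map_one, MvPolynomial.aeval_C, MvPolynomial.aeval_X,
          map_div₀, map_mul, map_sub, map_one, map_pow]
        change ((ι s) ^ n)⁻¹ * (ι v * (1 - ι v)) = _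
        rw [div_eq_inv_mul]
      exact h5.symm

/-- `y² = h(x, W²)`, `deg h ≤ 3` -/
theorem uni_tower_two {Ω N : Type} [Field Ω] [IsAlgClosed Ω] [Field N] [Algebra Ω N]
    (h2 : (2 : Ω) ≠ 0) (h : MvPolynomial (Fin 2) Ω) (hh : h.totalDegree ≤ 3)
    (x y W : N) (hy : y ^ 2 = MvPolynomial.aeval ![x, W ^ 2] h) :
    Uniruled Ω (adjoin Ω {W, x, y} : IntermediateField Ω N) 2 := by
  refine uni_cone_adjoin h2 (MvPolynomial.aeval ![MvPolynomial.X 1, MvPolynomial.X 0 ^ 2] h)
    (wdeg_subst h hh _ _ WDeg.X1 (WDeg.X0.pow 2)) W x y ?_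
  rw [aeval_subst, hy]
  congr 2
  funext i
  fin_cases i <;> simp

/-! ### cyclic covers of the quadric cone: `w^n = f(x, y)`, `f` of degree `≤ 6` for the weights
`(1, 2)` -/

theorem huni_D1 {Ω : Type} [Field Ω] [IsAlgClosed Ω] (f : MvPolynomial (Fin 2) Ω)
    (hf : WDeg 6 f) {n : ℕ} {K : Type} [Field K] [Algebra Ω K] (x y w : K)
    (hw : w ^ n = MvPolynomial.aeval ![x, y] f) (N : Type) [Field N] [Algebra Ω N]
    (ι : K →ₐ[Ω] N) (v s : N) (hs : v ^ 1 * (1 - v) ^ 1 = s ^ n * ι w ^ n) :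
    Uniruled Ω (adjoin Ω {ι x, ι y, v, s} : IntermediateField Ω N) 3 := by
  refine uni_cone_family f hf n (ι x) (ι y) v s ?_
  rw [pow_one, pow_one] at hs
  rw [hs, ← map_pow, hw, map_aeval75]

theorem hexc_D1 {Ω L : Type} [Field Ω] [IsAlgClosed Ω] [Field L] (T : BaseTheory Ω L)
    (f : MvPolynomial (Fin 2) Ω) (hf : WDeg 6 f) {n : ℕ}
    (hn : 0 < n) (hn' : (n : Ω) ≠ 0) {K : Type} [Field K] [Algebra Ω K] (x y w : K)
    (hK : adjoin Ω {x, y, w} = ⊤) (hw0 : w ≠ 0)
    (hw : w ^ n = MvPolynomial.aeval ![x, y] f) (ζ : Ω) (σ : K →ₐ[Ω] K)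
    (hζ : IsPrimitiveRoot ζ n) (hx : σ x = x) (hy : σ y = y)
    (hσ : σ w = algebraMap Ω K ζ * w) (ξ : L) (t : T.H 2 K) (hξ : ξ ^ n = 1)
    (hξ' : ξ ^ 1 = 1 ∨ ξ ^ 1 = 1 ∨ ξ ^ (1 + 1) = 1) (ht : T.map 2 σ t = ξ • t) : t = 0 := by
  have hwF : w ^ n ∈ adjoin Ω {x, y} := by
    rw [hw]
    exact aeval_mem75 x y f
  have h2 : ξ ^ 2 = 1 := by
    rcases hξ' with h | h | h
    · rw [pow_one] at h
      rw [h, one_pow]
    · rw [pow_one] at h
      rw [h, one_pow]
    · exact h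
  refine exc_zero T hn hn' hζ x y w hK hw0 hwF σ ⟨hx, hy, hσ⟩ 2 (fun e m hem he => ?_) ξ hξ h2 t ht
  rcases (Nat.dvd_prime Nat.prime_two).1 he with h | h
  · rw [h, one_mul] at hem
    rw [← hem]
    exact uni_plane75 x y _ hwF
  · subst h
    refine uni_cone_adjoin ?_ f hf x y (w ^ m) ?_
    · intro h
      apply hn'
      rw [hem]
      push_cast
      rw [h, zero_mul]
    · rw [← pow_mul, mul_comm m 2, ← hem, hw]

end Pool.Agent.Helper40.SD
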