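import Pool.Agent.Helper40.SD.PairTwo
import Pool.Agent.Helper40.SD.Inp

/-!
# Surfaces `V² + q(x, y) V + P(x, y) = 0`, characteristic two, and the threefolds
`v (1 - v) q(x, y)² = sⁿ f(x, y)`
-/

set_option autoImplicit false

namespace Pool.Agent.Helper40.SD

open IntermediateField Pool.Agent.Helper75.QC Pool.Agent.Helper75.TC

/-- a polynomial of bounded degree along a line -/
theorem onLine_sum {Ω E : Type} [Field Ω] [Field E] [Algebra Ω E] (M : IntermediateField Ω E)
    (A : MvPolynomial (Fin 2) Ω) (k : ℕ) (hA : A.totalDegree ≤ k) (P d : Fin 2 → M) (t : E) :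
    MvPolynomial.aeval (fun i => (P i : E) + d i * t) A = ∑ j ∈ Finset.range (k + 1),
      ((onLine (MvPolynomial.map (algebraMap Ω M) A) P d).coeff j : M) * t ^ j := by
  rw [← aeval_onLine, Polynomial.aeval_eq_sum_range' (n := k + 1)]
  · simp only [Algebra.smul_def, IntermediateField.algebraMap_apply]
  · have := natDegree_onLine (MvPolynomial.map (algebraMap Ω M) A)
      ((totalDegree_map_le _ _).trans hA) P d
    omega

/-- **The surfaces `V² + q V + A = 0`** in characteristic two -/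
theorem uni_dp2_two {Ω K : Type} [Field Ω] [IsAlgClosed Ω] [Field K] [Algebra Ω K]
    (h2 : (2 : Ω) = 0) (A B : MvPolynomial (Fin 2) Ω) (hA : A.totalDegree ≤ 4)
    (hB : B.totalDegree ≤ 2) (hD : B ≠ 0) (x : Fin 2 → K) (z : K)
    (hz : z ^ 2 + MvPolynomial.aeval x B * z + MvPolynomial.aeval x A = 0)
    (hgen : adjoin Ω (Set.range x ∪ {z}) = ⊤) : Uniruled Ω K 2 := by
  classical
  have hmem : ∀ B : MvPolynomial (Fin 2) Ω,
      MvPolynomial.aeval x B ∈ AF Ω (Set.range x) := by
    intro B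
    have h1 : MvPolynomial.aeval x B ∈ (MvPolynomial.aeval (R := Ω) x).range := ⟨B, rfl⟩
    rw [← Algebra.adjoin_range_eq_range_aeval] at h1
    exact adjoin_le_iff.2 (subset_AF _) (algebra_adjoin_le_adjoin Ω _ h1)
  have hK : ∀ k : K, IsAlgebraic (adjoin Ω (Set.range x)) k := by
    intro k
    have h1 : adjoin Ω (Set.range x ∪ {z}) ≤ AF Ω (Set.range x) := by
      rw [adjoin_le_iff, Set.union_subset_iff, Set.singleton_subset_iff]
      refine ⟨subset_AF _, AF_closed ?_⟩
      refine ⟨Polynomial.X ^ 2 + Polynomial.C (⟨_, hmem B⟩) *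
        Polynomial.X + Polynomial.C (⟨_, hmem A⟩), ?_, ?_⟩
      · intro h3
        have := congrArg (fun p => Polynomial.coeff p 2) h3
        simp at this
      · simp only [map_add, map_mul, map_pow, Polynomial.aeval_C, Polynomial.aeval_X,
          IntermediateField.algebraMap_apply]
        exact hz
    rw [hgen] at h1
    exact mem_AF.1 (h1 trivial)
  by_cases hx : AlgebraicIndependent Ω x
  swap
  · exact uniruled_of_dep x hx hK
  -- the generic case
  let E := AlgebraicClosure K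
  set x' : Fin 2 → E := fun i => algebraMap K E (x i) with hx'
  have hx'i : AlgebraicIndependent Ω x' := by
    have := hx.map' (f := (IsScalarTower.toAlgHom Ω K E)) (algebraMap K E).injective
    exact this
  obtain ⟨k, hk⟩ := exists_const2 _ hD x' hx'i (x' 0 ^ 2)
  set S : Finset E := {x' 0} with hS
  have hSE : (S : Set E) = {x' 0} := by simp [hS]
  set M : IntermediateField Ω E := AF Ω (S : Set E) with hM
  have ht : Transcendental M (x' 1) := by
    have := trans_AF2 x' hx'i
    rw [hM, hSE]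
    exact this
  have m0 : x' 0 ∈ M := subset_AF _ (by simp [hS])
  let P : Fin 2 → M := ![⟨x' 0, m0⟩, (⟨x' 0, m0⟩ : M) ^ 2 + algebraMap Ω M k]
  have hPE : ![x' 0, x' 0 ^ 2 + algebraMap Ω E k] = algebraMap M E ∘ P := by
    funext i
    fin_cases i
    · rfl
    · rfl
  set A' := MvPolynomial.map (algebraMap Ω M) A with hA'
  set B' := MvPolynomial.map (algebraMap Ω M) B with hB'
  have hev : ∀ G : MvPolynomial (Fin 2) Ω,
      MvPolynomial.eval P (MvPolynomial.map (algebraMap Ω M) G) = MvPolynomial.aeval P G := by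
    intro G
    rw [MvPolynomial.eval_map, MvPolynomial.aeval_def]
  have hDP : MvPolynomial.eval P B' ≠ 0 := by
    intro h0
    apply hk
    rw [hB', hev] at h0
    rw [hPE, MvPolynomial.aeval_algebraMap_apply, h0, map_zero]
  obtain ⟨d, s, hd, e1, e2⟩ := exists_singular_two B' A' P hDP
  -- the generic point of the plane
  set x'' : Fin 2 → E := fun i => (P i : E) + d i * x' 1 with hx''
  set φ : Polynomial Ω := Polynomial.X ^ 2 + Polynomial.C k with hφ
  set L : MvPolynomial (Fin 2) Ω :=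
    MvPolynomial.X 1 - Polynomial.aeval (MvPolynomial.X 0) φ with hL
  have hLv : ∀ (A : Type) [Field A] [Algebra Ω A] (y : Fin 2 → A), MvPolynomial.aeval y L =
      y 1 - y 0 ^ 2 - algebraMap Ω A k := by
    intro A _ _ y
    simp only [hL, hφ, map_sub, map_add, map_pow, Polynomial.aeval_X, Polynomial.aeval_C,
      MvPolynomial.aeval_X, MvPolynomial.algebraMap_eq, MvPolynomial.aeval_C]
    ring
  have hLt : MvPolynomial.aeval x'' L ≠ 0 := by
    intro h0
    rw [hLv] at h0
    have h1 := three_coeff (E := E) ht (d 1 - 2 * P 0 * d 0) (-(d 0) ^ 2) 0 (by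
        rw [← h0]
        have e0 : x'' 0 = x' 0 + d 0 * x' 1 := rfl
        have e1 : x'' 1 = x' 0 ^ 2 + algebraMap Ω E k + d 1 * x' 1 := rfl
        have p0 : ((P 0 : M) : E) = x' 0 := rfl
        rw [e0, e1]
        simp only [map_sub, map_mul, map_pow, map_neg, map_ofNat, map_zero,
          IntermediateField.algebraMap_apply, p0]
        ring)
    obtain ⟨h2, h3, -⟩ := h1
    have d0 : d 0 = 0 := by
      apply eq_zero_of_pow_eq_zero (n := 2)
      linear_combination -h3
    rw [d0] at h2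
    apply hd
    funext i
    fin_cases i
    · exact d0
    · simpa using h2
  have hind : AlgebraicIndependent Ω x'' := by
    refine indep_line M P d (x' 1) ht L ?_ ?_ hLt
    · rw [hLv]
      change ((⟨x' 0, m0⟩ : M) ^ 2 + algebraMap Ω M k) -
        (⟨x' 0, m0⟩ : M) ^ 2 - algebraMap Ω M k = 0
      ring
    · intro G hG
      have ha : Transcendental Ω (P 0) := by
        have h1 : Transcendental Ω (x' 0) := hx'i.transcendental 0
        intro h2
        exact h1 (h2.algebraMap (A := E))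
      exact dvd_of_graph2 P φ ha (by
        simp only [hφ, map_add, map_pow, Polynomial.aeval_X, Polynomial.aeval_C]
        rfl) G hG
  obtain ⟨g, hg⟩ := exists_embedding x hx hK x'' hind
  have hgz : g z ^ 2 + MvPolynomial.aeval x'' B * g z + MvPolynomial.aeval x'' A = 0 := by
    have h1 := congrArg g hz
    rw [map_zero, map_add, map_add, map_mul, map_pow,
      MvPolynomial.comp_aeval_apply, MvPolynomial.comp_aeval_apply] at h1
    have h2 : (fun i => g (x i)) = x'' := funext hg
    rw [h2] at h1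
    exact h1
  rw [onLine_sum M A 4 hA P d, onLine_sum M B 2 hB P d] at hgz
  have h2M : (2 : M) = 0 := by
    have := congrArg (algebraMap Ω M) h2
    rwa [map_ofNat, map_zero] at this
  obtain ⟨θ, hθ⟩ := singular_param M h2M (fun j => (onLine B' P d).coeff j)
    (fun j => (onLine A' P d).coeff j) s e1 e2 (x' 1) (g z) ht (by
      rw [← hgz]
      simp only [Finset.sum_range_succ, Finset.sum_range_zero]
      ring)
  refine ⟨E, inferInstance, inferInstance, g, S, θ, ?_, fun k => ?_⟩
  · rw [hS]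
    simp
  · set F := adjoin Ω (Acl Ω (S : Set E) ∪ {θ}) with hF
    have hMF : M ≤ F := by
      intro a ha
      exact subset_adjoin _ _ (Or.inl (mem_AF.1 ha))
    have hθF : θ ∈ F := subset_adjoin _ _ (Or.inr rfl)
    obtain ⟨h1, h2⟩ := hθ F hMF hθF
    have h3 : adjoin Ω (Set.range x ∪ {z}) ≤ F.comap g := by
      rw [adjoin_le_iff, Set.union_subset_iff, Set.singleton_subset_iff]
      constructor
      · rintro _ ⟨i, rfl⟩
        change g (x i) ∈ F
        rw [hg i]
        exact F.add_mem (hMF (P i).2) (F.mul_mem (hMF (d i).2) h1)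
      · exact h2
    rw [hgen] at h3
    exact h3 trivial


/-- **The threefolds `v (1 - v) q² = sⁿ f`**, `deg q ≤ 2`, `deg f ≤ 4`, characteristic two -/
theorem uni_pair_two {Ω N : Type} [Field Ω] [IsAlgClosed Ω] [Field N] [Algebra Ω N]
    (h2 : (2 : Ω) = 0) (f q : MvPolynomial (Fin 2) Ω) (hf : f.totalDegree ≤ 4)
    (hq : q.totalDegree ≤ 2) (n : ℕ) (x y v s : N) (hq0 : MvPolynomial.aeval ![x, y] q ≠ 0)
    (hv : v * (1 - v) * MvPolynomial.aeval ![x, y] q ^ 2 =
      s ^ n * MvPolynomial.aeval ![x, y] f) :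
    Uniruled Ω (adjoin Ω {x, y, v, s} : IntermediateField Ω N) 3 := by
  obtain ⟨ι, -⟩ : ∃ i : N →ₐ[Ω] AlgebraicClosure N,
      i = IsScalarTower.toAlgHom Ω N (AlgebraicClosure N) := ⟨_, rfl⟩
  obtain ⟨r, hr⟩ : ∃ r : N, r = v * MvPolynomial.aeval ![x, y] q := ⟨_, rfl⟩
  have hN2 : (2 : N) = 0 := by
    have := congrArg (algebraMap Ω N) h2
    rwa [map_ofNat, map_zero] at this
  have hr2 : r ^ 2 + MvPolynomial.aeval ![x, y] q * r + s ^ n * MvPolynomial.aeval ![x, y] f =
      0 := by
    rw [← hv, hr]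
    linear_combination v * MvPolynomial.aeval ![x, y] q ^ 2 * hN2
  have ms : ι s ∈ AF Ω {ι s} := subset_AF _ (by simp)
  have h2' : (2 : AF Ω {ι s}) = 0 := by
    have := congrArg (algebraMap Ω (AF Ω {ι s})) h2
    rwa [map_ofNat, map_zero] at this
  obtain ⟨σ, hσ⟩ : ∃ σ : AF Ω {ι s}, (σ : AlgebraicClosure N) = ι s := ⟨⟨ι s, ms⟩, rfl⟩
  have hq1 : q ≠ 0 := by
    rintro rfl
    exact hq0 (map_zero _)
  have h3 : Uniruled Ω (adjoin Ω (insert s {x, y, r}) : IntermediateField Ω N) 3 := by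
    refine uni_family ι s {x, y, r} ?_
    rw [Set.image_insert_eq, Set.image_insert_eq, Set.image_singleton]
    set G := (adjoin (AF Ω {ι s}) {ι x, ι y, ι r} :
      IntermediateField (AF Ω {ι s}) (AlgebraicClosure N)) with hG
    have mx : ι x ∈ G := subset_adjoin _ _ (by simp)
    have my : ι y ∈ G := subset_adjoin _ _ (by simp)
    have mr : ι r ∈ G := subset_adjoin _ _ (by simp)
    have hev : ∀ B : MvPolynomial (Fin 2) (AF Ω {ι s}),
        ((MvPolynomial.aeval ![(⟨ι x, mx⟩ : G), ⟨ι y, my⟩] B : G) : AlgebraicClosure N) =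
        MvPolynomial.aeval ![ι x, ι y] B := fun B => map_aeval75 G.val (⟨ι x, mx⟩ : G) ⟨ι y, my⟩ B
    refine uni_dp2_two h2' (MvPolynomial.C (σ ^ n) * MvPolynomial.map (algebraMap Ω _) f)
      (MvPolynomial.map (algebraMap Ω _) q) ?_ ((totalDegree_map_le _ _).trans hq) ?_
      ![(⟨ι x, mx⟩ : G), ⟨ι y, my⟩] (⟨ι r, mr⟩ : G) ?_ ?_
    · refine (MvPolynomial.totalDegree_mul _ _).trans ?_
      rw [MvPolynomial.totalDegree_C, zero_add]
      exact (totalDegree_map_le _ _).trans hf
    · intro h0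
      apply hq1
      exact MvPolynomial.map_injective _ (algebraMap Ω (AF Ω {ι s})).injective (by
        rw [h0, map_zero])
    · apply Subtype.ext
      change ι r ^ 2 + ((MvPolynomial.aeval ![(⟨ι x, mx⟩ : G), ⟨ι y, my⟩] _ : G) :
        AlgebraicClosure N) * ι r + ((MvPolynomial.aeval ![(⟨ι x, mx⟩ : G), ⟨ι y, my⟩] _ : G) :
        AlgebraicClosure N) = 0
      rw [hev, hev, map_mul, MvPolynomial.aeval_map_algebraMap,
        MvPolynomial.aeval_map_algebraMap, MvPolynomial.aeval_C, map_pow]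
      have h4 : algebraMap (AF Ω {ι s}) (AlgebraicClosure N) σ = ι s := hσ
      rw [h4, ← map_aeval75, ← map_aeval75, ← map_pow, ← map_pow, ← map_mul, ← map_mul,
        ← map_add, ← map_add, hr2, map_zero]
    · apply lift_injective G
      rw [lift_top, lift_adjoin]
      refine Eq.trans ?_ hG.symm
      congr 1
      ext a
      simp only [Set.image_union, Set.image_singleton, Set.mem_union, Set.mem_image,
        Set.mem_range, Set.mem_singleton_iff, Set.mem_insert_iff]
      constructor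
      · rintro (⟨b, ⟨i, rfl⟩, rfl⟩ | rfl)
        · fin_cases i
          · exact Or.inl rfl
          · exact Or.inr (Or.inl rfl)
        · exact Or.inr (Or.inr rfl)
      · rintro (rfl | rfl | rfl)
        · exact Or.inl ⟨_, ⟨0, rfl⟩, rfl⟩
        · exact Or.inl ⟨_, ⟨1, rfl⟩, rfl⟩
        · exact Or.inr rfl
  refine uniruled_adjoin (AlgHom.id Ω N) _ _ ?_ h3
  set M := (adjoin Ω (insert s {x, y, r}) : IntermediateField Ω N) with hM
  have mx : x ∈ M := subset_adjoin _ _ (by simp)
  have my : y ∈ M := subset_adjoin _ _ (by simp)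
  have mr : r ∈ M := subset_adjoin _ _ (by simp)
  have mss : s ∈ M := subset_adjoin _ _ (by simp)
  rintro a (rfl | rfl | rfl | rfl)
  · exact mx
  · exact my
  · have hqM : MvPolynomial.aeval ![x, y] q ∈ M :=
      (adjoin_le_iff.2 (by rintro b (rfl | rfl) <;> assumption)) (aeval_mem75 x y q)
    have h5 : a = r / MvPolynomial.aeval ![x, y] q := by
      rw [hr]
      field_simp
    change a ∈ M
    rw [h5]
    exact div_mem mr hqM
  · exact mss

/-- the geometric input for `wⁿ g² = f` in characteristic two; the exceptional eigenvalues are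
treated in `hexc_C` -/
theorem huni_R1 {Ω : Type} [Field Ω] [IsAlgClosed Ω] (h2 : (2 : Ω) = 0)
    (f g : MvPolynomial (Fin 2) Ω) (hf : f.totalDegree ≤ 4) (hg : g.totalDegree ≤ 2) {n : ℕ}
    {K : Type} [Field K] [Algebra Ω K] (x y w : K) (hg0 : val g x y ≠ 0)
    (hw : w ^ n * val g x y ^ 2 = val f x y) (N : Type) [Field N] [Algebra Ω N]
    (ι : K →ₐ[Ω] N) (v s : N) (hs : v ^ 1 * (1 - v) ^ 1 = s ^ n * ι w ^ n) :
    Uniruled Ω (adjoin Ω {ι x, ι y, v, s} : IntermediateField Ω N) 3 := by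
  refine uni_pair_two h2 f g hf hg n (ι x) (ι y) v s ?_ ?_
  · rw [← map_aeval75]
    exact (map_ne_zero ι).2 hg0
  · rw [pow_one, pow_one] at hs
    have hw' : w ^ n * MvPolynomial.aeval ![x, y] g ^ 2 = MvPolynomial.aeval ![x, y] f := hw
    rw [← map_aeval75, ← map_aeval75, hs, ← hw', map_mul, map_pow, map_pow]
    ring

/-- exceptional eigenvalues -/
theorem hexc_R1 {Ω L : Type} [Field Ω] [Field L] (T : BaseTheory Ω L) (h2 : (2 : Ω) = 0)
    (f g : MvPolynomial (Fin 2) Ω) {n : ℕ} (hn : 0 < n) (hn' : (n : Ω) ≠ 0) {K : Type} [Field K]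
    [Algebra Ω K] (x y w : K) (hK : adjoin Ω {x, y, w} = ⊤) (hw0 : w ≠ 0)
    (hg0 : val g x y ≠ 0) (hw : w ^ n * val g x y ^ 2 = val f x y) (ζ : Ω)
    (σ : K →ₐ[Ω] K) (hζ : IsPrimitiveRoot ζ n) (hx : σ x = x) (hy : σ y = y)
    (hσ : σ w = algebraMap Ω K ζ * w) (ξ : L) (t : T.H 2 K) (hξ : ξ ^ n = 1)
    (hξ' : ξ ^ 1 = 1 ∨ ξ ^ 1 = 1 ∨ ξ ^ (1 + 1) = 1) (ht : T.map 2 σ t = ξ • t) : t = 0 := by
  have mx : x ∈ adjoin Ω {x, y} := subset_adjoin _ _ (by simp)
  have my : y ∈ adjoin Ω {x, y} := subset_adjoin _ _ (by simp)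
  have hwF : w ^ n ∈ adjoin Ω {x, y} := by
    have h1 : w ^ n = val f x y / val g x y ^ 2 := by
      rw [eq_div_iff (pow_ne_zero _ hg0)]
      exact hw
    rw [h1]
    exact div_mem (val_mem f _ mx my) (pow_mem (val_mem g _ mx my) _)
  refine hexc_C T hn ?_ hn' x y w hK hw0 hwF ζ σ hζ hx hy hσ ξ t hξ hξ' ht
  rintro ⟨m, rfl⟩
  apply hn'
  push_cast
  rw [h2, zero_mul]

end Pool.Agent.Helper40.SD
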