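import Pool.Agent.Helper40.SD.Quad
import Pool.Agent.Helper75.QC.Insep

/-!
# Double planes and double solids with weights

`uni_quad_equiv`: the form of `uni_quad` for polynomials in the variables `ι`. `uni_double`: the
double plane `z² = a(x, y) z + b(x, y)` is uniruled if `a² + 4 b` has degree at most `2 (p + q)`,
where `x` has the degree `p` and `y` has the degree `q`.
-/

set_option autoImplicit false

namespace Pool.Agent.Helper40.SD

open IntermediateField Pool.Agent.Helper75.QC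

theorem uni_quad_equiv {Ω K ι : Type} [Field Ω] [IsAlgClosed Ω] [Field K] [Algebra Ω K]
    [Fintype ι] {k : ℕ} (e : ι ≃ Option (Fin k)) (h2 : (2 : Ω) ≠ 0) (w : ι → ℕ) (D : ℕ)
    (hD : 0 < D) (hDw : D ≤ ∑ i, w i) (a b : MvPolynomial ι Ω)
    (hG : ∀ m ∈ (a ^ 2 + 4 * b).support, ∑ i, m i * w i ≤ 2 * D) (x : ι → K) (r : K)
    (hr : r ^ 2 = MvPolynomial.aeval x a * r + MvPolynomial.aeval x b)
    (hgen : adjoin Ω (Set.range x ∪ {r}) = ⊤) : Uniruled Ω K (k + 1) := by
  classical
  refine uni_quad h2 (w ∘ e.symm) D hD ?_ (MvPolynomial.rename e a) (MvPolynomial.rename e b) ?_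
    (x ∘ e.symm) r ?_ ?_
  · rw [← Equiv.sum_comp e]
    simpa using hDw
  · intro m hm
    have h1 : (MvPolynomial.rename e a) ^ 2 + 4 * MvPolynomial.rename e b =
        MvPolynomial.rename e (a ^ 2 + 4 * b) := by
      rw [map_add, map_mul, map_pow, map_ofNat]
    rw [h1, MvPolynomial.support_rename_of_injective e.injective, Finset.mem_image] at hm
    obtain ⟨m', hm', rfl⟩ := hm
    rw [← Equiv.sum_comp e]
    refine le_trans (le_of_eq ?_) (hG m' hm')
    refine Finset.sum_congr rfl fun i _ => ?_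
    rw [Finsupp.mapDomain_apply e.injective, Function.comp_apply, Equiv.symm_apply_apply]
  · rw [MvPolynomial.aeval_rename, MvPolynomial.aeval_rename]
    have h1 : (x ∘ e.symm) ∘ e = x := by
      funext i
      simp
    rw [h1]
    exact hr
  · rw [e.symm.surjective.range_comp]
    exact hgen

/-- **Double planes.** -/
theorem uni_double {Ω N : Type} [Field Ω] [IsAlgClosed Ω] [Field N] [Algebra Ω N]
    (h2 : (2 : Ω) ≠ 0) {p q D : ℕ} (hp : 0 < p) (hD : D ≤ 2 * (p + q))
    (a b : MvPolynomial (Fin 2) Ω)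
    (hG : ∀ m ∈ (a ^ 2 + 4 * b).support, p * m 0 + q * m 1 ≤ D) (x y z : N)
    (hz : z ^ 2 = MvPolynomial.aeval ![x, y] a * z + MvPolynomial.aeval ![x, y] b) :
    Uniruled Ω (adjoin Ω {x, y, z} : IntermediateField Ω N) 2 := by
  set K := (adjoin Ω {x, y, z} : IntermediateField Ω N) with hK
  have mx : x ∈ K := subset_adjoin _ _ (by simp)
  have my : y ∈ K := subset_adjoin _ _ (by simp)
  have mz : z ∈ K := subset_adjoin _ _ (by simp)
  set X : K := ⟨x, mx⟩ with hX
  set Y : K := ⟨y, my⟩ with hY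
  set Z : K := ⟨z, mz⟩ with hZ
  have hval : ∀ f : MvPolynomial (Fin 2) Ω, ((MvPolynomial.aeval ![X, Y] f : K) : N) =
      MvPolynomial.aeval ![x, y] f := fun f => map_aeval75 K.val X Y f
  refine uni_quad_equiv (finSuccEquiv 1) h2 ![2 * p, 2 * q] (2 * (p + q)) (by omega)
    (by rw [Fin.sum_univ_two]; simp; omega) a b ?_ ![X, Y] Z ?_ ?_
  · intro m hm
    have h1 := hG m hm
    rw [Fin.sum_univ_two]
    simp only [Matrix.cons_val_zero, Matrix.cons_val_one]
    nlinarith
  · apply Subtype.ext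
    change z ^ 2 = ((MvPolynomial.aeval ![X, Y] a : K) : N) * z +
      ((MvPolynomial.aeval ![X, Y] b : K) : N)
    rw [hval, hval, hz]
  · apply lift_injective K
    rw [lift_top, lift_adjoin]
    have h1 : Subtype.val '' (Set.range ![X, Y] ∪ {Z}) = {x, y, z} := by
      ext a
      simp only [Set.mem_image, Set.mem_union, Set.mem_range, Set.mem_singleton_iff,
        Set.mem_insert_iff]
      constructor
      · rintro ⟨b, ⟨i, rfl⟩ | rfl, rfl⟩
        · fin_cases i
          · exact Or.inl rfl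
          · exact Or.inr (Or.inl rfl)
        · exact Or.inr (Or.inr rfl)
      · rintro (rfl | rfl | rfl)
        · exact ⟨X, Or.inl ⟨0, rfl⟩, rfl⟩
        · exact ⟨Y, Or.inl ⟨1, rfl⟩, rfl⟩
        · exact ⟨Z, Or.inr rfl, rfl⟩
    rw [h1]

/-- The double plane `z² = f(x, y)`. -/
theorem uni_double_sq {Ω N : Type} [Field Ω] [IsAlgClosed Ω] [Field N] [Algebra Ω N]
    (h2 : (2 : Ω) ≠ 0) {p q D : ℕ} (hp : 0 < p) (hD : D ≤ 2 * (p + q))
    (f : MvPolynomial (Fin 2) Ω) (hf : ∀ m ∈ f.support, p * m 0 + q * m 1 ≤ D) (x y z : N)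
    (hz : z ^ 2 = MvPolynomial.aeval ![x, y] f) :
    Uniruled Ω (adjoin Ω {x, y, z} : IntermediateField Ω N) 2 := by
  refine uni_double h2 hp hD 0 f (fun m hm => hf m ?_) x y z (by rw [hz]; simp)
  have h1 : (0 : MvPolynomial (Fin 2) Ω) ^ 2 + 4 * f = MvPolynomial.C 4 * f := by
    rw [map_ofNat]
    ring
  rw [h1, MvPolynomial.mem_support_iff, MvPolynomial.coeff_C_mul] at hm
  rw [MvPolynomial.mem_support_iff]
  exact right_ne_zero_of_mul hm

end Pool.Agent.Helper40.SD
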