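import Pool.Agent.Helper40.SD.Gen
import Pool.Agent.Helper75.QC.Insep

/-!
# Nets and pencils of conics
-/

set_option autoImplicit false

namespace Pool.Agent.Helper40.SD

open IntermediateField Pool.Agent.Helper75.QC

/-- a point on a conic over an algebraically closed field `M` -/
theorem conic_curve {Ω E : Type} [Field Ω] [Field E] [Algebra Ω E] (M : IntermediateField Ω E)
    [IsAlgClosed M] (hM : ∀ e : E, IsAlgebraic M e → e ∈ M) (a b c d e f : M)
    (h0 : ¬ (a = 0 ∧ b = 0 ∧ c = 0 ∧ d = 0 ∧ e = 0 ∧ f = 0)) (x y : E)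
    (h : a * x ^ 2 + b * x * y + c * y ^ 2 + d * x + e * y + f = 0) :
    ∃ θ : E, ∀ F : IntermediateField Ω E, M ≤ F → θ ∈ F → x ∈ F ∧ y ∈ F := by
  -- an element which is a root of a quadratic polynomial
  have root : ∀ (p q r : M) (t : E), ¬ (p = 0 ∧ q = 0 ∧ r = 0) → (p : E) * t ^ 2 + q * t + r = 0 →
      t ∈ M := by
    intro p q r t hne ht
    apply hM
    refine ⟨Polynomial.C p * Polynomial.X ^ 2 + Polynomial.C q * Polynomial.X + Polynomial.C r,
      ?_, ?_⟩
    · intro h3
      apply hne
      have e2 := congrArg (fun p => Polynomial.coeff p 2) h3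
      have e1 := congrArg (fun p => Polynomial.coeff p 1) h3
      have e0 := congrArg (fun p => Polynomial.coeff p 0) h3
      simp [Polynomial.coeff_X, Polynomial.coeff_C] at e2 e1 e0
      exact ⟨e2, e1, e0⟩
    · simp only [map_add, map_mul, map_pow, Polynomial.aeval_C, Polynomial.aeval_X,
        IntermediateField.algebraMap_apply]
      exact ht
  by_cases hc : c = 0
  · subst hc
    by_cases hk : (b : E) * x + e = 0
    · have hx : x ∈ M := by
        by_cases hb : b = 0
        · subst hb
          have he : e = 0 := by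
            apply Subtype.ext
            simpa using hk
          subst he
          refine root a d f x (fun h3 => h0 ⟨h3.1, rfl, rfl, h3.2.1, rfl, h3.2.2⟩) ?_
          rw [← h]
          simp
        · refine root 0 b e x (fun h3 => hb h3.2.1) ?_
          rw [← hk]
          simp
      exact ⟨y, fun F hF hθ => ⟨hF hx, hθ⟩⟩
    · refine ⟨x, fun F hF hθ => ⟨hθ, ?_⟩⟩
      have h3 : y = -(a * x ^ 2 + d * x + f) / (b * x + e) := by
        rw [eq_div_iff hk]
        have h4 := h
        simp only [ZeroMemClass.coe_zero, zero_mul, add_zero] at h4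
        linear_combination h4
      rw [h3]
      exact F.div_mem (F.neg_mem (F.add_mem (F.add_mem (F.mul_mem (hF a.2) (pow_mem hθ 2))
        (F.mul_mem (hF d.2) hθ)) (hF f.2))) (F.add_mem (F.mul_mem (hF b.2) hθ) (hF e.2))
  · -- a point at infinity
    obtain ⟨m, hm⟩ : ∃ m : M, a + b * m + c * m ^ 2 = 0 := by
      have h1 : (Polynomial.C c * Polynomial.X ^ 2 + Polynomial.C b * Polynomial.X +
          Polynomial.C a).degree ≠ 0 := by
        rw [Polynomial.degree_quadratic hc]
        norm_num
      obtain ⟨m, hm⟩ := IsAlgClosed.exists_root _ h1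
      refine ⟨m, ?_⟩
      rw [Polynomial.IsRoot.def] at hm
      simp at hm
      linear_combination hm
    have hmE : (a : E) + b * m + c * m ^ 2 = 0 := by
      have := congrArg (algebraMap M E) hm
      rw [map_add, map_add, map_mul, map_mul, map_pow, map_zero] at this
      exact this
    set η : E := y - m * x with hη
    have hy : y = η + m * x := by rw [hη]; ring
    have h1 : x * (η * (b + 2 * c * m) + (d + e * m)) + (c * η ^ 2 + e * η + f) = 0 := by
      rw [hy] at h
      linear_combination h - x ^ 2 * hmE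
    by_cases hk : η * (b + 2 * c * m) + (d + e * m) = 0
    · have hηM : η ∈ M := by
        refine root c e f η (fun h3 => hc h3.1) ?_
        rw [hk, mul_zero, zero_add] at h1
        exact h1
      refine ⟨x, fun F hF hθ => ⟨hθ, ?_⟩⟩
      rw [hy]
      exact F.add_mem (hF hηM) (F.mul_mem (hF m.2) hθ)
    · refine ⟨η, fun F hF hθ => ?_⟩
      have n2 : (2 : E) ∈ F := by exact_mod_cast F.natCast_mem 2
      have hx : x ∈ F := by
        have h3 : x = -(c * η ^ 2 + e * η + f) / (η * (b + 2 * c * m) + (d + e * m)) := by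
          rw [eq_div_iff hk]
          linear_combination h1
        rw [h3]
        exact F.div_mem (F.neg_mem (F.add_mem (F.add_mem (F.mul_mem (hF c.2) (pow_mem hθ 2))
          (F.mul_mem (hF e.2) hθ)) (hF f.2)))
          (F.add_mem (F.mul_mem hθ (F.add_mem (hF b.2) (F.mul_mem (F.mul_mem n2 (hF c.2))
          (hF m.2)))) (F.add_mem (hF d.2) (F.mul_mem (hF e.2) (hF m.2))))
      refine ⟨hx, ?_⟩
      rw [hy]
      exact F.add_mem hθ (F.mul_mem (hF m.2) hx)

/-- the coefficients of a polynomial in two variables -/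
theorem aeval_coeffs {R A : Type} [CommRing R] [CommRing A] [Algebra R A]
    (f : MvPolynomial (Fin 2) R) (k : ℕ) (hf : f.totalDegree ≤ k) (x y : A) :
    MvPolynomial.aeval ![x, y] f = ∑ i ∈ Finset.range (k + 1), ∑ j ∈ Finset.range (k + 1 - i),
      algebraMap R A (f.coeff (Finsupp.single 0 i + Finsupp.single 1 j)) * x ^ i * y ^ j := by
  classical
  rw [MvPolynomial.aeval_def, MvPolynomial.eval₂_eq']
  have h1 : ∀ d ∈ f.support, d = Finsupp.single 0 (d 0) + Finsupp.single 1 (d 1) ∧
      d 0 + d 1 ≤ k := by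
    intro d hd
    constructor
    · ext i
      fin_cases i <;> simp
    · have := MvPolynomial.le_totalDegree hd
      rw [Finsupp.sum_fintype _ _ (by simp), Fin.sum_univ_two] at this
      omega
  rw [Finset.sum_sigma']
  symm
  refine Finset.sum_bij_ne_zero (fun q _ _ => Finsupp.single 0 q.1 + Finsupp.single 1 q.2)
    ?_ ?_ ?_ ?_
  · intro q _ hq
    rw [MvPolynomial.mem_support_iff]
    intro h0
    apply hq
    show algebraMap R A (f.coeff (Finsupp.single 0 q.1 + Finsupp.single 1 q.2)) * x ^ q.1 *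
      y ^ q.2 = 0
    rw [h0]
    simp
  · intro q _ _ q' _ _ h
    have e0 := DFunLike.congr_fun h 0
    have e1 := DFunLike.congr_fun h 1
    simp at e0 e1
    exact Sigma.ext e0 (heq_of_eq e1)
  · intro d hd hne
    obtain ⟨hd1, hd2⟩ := h1 d hd
    refine ⟨⟨d 0, d 1⟩, ?_, ?_, ?_⟩
    · simp only [Finset.mem_sigma, Finset.mem_range]
      omega
    · show algebraMap R A (f.coeff (Finsupp.single 0 (d 0) + Finsupp.single 1 (d 1))) *
        x ^ (d 0) * y ^ (d 1) ≠ 0
      rw [← hd1]
      simpa [Fin.prod_univ_two, mul_assoc] using hne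
    · exact hd1.symm
  · intro q _ hq
    show algebraMap R A (f.coeff (Finsupp.single 0 q.1 + Finsupp.single 1 q.2)) * x ^ q.1 *
      y ^ q.2 = _
    simp [Fin.prod_univ_two, mul_assoc]

/-- a point on a conic over an algebraically closed field `M` -/
theorem conic_point {Ω E : Type} [Field Ω] [Field E] [Algebra Ω E] (M : IntermediateField Ω E)
    [IsAlgClosed M] (hM : ∀ e : E, IsAlgebraic M e → e ∈ M) (Q : MvPolynomial (Fin 2) M)
    (hQ : Q.totalDegree ≤ 2) (hQ0 : Q ≠ 0) (x y : E) (h : MvPolynomial.aeval ![x, y] Q = 0) :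
    ∃ θ : E, ∀ F : IntermediateField Ω E, M ≤ F → θ ∈ F → x ∈ F ∧ y ∈ F := by
  set q : ℕ → ℕ → M := fun i j => Q.coeff (Finsupp.single 0 i + Finsupp.single 1 j) with hq
  refine conic_curve M hM (q 2 0) (q 1 1) (q 0 2) (q 1 0) (q 0 1) (q 0 0) ?_ x y ?_
  · rintro ⟨e1, e2, e3, e4, e5, e6⟩
    apply hQ0
    have h1 := aeval_coeffs Q 2 hQ (MvPolynomial.X 0 : MvPolynomial (Fin 2) M) (MvPolynomial.X 1)
    have h2 : MvPolynomial.aeval ![(MvPolynomial.X 0 : MvPolynomial (Fin 2) M), MvPolynomial.X 1] Q
        = Q := by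
      have : (MvPolynomial.aeval ![(MvPolynomial.X 0 : MvPolynomial (Fin 2) M),
          MvPolynomial.X 1]) = AlgHom.id M (MvPolynomial (Fin 2) M) := by
        ext i
        fin_cases i <;> simp
      rw [this]
      rfl
    rw [h2] at h1
    rw [h1]
    refine Finset.sum_eq_zero fun i hi => Finset.sum_eq_zero fun j hj => ?_
    rw [Finset.mem_range] at hi hj
    have h3 : q i j = 0 := by
      have : (i = 0 ∧ j = 0) ∨ (i = 0 ∧ j = 1) ∨ (i = 0 ∧ j = 2) ∨ (i = 1 ∧ j = 0) ∨
        (i = 1 ∧ j = 1) ∨ (i = 2 ∧ j = 0) := by omega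
      rcases this with ⟨rfl, rfl⟩ | ⟨rfl, rfl⟩ | ⟨rfl, rfl⟩ | ⟨rfl, rfl⟩ | ⟨rfl, rfl⟩ | ⟨rfl, rfl⟩
      all_goals assumption
    change algebraMap M _ (q i j) * _ * _ = 0
    rw [h3, map_zero, zero_mul, zero_mul]
  · have h1 := aeval_coeffs Q 2 hQ x y
    rw [h] at h1
    simp only [Finset.sum_range_succ, Finset.sum_range_zero] at h1
    norm_num [Finset.sum_range_succ] at h1
    have q20 : q 2 0 = Q.coeff (Finsupp.single 0 2) := by simp [hq]
    have q02 : q 0 2 = Q.coeff (Finsupp.single 1 2) := by simp [hq]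
    have q10 : q 1 0 = Q.coeff (Finsupp.single 0 1) := by simp [hq]
    have q01 : q 0 1 = Q.coeff (Finsupp.single 1 1) := by simp [hq]
    have q00 : q 0 0 = Q.coeff 0 := by simp [hq]
    have q11 : q 1 1 = Q.coeff (Finsupp.single 0 1 + Finsupp.single 1 1) := rfl
    rw [q20, q02, q10, q01, q00, q11]
    linear_combination -h1

end Pool.Agent.Helper40.SD
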