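import Pool.Agent.Helper40.SD.CubicSurf

/-!
# Surfaces `V² + q(x, y) V + P(x, y) = 0`, `deg q ≤ 2`, `deg P ≤ 4`, characteristic two

They are uniruled: through a general point of the plane there is a line over which the curve is
singular: two equations in three unknowns.
-/

set_option autoImplicit false

namespace Pool.Agent.Helper40.SD

open IntermediateField Pool.Agent.Helper75.QC

/-- a conic over an algebraically closed subfield is rational, in every characteristic -/
theorem conic_gen {Ω E : Type} [Field Ω] [Field E] [Algebra Ω E] (M : IntermediateField Ω E)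
    [IsAlgClosed M] (a b c₀ c₁ c₂ : M) (t r : E)
    (h : r ^ 2 + (a + b * t) * r + (c₀ + c₁ * t + c₂ * t ^ 2) = 0) :
    ∃ θ : E, ∀ F : IntermediateField Ω E, M ≤ F → θ ∈ F → t ∈ F ∧ r ∈ F := by
  obtain ⟨α, hα⟩ := IsAlgClosed.exists_root
    (Polynomial.X ^ 2 + Polynomial.C b * Polynomial.X + Polynomial.C c₂ : Polynomial M) (by
      have : (Polynomial.X ^ 2 + Polynomial.C b * Polynomial.X + Polynomial.C c₂ :
          Polynomial M).degree = 2 := by
        compute_degree!
      rw [this]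
      norm_num)
  rw [Polynomial.IsRoot.def] at hα
  simp only [Polynomial.eval_add, Polynomial.eval_pow, Polynomial.eval_X, Polynomial.eval_mul,
    Polynomial.eval_C] at hα
  have hα' : ((α : E)) ^ 2 + b * α + c₂ = 0 := by exact_mod_cast congrArg Subtype.val hα
  obtain ⟨m, hm⟩ : ∃ m : E, m = r - α * t := ⟨_, rfl⟩
  have hr : r = m + α * t := by rw [hm]; ring
  obtain ⟨D, hD⟩ : ∃ D : E, D = (2 * α + b) * m + a * α + c₁ := ⟨_, rfl⟩
  have h1 : t * D = -(m ^ 2 + a * m + c₀) := by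
    rw [hr] at h
    rw [hD]
    linear_combination h - t ^ 2 * hα'
  by_cases h0 : D = 0
  · rw [h0, mul_zero] at h1
    obtain ⟨ρ, hρ⟩ := IsAlgClosed.exists_root
      (Polynomial.X ^ 2 + Polynomial.C a * Polynomial.X + Polynomial.C c₀ : Polynomial M) (by
        have : (Polynomial.X ^ 2 + Polynomial.C a * Polynomial.X + Polynomial.C c₀ :
            Polynomial M).degree = 2 := by
          compute_degree!
        rw [this]
        norm_num)
    rw [Polynomial.IsRoot.def] at hρ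
    simp only [Polynomial.eval_add, Polynomial.eval_pow, Polynomial.eval_X, Polynomial.eval_mul,
      Polynomial.eval_C] at hρ
    have hρ' : ((ρ : E)) ^ 2 + a * ρ + c₀ = 0 := by exact_mod_cast congrArg Subtype.val hρ
    have h4 : (m - ρ) * (m + ρ + a) = 0 := by linear_combination h1 - hρ'
    have hmM : m ∈ M := by
      rcases mul_eq_zero.1 h4 with h5 | h5
      · rw [sub_eq_zero.1 h5]
        exact ρ.2
      · have h6 : m = -(ρ + a) := by linear_combination h5
        rw [h6]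
        exact M.neg_mem (M.add_mem ρ.2 a.2)
    refine ⟨t, fun F hF hθ => ⟨hθ, ?_⟩⟩
    rw [hr]
    exact F.add_mem (hF hmM) (F.mul_mem (hF α.2) hθ)
  · refine ⟨m, fun F hF hθ => ?_⟩
    have h5 : t = -(m ^ 2 + a * m + c₀) / D := by
      rw [eq_div_iff h0]
      exact h1
    have h2F : (2 : E) ∈ F := by exact_mod_cast F.natCast_mem 2
    have hDF : D ∈ F := by
      rw [hD]
      exact F.add_mem (F.add_mem (F.mul_mem (F.add_mem (F.mul_mem h2F (hF α.2)) (hF b.2)) hθ)
        (F.mul_mem (hF a.2) (hF α.2))) (hF c₁.2)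
    have ht : t ∈ F := by
      rw [h5]
      exact F.div_mem (F.neg_mem (F.add_mem (F.add_mem (pow_mem hθ 2) (F.mul_mem (hF a.2) hθ))
        (hF c₀.2))) hDF
    refine ⟨ht, ?_⟩
    rw [hr]
    exact F.add_mem hθ (F.mul_mem (hF α.2) ht)

/-- a value of the binary form of degree four -/
def f4 {R : Type} [CommRing R] (a : ℕ → R) (s : R) : R :=
  a 0 * s ^ 4 + a 1 * s ^ 3 + a 2 * s ^ 2 + a 3 * s + a 4

/-- **Singular sections**, characteristic two: two equations in three unknowns. -/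
theorem exists_singular_two {M : Type} [Field M] [IsAlgClosed M] (q A : MvPolynomial (Fin 2) M)
    (P : Fin 2 → M) (hq : MvPolynomial.eval P q ≠ 0) :
    ∃ (d : Fin 2 → M) (s : M), d ≠ 0 ∧
      (onLine q P d).coeff 0 * s ^ 2 + (onLine q P d).coeff 1 * s + (onLine q P d).coeff 2 = 0 ∧
      ((onLine A P d).coeff 1 * s ^ 2 + (onLine A P d).coeff 3) ^ 2 +
        (onLine q P d).coeff 1 ^ 2 * f4 (fun j => (onLine A P d).coeff j) s = 0 := by
  classical
  let R := MvPolynomial (Fin 3) M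
  let v : Fin 3 → R := MvPolynomial.X
  let Φ : MvPolynomial (Fin 2) M → Polynomial R := fun B =>
    onLine (MvPolynomial.map (MvPolynomial.C) B) (fun i => MvPolynomial.C (P i))
    (fun i => v (Fin.castLE (by omega) i))
  have hΦ : ∀ (B : MvPolynomial (Fin 2) M) (x : Fin 3 → M), (Φ B).map (MvPolynomial.eval x) =
      onLine B P (fun i => x (Fin.castLE (by omega) i)) := by
    intro B x
    rw [onLine_map, MvPolynomial.map_map]
    have h1 : (MvPolynomial.eval x).comp MvPolynomial.C = RingHom.id M := by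
      ext a
      simp
    rw [h1, MvPolynomial.map_id]
    congr 1
    · funext i
      simp
    · funext i
      simp [v]
  have hc : ∀ (B : MvPolynomial (Fin 2) M) (x : Fin 3 → M) (j : ℕ),
      MvPolynomial.eval x ((Φ B).coeff j) =
      (onLine B P (fun i => x (Fin.castLE (by omega) i))).coeff j := by
    intro B x j
    rw [← hΦ, Polynomial.coeff_map]
  let f : Fin 2 → R := ![(Φ q).coeff 0 * v 2 ^ 2 + (Φ q).coeff 1 * v 2 + (Φ q).coeff 2,
    ((Φ A).coeff 1 * v 2 ^ 2 + (Φ A).coeff 3) ^ 2 +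
      (Φ q).coeff 1 ^ 2 * f4 (fun j => (Φ A).coeff j) (v 2)]
  have hf : ∀ x : Fin 3 → M, (∀ i, MvPolynomial.eval x (f i) = 0) ↔
      ((onLine q P (fun i => x (Fin.castLE (by omega) i))).coeff 0 * x 2 ^ 2 +
        (onLine q P (fun i => x (Fin.castLE (by omega) i))).coeff 1 * x 2 +
        (onLine q P (fun i => x (Fin.castLE (by omega) i))).coeff 2 = 0 ∧
      ((onLine A P (fun i => x (Fin.castLE (by omega) i))).coeff 1 * x 2 ^ 2 +
        (onLine A P (fun i => x (Fin.castLE (by omega) i))).coeff 3) ^ 2 +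
        (onLine q P (fun i => x (Fin.castLE (by omega) i))).coeff 1 ^ 2 *
          f4 (fun j => (onLine A P (fun i => x (Fin.castLE (by omega) i))).coeff j) (x 2) = 0) := by
    intro x
    rw [Fin.forall_fin_succ, Fin.forall_fin_succ]
    simp only [f, f4, Matrix.cons_val_zero, Matrix.cons_val_succ, map_add, map_mul, map_pow, hc]
    simp [v]
  have hz : ∀ (B : MvPolynomial (Fin 2) M) (x : Fin 3 → M) (j : ℕ), x 0 = 0 → x 1 = 0 →
      (onLine B P (fun i => x (Fin.castLE (by omega) i))).coeff j =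
      if j = 0 then MvPolynomial.eval P B else 0 := by
    intro B x j h0 h1
    have h2 : (fun i : Fin 2 => x (Fin.castLE (by omega) i)) = 0 := by
      funext i
      fin_cases i
      · exact h0
      · exact h1
    rw [h2, onLine_zero, Polynomial.coeff_C]
  obtain ⟨x, hx0, hx⟩ := exists_zero (k := M) (σ := Fin 3) (ι := Fin 2) f (by
    have h1 := (hf 0).2 (by
      simp only [hz q 0 _ rfl rfl, hz A 0 _ rfl rfl]
      simp [f4])
    exact h1) (by simp)
  obtain ⟨e1, e2⟩ := (hf x).1 hx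
  refine ⟨fun i => x (Fin.castLE (by omega) i), x 2, ?_, e1, e2⟩
  intro hd
  have d0 : x 0 = 0 := congrFun hd 0
  have d1 : x 1 = 0 := congrFun hd 1
  simp only [hz q x _ d0 d1] at e1
  norm_num at e1
  have h2 : x 2 = 0 := by
    rcases e1 with h | h
    · exact absurd h hq
    · exact h
  apply hx0
  funext i
  fin_cases i
  · exact d0
  · exact d1
  · exact h2

/-- the parametrisation of the singular curve -/
theorem singular_param {Ω E : Type} [Field Ω] [Field E] [Algebra Ω E] (M : IntermediateField Ω E)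
    [IsAlgClosed M] (h2 : (2 : M) = 0) (b a : ℕ → M) (s : M)
    (e1 : b 0 * s ^ 2 + b 1 * s + b 2 = 0)
    (e2 : (a 1 * s ^ 2 + a 3) ^ 2 + b 1 ^ 2 * f4 a s = 0) (t r : E) (ht : Transcendental M t)
    (h : r ^ 2 + (b 0 + b 1 * t + b 2 * t ^ 2) * r +
      (a 0 + a 1 * t + a 2 * t ^ 2 + a 3 * t ^ 3 + a 4 * t ^ 4) = 0) :
    ∃ θ : E, ∀ F : IntermediateField Ω E, M ≤ F → θ ∈ F → t ∈ F ∧ r ∈ F := by
  obtain ⟨w, hw⟩ := IsAlgClosed.exists_pow_nat_eq (f4 a s) (n := 2) (by norm_num)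
  have h2E : (2 : E) = 0 := by
    have := congrArg (algebraMap M E) h2
    rwa [map_ofNat, map_zero] at this
  have e3 : a 1 * s ^ 2 + a 3 + b 1 * w = 0 := by
    have h3 : (a 1 * s ^ 2 + a 3 + b 1 * w) ^ 2 = 0 := by
      linear_combination e2 + b 1 ^ 2 * hw + (a 1 * s ^ 2 + a 3) * b 1 * w * h2
    exact eq_zero_of_pow_eq_zero h3
  by_cases hs : s = 0
  · -- the singular point at infinity
    subst hs
    have hb2 : b 2 = 0 := by linear_combination e1
    have ha4 : w ^ 2 = a 4 := by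
      rw [hw]
      simp [f4]
    have ha3 : a 3 + b 1 * w = 0 := by linear_combination e3
    have hb2' : ((b 2 : M) : E) = 0 := by rw [hb2]; rfl
    have ha4' : ((w : M) : E) ^ 2 = a 4 := by exact_mod_cast congrArg Subtype.val ha4
    have ha3' : ((a 3 : M) : E) + b 1 * w = 0 := by exact_mod_cast congrArg Subtype.val ha3
    obtain ⟨θ, hθ⟩ := conic_gen M (b 0) (b 1) (a 0) (a 1) (a 2 + b 0 * w) t (r - w * t ^ 2) (by
      push_cast
      linear_combination h - t ^ 2 * r * hb2' + t ^ 4 * ha4' - t ^ 3 * ha3' - t ^ 2 * r * w * h2E)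
    refine ⟨θ, fun F hF hθF => ?_⟩
    obtain ⟨h3, h4⟩ := hθ F hF hθF
    refine ⟨h3, ?_⟩
    have h5 := F.add_mem h4 (F.mul_mem (hF w.2) (pow_mem h3 2))
    rwa [sub_add_cancel] at h5
  · -- the singular point at `t = 1 / s`
    obtain ⟨τ, hτ⟩ : ∃ τ : M, s * τ = 1 := ⟨s⁻¹, mul_inv_cancel₀ hs⟩
    have f1 : b 0 + b 1 * τ + b 2 * τ ^ 2 = 0 := by
      linear_combination τ ^ 2 * e1 - (b 0 * (s * τ + 1) + b 1 * τ) * hτ
    have f3 : a 1 + a 3 * τ ^ 2 + b 1 * (w * τ ^ 2) = 0 := by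
      linear_combination τ ^ 2 * e3 - a 1 * (s * τ + 1) * hτ
    have f4' : (w * τ ^ 2) ^ 2 = a 0 + a 1 * τ + a 2 * τ ^ 2 + a 3 * τ ^ 3 + a 4 * τ ^ 4 := by
      have h5 : w ^ 2 * τ ^ 4 = f4 a s * τ ^ 4 := by rw [hw]
      have h6 : f4 a s * τ ^ 4 = a 0 * (s * τ) ^ 4 + a 1 * (s * τ) ^ 3 * τ +
          a 2 * (s * τ) ^ 2 * τ ^ 2 + a 3 * (s * τ) * τ ^ 3 + a 4 * τ ^ 4 := by
        unfold f4
        ring
      rw [hτ] at h6
      linear_combination h5 + h6
    obtain ⟨W, hW⟩ : ∃ W : M, W = w * τ ^ 2 := ⟨_, rfl⟩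
    rw [← hW] at f3 f4'
    have hu : t - τ ≠ 0 := by
      intro h0
      apply ht
      rw [sub_eq_zero.1 h0]
      exact isAlgebraic_algebraMap τ
    obtain ⟨u, hut⟩ : ∃ u : E, u = t - τ := ⟨_, rfl⟩
    rw [← hut] at hu
    obtain ⟨r', hr'⟩ : ∃ r' : E, r' = (r - W) / u := ⟨_, rfl⟩
    have hr : r = W + u * r' := by
      rw [hr', mul_div_cancel₀ _ hu]
      ring
    have htu : t = τ + u := by rw [hut]; ring
    have f1' : ((b 0 : M) : E) + b 1 * τ + b 2 * τ ^ 2 = 0 := by
      exact_mod_cast congrArg Subtype.val f1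
    have f3' : ((a 1 : M) : E) + a 3 * τ ^ 2 + b 1 * W = 0 := by
      exact_mod_cast congrArg Subtype.val f3
    have f4'' : ((W : M) : E) ^ 2 = a 0 + a 1 * τ + a 2 * τ ^ 2 + a 3 * τ ^ 3 + a 4 * τ ^ 4 := by
      exact_mod_cast congrArg Subtype.val f4'
    obtain ⟨θ, hθ⟩ := conic_gen M (b 1) (b 2) (a 2 + a 3 * τ + b 2 * W) (a 3) (a 4) u r' (by
      have h3 : u ^ 2 * (r' ^ 2 + ((b 1 : M) + b 2 * u) * r' +
          (((a 2 : M) : E) + a 3 * τ + b 2 * W + a 3 * u + a 4 * u ^ 2)) = 0 := by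
        rw [htu, hr] at h
        linear_combination h - (W + u * r') * f1' - u * f3' + f4'' -
          (W ^ 2 + W * u * r' + u * b 2 * τ * (W + u * r') +
            u * (a 2 * τ + a 3 * τ ^ 2 + 2 * a 4 * τ ^ 3) + u ^ 2 * (a 3 * τ + 3 * a 4 * τ ^ 2) +
            2 * u ^ 3 * a 4 * τ) * h2E
      have h4 := (mul_eq_zero.1 h3).resolve_left (pow_ne_zero 2 hu)
      push_cast
      exact h4)
    refine ⟨θ, fun F hF hθF => ?_⟩
    obtain ⟨h3, h4⟩ := hθ F hF hθF
    refine ⟨?_, ?_⟩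
    · rw [htu]
      exact F.add_mem (hF τ.2) h3
    · rw [hr]
      exact F.add_mem (hF W.2) (F.mul_mem h3 h4)

end Pool.Agent.Helper40.SD
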