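import Pool.Agent.Helper40.SD.QuadTwo

/-!
# The threefolds `v (1 - v) q(x, y)² = s^n f(x, y)` in every characteristic

The weights of `x`, `y` and `1 / s` are `a`, `b`, `c`. `uni_gpair_all`: the threefold is uniruled if
`deg (s^(-k) q) ≤ a + b + c` and `deg (s^(-e) f) ≤ 2 (a + b + c)` where `2 k = n + e`.
`uni_double_all`: the double plane `z² = g(x, y) z + f(x, y)`.
-/

set_option autoImplicit false

namespace Pool.Agent.Helper40.SD

open IntermediateField Pool.Agent.Helper75.QC

/-- a field which is generated by elements of the function field of a double cover -/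
theorem uni_in_quad {Ω N : Type} [Field Ω] [IsAlgClosed Ω] [Field N] [Algebra Ω N] {k : ℕ}
    (w : Option (Fin k) → ℕ) (hW : 0 < ∑ i, w i) (a b : MvPolynomial (Option (Fin k)) Ω)
    (h2 : (2 : Ω) ≠ 0 ∨ a ≠ 0) (ha : WD w (∑ i, w i) a) (hb : WD w (2 * ∑ i, w i) b)
    (x : Option (Fin k) → N) (r : N)
    (hr : r ^ 2 = MvPolynomial.aeval x a * r + MvPolynomial.aeval x b) (S : Set N)
    (hS : ∀ a ∈ S, a ∈ adjoin Ω (Set.range x ∪ {r})) :
    Uniruled Ω (adjoin Ω S : IntermediateField Ω N) (k + 1) := by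
  have hle : adjoin Ω S ≤ adjoin Ω (Set.range x ∪ {r}) := adjoin_le_iff.2 hS
  refine uniruled_of_hom (IntermediateField.inclusion hle) ?_
  set K := (adjoin Ω (Set.range x ∪ {r}) : IntermediateField Ω N) with hK
  have mx : ∀ i, x i ∈ K := fun i => subset_adjoin _ _ (Or.inl ⟨i, rfl⟩)
  have mr : r ∈ K := subset_adjoin _ _ (Or.inr rfl)
  refine uni_quad_all w hW a b h2 ha hb (fun i => (⟨x i, mx i⟩ : K)) ⟨r, mr⟩ ?_ ?_
  · apply Subtype.ext
    have h1 : ∀ f : MvPolynomial (Option (Fin k)) Ω,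
        ((MvPolynomial.aeval (fun i => (⟨x i, mx i⟩ : K)) f : K) : N) =
        MvPolynomial.aeval x f := by
      intro f
      have h3 : (K.val).comp (MvPolynomial.aeval (fun i => (⟨x i, mx i⟩ : K))) =
          MvPolynomial.aeval (R := Ω) x := by
        ext i
        simp
      exact DFunLike.congr_fun h3 f
    change r ^ 2 = ((MvPolynomial.aeval (fun i => (⟨x i, mx i⟩ : K)) a : K) : N) * r +
      ((MvPolynomial.aeval (fun i => (⟨x i, mx i⟩ : K)) b : K) : N)
    rw [h1, h1, hr]
  · apply lift_injective K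
    rw [lift_top, lift_adjoin]
    refine Eq.trans ?_ hK.symm
    congr 1
    rw [Set.image_union, Set.image_singleton, ← Set.range_comp]
    rfl

private theorem mem_val40 {Ω N : Type} [Field Ω] [Field N] [Algebra Ω N]
    (f : MvPolynomial (Fin 2) Ω) (x y : N) (F : IntermediateField Ω N)
    (hx : x ∈ F) (hy : y ∈ F) : MvPolynomial.aeval ![x, y] f ∈ F := by
  have h := map_aeval75 F.val (⟨x, hx⟩ : F) ⟨y, hy⟩ f
  change ((MvPolynomial.aeval ![(⟨x, hx⟩ : F), ⟨y, hy⟩] f : F) : N) = _ at h
  rw [show MvPolynomial.aeval ![x, y] f = ((MvPolynomial.aeval ![(⟨x, hx⟩ : F), ⟨y, hy⟩] f : F) : N)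
    from h.symm]
  exact Subtype.property _

/-- **The threefolds.** -/
theorem uni_gpair_all {Ω N : Type} [Field Ω] [IsAlgClosed Ω] [Field N] [Algebra Ω N]
    (f q : MvPolynomial (Fin 2) Ω) (a b c k e n : ℕ) (hk : 2 * k = n + e)
    (hpos : 0 < a + b + c)
    (hf : ∀ m ∈ f.support, a * m 0 + b * m 1 + e * c ≤ 2 * (a + b + c))
    (hq : ∀ m ∈ q.support, a * m 0 + b * m 1 + k * c ≤ a + b + c)
    (x y v s : N) (hq0 : MvPolynomial.aeval ![x, y] q ≠ 0) (hs0 : s ≠ 0)
    (hv : v * (1 - v) * MvPolynomial.aeval ![x, y] q ^ 2 =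
      s ^ n * MvPolynomial.aeval ![x, y] f) :
    Uniruled Ω (adjoin Ω {x, y, v, s} : IntermediateField Ω N) 3 := by
  classical
  obtain ⟨p, hp⟩ : ∃ p : N, p = s⁻¹ := ⟨_, rfl⟩
  have hp0 : p ≠ 0 := by
    rw [hp]
    exact inv_ne_zero hs0
  have hsp : s * p = 1 := by
    rw [hp]
    exact mul_inv_cancel₀ hs0
  obtain ⟨r, hr⟩ : ∃ r : N, r = v * MvPolynomial.aeval ![x, y] q * p ^ k := ⟨_, rfl⟩
  set X : Option (Fin 2) → N := fun o => o.elim p ![x, y] with hX
  have hev : ∀ g : MvPolynomial (Fin 2) Ω,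
      MvPolynomial.aeval X (MvPolynomial.rename some g) = MvPolynomial.aeval ![x, y] g := by
    intro g
    rw [MvPolynomial.aeval_rename]
    rfl
  have hXn : MvPolynomial.aeval X (MvPolynomial.X none : MvPolynomial (Option (Fin 2)) Ω) = p := by
    rw [MvPolynomial.aeval_X]
    rfl
  have hpf : p ^ e * MvPolynomial.aeval ![x, y] f =
      v * (1 - v) * MvPolynomial.aeval ![x, y] q ^ 2 * (p ^ k) ^ 2 := by
    rw [hv, ← pow_mul, mul_comm k 2, hk, pow_add]
    calc p ^ e * MvPolynomial.aeval ![x, y] f =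
        (s * p) ^ n * (p ^ e * MvPolynomial.aeval ![x, y] f) := by rw [hsp, one_pow, one_mul]
      _ = _ := by ring
  set w : Option (Fin 2) → ℕ := fun o => o.elim c ![a, b] with hw
  have hW : ∑ i, w i = a + b + c := by
    rw [Fintype.sum_option, Fin.sum_univ_two]
    change c + (a + b) = _
    ring
  have hwX : WD w c (MvPolynomial.X none : MvPolynomial (Option (Fin 2)) Ω) := WD.X none
  have hup : ∀ (g : MvPolynomial (Fin 2) Ω) (j D : ℕ),
      (∀ m ∈ g.support, a * m 0 + b * m 1 + j * c ≤ D) →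
      WD w D (MvPolynomial.rename some g * MvPolynomial.X none ^ j) := by
    intro g j D hg
    by_cases hj : j * c ≤ D
    · have h3 : WD w (D - j * c) (MvPolynomial.rename some g) := by
        refine WD.rename (fun m hm => ?_)
        rw [Fin.sum_univ_two]
        have h4 := hg m hm
        change m 0 * a + m 1 * b ≤ _
        rw [mul_comm (m 0), mul_comm (m 1)]
        omega
      exact (h3.mul (hwX.pow j)).mono (by omega)
    · have h3 : g.support = ∅ := by
        rw [Finset.eq_empty_iff_forall_notMem]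
        intro m hm
        have := hg m hm
        omega
      rw [MvPolynomial.support_eq_empty.1 h3, map_zero, zero_mul]
      intro s hs
      simp at hs
  have hqp : q ≠ 0 := by
    rintro rfl
    exact hq0 (map_zero _)
  refine uni_in_quad w (by rw [hW]; exact hpos)
    (MvPolynomial.rename some q * MvPolynomial.X none ^ k)
    (-(MvPolynomial.rename some f * MvPolynomial.X none ^ e)) (Or.inr ?_) ?_ ?_ X r ?_ _ ?_
  · refine mul_ne_zero ?_ (pow_ne_zero _ (MvPolynomial.X_ne_zero _))
    intro h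
    exact hqp (MvPolynomial.rename_injective _ (Option.some_injective _) (h.trans (map_zero _).symm))
  · rw [hW]
    exact hup q k _ hq
  · rw [hW]
    exact (hup f e _ hf).neg
  · rw [map_mul, map_neg, map_mul, map_pow, map_pow, hXn, hev, hev, hr]
    linear_combination hpf
  · have mX : ∀ o, X o ∈ adjoin Ω (Set.range X ∪ {r}) :=
      fun o => subset_adjoin _ _ (Or.inl ⟨o, rfl⟩)
    have mx : x ∈ adjoin Ω (Set.range X ∪ {r}) := mX (some 0)
    have my : y ∈ adjoin Ω (Set.range X ∪ {r}) := mX (some 1)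
    have mp : p ∈ adjoin Ω (Set.range X ∪ {r}) := mX none
    have mr : r ∈ adjoin Ω (Set.range X ∪ {r}) := subset_adjoin _ _ (Or.inr rfl)
    rintro z (rfl | rfl | rfl | rfl)
    · exact mx
    · exact my
    · have h5 : z = r / (MvPolynomial.aeval ![x, y] q * p ^ k) := by
        rw [hr]
        field_simp
      rw [h5]
      exact div_mem mr (mul_mem (mem_val40 q x y _ mx my) (pow_mem mp k))
    · have h5 : z = p⁻¹ := by rw [hp, inv_inv]
      rw [h5]
      exact inv_mem mp

/-- **Double planes.** -/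
theorem uni_double_all {Ω N : Type} [Field Ω] [IsAlgClosed Ω] [Field N] [Algebra Ω N]
    (f g : MvPolynomial (Fin 2) Ω) (h2 : (2 : Ω) ≠ 0 ∨ g ≠ 0) (a b : ℕ) (hpos : 0 < a + b)
    (hf : ∀ m ∈ f.support, a * m 0 + b * m 1 ≤ 2 * (a + b))
    (hg : ∀ m ∈ g.support, a * m 0 + b * m 1 ≤ a + b) (x y z : N)
    (hz : z ^ 2 = MvPolynomial.aeval ![x, y] g * z + MvPolynomial.aeval ![x, y] f) :
    Uniruled Ω (adjoin Ω {x, y, z} : IntermediateField Ω N) 2 := by
  classical
  set e : Fin 2 ≃ Option (Fin 1) := finSuccEquiv 1 with he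
  set X : Option (Fin 1) → N := ![x, y] ∘ e.symm with hX
  have hev : ∀ h : MvPolynomial (Fin 2) Ω,
      MvPolynomial.aeval X (MvPolynomial.rename e h) = MvPolynomial.aeval ![x, y] h := by
    intro h
    rw [MvPolynomial.aeval_rename, hX]
    congr 2
    funext i
    simp
  set w : Option (Fin 1) → ℕ := ![a, b] ∘ e.symm with hw
  have hW : ∑ i, w i = a + b := by
    rw [← Equiv.sum_comp e, Fin.sum_univ_two]
    simp [hw]
  have hup : ∀ (h : MvPolynomial (Fin 2) Ω) (D : ℕ),
      (∀ m ∈ h.support, a * m 0 + b * m 1 ≤ D) → WD w D (MvPolynomial.rename e h) := by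
    intro h D hh m hm
    rw [MvPolynomial.support_rename_of_injective e.injective, Finset.mem_image] at hm
    obtain ⟨m', hm', rfl⟩ := hm
    rw [← Equiv.sum_comp e, Fin.sum_univ_two, Finsupp.mapDomain_apply e.injective,
      Finsupp.mapDomain_apply e.injective]
    have h1 := hh m' hm'
    have e0 : w (e 0) = a := by simp [hw]
    have e1 : w (e 1) = b := by simp [hw]
    rw [e0, e1, mul_comm (m' 0), mul_comm (m' 1)]
    exact h1
  have h2' : (2 : Ω) ≠ 0 ∨ MvPolynomial.rename e g ≠ 0 := by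
    rcases h2 with h | h
    · exact Or.inl h
    · refine Or.inr fun h0 => h ?_
      exact MvPolynomial.rename_injective _ e.injective (h0.trans (map_zero _).symm)
  refine uni_in_quad w (by rw [hW]; exact hpos) (MvPolynomial.rename e g)
    (MvPolynomial.rename e f) h2' ?_ ?_ X z ?_ _ ?_
  · rw [hW]
    exact hup g _ hg
  · rw [hW]
    exact hup f _ hf
  · rw [hev, hev]
    exact hz
  · have mX : ∀ o, X o ∈ adjoin Ω (Set.range X ∪ {z}) :=
      fun o => subset_adjoin _ _ (Or.inl ⟨o, rfl⟩)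
    have mx : x ∈ adjoin Ω (Set.range X ∪ {z}) := by
      have h1 := mX (e 0)
      have h3 : X (e 0) = x := by simp [hX]
      rwa [h3] at h1
    have my : y ∈ adjoin Ω (Set.range X ∪ {z}) := by
      have h1 := mX (e 1)
      have h3 : X (e 1) = y := by simp [hX]
      rwa [h3] at h1
    rintro u (rfl | rfl | rfl)
    · exact mx
    · exact my
    · exact subset_adjoin _ _ (Or.inr rfl)

end Pool.Agent.Helper40.SD
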