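import Pool.Agent.Helper40.SD.Pdt

/-!
# Bitangent lines of sextic surfaces

Through every point `P` with `B(P) ≠ 0` there is a line on which the polynomial `B` in three
variables of degree at most six is the product of the square of a quadratic polynomial and of a
quadratic polynomial: six equations in seven unknowns.
-/

set_option autoImplicit false

namespace Pool.Agent.Helper40.SD

open Polynomial

variable {M : Type} [Field M]

/-- the restriction of a polynomial to the line through `P` with the direction `d` -/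
noncomputable def onLine {R : Type} [CommRing R] {m : ℕ} (B : MvPolynomial (Fin m) R)
    (P d : Fin m → R) : R[X] := MvPolynomial.aeval (fun i => C (P i) + C (d i) * X) B

theorem onLine_map {R R' : Type} [CommRing R] [CommRing R'] (φ : R →+* R') {m : ℕ}
    (B : MvPolynomial (Fin m) R) (P d : Fin m → R) :
    (onLine B P d).map φ = onLine (MvPolynomial.map φ B) (fun i => φ (P i)) (fun i => φ (d i)) := by
  unfold onLine
  rw [← Polynomial.coe_mapRingHom, MvPolynomial.aeval_def, MvPolynomial.aeval_def,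
    MvPolynomial.hom_eval₂, MvPolynomial.eval₂_map]
  congr 1
  · ext a
    simp
  · funext i
    simp

theorem onLine_zero {R : Type} [CommRing R] {m : ℕ} (B : MvPolynomial (Fin m) R) (P : Fin m → R) :
    onLine B P 0 = C (MvPolynomial.eval P B) := by
  unfold onLine
  simp only [Pi.zero_apply, map_zero, zero_mul, add_zero]
  rw [MvPolynomial.aeval_def, ← MvPolynomial.eval₂_id, MvPolynomial.hom_eval₂]
  rfl

theorem natDegree_onLine {R : Type} [CommRing R] {m k : ℕ} (B : MvPolynomial (Fin m) R)
    (hB : B.totalDegree ≤ k) (P d : Fin m → R) : (onLine B P d).natDegree ≤ k := by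
  have h := MvPolynomial.aeval_natDegree_le B hB (fun i => C (P i) + C (d i) * X) (n := 1)
    (fun i => by compute_degree)
  rw [mul_one] at h
  exact h

theorem eval_onLine {R : Type} [CommRing R] {m : ℕ} (B : MvPolynomial (Fin m) R) (P d : Fin m → R)
    (t : R) : (onLine B P d).eval t = MvPolynomial.eval (fun i => P i + d i * t) B := by
  unfold onLine
  rw [← Polynomial.coe_evalRingHom, MvPolynomial.aeval_def, MvPolynomial.hom_eval₂,
    ← MvPolynomial.eval₂_id]
  congr 1
  · ext a
    simp
  · funext i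
    simp

/-- the right hand side -/
noncomputable def dbl {R : Type} [CommRing R] (b q₁ q₂ h₁ h₂ : R) : R[X] :=
  (1 + C q₁ * X + C q₂ * X ^ 2) ^ 2 * (C b + C h₁ * X + C h₂ * X ^ 2)

theorem natDegree_dbl {R : Type} [CommRing R] (b q₁ q₂ h₁ h₂ : R) :
    (dbl b q₁ q₂ h₁ h₂).natDegree ≤ 6 := by
  unfold dbl
  compute_degree

theorem dbl_map {R R' : Type} [CommRing R] [CommRing R'] (φ : R →+* R') (b q₁ q₂ h₁ h₂ : R) :
    (dbl b q₁ q₂ h₁ h₂).map φ = dbl (φ b) (φ q₁) (φ q₂) (φ h₁) (φ h₂) := by
  unfold dbl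
  simp

/-- **Bitangent lines.** -/
theorem exists_bitangent [IsAlgClosed M] (B : MvPolynomial (Fin 3) M) (hB : B.totalDegree ≤ 6)
    (P : Fin 3 → M) (hP : MvPolynomial.eval P B ≠ 0) :
    ∃ (d : Fin 3 → M) (q₁ q₂ h₁ h₂ : M), d ≠ 0 ∧
      onLine B P d = dbl (MvPolynomial.eval P B) q₁ q₂ h₁ h₂ := by
  classical
  set b := MvPolynomial.eval P B with hb
  let R := MvPolynomial (Fin 7) M
  let v : Fin 7 → R := MvPolynomial.X
  let Φ : R[X] := onLine (MvPolynomial.map (MvPolynomial.C) B) (fun i => MvPolynomial.C (P i))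
    (fun i => v (Fin.castLE (by omega) i))
  let Ψ : R[X] := dbl (MvPolynomial.C b) (v 3) (v 4) (v 5) (v 6)
  have hΦ : ∀ x : Fin 7 → M, Φ.map (MvPolynomial.eval x) =
      onLine B P (fun i => x (Fin.castLE (by omega) i)) := by
    intro x
    rw [onLine_map, MvPolynomial.map_map]
    have h1 : (MvPolynomial.eval x).comp MvPolynomial.C = RingHom.id M := by
      ext a
      simp
    rw [h1, MvPolynomial.map_id]
    congr 1
    · funext i
      simp
    · funext i
      simp [v]
  have hΨ : ∀ x : Fin 7 → M, Ψ.map (MvPolynomial.eval x) = dbl b (x 3) (x 4) (x 5) (x 6) := by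
    intro x
    rw [dbl_map]
    simp [v]
  obtain ⟨x, hx0, hx⟩ := exists_zero (k := M) (σ := Fin 7) (ι := Fin 6)
    (fun j => (Φ - Ψ).coeff (j + 1)) (fun j => by
      have h1 : ((Φ - Ψ).map (MvPolynomial.eval (0 : Fin 7 → M))).coeff (j + 1) = 0 := by
        rw [Polynomial.map_sub, hΦ, hΨ]
        have h2 : (fun i : Fin 3 => (0 : Fin 7 → M) (Fin.castLE (by omega) i)) = 0 := by
          funext i
          rfl
        rw [h2, onLine_zero]
        have h3 : dbl b ((0 : Fin 7 → M) 3) ((0 : Fin 7 → M) 4) ((0 : Fin 7 → M) 5)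
            ((0 : Fin 7 → M) 6) = C b := by
          unfold dbl
          simp
        rw [h3, sub_self, coeff_zero]
      rw [coeff_map] at h1
      exact h1) (by simp)
  have heq : onLine B P (fun i => x (Fin.castLE (by omega) i)) =
      dbl b (x 3) (x 4) (x 5) (x 6) := by
    rw [← hΦ, ← hΨ, ← sub_eq_zero, ← Polynomial.map_sub]
    ext j
    rw [coeff_zero]
    rcases Nat.eq_zero_or_pos j with rfl | hj
    · rw [Polynomial.map_sub, hΦ, hΨ, coeff_sub, coeff_zero_eq_eval_zero,
        coeff_zero_eq_eval_zero, eval_onLine]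
      have h1 : (fun i : Fin 3 => P i + x (Fin.castLE (by omega) i) * 0) = P := by
        funext i
        simp
      rw [h1, ← hb]
      unfold dbl
      simp
    · by_cases hj6 : j ≤ 6
      · have h1 := hx ⟨j - 1, by omega⟩
        have h2 : (((⟨j - 1, by omega⟩ : Fin 6) : ℕ) + 1) = j := by
          simp only
          omega
        rw [h2] at h1
        rw [coeff_map]
        exact h1
      · rw [Polynomial.map_sub, hΦ, hΨ, coeff_sub,
          coeff_eq_zero_of_natDegree_lt ((natDegree_onLine B hB _ _).trans_lt (by omega)),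
          coeff_eq_zero_of_natDegree_lt ((natDegree_dbl _ _ _ _ _).trans_lt (by omega)), sub_zero]
  refine ⟨_, x 3, x 4, x 5, x 6, ?_, heq⟩
  intro hd
  apply hx0
  rw [hd, onLine_zero, ← hb] at heq
  -- a constant product
  have hne : dbl b (x 3) (x 4) (x 5) (x 6) ≠ 0 := by
    rw [← heq]
    exact C_ne_zero.2 hP
  unfold dbl at hne heq
  have hq : (1 + C (x 3) * X + C (x 4) * X ^ 2 : M[X]) ≠ 0 := by
    intro h
    rw [h] at hne
    simp at hne
  have hh : (C b + C (x 5) * X + C (x 6) * X ^ 2 : M[X]) ≠ 0 := by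
    intro h
    rw [h] at hne
    simp at hne
  have hdeg := congrArg natDegree heq
  rw [natDegree_C, natDegree_mul (pow_ne_zero _ hq) hh, natDegree_pow] at hdeg
  have hq0 : (1 + C (x 3) * X + C (x 4) * X ^ 2 : M[X]).natDegree = 0 := by omega
  have hh0 : (C b + C (x 5) * X + C (x 6) * X ^ 2 : M[X]).natDegree = 0 := by omega
  have e1 : ∀ k, 0 < k → (1 + C (x 3) * X + C (x 4) * X ^ 2 : M[X]).coeff k = 0 := fun k hk =>
    coeff_eq_zero_of_natDegree_lt (by omega)
  have e2 : ∀ k, 0 < k → (C b + C (x 5) * X + C (x 6) * X ^ 2 : M[X]).coeff k = 0 := fun k hk =>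
    coeff_eq_zero_of_natDegree_lt (by omega)
  have a1 := e1 1 (by omega)
  have a2 := e1 2 (by omega)
  have a3 := e2 1 (by omega)
  have a4 := e2 2 (by omega)
  simp [coeff_X, coeff_one, coeff_C, coeff_X_pow] at a1 a2 a3 a4
  funext i
  fin_cases i
  · exact congrFun hd 0
  · exact congrFun hd 1
  · exact congrFun hd 2
  · exact a1
  · exact a2
  · exact a3
  · exact a4

end Pool.Agent.Helper40.SD
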