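import Pool.Agent.Helper40.SD.CubicSurf
import Pool.Agent.Helper40.SD.Succ
import Pool.Agent.Helper75.QC.Insep

/-!
# The threefolds `v (1 - v)² = sⁿ A(x, y)² / B(x, y)³`, `deg A ≤ 3`, `deg B ≤ 2`

With `z = A / (B (1 - v))` this is the pencil of cubic surfaces `sⁿ z³ - B z + A = 0`.
-/

set_option autoImplicit false

namespace Pool.Agent.Helper40.SD

open IntermediateField Pool.Agent.Helper75.QC

/-- one-parameter families -/
theorem uni_family {Ω N E : Type} [Field Ω] [Field N] [Algebra Ω N] [Field E] [Algebra Ω E]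
    (ι : N →ₐ[Ω] E) (s : N) (G : Set N) {i : ℕ}
    (h : Uniruled (AF Ω {ι s}) (adjoin (AF Ω {ι s}) (ι '' G)) i) :
    Uniruled Ω (adjoin Ω (insert s G)) (i + 1) := by
  have hs : ι s ∈ AF Ω {ι s} := subset_AF _ (by simp)
  have hle : adjoin Ω (insert s G) ≤
      ((adjoin (AF Ω {ι s}) (ι '' G)).restrictScalars Ω).comap ι := by
    rw [adjoin_le_iff]
    rintro a (rfl | ha)
    · exact (adjoin (AF Ω {ι a}) (ι '' G)).algebraMap_mem ⟨ι a, hs⟩
    · exact subset_adjoin (AF Ω {ι s}) _ ⟨a, ha, rfl⟩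
  let g : (adjoin Ω (insert s G) : IntermediateField Ω N) →ₐ[Ω] adjoin (AF Ω {ι s}) (ι '' G) :=
    { toFun := fun k => ⟨ι k, hle k.2⟩
      map_one' := Subtype.ext (map_one ι)
      map_mul' := fun b c => Subtype.ext (map_mul ι _ _)
      map_zero' := Subtype.ext (map_zero ι)
      map_add' := fun b c => Subtype.ext (map_add ι _ _)
      commutes' := fun r => Subtype.ext (ι.commutes r) }
  refine uniruled_succ (⟨ι s, hs⟩ : AF Ω {ι s}) (fun a => ?_) g h
  have h1 : IsAlgebraic (adjoin Ω ({ι s} : Set E)) (a : E) := mem_AF.1 a.2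
  have h2 : lift (adjoin Ω ({(⟨ι s, hs⟩ : AF Ω {ι s})} : Set (AF Ω {ι s}))) =
      adjoin Ω ({ι s} : Set E) := by
    rw [lift_adjoin]
    simp
  obtain ⟨p, hp, hpe⟩ := h1
  let j : adjoin Ω ({ι s} : Set E) →+*
      adjoin Ω ({(⟨ι s, hs⟩ : AF Ω {ι s})} : Set (AF Ω {ι s})) :=
    { toFun := fun b => ⟨⟨b, (adjoin_le_iff.2 (subset_AF _)) b.2⟩, by
        obtain ⟨c, hc, hcb⟩ := h2.symm.le b.2
        have : (⟨b, (adjoin_le_iff.2 (subset_AF _)) b.2⟩ : AF Ω {ι s}) = c :=
          Subtype.ext hcb.symm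
        rw [this]
        exact hc⟩
      map_one' := rfl
      map_mul' := fun b c => rfl
      map_zero' := rfl
      map_add' := fun b c => rfl }
  refine ⟨p.map j, ?_, ?_⟩
  · rw [Ne, Polynomial.map_eq_zero]
    exact hp
  · rw [Polynomial.aeval_def, Polynomial.eval₂_map]
    rw [Polynomial.aeval_def] at hpe
    apply Subtype.ext
    change (algebraMap (AF Ω {ι s}) E) _ = 0
    rw [Polynomial.hom_eval₂, ← hpe]
    rfl

theorem comp_vec {A B : Type} (f : A → B) (x y : A) : (fun i => f (![x, y] i)) = ![f x, f y] := by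
  funext i
  fin_cases i <;> rfl

/-- the discriminant is not zero if `τ` is transcendental -/
theorem disc_ne {Ω Ω' : Type} [Field Ω] [Field Ω'] [Algebra Ω Ω'] (A B : MvPolynomial (Fin 2) Ω)
    (hA : A ≠ 0) (hB : B ≠ 0) (τ : Ω') (hτ : ∀ a : Ω, algebraMap Ω Ω' a ≠ τ) :
    4 * (MvPolynomial.map (algebraMap Ω Ω') B) ^ 3 - 27 * MvPolynomial.C τ *
      (MvPolynomial.map (algebraMap Ω Ω') A) ^ 2 ≠ 0 := by
  intro h
  have key : ∀ m, (4 : Ω) * (B ^ 3).coeff m = 0 ∧ (27 : Ω) * (A ^ 2).coeff m = 0 := by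
    intro m
    have h1 := congrArg (MvPolynomial.coeff m) h
    have e4 : (4 : MvPolynomial (Fin 2) Ω') = MvPolynomial.C 4 := by rw [map_ofNat]
    have e27 : (27 : MvPolynomial (Fin 2) Ω') = MvPolynomial.C 27 := by rw [map_ofNat]
    rw [MvPolynomial.coeff_sub, ← map_pow, ← map_pow, e4, e27, ← MvPolynomial.C_mul,
      MvPolynomial.coeff_C_mul, MvPolynomial.coeff_C_mul, MvPolynomial.coeff_map,
      MvPolynomial.coeff_map, MvPolynomial.coeff_zero] at h1
    by_cases h27 : (27 : Ω) * (A ^ 2).coeff m = 0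
    · refine ⟨?_, h27⟩
      apply (algebraMap Ω Ω').injective
      have h2 := congrArg (algebraMap Ω Ω') h27
      rw [map_mul, map_ofNat, map_zero] at h2
      rw [map_mul, map_ofNat, map_zero]
      linear_combination h1 + τ * h2
    · exfalso
      apply hτ (4 * (B ^ 3).coeff m / (27 * (A ^ 2).coeff m))
      have h3 : algebraMap Ω Ω' (27 * (A ^ 2).coeff m) ≠ 0 := by
        rw [Ne, map_eq_zero]
        exact h27
      rw [map_div₀, div_eq_iff h3, map_mul, map_mul, map_ofNat, map_ofNat]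
      linear_combination h1
  by_cases h3 : (3 : Ω) = 0
  · have h4 : (4 : Ω) ≠ 0 := by
      intro h4
      have h1 : (1 : Ω) = 0 := by linear_combination h4 - h3
      exact one_ne_zero h1
    apply hB
    apply pow_eq_zero_iff (n := 3) (by norm_num) |>.1
    ext m
    rw [MvPolynomial.coeff_zero]
    exact (mul_eq_zero.1 (key m).1).resolve_left h4
  · have h27 : (27 : Ω) ≠ 0 := by
      have : (27 : Ω) = 3 ^ 3 := by norm_num
      rw [this]
      exact pow_ne_zero _ h3
    apply hA
    apply pow_eq_zero_iff (n := 2) (by norm_num) |>.1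
    ext m
    rw [MvPolynomial.coeff_zero]
    exact (mul_eq_zero.1 (key m).2).resolve_left h27

/-- **The pencil of cubic surfaces.** -/
theorem uni_pencil {Ω N : Type} [Field Ω] [IsAlgClosed Ω] [Field N] [Algebra Ω N]
    (A B : MvPolynomial (Fin 2) Ω) (hA : A.totalDegree ≤ 3) (hB : B.totalDegree ≤ 2) {n : ℕ}
    (hn : 0 < n) (x y v s : N) (hs0 : s ≠ 0) (hv1 : 1 - v ≠ 0)
    (hA0 : MvPolynomial.aeval ![x, y] A ≠ 0) (hB0 : MvPolynomial.aeval ![x, y] B ≠ 0)
    (hs : v * (1 - v) ^ 2 = s ^ n *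
      (MvPolynomial.aeval ![x, y] A ^ 2 / MvPolynomial.aeval ![x, y] B ^ 3)) :
    Uniruled Ω (adjoin Ω {x, y, v, s} : IntermediateField Ω N) 3 := by
  classical
  by_cases hst : IsAlgebraic Ω s
  · -- constant `s`
    set K := (adjoin Ω {x, y, v, s} : IntermediateField Ω N) with hK
    have mx : x ∈ K := subset_adjoin _ _ (by simp)
    have my : y ∈ K := subset_adjoin _ _ (by simp)
    have mv : v ∈ K := subset_adjoin _ _ (by simp)
    have ms : s ∈ K := subset_adjoin _ _ (by simp)
    let x3 : Fin 3 → K := ![⟨s, ms⟩, ⟨x, mx⟩, ⟨y, my⟩]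
    refine uniruled_of_dep x3 (fun h => ?_) (fun k => ?_)
    · have h1 := h.transcendental 0
      apply h1
      exact (isAlgebraic_algHom_iff K.val K.val.injective).1 hst
    · have h0 : ∀ i, x3 i ∈ AF Ω (Set.range x3) := fun i => subset_AF _ ⟨i, rfl⟩
      have hm : ∀ G : MvPolynomial (Fin 2) Ω,
          MvPolynomial.aeval ![(⟨x, mx⟩ : K), ⟨y, my⟩] G ∈ AF Ω (Set.range x3) := by
        intro G
        refine (adjoin_le_iff.2 ?_) (aeval_mem75 (⟨x, mx⟩ : K) ⟨y, my⟩ G)
        rintro a (rfl | rfl)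
        · exact h0 1
        · exact h0 2
      have hvv : (⟨v, mv⟩ : K) ∈ AF Ω (Set.range x3) := by
        refine mem_AF_of_aeval _ (Polynomial.X * (1 - Polynomial.X) ^ 2) ?_ _ ?_
        · have : (Polynomial.X * (1 - Polynomial.X) ^ 2 : Polynomial Ω).natDegree = 3 := by
            have h1 : (Polynomial.X * (1 - Polynomial.X) ^ 2 : Polynomial Ω) =
              Polynomial.X ^ 3 - 2 * Polynomial.X ^ 2 + Polynomial.X := by ring
            rw [h1]
            compute_degree!
          rw [this]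
          norm_num
        · have h1 : Polynomial.aeval (⟨v, mv⟩ : K) (Polynomial.X * (1 - Polynomial.X) ^ 2 :
              Polynomial Ω) = (⟨s, ms⟩ : K) ^ n *
              (MvPolynomial.aeval ![(⟨x, mx⟩ : K), ⟨y, my⟩] A ^ 2 /
              MvPolynomial.aeval ![(⟨x, mx⟩ : K), ⟨y, my⟩] B ^ 3) := by
            apply Subtype.ext
            have h2 : ∀ G : MvPolynomial (Fin 2) Ω,
                ((MvPolynomial.aeval ![(⟨x, mx⟩ : K), ⟨y, my⟩] G : K) : N) =
                MvPolynomial.aeval ![x, y] G := fun G =>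
              map_aeval75 K.val (⟨x, mx⟩ : K) ⟨y, my⟩ G
            simp only [map_mul, Polynomial.aeval_X, map_pow, map_sub, map_one]
            change v * (1 - v) ^ 2 = s ^ n * (_ ^ 2 / _ ^ 3)
            rw [hs, ← h2, ← h2]
          rw [h1]
          exact mul_mem (pow_mem (h0 0) _) (div_mem (pow_mem (hm A) _) (pow_mem (hm B) _))
      have h5 : (⊤ : IntermediateField Ω K) ≤ AF Ω (Set.range x3) := by
        have h6 : adjoin Ω {(⟨x, mx⟩ : K), ⟨y, my⟩, ⟨v, mv⟩, ⟨s, ms⟩} = ⊤ := by
          apply lift_injective K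
          rw [lift_top, lift_adjoin]
          simp only [Set.image_insert_eq, Set.image_singleton]
          exact hK.symm
        rw [← h6, adjoin_le_iff]
        rintro a (rfl | rfl | rfl | rfl)
        · exact h0 1
        · exact h0 2
        · exact hvv
        · exact h0 0
      exact mem_AF.1 (h5 trivial)
  · -- transcendental `s`
    set z : N := MvPolynomial.aeval ![x, y] A / (MvPolynomial.aeval ![x, y] B * (1 - v)) with hz
    have hz0 : z ≠ 0 := div_ne_zero hA0 (mul_ne_zero hB0 hv1)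
    have hzv : v = 1 - MvPolynomial.aeval ![x, y] A / (MvPolynomial.aeval ![x, y] B * z) := by
      rw [hz]
      field_simp
      ring
    have hcub : s ^ n * z ^ 3 - MvPolynomial.aeval ![x, y] B * z +
        MvPolynomial.aeval ![x, y] A = 0 := by
      set a := MvPolynomial.aeval ![x, y] A
      set b := MvPolynomial.aeval ![x, y] B
      have h1 : s ^ n * a ^ 2 = v * (1 - v) ^ 2 * b ^ 3 := by
        rw [hs]
        field_simp
      have h2 : z * (b * (1 - v)) = a := by
        rw [hz]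
        field_simp
      have h3 : z ^ 2 * b ^ 2 * (1 - v) ^ 2 * (s ^ n * z ^ 3 - b * z + a) = 0 := by
        have h4 : z ^ 2 * b ^ 2 * (1 - v) ^ 2 = a ^ 2 := by rw [← h2]; ring
        calc z ^ 2 * b ^ 2 * (1 - v) ^ 2 * (s ^ n * z ^ 3 - b * z + a)
            = (s ^ n * a ^ 2) * z ^ 3 + a ^ 2 * (a - b * z) := by rw [h4]; ring
          _ = 0 := by rw [h1, ← h2]; ring
      have h5 : z ^ 2 * b ^ 2 * (1 - v) ^ 2 ≠ 0 :=
        mul_ne_zero (mul_ne_zero (pow_ne_zero _ hz0) (pow_ne_zero _ hB0)) (pow_ne_zero _ hv1)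
      exact (mul_eq_zero.1 h3).resolve_left h5
    have hle : (adjoin Ω {x, y, v, s} : IntermediateField Ω N) ≤ adjoin Ω (insert s {x, y, z}) := by
      have mx : x ∈ adjoin Ω (insert s {x, y, z}) := subset_adjoin _ _ (by simp)
      have my : y ∈ adjoin Ω (insert s {x, y, z}) := subset_adjoin _ _ (by simp)
      have ms : s ∈ adjoin Ω (insert s {x, y, z}) := subset_adjoin _ _ (by simp)
      have mz : z ∈ adjoin Ω (insert s {x, y, z}) := subset_adjoin _ _ (by simp)
      have hm : ∀ G : MvPolynomial (Fin 2) Ω,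
          MvPolynomial.aeval ![x, y] G ∈ adjoin Ω (insert s {x, y, z}) := by
        intro G
        refine (adjoin_le_iff.2 ?_) (aeval_mem75 x y G)
        rintro a (rfl | rfl)
        · exact mx
        · exact my
      rw [adjoin_le_iff]
      rintro a (rfl | rfl | rfl | rfl)
      · exact mx
      · exact my
      · rw [SetLike.mem_coe, hzv]
        exact sub_mem (one_mem _) (div_mem (hm A) (mul_mem (hm B) mz))
      · exact ms
    refine uniruled_of_hom (inclusion hle) ?_
    set E := AlgebraicClosure N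
    let ι : N →ₐ[Ω] E := IsScalarTower.toAlgHom Ω N E
    refine uni_family ι s {x, y, z} ?_
    have ms : ι s ∈ AF Ω {ι s} := subset_AF _ (by simp)
    have hA' : A ≠ 0 := by
      rintro rfl
      rw [map_zero] at hA0
      exact hA0 rfl
    have hB' : B ≠ 0 := by
      rintro rfl
      rw [map_zero] at hB0
      exact hB0 rfl
    set Ω' := AF Ω {ι s} with hΩ'
    set K' := adjoin Ω' (ι '' {x, y, z}) with hK'
    have mx : ι x ∈ K' := subset_adjoin _ _ ⟨x, by simp, rfl⟩
    have my : ι y ∈ K' := subset_adjoin _ _ ⟨y, by simp, rfl⟩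
    have mz : ι z ∈ K' := subset_adjoin _ _ ⟨z, by simp, rfl⟩
    have hev : ∀ G : MvPolynomial (Fin 2) Ω, ((MvPolynomial.aeval ![(⟨ι x, mx⟩ : K'), ⟨ι y, my⟩]
        (MvPolynomial.map (algebraMap Ω Ω') G) : K') : E) = ι (MvPolynomial.aeval ![x, y] G) := by
      intro G
      rw [MvPolynomial.aeval_map_algebraMap, map_aeval75 ι x y G]
      exact map_aeval75 (K'.val.restrictScalars Ω) (⟨ι x, mx⟩ : K') ⟨ι y, my⟩ G
    refine uni_cubic (⟨ι s, ms⟩ ^ n : Ω') ?_ (MvPolynomial.map (algebraMap Ω Ω') A)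
      (MvPolynomial.map (algebraMap Ω Ω') B) ((totalDegree_map_le _ _).trans hA)
      ((totalDegree_map_le _ _).trans hB) (disc_ne A B hA' hB' _ ?_)
      ![(⟨ι x, mx⟩ : K'), ⟨ι y, my⟩] (⟨ι z, mz⟩ : K') ?_ ?_
    · apply pow_ne_zero
      intro h
      apply hs0
      apply ι.injective
      rw [map_zero]
      exact congrArg Subtype.val h
    · intro a ha
      apply hst
      refine IsAlgebraic.of_pow hn ?_
      have h1 : algebraMap Ω N a = s ^ n := by
        have h2 : ι (algebraMap Ω N a) = ι (s ^ n) := by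
          rw [AlgHom.commutes, map_pow]
          exact congrArg (algebraMap Ω' E) ha
        exact ι.injective h2
      rw [← h1]
      exact isAlgebraic_algebraMap a
    · apply Subtype.ext
      change (ι s) ^ n * (ι z) ^ 3 - _ * ι z + _ = 0
      rw [hev, hev, ← map_pow, ← map_pow, ← map_mul, ← map_mul, ← map_sub, ← map_add, hcub,
        map_zero]
    · apply lift_injective K'
      rw [lift_top, lift_adjoin]
      refine Eq.trans ?_ hK'.symm
      congr 1
      ext a
      simp only [Set.image_union, Set.image_singleton, Set.mem_union, Set.mem_image,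
        Set.mem_range, Set.mem_singleton_iff, Set.mem_insert_iff]
      constructor
      · rintro (⟨b, ⟨i, rfl⟩, rfl⟩ | rfl)
        · fin_cases i
          · exact ⟨x, by simp, rfl⟩
          · exact ⟨y, by simp, rfl⟩
        · exact ⟨z, by simp, rfl⟩
      · rintro ⟨b, rfl | rfl | rfl, rfl⟩
        · exact Or.inl ⟨_, ⟨0, rfl⟩, rfl⟩
        · exact Or.inl ⟨_, ⟨1, rfl⟩, rfl⟩
        · exact Or.inr rfl

end Pool.Agent.Helper40.SD
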