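import Pool.Agent.Helper40.SD.CubicSurf
import Pool.Agent.Helper40.SD.Pencil

/-!
# Double covers of the quadric cone

`r² = P(x, y)`, `P` of degree at most six for the weights `(1, 2)`, characteristic not two, is
uniruled: through a general point there is a curve `(x₀ + l t, y₀ + m₁ t + m₂ t²)` on which `P` is the
product of a square and of a quadratic polynomial: six equations in seven unknowns.
-/

set_option autoImplicit false

namespace Pool.Agent.Helper40.SD

open IntermediateField Pool.Agent.Helper75.QC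

/-- weighted degree at most `k`, weights `1, 2` -/
def WDeg {R : Type} [CommRing R] (k : ℕ) (P : MvPolynomial (Fin 2) R) : Prop :=
  ∀ m ∈ P.support, m 0 + 2 * m 1 ≤ k

theorem WDeg.mono {R : Type} [CommRing R] {k l : ℕ} (h : k ≤ l) {P : MvPolynomial (Fin 2) R}
    (hP : WDeg k P) : WDeg l P := fun m hm => (hP m hm).trans h

theorem WDeg.add {R : Type} [CommRing R] {k : ℕ} {P Q : MvPolynomial (Fin 2) R}
    (hP : WDeg k P) (hQ : WDeg k Q) : WDeg k (P + Q) := by
  classical
  intro m hm
  rcases Finset.mem_union.1 (MvPolynomial.support_add hm) with h | h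
  · exact hP m h
  · exact hQ m h

theorem WDeg.mul {R : Type} [CommRing R] {k l : ℕ} {P Q : MvPolynomial (Fin 2) R}
    (hP : WDeg k P) (hQ : WDeg l Q) : WDeg (k + l) (P * Q) := by
  classical
  intro m hm
  obtain ⟨a, ha, b, hb, rfl⟩ := Finset.mem_add.1 (MvPolynomial.support_mul P Q hm)
  have h1 := hP a ha
  have h2 := hQ b hb
  simp only [Finsupp.add_apply]
  omega

theorem WDeg.pow {R : Type} [CommRing R] {k : ℕ} {P : MvPolynomial (Fin 2) R}
    (hP : WDeg k P) (j : ℕ) : WDeg (k * j) (P ^ j) := by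
  induction j with
  | zero =>
    intro m hm
    rw [pow_zero] at hm
    have h1 : m = 0 := by
      by_contra h
      rw [MvPolynomial.mem_support_iff, MvPolynomial.coeff_one, if_neg (Ne.symm h)] at hm
      exact hm rfl
    subst h1
    simp
  | succ j ih =>
    rw [pow_succ, Nat.mul_succ]
    exact ih.mul hP

theorem WDeg.C {R : Type} [CommRing R] (a : R) : WDeg 0 (MvPolynomial.C a) := by
  intro m hm
  have h1 : m = 0 := by
    by_contra h
    rw [MvPolynomial.mem_support_iff, MvPolynomial.coeff_C, if_neg (Ne.symm h)] at hm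
    exact hm rfl
  subst h1
  simp

theorem WDeg.X0 {R : Type} [CommRing R] : WDeg 1 (MvPolynomial.X 0 : MvPolynomial (Fin 2) R) := by
  intro m hm
  have h1 : m = Finsupp.single 0 1 := by
    by_contra h
    rw [MvPolynomial.mem_support_iff, MvPolynomial.coeff_X, if_neg (Ne.symm h)] at hm
    exact hm rfl
  subst h1
  simp

theorem WDeg.X1 {R : Type} [CommRing R] : WDeg 2 (MvPolynomial.X 1 : MvPolynomial (Fin 2) R) := by
  intro m hm
  have h1 : m = Finsupp.single 1 1 := by
    by_contra h
    rw [MvPolynomial.mem_support_iff, MvPolynomial.coeff_X, if_neg (Ne.symm h)] at hm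
    exact hm rfl
  subst h1
  simp

theorem WDeg.map {R R' : Type} [CommRing R] [CommRing R'] (f : R →+* R') {k : ℕ}
    {P : MvPolynomial (Fin 2) R} (hP : WDeg k P) : WDeg k (MvPolynomial.map f P) :=
  fun m hm => hP m (MvPolynomial.support_map_subset _ _ hm)

/-- the restriction of a polynomial to a curve -/
noncomputable def onCurve {R : Type} [CommRing R] (B : MvPolynomial (Fin 2) R)
    (x y l m₁ m₂ : R) : Polynomial R :=
  MvPolynomial.aeval ![Polynomial.C x + Polynomial.C l * Polynomial.X,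
    Polynomial.C y + Polynomial.C m₁ * Polynomial.X + Polynomial.C m₂ * Polynomial.X ^ 2] B

theorem onCurve_map {R R' : Type} [CommRing R] [CommRing R'] (φ : R →+* R')
    (B : MvPolynomial (Fin 2) R) (x y l m₁ m₂ : R) : (onCurve B x y l m₁ m₂).map φ =
      onCurve (MvPolynomial.map φ B) (φ x) (φ y) (φ l) (φ m₁) (φ m₂) := by
  unfold onCurve
  rw [← Polynomial.coe_mapRingHom, MvPolynomial.aeval_def, MvPolynomial.aeval_def,
    MvPolynomial.hom_eval₂, MvPolynomial.eval₂_map]
  congr 1
  · ext a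
    simp
  · funext i
    fin_cases i <;> simp

theorem eval_onCurve {R : Type} [CommRing R] (B : MvPolynomial (Fin 2) R) (x y l m₁ m₂ t : R) :
    (onCurve B x y l m₁ m₂).eval t =
      MvPolynomial.eval ![x + l * t, y + m₁ * t + m₂ * t ^ 2] B := by
  unfold onCurve
  rw [← Polynomial.coe_evalRingHom, MvPolynomial.aeval_def, MvPolynomial.hom_eval₂,
    ← MvPolynomial.eval₂_id]
  congr 1
  · ext a
    simp
  · funext i
    fin_cases i <;> simp

theorem onCurve_zero {R : Type} [CommRing R] (B : MvPolynomial (Fin 2) R) (x y : R) :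
    onCurve B x y 0 0 0 = Polynomial.C (MvPolynomial.eval ![x, y] B) := by
  unfold onCurve
  simp only [map_zero, zero_mul, add_zero]
  rw [MvPolynomial.aeval_def, ← MvPolynomial.eval₂_id, MvPolynomial.hom_eval₂]
  congr 1
  funext i
  fin_cases i <;> rfl

theorem natDegree_onCurve {R : Type} [CommRing R] (B : MvPolynomial (Fin 2) R)
    (hB : WDeg 6 B) (x y l m₁ m₂ : R) : (onCurve B x y l m₁ m₂).natDegree ≤ 6 := by
  unfold onCurve
  rw [MvPolynomial.aeval_def, MvPolynomial.eval₂_eq']
  refine Polynomial.natDegree_sum_le_of_forall_le _ _ fun m hm => ?_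
  rw [Fin.prod_univ_two]
  have h1 : (Polynomial.C x + Polynomial.C l * Polynomial.X : Polynomial R).natDegree ≤ 1 := by
    compute_degree
  have h2 : (Polynomial.C y + Polynomial.C m₁ * Polynomial.X +
      Polynomial.C m₂ * Polynomial.X ^ 2 : Polynomial R).natDegree ≤ 2 := by
    compute_degree
  have h3 := Polynomial.natDegree_pow_le_of_le (m 0) h1
  have h4 := Polynomial.natDegree_pow_le_of_le (m 1) h2
  have h5 := hB m hm
  refine (Polynomial.natDegree_C_mul_le _ _).trans ?_
  refine (Polynomial.natDegree_mul_le).trans ?_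
  simp only [Matrix.cons_val_zero, Matrix.cons_val_one]
  omega

/-- **Bitangent curves.** -/
theorem exists_bitangent_curve {M : Type} [Field M] [IsAlgClosed M] (B : MvPolynomial (Fin 2) M)
    (hB : WDeg 6 B) (x₀ y₀ : M) (hP : MvPolynomial.eval ![x₀, y₀] B ≠ 0) :
    ∃ l m₁ m₂ q₁ q₂ h₁ h₂ : M, ¬ (l = 0 ∧ m₁ = 0 ∧ m₂ = 0) ∧
      onCurve B x₀ y₀ l m₁ m₂ = dbl (MvPolynomial.eval ![x₀, y₀] B) q₁ q₂ h₁ h₂ := by
  classical
  set b := MvPolynomial.eval ![x₀, y₀] B with hb
  let R := MvPolynomial (Fin 7) M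
  let v : Fin 7 → R := MvPolynomial.X
  let Φ : Polynomial R := onCurve (MvPolynomial.map (MvPolynomial.C) B) (MvPolynomial.C x₀)
    (MvPolynomial.C y₀) (v 0) (v 1) (v 2)
  let Ψ : Polynomial R := dbl (MvPolynomial.C b) (v 3) (v 4) (v 5) (v 6)
  have hΦ : ∀ x : Fin 7 → M, Φ.map (MvPolynomial.eval x) =
      onCurve B x₀ y₀ (x 0) (x 1) (x 2) := by
    intro x
    rw [onCurve_map, MvPolynomial.map_map]
    have h1 : (MvPolynomial.eval x).comp MvPolynomial.C = RingHom.id M := by
      ext a
      simp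
    rw [h1, MvPolynomial.map_id]
    simp [v]
  have hΨ : ∀ x : Fin 7 → M, Ψ.map (MvPolynomial.eval x) = dbl b (x 3) (x 4) (x 5) (x 6) := by
    intro x
    rw [dbl_map]
    simp [v]
  obtain ⟨x, hx0, hx⟩ := exists_zero (k := M) (σ := Fin 7) (ι := Fin 6)
    (fun j => (Φ - Ψ).coeff (j + 1)) (fun j => by
      have h1 : ((Φ - Ψ).map (MvPolynomial.eval (0 : Fin 7 → M))).coeff (j + 1) = 0 := by
        rw [Polynomial.map_sub, hΦ, hΨ]
        simp only [Pi.zero_apply]
        rw [onCurve_zero]
        have h3 : dbl b 0 0 0 0 = Polynomial.C b := by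
          unfold dbl
          simp
        rw [h3, sub_self, Polynomial.coeff_zero]
      rw [Polynomial.coeff_map] at h1
      exact h1) (by simp)
  have heq : onCurve B x₀ y₀ (x 0) (x 1) (x 2) = dbl b (x 3) (x 4) (x 5) (x 6) := by
    rw [← hΦ, ← hΨ, ← sub_eq_zero, ← Polynomial.map_sub]
    ext j
    rw [Polynomial.coeff_zero]
    rcases Nat.eq_zero_or_pos j with rfl | hj
    · rw [Polynomial.map_sub, hΦ, hΨ, Polynomial.coeff_sub, Polynomial.coeff_zero_eq_eval_zero,
        Polynomial.coeff_zero_eq_eval_zero, eval_onCurve]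
      have h1 : (![x₀ + x 0 * 0, y₀ + x 1 * 0 + x 2 * 0 ^ 2] : Fin 2 → M) = ![x₀, y₀] := by
        simp
      rw [h1, ← hb]
      unfold dbl
      simp
    · by_cases hj6 : j ≤ 6
      · have h1 := hx ⟨j - 1, by omega⟩
        have h2 : (((⟨j - 1, by omega⟩ : Fin 6) : ℕ) + 1) = j := by
          simp only
          omega
        rw [h2] at h1
        rw [Polynomial.coeff_map]
        exact h1
      · rw [Polynomial.map_sub, hΦ, hΨ, Polynomial.coeff_sub,
          Polynomial.coeff_eq_zero_of_natDegree_lt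
            ((natDegree_onCurve B hB _ _ _ _ _).trans_lt (by omega)),
          Polynomial.coeff_eq_zero_of_natDegree_lt
            ((natDegree_dbl _ _ _ _ _).trans_lt (by omega)), sub_zero]
  refine ⟨x 0, x 1, x 2, x 3, x 4, x 5, x 6, ?_, heq⟩
  rintro ⟨d0, d1, d2⟩
  apply hx0
  rw [d0, d1, d2, onCurve_zero, ← hb] at heq
  -- a constant product
  have hne : dbl b (x 3) (x 4) (x 5) (x 6) ≠ 0 := by
    rw [← heq]
    exact Polynomial.C_ne_zero.2 hP
  unfold dbl at hne heq
  have hq : (1 + Polynomial.C (x 3) * Polynomial.X + Polynomial.C (x 4) * Polynomial.X ^ 2 :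
      Polynomial M) ≠ 0 := by
    intro h
    rw [h] at hne
    simp at hne
  have hh : (Polynomial.C b + Polynomial.C (x 5) * Polynomial.X +
      Polynomial.C (x 6) * Polynomial.X ^ 2 : Polynomial M) ≠ 0 := by
    intro h
    rw [h] at hne
    simp at hne
  have hdeg := congrArg Polynomial.natDegree heq
  rw [Polynomial.natDegree_C, Polynomial.natDegree_mul (pow_ne_zero _ hq) hh,
    Polynomial.natDegree_pow] at hdeg
  have hq0 : (1 + Polynomial.C (x 3) * Polynomial.X + Polynomial.C (x 4) * Polynomial.X ^ 2 :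
      Polynomial M).natDegree = 0 := by omega
  have hh0 : (Polynomial.C b + Polynomial.C (x 5) * Polynomial.X +
      Polynomial.C (x 6) * Polynomial.X ^ 2 : Polynomial M).natDegree = 0 := by omega
  have e1 : ∀ k, 0 < k → (1 + Polynomial.C (x 3) * Polynomial.X +
      Polynomial.C (x 4) * Polynomial.X ^ 2 : Polynomial M).coeff k = 0 := fun k hk =>
    Polynomial.coeff_eq_zero_of_natDegree_lt (by omega)
  have e2 : ∀ k, 0 < k → (Polynomial.C b + Polynomial.C (x 5) * Polynomial.X +
      Polynomial.C (x 6) * Polynomial.X ^ 2 : Polynomial M).coeff k = 0 := fun k hk =>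
    Polynomial.coeff_eq_zero_of_natDegree_lt (by omega)
  have a1 := e1 1 (by omega)
  have a2 := e1 2 (by omega)
  have a3 := e2 1 (by omega)
  have a4 := e2 2 (by omega)
  simp [Polynomial.coeff_one, Polynomial.coeff_C, Polynomial.coeff_X_pow] at a1 a2 a3 a4
  funext i
  fin_cases i
  · exact d0
  · exact d1
  · exact d2
  · exact a1
  · exact a2
  · exact a3
  · exact a4

/-- If a curve through a generic point of `L = 0` is not contained in it, its generic point is a
generic point of the space. -/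
theorem indep_curve {Ω E : Type} [Field Ω] [Field E] [Algebra Ω E] {m : ℕ}
    (M : IntermediateField Ω E) (γ : Fin m → Polynomial M) (t : E) (ht : Transcendental M t)
    (L : MvPolynomial (Fin m) Ω)
    (hL0 : MvPolynomial.aeval (fun i => (γ i).eval 0) L = 0)
    (hL : ∀ G : MvPolynomial (Fin m) Ω, MvPolynomial.aeval (fun i => (γ i).eval 0) G = 0 → L ∣ G)
    (hLt : MvPolynomial.aeval (fun i => Polynomial.aeval t (γ i)) L ≠ 0) :
    AlgebraicIndependent Ω (fun i => Polynomial.aeval t (γ i)) := by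
  have key : ∀ G : MvPolynomial (Fin m) Ω,
      MvPolynomial.aeval (fun i => Polynomial.aeval t (γ i)) G = 0 → L ∣ G := by
    intro G hG
    apply hL
    set g : Polynomial M := MvPolynomial.aeval γ G with hg
    have h1 : Polynomial.aeval t g =
        MvPolynomial.aeval (fun i => Polynomial.aeval t (γ i)) G := by
      have : ((Polynomial.aeval (R := M) t).restrictScalars Ω).comp (MvPolynomial.aeval γ) =
          MvPolynomial.aeval (R := Ω) (fun i => Polynomial.aeval t (γ i)) := by
        ext i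
        simp
      exact DFunLike.congr_fun this G
    have h2 : g = 0 := coeff_zero_of ht g (h1.trans hG)
    have h3 : Polynomial.aeval (0 : M) g =
        MvPolynomial.aeval (fun i => (γ i).eval 0) G := by
      have : ((Polynomial.aeval (R := M) (0 : M)).restrictScalars Ω).comp
          (MvPolynomial.aeval γ) = MvPolynomial.aeval (R := Ω) (fun i => (γ i).eval 0) := by
        ext i
        simp
      exact DFunLike.congr_fun this G
    rw [← h3, h2, map_zero]
  have hLu : ¬ IsUnit L := by
    intro hu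
    exact (hu.map (MvPolynomial.aeval (fun i => (γ i).eval 0))).ne_zero hL0
  rw [algebraicIndependent_iff]
  intro G hG
  by_contra hne
  obtain ⟨k, G', hG', hGG⟩ := WfDvdMonoid.max_power_factor' hne hLu
  rw [hGG, map_mul, map_pow] at hG
  rcases mul_eq_zero.1 hG with h | h
  · exact hLt (eq_zero_of_pow_eq_zero h)
  · exact hG' (key G' h)

theorem aeval_onCurve {Ω E : Type} [Field Ω] [Field E] [Algebra Ω E] (M : IntermediateField Ω E)
    (B : MvPolynomial (Fin 2) Ω) (x y l m₁ m₂ : M) (t : E) :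
    Polynomial.aeval t (onCurve (MvPolynomial.map (algebraMap Ω M) B) x y l m₁ m₂) =
      MvPolynomial.aeval ![(x : E) + l * t, y + m₁ * t + m₂ * t ^ 2] B := by
  unfold onCurve
  rw [MvPolynomial.aeval_map_algebraMap]
  have : ((Polynomial.aeval (R := M) t).restrictScalars Ω).comp (MvPolynomial.aeval
      ![Polynomial.C x + Polynomial.C l * Polynomial.X,
        Polynomial.C y + Polynomial.C m₁ * Polynomial.X + Polynomial.C m₂ * Polynomial.X ^ 2]) =
      MvPolynomial.aeval (R := Ω) ![(x : E) + l * t, y + m₁ * t + m₂ * t ^ 2] := by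
    ext i
    fin_cases i <;> simp
  exact DFunLike.congr_fun this B

/-- The set-up for double covers of the quadric cone. -/
theorem cone_setup {Ω K : Type} [Field Ω] [IsAlgClosed Ω] [Field K] [Algebra Ω K]
    (ψ : Polynomial Ω) (hψ : ψ.natDegree ≠ 0) (B : MvPolynomial (Fin 2) Ω) (x : Fin 2 → K) (r : K)
    (hr : Polynomial.aeval r ψ = MvPolynomial.aeval x B)
    (hgen : adjoin Ω (Set.range x ∪ {r}) = ⊤)
    (hline : ∀ (E : Type) [Field E] [Algebra Ω E] (M : IntermediateField Ω E) [IsAlgClosed M]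
      (x₀ y₀ : M), MvPolynomial.aeval ![x₀, y₀] B ≠ 0 → ∃ l m₁ m₂ : M,
        ¬ (l = 0 ∧ m₁ = 0 ∧ m₂ = 0) ∧ ∀ t r : E, Polynomial.aeval r ψ =
          MvPolynomial.aeval ![(x₀ : E) + l * t, y₀ + m₁ * t + m₂ * t ^ 2] B →
          ∃ θ : E, ∀ F : IntermediateField Ω E, M ≤ F → θ ∈ F → t ∈ F ∧ r ∈ F) :
    Uniruled Ω K 2 := by
  classical
  have hmem : MvPolynomial.aeval x B ∈ AF Ω (Set.range x) := by
    have h1 : MvPolynomial.aeval x B ∈ (MvPolynomial.aeval (R := Ω) x).range := ⟨B, rfl⟩
    rw [← Algebra.adjoin_range_eq_range_aeval] at h1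
    exact adjoin_le_iff.2 (subset_AF _) (algebra_adjoin_le_adjoin Ω _ h1)
  have hK : ∀ k : K, IsAlgebraic (adjoin Ω (Set.range x)) k := by
    intro k
    have h1 : adjoin Ω (Set.range x ∪ {r}) ≤ AF Ω (Set.range x) := by
      rw [adjoin_le_iff, Set.union_subset_iff, Set.singleton_subset_iff]
      refine ⟨subset_AF _, mem_AF_of_aeval _ ψ hψ r ?_⟩
      rw [hr]
      exact hmem
    rw [hgen] at h1
    exact mem_AF.1 (h1 trivial)
  by_cases hx : AlgebraicIndependent Ω x
  swap
  · exact uniruled_of_dep x hx hK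
  by_cases hB0 : B = 0
  · -- `r` is a constant
    subst hB0
    rw [map_zero] at hr
    have hr1 : IsAlgebraic Ω r := ⟨ψ, by rintro rfl; exact hψ Polynomial.natDegree_zero, hr⟩
    refine ⟨K, inferInstance, inferInstance, AlgHom.id Ω K, {x 0}, x 1, by simp, fun k => ?_⟩
    have h1 : adjoin Ω (Set.range x ∪ {r}) ≤
        adjoin Ω (Acl Ω ((({x 0} : Finset K)) : Set K) ∪ {x 1}) := by
      rw [adjoin_le_iff, Set.union_subset_iff, Set.singleton_subset_iff]
      constructor
      · rintro _ ⟨i, rfl⟩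
        fin_cases i
        · exact subset_adjoin _ _ (Or.inl (mem_AF.1 (subset_AF _ (by simp))))
        · exact subset_adjoin _ _ (Or.inr rfl)
      · exact subset_adjoin _ _ (Or.inl (hr1.extendScalars (algebraMap Ω _).injective))
    rw [hgen] at h1
    exact h1 trivial
  -- the generic case
  let E := AlgebraicClosure K
  set x' : Fin 2 → E := fun i => algebraMap K E (x i) with hx'
  have hx'i : AlgebraicIndependent Ω x' := by
    have := hx.map' (f := (IsScalarTower.toAlgHom Ω K E)) (algebraMap K E).injective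
    exact this
  obtain ⟨k, hk⟩ := exists_const2 _ hB0 x' hx'i (x' 0 ^ 3)
  set S : Finset E := {x' 0} with hS
  have hSE : (S : Set E) = {x' 0} := by simp [hS]
  set M : IntermediateField Ω E := AF Ω (S : Set E) with hM
  have ht : Transcendental M (x' 1) := by
    have := trans_AF2 x' hx'i
    rw [hM, hSE]
    exact this
  have m0 : x' 0 ∈ M := subset_AF _ (by simp [hS])
  obtain ⟨a, ha⟩ : ∃ a : M, a = ⟨x' 0, m0⟩ := ⟨_, rfl⟩
  have haE : (a : E) = x' 0 := by rw [ha]
  have hBP : MvPolynomial.aeval ![a, a ^ 3 + algebraMap Ω M k] B ≠ 0 := by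
    intro h0
    apply hk
    have h1 := congrArg (algebraMap M E) h0
    rw [map_zero, ← MvPolynomial.aeval_algebraMap_apply] at h1
    rw [← h1]
    congr 2
    funext i
    fin_cases i
    · exact haE.symm
    · change x' 0 ^ 3 + algebraMap Ω E k = (a : E) ^ 3 + algebraMap Ω E k
      rw [haE]
  obtain ⟨l, m₁, m₂, hd, hl⟩ := hline E M a (a ^ 3 + algebraMap Ω M k) hBP
  set γ : Fin 2 → Polynomial M := ![Polynomial.C a + Polynomial.C l * Polynomial.X,
    Polynomial.C (a ^ 3 + algebraMap Ω M k) + Polynomial.C m₁ * Polynomial.X +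
      Polynomial.C m₂ * Polynomial.X ^ 2] with hγ
  have hγ0 : (fun i => (γ i).eval 0) = ![a, a ^ 3 + algebraMap Ω M k] := by
    funext i
    fin_cases i <;> simp [hγ]
  set x'' : Fin 2 → E := fun i => Polynomial.aeval (x' 1) (γ i) with hx''
  have e0 : x'' 0 = a + l * x' 1 := by
    simp [hx'', hγ]
  have e1 : x'' 1 = a ^ 3 + algebraMap Ω E k + m₁ * x' 1 + m₂ * x' 1 ^ 2 := by
    simp [hx'', hγ]
  have hx''v : x'' = ![(a : E) + l * x' 1,
      ((a ^ 3 + algebraMap Ω M k : M) : E) + m₁ * x' 1 + m₂ * x' 1 ^ 2] := by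
    funext i
    fin_cases i
    · exact e0
    · exact e1
  set φ : Polynomial Ω := Polynomial.X ^ 3 + Polynomial.C k with hφ
  set L : MvPolynomial (Fin 2) Ω :=
    MvPolynomial.X 1 - Polynomial.aeval (MvPolynomial.X 0) φ with hL
  have hLv : ∀ (A : Type) [Field A] [Algebra Ω A] (y : Fin 2 → A), MvPolynomial.aeval y L =
      y 1 - y 0 ^ 3 - algebraMap Ω A k := by
    intro A _ _ y
    simp only [hL, hφ, map_sub, map_add, map_pow, Polynomial.aeval_X, Polynomial.aeval_C,
      MvPolynomial.aeval_X, MvPolynomial.algebraMap_eq, MvPolynomial.aeval_C]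
    ring
  have hLt : MvPolynomial.aeval x'' L ≠ 0 := by
    intro h0
    rw [hLv] at h0
    have h1 := three_coeff (E := E) ht (m₁ - 3 * a ^ 2 * l) (m₂ - 3 * a * l ^ 2) (-(l ^ 3)) (by
        rw [← h0, e0, e1]
        simp only [map_sub, map_mul, map_pow, map_neg, map_ofNat,
          IntermediateField.algebraMap_apply]
        ring)
    obtain ⟨h3, h4, h5⟩ := h1
    have l0 : l = 0 := eq_zero_of_pow_eq_zero (neg_eq_zero.1 h5)
    rw [l0] at h3 h4
    apply hd
    refine ⟨l0, by simpa using h3, by simpa using h4⟩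
  have hind : AlgebraicIndependent Ω x'' := by
    refine indep_curve M γ (x' 1) ht L ?_ ?_ hLt
    · rw [hγ0, hLv]
      change (a ^ 3 + algebraMap Ω M k) - a ^ 3 - algebraMap Ω M k = 0
      ring
    · intro G hG
      rw [hγ0] at hG
      have ha' : Transcendental Ω a := by
        have h1 : Transcendental Ω (x' 0) := hx'i.transcendental 0
        intro h3
        apply h1
        rw [← haE]
        exact h3.algebraMap (A := E)
      exact dvd_of_graph2 ![a, a ^ 3 + algebraMap Ω M k] φ ha' (by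
        simp only [hφ, map_add, map_pow, Polynomial.aeval_X, Polynomial.aeval_C]
        rfl) G hG
  obtain ⟨g, hg⟩ := exists_embedding x hx hK x'' hind
  have hgr : Polynomial.aeval (g r) ψ = MvPolynomial.aeval x'' B := by
    have h1 := congrArg g hr
    rw [← Polynomial.aeval_algHom_apply, MvPolynomial.comp_aeval_apply] at h1
    rw [h1]
    congr 2
    funext i
    exact hg i
  rw [hx''v] at hgr
  obtain ⟨θ, hθ⟩ := hl (x' 1) (g r) hgr
  refine ⟨E, inferInstance, inferInstance, g, S, θ, ?_, fun k => ?_⟩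
  · rw [hS]
    simp
  · set F := adjoin Ω (Acl Ω (S : Set E) ∪ {θ}) with hF
    have hMF : M ≤ F := by
      intro a ha
      exact subset_adjoin _ _ (Or.inl (mem_AF.1 ha))
    have hθF : θ ∈ F := subset_adjoin _ _ (Or.inr rfl)
    obtain ⟨f1, f2⟩ := hθ F hMF hθF
    have h3 : adjoin Ω (Set.range x ∪ {r}) ≤ F.comap g := by
      rw [adjoin_le_iff, Set.union_subset_iff, Set.singleton_subset_iff]
      constructor
      · rintro _ ⟨i, rfl⟩
        change g (x i) ∈ F
        rw [hg i]
        fin_cases i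
        · change x'' 0 ∈ F
          rw [e0]
          exact F.add_mem (hMF a.2) (F.mul_mem (hMF l.2) f1)
        · change x'' 1 ∈ F
          rw [e1]
          exact F.add_mem (F.add_mem (F.add_mem (pow_mem (hMF a.2) 3)
            (IntermediateField.algebraMap_mem _ _)) (F.mul_mem (hMF m₁.2) f1))
            (F.mul_mem (hMF m₂.2) (pow_mem f1 2))
      · exact f2
    rw [hgen] at h3
    exact h3 trivial

/-- **Double covers of the quadric cone are uniruled**, characteristic not two. -/
theorem uni_cone {Ω K : Type} [Field Ω] [IsAlgClosed Ω] [Field K] [Algebra Ω K]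
    (h2 : (2 : Ω) ≠ 0) (B : MvPolynomial (Fin 2) Ω) (hB : WDeg 6 B) (x : Fin 2 → K) (r : K)
    (hr : r ^ 2 = MvPolynomial.aeval x B) (hgen : adjoin Ω (Set.range x ∪ {r}) = ⊤) :
    Uniruled Ω K 2 := by
  refine cone_setup (Polynomial.X ^ 2) (by simp) B x r (by simpa using hr) hgen ?_
  intro E _ _ M _ x₀ y₀ hP
  have h2E : (2 : E) ≠ 0 := by
    intro h
    apply h2
    apply (algebraMap Ω E).injective
    rw [map_ofNat, map_zero, h]
  set B' := MvPolynomial.map (algebraMap Ω M) B with hB'
  have hev : MvPolynomial.eval ![x₀, y₀] B' = MvPolynomial.aeval ![x₀, y₀] B := by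
    rw [hB', MvPolynomial.eval_map, MvPolynomial.aeval_def]
  obtain ⟨l, m₁, m₂, q₁, q₂, h₁, h₂, hd, hl⟩ :=
    exists_bitangent_curve B' (hB.map _) x₀ y₀ (by rw [hev]; exact hP)
  refine ⟨l, m₁, m₂, hd, fun t r hr => ?_⟩
  have h3 := congrArg (Polynomial.aeval t) hl
  rw [hB', aeval_onCurve] at h3
  have h4 : r ^ 2 = (1 + q₁ * t + q₂ * t ^ 2) ^ 2 *
      ((MvPolynomial.eval ![x₀, y₀] B' : M) + h₁ * t + h₂ * t ^ 2) := by
    have h5 : Polynomial.aeval r (Polynomial.X ^ 2 : Polynomial Ω) = r ^ 2 := by simp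
    rw [← h5, hr, h3, dbl]
    simp only [map_mul, map_pow, map_add, Polynomial.aeval_C, Polynomial.aeval_X, map_one,
      IntermediateField.algebraMap_apply, ← hB']
  by_cases hQ : (1 + q₁ * t + q₂ * t ^ 2 : E) = 0
  · rw [hQ] at h4
    have h5 : r = 0 := by
      apply eq_zero_of_pow_eq_zero (n := 2)
      rw [h4]
      ring
    exact ⟨t, fun F hF hθ => ⟨hθ, by rw [h5]; exact F.zero_mem⟩⟩
  · set Q : E := 1 + q₁ * t + q₂ * t ^ 2 with hQd
    obtain ⟨θ, hθ⟩ := conic_param M h2E (MvPolynomial.eval ![x₀, y₀] B') h₁ h₂ t (r / Q) (by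
      rw [div_pow, h4]
      field_simp)
    refine ⟨θ, fun F hF hθF => ?_⟩
    obtain ⟨e1, e2⟩ := hθ F hF hθF
    refine ⟨e1, ?_⟩
    have h5 : r = r / Q * Q := by field_simp
    have h6 : Q ∈ F := by
      rw [hQd]
      exact F.add_mem (F.add_mem F.one_mem (F.mul_mem (hF q₁.2) e1))
        (F.mul_mem (hF q₂.2) (pow_mem e1 2))
    rw [h5]
    exact F.mul_mem e2 h6

end Pool.Agent.Helper40.SD
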