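import Pool.Agent.Helper40.SD.Cone
import Pool.Agent.Helper40.SD.SolidTwo

/-!
# Double covers of the quadric cone: characteristic two
-/

set_option autoImplicit false

namespace Pool.Agent.Helper40.SD

open IntermediateField Pool.Agent.Helper75.QC

/-- two equations in three unknowns -/
theorem exists_curve_two {M : Type} [Field M] [IsAlgClosed M] (B : MvPolynomial (Fin 2) M)
    (x₀ y₀ : M) : ∃ l m₁ m₂ : M, ¬ (l = 0 ∧ m₁ = 0 ∧ m₂ = 0) ∧
      (onCurve B x₀ y₀ l m₁ m₂).coeff 5 = 0 ∧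
      (onCurve B x₀ y₀ l m₁ m₂).coeff 3 ^ 2 + (onCurve B x₀ y₀ l m₁ m₂).coeff 6 = 0 := by
  let R := MvPolynomial (Fin 3) M
  let Φ : Polynomial R := onCurve (MvPolynomial.map (MvPolynomial.C) B)
    (MvPolynomial.C x₀) (MvPolynomial.C y₀) (MvPolynomial.X 0) (MvPolynomial.X 1)
    (MvPolynomial.X 2)
  have hΦ : ∀ x : Fin 3 → M, Φ.map (MvPolynomial.eval x) =
      onCurve B x₀ y₀ (x 0) (x 1) (x 2) := by
    intro x
    rw [onCurve_map, MvPolynomial.map_map]
    have h1 : (MvPolynomial.eval x).comp MvPolynomial.C = RingHom.id M := by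
      ext a
      simp
    rw [h1, MvPolynomial.map_id]
    simp
  have hc : ∀ (x : Fin 3 → M) (k : ℕ), MvPolynomial.eval x (Φ.coeff k) =
      (onCurve B x₀ y₀ (x 0) (x 1) (x 2)).coeff k := by
    intro x k
    rw [← hΦ, Polynomial.coeff_map]
  have h0 : ∀ k, 0 < k → MvPolynomial.eval (0 : Fin 3 → M) (Φ.coeff k) = 0 := by
    intro k hk
    rw [hc]
    simp only [Pi.zero_apply]
    rw [onCurve_zero, Polynomial.coeff_C_of_ne_zero hk.ne']
  obtain ⟨x, hx0, hx⟩ := exists_zero (k := M) (σ := Fin 3) (ι := Fin 2)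
    ![Φ.coeff 5, Φ.coeff 3 ^ 2 + Φ.coeff 6] (fun j => by
      fin_cases j
      · exact h0 5 (by norm_num)
      · change MvPolynomial.eval 0 (Φ.coeff 3 ^ 2 + Φ.coeff 6) = 0
        rw [map_add, map_pow, h0 3 (by norm_num), h0 6 (by norm_num)]
        simp) (by simp)
  refine ⟨x 0, x 1, x 2, ?_, ?_, ?_⟩
  · rintro ⟨d0, d1, d2⟩
    apply hx0
    funext i
    fin_cases i
    · exact d0
    · exact d1
    · exact d2
  · have h1 := hx 0
    rw [← hc]
    exact h1
  · have h1 := hx 1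
    change MvPolynomial.eval x (Φ.coeff 3 ^ 2 + Φ.coeff 6) = 0 at h1
    rw [map_add, map_pow, hc, hc] at h1
    exact h1

/-- **Double covers of the quadric cone are uniruled**, characteristic two. -/
theorem uni_cone_two {Ω K : Type} [Field Ω] [IsAlgClosed Ω] [Field K] [Algebra Ω K]
    (h2 : (2 : Ω) = 0) (B : MvPolynomial (Fin 2) Ω) (hB : WDeg 6 B) (x : Fin 2 → K) (r : K)
    (hr : r ^ 2 + r = MvPolynomial.aeval x B) (hgen : adjoin Ω (Set.range x ∪ {r}) = ⊤) :
    Uniruled Ω K 2 := by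
  have hψ : (Polynomial.X ^ 2 + Polynomial.X : Polynomial Ω).natDegree = 2 := by
    compute_degree!
  refine cone_setup (Polynomial.X ^ 2 + Polynomial.X) (by rw [hψ]; norm_num) B x r
    (by simpa using hr) hgen ?_
  intro E _ _ M _ x₀ y₀ _
  have h2E : (2 : E) = 0 := by
    have := congrArg (algebraMap Ω E) h2
    rwa [map_ofNat, map_zero] at this
  have h2M : (2 : M) = 0 := by
    have := congrArg (algebraMap Ω M) h2
    rwa [map_ofNat, map_zero] at this
  set B' := MvPolynomial.map (algebraMap Ω M) B with hB'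
  obtain ⟨l, m₁, m₂, hd, h5, h36⟩ := exists_curve_two B' x₀ y₀
  obtain ⟨C, hC⟩ : ∃ C, C = onCurve B' x₀ y₀ l m₁ m₂ := ⟨_, rfl⟩
  have hdeg := natDegree_onCurve B' (hB.map _) x₀ y₀ l m₁ m₂
  have h3 := fun t => aeval_onCurve M B x₀ y₀ l m₁ m₂ t
  rw [← hB', ← hC] at h3
  rw [← hC] at h5 h36 hdeg
  have h6 : C.coeff 6 = C.coeff 3 ^ 2 := by
    linear_combination h36 - C.coeff 3 ^ 2 * h2M
  refine ⟨l, m₁, m₂, hd, fun t r hr => ?_⟩
  have h4 := h3 t
  rw [Polynomial.aeval_eq_sum_range' (Nat.lt_succ_of_le hdeg)] at h4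
  simp only [Finset.sum_range_succ, Finset.sum_range_zero, h5, h6] at h4
  refine as_param M h2E (C.coeff 0) (C.coeff 1) (C.coeff 2) (C.coeff 3) (C.coeff 4) t r ?_
  have h7 : Polynomial.aeval r (Polynomial.X ^ 2 + Polynomial.X : Polynomial Ω) = r ^ 2 + r := by
    simp
  rw [← h7, hr, ← h4]
  simp only [Algebra.smul_def, IntermediateField.algebraMap_apply]
  push_cast
  ring

end Pool.Agent.Helper40.SD
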