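import Pool.Agent.Helper40.SD.SolidOdd

/-!
# Cubic surfaces `τ z³ - B(x, y) z + A(x, y) = 0` are uniruled

`deg A ≤ 3`, `deg B ≤ 2`. Through a general point of the `(x, y)`-plane there is a line over which
the plane cubic curve is singular: three equations in four unknowns. The lines through the singular
point parametrise this curve.
-/

set_option autoImplicit false

namespace Pool.Agent.Helper40.SD

open IntermediateField Pool.Agent.Helper75.QC

/-- the cubic form on a plane -/
def ga {R : Type} [CommRing R] (τ : R) (b a : ℕ → R) (c z : R) : R :=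
  τ * z ^ 3 - (b 0 * c ^ 2 + b 1 * c + b 2) * z + (a 0 * c ^ 3 + a 1 * c ^ 2 + a 2 * c + a 3)

/-- its derivative in `c` -/
def gb {R : Type} [CommRing R] (b a : ℕ → R) (c z : R) : R :=
  -(2 * b 0 * c + b 1) * z + (3 * a 0 * c ^ 2 + 2 * a 1 * c + a 2)

/-- its derivative in `z` -/
def gc {R : Type} [CommRing R] (τ : R) (b : ℕ → R) (c z : R) : R :=
  3 * τ * z ^ 2 - (b 0 * c ^ 2 + b 1 * c + b 2)

theorem map_ga {R R' : Type} [CommRing R] [CommRing R'] (φ : R →+* R') (τ : R) (b a : ℕ → R)
    (c z : R) : φ (ga τ b a c z) = ga (φ τ) (fun j => φ (b j)) (fun j => φ (a j)) (φ c) (φ z) := by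
  simp [ga]

theorem map_gb {R R' : Type} [CommRing R] [CommRing R'] (φ : R →+* R') (b a : ℕ → R)
    (c z : R) : φ (gb b a c z) = gb (fun j => φ (b j)) (fun j => φ (a j)) (φ c) (φ z) := by
  simp only [gb, map_add, map_mul, map_neg, map_pow, map_ofNat]

theorem map_gc {R R' : Type} [CommRing R] [CommRing R'] (φ : R →+* R') (τ : R) (b : ℕ → R)
    (c z : R) : φ (gc τ b c z) = gc (φ τ) (fun j => φ (b j)) (φ c) (φ z) := by
  simp only [gc, map_add, map_mul, map_sub, map_pow, map_ofNat]

/-- **Singular plane sections.** -/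
theorem exists_singular {M : Type} [Field M] [IsAlgClosed M] (A B : MvPolynomial (Fin 2) M)
    (P : Fin 2 → M) (τ : M) (hτ : τ ≠ 0)
    (hD : 4 * (MvPolynomial.eval P B) ^ 3 - 27 * τ * (MvPolynomial.eval P A) ^ 2 ≠ 0) :
    ∃ (d : Fin 2 → M) (c z : M), d ≠ 0 ∧
      ga τ (fun j => (onLine B P d).coeff j) (fun j => (onLine A P d).coeff j) c z = 0 ∧
      gb (fun j => (onLine B P d).coeff j) (fun j => (onLine A P d).coeff j) c z = 0 ∧
      gc τ (fun j => (onLine B P d).coeff j) c z = 0 := by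
  classical
  let R := MvPolynomial (Fin 4) M
  let v : Fin 4 → R := MvPolynomial.X
  let Φ : MvPolynomial (Fin 2) M → Polynomial R := fun B =>
    onLine (MvPolynomial.map (MvPolynomial.C) B) (fun i => MvPolynomial.C (P i))
    (fun i => v (Fin.castLE (by omega) i))
  have hΦ : ∀ (B : MvPolynomial (Fin 2) M) (x : Fin 4 → M), (Φ B).map (MvPolynomial.eval x) =
      onLine B P (fun i => x (Fin.castLE (by omega) i)) := by
    intro B x
    rw [onLine_map, MvPolynomial.map_map]
    have h1 : (MvPolynomial.eval x).comp MvPolynomial.C = RingHom.id M := by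
      ext a
      simp
    rw [h1, MvPolynomial.map_id]
    congr 1
    · funext i
      simp
    · funext i
      simp [v]
  have hc : ∀ (B : MvPolynomial (Fin 2) M) (x : Fin 4 → M) (j : ℕ),
      MvPolynomial.eval x ((Φ B).coeff j) =
      (onLine B P (fun i => x (Fin.castLE (by omega) i))).coeff j := by
    intro B x j
    rw [← hΦ, Polynomial.coeff_map]
  let f : Fin 3 → R := ![ga (MvPolynomial.C τ) (fun j => (Φ B).coeff j) (fun j => (Φ A).coeff j)
      (v 2) (v 3), gb (fun j => (Φ B).coeff j) (fun j => (Φ A).coeff j) (v 2) (v 3),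
      gc (MvPolynomial.C τ) (fun j => (Φ B).coeff j) (v 2) (v 3)]
  have hf : ∀ x : Fin 4 → M, (∀ i, MvPolynomial.eval x (f i) = 0) ↔
      (ga τ (fun j => (onLine B P (fun i => x (Fin.castLE (by omega) i))).coeff j)
        (fun j => (onLine A P (fun i => x (Fin.castLE (by omega) i))).coeff j) (x 2) (x 3) = 0 ∧
      gb (fun j => (onLine B P (fun i => x (Fin.castLE (by omega) i))).coeff j)
        (fun j => (onLine A P (fun i => x (Fin.castLE (by omega) i))).coeff j) (x 2) (x 3) = 0 ∧
      gc τ (fun j => (onLine B P (fun i => x (Fin.castLE (by omega) i))).coeff j)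
        (x 2) (x 3) = 0) := by
    intro x
    rw [Fin.forall_fin_succ, Fin.forall_fin_succ, Fin.forall_fin_succ]
    simp only [f, Matrix.cons_val_zero, Matrix.cons_val_succ, map_ga, map_gb, map_gc, hc]
    simp [v]
  have hz : ∀ (B : MvPolynomial (Fin 2) M) (x : Fin 4 → M) (j : ℕ), x 0 = 0 → x 1 = 0 →
      (onLine B P (fun i => x (Fin.castLE (by omega) i))).coeff j =
      if j = 0 then MvPolynomial.eval P B else 0 := by
    intro B x j h0 h1
    have h2 : (fun i : Fin 2 => x (Fin.castLE (by omega) i)) = 0 := by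
      funext i
      fin_cases i
      · exact h0
      · exact h1
    rw [h2, onLine_zero, Polynomial.coeff_C]
  obtain ⟨x, hx0, hx⟩ := exists_zero (k := M) (σ := Fin 4) (ι := Fin 3) f (by
    have h1 := (hf 0).2 (by
      simp only [hz B 0 _ rfl rfl, hz A 0 _ rfl rfl]
      simp [ga, gb, gc])
    exact h1) (by simp)
  obtain ⟨e1, e2, e3⟩ := (hf x).1 hx
  refine ⟨fun i => x (Fin.castLE (by omega) i), x 2, x 3, ?_, e1, e2, e3⟩
  intro hd
  have d0 : x 0 = 0 := congrFun hd 0
  have d1 : x 1 = 0 := congrFun hd 1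
  simp only [hz B x _ d0 d1, hz A x _ d0 d1] at e1 e2 e3
  simp only [ga, gb, gc] at e1 e2 e3
  norm_num at e1 e2 e3
  set b := MvPolynomial.eval P B with hb
  set a := MvPolynomial.eval P A with ha
  by_cases h2 : x 2 = 0
  · rw [h2] at e1
    have h3 : x 3 = 0 := by
      have : τ * x 3 ^ 3 = 0 := by linear_combination e1
      rcases mul_eq_zero.1 this with h | h
      · exact absurd h hτ
      · exact eq_zero_of_pow_eq_zero h
    apply hx0
    funext i
    fin_cases i
    · exact d0
    · exact d1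
    · exact h2
    · exact h3
  · apply hD
    have h3 : x 2 * (3 * a * x 2 - 2 * b * x 3) = 0 := by linear_combination e2
    have h4 : 3 * a * x 2 - 2 * b * x 3 = 0 := (mul_eq_zero.1 h3).resolve_left h2
    have h5 : x 2 ^ 2 * (4 * b ^ 3 - 27 * τ * a ^ 2) = 0 := by
      linear_combination -3 * τ * (3 * a * x 2 + 2 * b * x 3) * h4 - 4 * b ^ 2 * e3
    exact (mul_eq_zero.1 h5).resolve_left (pow_ne_zero 2 h2)

/-- the parametrisation of a singular plane cubic -/
theorem cubic_param {Ω E : Type} [Field Ω] [Field E] [Algebra Ω E] (M : IntermediateField Ω E)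
    (hM : ∀ e : E, IsAlgebraic M e → e ∈ M) (τ : M) (hτ : τ ≠ 0) (b a : ℕ → M) (c w : M)
    (h0 : ga τ b a c w = 0) (h1 : gb b a c w = 0) (h2 : gc τ b c w = 0) (t z : E)
    (ht : Transcendental M t)
    (hz : τ * z ^ 3 - (b 0 + b 1 * t + b 2 * t ^ 2) * z +
      (a 0 + a 1 * t + a 2 * t ^ 2 + a 3 * t ^ 3 : E) = 0) :
    ∃ θ : E, ∀ F : IntermediateField Ω E, M ≤ F → θ ∈ F → t ∈ F ∧ z ∈ F := by
  have k0 : (τ : E) * w ^ 3 - (b 0 * c ^ 2 + b 1 * c + b 2) * w +
      (a 0 * c ^ 3 + a 1 * c ^ 2 + a 2 * c + a 3) = 0 := by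
    have h := congrArg (algebraMap M E) h0
    rw [map_zero, map_ga] at h
    exact h
  have k1 : -(2 * (b 0 : E) * c + b 1) * w + (3 * a 0 * c ^ 2 + 2 * a 1 * c + a 2) = 0 := by
    have h := congrArg (algebraMap M E) h1
    rw [map_zero, map_gb] at h
    exact h
  have k2 : 3 * (τ : E) * w ^ 2 - (b 0 * c ^ 2 + b 1 * c + b 2) = 0 := by
    have h := congrArg (algebraMap M E) h2
    rw [map_zero, map_gc] at h
    exact h
  have hv : (1 - t * c : E) ≠ 0 := by
    intro h
    have hc : (c : E) ≠ 0 := by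
      rintro hc
      rw [hc] at h
      simp at h
    apply ht
    have h3 : t = (c : E)⁻¹ := by
      rw [eq_comm, inv_eq_iff_eq_inv, eq_comm, inv_eq_of_mul_eq_one_left]
      linear_combination -h
    rw [h3]
    exact isAlgebraic_algebraMap (R := M) (A := E) (c⁻¹)
  set θ : E := (z - t * w) / (1 - t * c) with hθ
  have hzθ : z = θ * (1 - t * c) + t * w := by
    rw [hθ]
    field_simp
    ring
  set q : E := 3 * τ * w * θ ^ 2 - 2 * b 0 * c * θ - b 0 * w - b 1 * θ + 3 * a 0 * c + a 1 with hq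
  set H : E := τ * θ ^ 3 - b 0 * θ + a 0 with hH
  have key : t * (q - c * H) = -H := by
    have h3 : (1 - t * c) ^ 2 * (t * (q - c * H) + H) = 0 := by
      rw [hzθ] at hz
      rw [hq, hH]
      linear_combination hz - t ^ 3 * k0 - t ^ 2 * ((1 - t * c) * k1 + θ * (1 - t * c) * k2)
    have h4 := (mul_eq_zero.1 h3).resolve_left (pow_ne_zero 2 hv)
    linear_combination h4
  by_cases hqH : q - c * H = 0
  · have hH0 : H = 0 := by
      rw [hqH, mul_zero] at key
      exact neg_eq_zero.1 key.symm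
    have hθM : θ ∈ M := by
      apply hM
      refine ⟨Polynomial.C τ * Polynomial.X ^ 3 - Polynomial.C (b 0) * Polynomial.X +
        Polynomial.C (a 0), ?_, ?_⟩
      · intro h3
        apply hτ
        have := congrArg (fun p => Polynomial.coeff p 3) h3
        simpa [Polynomial.coeff_X, Polynomial.coeff_C] using this
      · simp only [map_add, map_sub, map_mul, map_pow, Polynomial.aeval_C, Polynomial.aeval_X,
          IntermediateField.algebraMap_apply]
        exact hH0
    refine ⟨t, fun F hF hθF => ⟨hθF, ?_⟩⟩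
    rw [hzθ]
    exact F.add_mem (F.mul_mem (hF hθM) (F.sub_mem F.one_mem (F.mul_mem hθF (hF c.2))))
      (F.mul_mem hθF (hF w.2))
  · refine ⟨θ, fun F hF hθF => ?_⟩
    have n2 : (2 : E) ∈ F := by exact_mod_cast F.natCast_mem 2
    have n3 : (3 : E) ∈ F := by exact_mod_cast F.natCast_mem 3
    have mH : H ∈ F := by
      rw [hH]
      exact F.add_mem (F.sub_mem (F.mul_mem (hF τ.2) (pow_mem hθF 3))
        (F.mul_mem (hF (b 0).2) hθF)) (hF (a 0).2)
    have mq : q ∈ F := by
      rw [hq]
      exact F.add_mem (F.add_mem (F.sub_mem (F.sub_mem (F.sub_mem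
        (F.mul_mem (F.mul_mem (F.mul_mem n3 (hF τ.2)) (hF w.2)) (pow_mem hθF 2))
        (F.mul_mem (F.mul_mem (F.mul_mem n2 (hF (b 0).2)) (hF c.2)) hθF))
        (F.mul_mem (hF (b 0).2) (hF w.2))) (F.mul_mem (hF (b 1).2) hθF))
        (F.mul_mem (F.mul_mem n3 (hF (a 0).2)) (hF c.2))) (hF (a 1).2)
    have mt : t ∈ F := by
      have h3 : t = -H / (q - c * H) := by
        rw [eq_div_iff hqH]
        exact key
      rw [h3]
      exact F.div_mem (F.neg_mem mH) (F.sub_mem mq (F.mul_mem (hF c.2) mH))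
    refine ⟨mt, ?_⟩
    rw [hzθ]
    exact F.add_mem (F.mul_mem hθF (F.sub_mem F.one_mem (F.mul_mem mt (hF c.2))))
      (F.mul_mem mt (hF w.2))

end Pool.Agent.Helper40.SD
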