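import Pool.Agent.Helper40.SD.Cubic

/-!
# Cubic surfaces `τ z³ - B(x, y) z + A(x, y) = 0` are uniruled: the theorem
-/

set_option autoImplicit false

namespace Pool.Agent.Helper40.SD

open IntermediateField Pool.Agent.Helper75.QC

/-- a polynomial which vanishes at the generic point of a plane graph -/
theorem dvd_of_graph2 {Ω A : Type} [Field Ω] [Field A] [Algebra Ω A] (P : Fin 2 → A)
    (φ : Polynomial Ω) (h0 : Transcendental Ω (P 0)) (h1 : P 1 = Polynomial.aeval (P 0) φ)
    (G : MvPolynomial (Fin 2) Ω) (hG : MvPolynomial.aeval P G = 0) :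
    (MvPolynomial.X 1 - Polynomial.aeval (MvPolynomial.X 0) φ) ∣ G := by
  set σ : MvPolynomial (Fin 2) Ω →ₐ[Ω] Polynomial Ω :=
    MvPolynomial.aeval ![Polynomial.X, φ] with hσ
  set ι : Polynomial Ω →ₐ[Ω] MvPolynomial (Fin 2) Ω :=
    Polynomial.aeval (MvPolynomial.X 0) with hι
  have e1 : σ G = 0 := by
    apply coeff_zero_of h0
    rw [← hG]
    have : (Polynomial.aeval (P 0)).comp σ = MvPolynomial.aeval P := by
      ext i
      fin_cases i
      · simp [hσ]
      · simp [hσ, h1]
    exact DFunLike.congr_fun this G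
  have h2 : ∀ G : MvPolynomial (Fin 2) Ω, (MvPolynomial.X 1 - ι φ) ∣ G - ι (σ G) := by
    intro G
    induction G using MvPolynomial.induction_on with
    | C a =>
      have : ι (σ (MvPolynomial.C a)) = MvPolynomial.C a := by
        rw [hσ, MvPolynomial.aeval_C]
        exact ι.commutes a
      rw [this, sub_self]
      exact dvd_zero _
    | add p q hp hq =>
      rw [map_add, map_add]
      convert dvd_add hp hq using 1
      ring
    | mul_X p i hp =>
      have h3 : (MvPolynomial.X 1 - ι φ) ∣ MvPolynomial.X i - ι (σ (MvPolynomial.X i)) := by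
        fin_cases i
        · simp [hσ, hι]
        · simp [hσ]
      rw [map_mul, map_mul]
      have h4 := dvd_add (hp.mul_right (MvPolynomial.X i)) (h3.mul_left (ι (σ p)))
      convert h4 using 1
      ring
  have h3 := h2 G
  rw [e1, map_zero, sub_zero] at h3
  exact h3

theorem exists_const2 {Ω E : Type} [Field Ω] [IsAlgClosed Ω] [Field E] [Algebra Ω E]
    (B : MvPolynomial (Fin 2) Ω) (hB : B ≠ 0) (x : Fin 2 → E) (hx : AlgebraicIndependent Ω x)
    (e : E) : ∃ c : Ω, MvPolynomial.aeval ![x 0, e + algebraMap Ω E c] B ≠ 0 := by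
  by_contra hcon
  push Not at hcon
  set p : Polynomial E := MvPolynomial.aeval
    ![Polynomial.C (x 0), Polynomial.C e + Polynomial.X] B with hp
  have heval : ∀ u : E, p.eval u = MvPolynomial.aeval ![x 0, e + u] B := by
    intro u
    have : ((Polynomial.aeval (R := E) u).restrictScalars Ω).comp (MvPolynomial.aeval
        ![Polynomial.C (x 0), Polynomial.C e + Polynomial.X]) =
        MvPolynomial.aeval (R := Ω) ![x 0, e + u] := by
      ext i
      fin_cases i <;> simp
    rw [← Polynomial.coe_aeval_eq_eval]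
    exact DFunLike.congr_fun this B
  have h0 : p = 0 := by
    apply Polynomial.eq_zero_of_infinite_isRoot
    have hinf : (Set.range (algebraMap Ω E)).Infinite :=
      Set.infinite_range_of_injective (algebraMap Ω E).injective
    refine hinf.mono ?_
    rintro _ ⟨c, rfl⟩
    change p.eval _ = 0
    rw [heval]
    exact hcon c
  have h1 := heval (x 1 - e)
  rw [h0, Polynomial.eval_zero] at h1
  apply hB
  apply hx
  rw [map_zero, h1]
  congr 2
  funext i
  fin_cases i <;> simp

theorem trans_AF2 {Ω E : Type} [Field Ω] [Field E] [Algebra Ω E] (x : Fin 2 → E)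
    (hx : AlgebraicIndependent Ω x) : Transcendental (AF Ω {x 0}) (x 1) := by
  intro h
  have h1 : IsAlgebraic (adjoin Ω ({x 0} : Set E)) (x 1) := mem_AF.1 (AF_closed h)
  have h2 := isAlgebraic_adjoin_iff.1 h1
  have h3 := hx.transcendental_adjoin (s := {0}) (i := 1) (by simp)
  rw [Set.image_singleton] at h3
  exact h3 h2

/-- a polynomial of degree three along a line -/
theorem onLine_cubic {Ω E : Type} [Field Ω] [Field E] [Algebra Ω E] (M : IntermediateField Ω E)
    (A : MvPolynomial (Fin 2) Ω) (hA : A.totalDegree ≤ 3) (P d : Fin 2 → M) (t : E) :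
    MvPolynomial.aeval (fun i => (P i : E) + d i * t) A =
      ((onLine (MvPolynomial.map (algebraMap Ω M) A) P d).coeff 0 : M) +
      ((onLine (MvPolynomial.map (algebraMap Ω M) A) P d).coeff 1 : M) * t +
      ((onLine (MvPolynomial.map (algebraMap Ω M) A) P d).coeff 2 : M) * t ^ 2 +
      ((onLine (MvPolynomial.map (algebraMap Ω M) A) P d).coeff 3 : M) * t ^ 3 := by
  rw [← aeval_onLine, Polynomial.aeval_eq_sum_range' (n := 4)]
  · simp only [Finset.sum_range_succ, Finset.sum_range_zero, Algebra.smul_def,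
      IntermediateField.algebraMap_apply]
    ring
  · have := natDegree_onLine (MvPolynomial.map (algebraMap Ω M) A)
      ((totalDegree_map_le _ _).trans hA) P d
    omega

/-- **Cubic surfaces.** -/
theorem uni_cubic {Ω K : Type} [Field Ω] [IsAlgClosed Ω] [Field K] [Algebra Ω K] (τ : Ω)
    (hτ : τ ≠ 0) (A B : MvPolynomial (Fin 2) Ω) (hA : A.totalDegree ≤ 3) (hB : B.totalDegree ≤ 2)
    (hD : 4 * B ^ 3 - 27 * MvPolynomial.C τ * A ^ 2 ≠ 0) (x : Fin 2 → K) (z : K)
    (hz : algebraMap Ω K τ * z ^ 3 - MvPolynomial.aeval x B * z + MvPolynomial.aeval x A = 0)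
    (hgen : adjoin Ω (Set.range x ∪ {z}) = ⊤) : Uniruled Ω K 2 := by
  classical
  have hmem : ∀ B : MvPolynomial (Fin 2) Ω,
      MvPolynomial.aeval x B ∈ AF Ω (Set.range x) := by
    intro B
    have h1 : MvPolynomial.aeval x B ∈ (MvPolynomial.aeval (R := Ω) x).range := ⟨B, rfl⟩
    rw [← Algebra.adjoin_range_eq_range_aeval] at h1
    exact adjoin_le_iff.2 (subset_AF _) (algebra_adjoin_le_adjoin Ω _ h1)
  have hτK : algebraMap Ω K τ ≠ 0 := by
    rw [Ne, map_eq_zero]
    exact hτ
  have hK : ∀ k : K, IsAlgebraic (adjoin Ω (Set.range x)) k := by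
    intro k
    have h1 : adjoin Ω (Set.range x ∪ {z}) ≤ AF Ω (Set.range x) := by
      rw [adjoin_le_iff, Set.union_subset_iff, Set.singleton_subset_iff]
      refine ⟨subset_AF _, AF_closed ?_⟩
      refine ⟨Polynomial.C (algebraMap Ω _ τ) * Polynomial.X ^ 3 - Polynomial.C (⟨_, hmem B⟩) *
        Polynomial.X + Polynomial.C (⟨_, hmem A⟩), ?_, ?_⟩
      · intro h3
        have := congrArg (fun p => Polynomial.coeff p 3) h3
        simp at this
        exact hτ this
      · simp only [map_add, map_sub, map_mul, map_pow, Polynomial.aeval_C, Polynomial.aeval_X,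
          IntermediateField.algebraMap_apply]
        exact hz
    rw [hgen] at h1
    exact mem_AF.1 (h1 trivial)
  by_cases hx : AlgebraicIndependent Ω x
  swap
  · exact uniruled_of_dep x hx hK
  -- the generic case
  let E := AlgebraicClosure K
  set x' : Fin 2 → E := fun i => algebraMap K E (x i) with hx'
  have hx'i : AlgebraicIndependent Ω x' := by
    have := hx.map' (f := (IsScalarTower.toAlgHom Ω K E)) (algebraMap K E).injective
    exact this
  obtain ⟨k, hk⟩ := exists_const2 _ hD x' hx'i (x' 0 ^ 2)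
  set S : Finset E := {x' 0} with hS
  have hSE : (S : Set E) = {x' 0} := by simp [hS]
  set M : IntermediateField Ω E := AF Ω (S : Set E) with hM
  have ht : Transcendental M (x' 1) := by
    have := trans_AF2 x' hx'i
    rw [hM, hSE]
    exact this
  have m0 : x' 0 ∈ M := subset_AF _ (by simp [hS])
  let P : Fin 2 → M := ![⟨x' 0, m0⟩, (⟨x' 0, m0⟩ : M) ^ 2 + algebraMap Ω M k]
  have hPE : ![x' 0, x' 0 ^ 2 + algebraMap Ω E k] = algebraMap M E ∘ P := by
    funext i
    fin_cases i
    · rfl
    · rfl
  set A' := MvPolynomial.map (algebraMap Ω M) A with hA'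
  set B' := MvPolynomial.map (algebraMap Ω M) B with hB'
  have hev : ∀ G : MvPolynomial (Fin 2) Ω,
      MvPolynomial.eval P (MvPolynomial.map (algebraMap Ω M) G) = MvPolynomial.aeval P G := by
    intro G
    rw [MvPolynomial.eval_map, MvPolynomial.aeval_def]
  have hDP : 4 * (MvPolynomial.eval P B') ^ 3 -
      27 * algebraMap Ω M τ * (MvPolynomial.eval P A') ^ 2 ≠ 0 := by
    intro h0
    apply hk
    rw [hA', hB', hev, hev] at h0
    rw [hPE, MvPolynomial.aeval_algebraMap_apply]
    rw [map_sub, map_mul, map_mul, map_mul, map_pow, map_pow, map_ofNat, map_ofNat,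
      MvPolynomial.aeval_C, h0, map_zero]
  obtain ⟨d, c, w, hd, e0, e1, e2⟩ := exists_singular A' B' P (algebraMap Ω M τ) (by
    rw [Ne, map_eq_zero]; exact hτ) hDP
  -- the generic point of the plane
  set x'' : Fin 2 → E := fun i => (P i : E) + d i * x' 1 with hx''
  set φ : Polynomial Ω := Polynomial.X ^ 2 + Polynomial.C k with hφ
  set L : MvPolynomial (Fin 2) Ω :=
    MvPolynomial.X 1 - Polynomial.aeval (MvPolynomial.X 0) φ with hL
  have hLv : ∀ (A : Type) [Field A] [Algebra Ω A] (y : Fin 2 → A), MvPolynomial.aeval y L =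
      y 1 - y 0 ^ 2 - algebraMap Ω A k := by
    intro A _ _ y
    simp only [hL, hφ, map_sub, map_add, map_pow, Polynomial.aeval_X, Polynomial.aeval_C,
      MvPolynomial.aeval_X, MvPolynomial.algebraMap_eq, MvPolynomial.aeval_C]
    ring
  have hLt : MvPolynomial.aeval x'' L ≠ 0 := by
    intro h0
    rw [hLv] at h0
    have h1 := three_coeff (E := E) ht (d 1 - 2 * P 0 * d 0) (-(d 0) ^ 2) 0 (by
        rw [← h0]
        have e0 : x'' 0 = x' 0 + d 0 * x' 1 := rfl
        have e1 : x'' 1 = x' 0 ^ 2 + algebraMap Ω E k + d 1 * x' 1 := rfl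
        have p0 : ((P 0 : M) : E) = x' 0 := rfl
        rw [e0, e1]
        simp only [map_sub, map_mul, map_pow, map_neg, map_ofNat, map_zero,
          IntermediateField.algebraMap_apply, p0]
        ring)
    obtain ⟨h2, h3, -⟩ := h1
    have d0 : d 0 = 0 := by
      apply eq_zero_of_pow_eq_zero (n := 2)
      linear_combination -h3
    rw [d0] at h2
    apply hd
    funext i
    fin_cases i
    · exact d0
    · simpa using h2
  have hind : AlgebraicIndependent Ω x'' := by
    refine indep_line M P d (x' 1) ht L ?_ ?_ hLt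
    · rw [hLv]
      change ((⟨x' 0, m0⟩ : M) ^ 2 + algebraMap Ω M k) -
        (⟨x' 0, m0⟩ : M) ^ 2 - algebraMap Ω M k = 0
      ring
    · intro G hG
      have ha : Transcendental Ω (P 0) := by
        have h1 : Transcendental Ω (x' 0) := hx'i.transcendental 0
        intro h2
        exact h1 (h2.algebraMap (A := E))
      exact dvd_of_graph2 P φ ha (by
        simp only [hφ, map_add, map_pow, Polynomial.aeval_X, Polynomial.aeval_C]
        rfl) G hG
  obtain ⟨g, hg⟩ := exists_embedding x hx hK x'' hind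
  have hgz : algebraMap Ω E τ * g z ^ 3 - MvPolynomial.aeval x'' B * g z +
      MvPolynomial.aeval x'' A = 0 := by
    have h1 := congrArg g hz
    rw [map_zero, map_add, map_sub, map_mul, map_mul, map_pow, AlgHom.commutes,
      MvPolynomial.comp_aeval_apply, MvPolynomial.comp_aeval_apply] at h1
    have h2 : (fun i => g (x i)) = x'' := funext hg
    rw [h2] at h1
    exact h1
  rw [onLine_cubic M A hA P d, onLine_cubic M B (hB.trans (by norm_num)) P d] at hgz
  have hB3 : (onLine (MvPolynomial.map (algebraMap Ω M) B) P d).coeff 3 = 0 := by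
    apply Polynomial.coeff_eq_zero_of_natDegree_lt
    have := natDegree_onLine (MvPolynomial.map (algebraMap Ω M) B)
      ((totalDegree_map_le _ _).trans hB) P d
    omega
  obtain ⟨θ, hθ⟩ := cubic_param M (fun e he => AF_closed he) (algebraMap Ω M τ) (by
    rw [Ne, map_eq_zero]; exact hτ) _ _ c w e0 e1 e2 (x' 1) (g z) ht (by
      rw [hB3] at hgz
      rw [← hgz]
      have hτ' : ((algebraMap Ω M τ : M) : E) = algebraMap Ω E τ := rfl
      rw [hτ']
      simp only [ZeroMemClass.coe_zero, zero_mul, add_zero]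
      rfl)
  refine ⟨E, inferInstance, inferInstance, g, S, θ, ?_, fun k => ?_⟩
  · rw [hS]
    simp
  · set F := adjoin Ω (Acl Ω (S : Set E) ∪ {θ}) with hF
    have hMF : M ≤ F := by
      intro a ha
      exact subset_adjoin _ _ (Or.inl (mem_AF.1 ha))
    have hθF : θ ∈ F := subset_adjoin _ _ (Or.inr rfl)
    obtain ⟨h1, h2⟩ := hθ F hMF hθF
    have h3 : adjoin Ω (Set.range x ∪ {z}) ≤ F.comap g := by
      rw [adjoin_le_iff, Set.union_subset_iff, Set.singleton_subset_iff]
      constructor
      · rintro _ ⟨i, rfl⟩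
        change g (x i) ∈ F
        rw [hg i]
        exact F.add_mem (hMF (P i).2) (F.mul_mem (hMF (d i).2) h1)
      · exact h2
    rw [hgen] at h3
    exact h3 trivial

end Pool.Agent.Helper40.SD
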