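import Pool.Agent.Helper40.SD.Pol
import Pool.Agent.Helper40.SD.SolidOdd

/-!
# Polynomial curves through the generic points of a hypersurface

`curve_setup`: a double cover `r² = a r + b` of the affine space is uniruled if through the general
point there is a polynomial curve over which the double cover is rational.
-/

set_option autoImplicit false

namespace Pool.Agent.Helper40.SD

open IntermediateField Pool.Agent.Helper75.QC

/-- If a polynomial curve through a generic point `P` of the hypersurface `L = 0` is not contained
in it, its generic point is a generic point of the space. -/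
theorem indep_curve_opt {Ω E ι : Type} [Field Ω] [Field E] [Algebra Ω E] [Finite ι]
    (M : IntermediateField Ω E) (c : ι → Polynomial M) (t : E) (ht : Transcendental M t)
    (L : MvPolynomial ι Ω) (hL0 : MvPolynomial.aeval (fun i => (c i).coeff 0) L = 0)
    (hL : ∀ G : MvPolynomial ι Ω, MvPolynomial.aeval (fun i => (c i).coeff 0) G = 0 → L ∣ G)
    (hLt : MvPolynomial.aeval (fun i => Polynomial.aeval t (c i)) L ≠ 0) :
    AlgebraicIndependent Ω (fun i => Polynomial.aeval t (c i)) := by
  have key : ∀ G : MvPolynomial ι Ω,
      MvPolynomial.aeval (fun i => Polynomial.aeval t (c i)) G = 0 → L ∣ G := by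
    intro G hG
    apply hL
    set g : Polynomial M := MvPolynomial.aeval c G with hg
    have h1 : Polynomial.aeval t g =
        MvPolynomial.aeval (fun i => Polynomial.aeval t (c i)) G := by
      have : ((Polynomial.aeval (R := M) t).restrictScalars Ω).comp (MvPolynomial.aeval c) =
          MvPolynomial.aeval (R := Ω) (fun i => Polynomial.aeval t (c i)) := by
        ext i
        simp
      exact DFunLike.congr_fun this G
    have h2 : g = 0 := coeff_zero_of ht g (h1.trans hG)
    have h3 : Polynomial.aeval (0 : M) g = MvPolynomial.aeval (fun i => (c i).coeff 0) G := by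
      have : ((Polynomial.aeval (R := M) (0 : M)).restrictScalars Ω).comp (MvPolynomial.aeval c) =
          MvPolynomial.aeval (R := Ω) (fun i => (c i).coeff 0) := by
        ext i
        simp [Polynomial.coeff_zero_eq_aeval_zero]
      exact DFunLike.congr_fun this G
    rw [← h3, h2, map_zero]
  have hLu : ¬ IsUnit L := by
    intro hu
    exact (hu.map (MvPolynomial.aeval fun i => (c i).coeff 0)).ne_zero hL0
  rw [algebraicIndependent_iff]
  intro G hG
  by_contra hne
  obtain ⟨k, G', hG', hGG⟩ := WfDvdMonoid.max_power_factor' hne hLu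
  rw [hGG, map_mul, map_pow] at hG
  rcases mul_eq_zero.1 hG with h | h
  · exact hLt (eq_zero_of_pow_eq_zero h)
  · exact hG' (key G' h)

/-- a polynomial which vanishes at the generic point of a graph -/
theorem dvd_of_graph_option {Ω A κ : Type} [Field Ω] [Field A] [Algebra Ω A]
    (P : Option κ → A) (hP : AlgebraicIndependent Ω (fun i => P (some i)))
    (φ : MvPolynomial κ Ω) (hPn : P none = MvPolynomial.aeval (fun i => P (some i)) φ)
    (G : MvPolynomial (Option κ) Ω) (hG : MvPolynomial.aeval P G = 0) :
    (MvPolynomial.X none - MvPolynomial.rename some φ) ∣ G := by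
  set σ : MvPolynomial (Option κ) Ω →ₐ[Ω] MvPolynomial κ Ω :=
    MvPolynomial.aeval (fun o => o.elim φ MvPolynomial.X) with hσ
  have h1 : σ G = 0 := by
    apply hP
    rw [map_zero, ← hG]
    have : (MvPolynomial.aeval (fun i => P (some i))).comp σ = MvPolynomial.aeval P := by
      ext i
      rcases i with _ | i
      · simp [hσ, hPn]
      · simp [hσ]
    exact DFunLike.congr_fun this G
  have h2 : ∀ G : MvPolynomial (Option κ) Ω, (MvPolynomial.X none - MvPolynomial.rename some φ) ∣
      G - MvPolynomial.rename some (σ G) := by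
    intro G
    induction G using MvPolynomial.induction_on with
    | C a => simp
    | add p q hp hq =>
      rw [map_add, map_add]
      convert dvd_add hp hq using 1
      ring
    | mul_X p i hp =>
      have h3 : (MvPolynomial.X none - MvPolynomial.rename some φ) ∣ MvPolynomial.X i -
          MvPolynomial.rename some (σ (MvPolynomial.X i)) := by
        rcases i with _ | i
        · simp [hσ]
        · simp [hσ]
      rw [map_mul, map_mul]
      have h4 := dvd_add (hp.mul_right (MvPolynomial.X i))
        (h3.mul_left (MvPolynomial.rename some (σ p)))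
      convert h4 using 1
      ring
  have h3 := h2 G
  rw [h1, map_zero, sub_zero] at h3
  exact h3

/-- a nonzero polynomial does not vanish at the generic point of a suitable translate of the
graph -/
theorem exists_const_option {Ω E κ : Type} [Field Ω] [IsAlgClosed Ω] [Field E] [Algebra Ω E]
    (B : MvPolynomial (Option κ) Ω) (hB : B ≠ 0) (x : Option κ → E)
    (hx : AlgebraicIndependent Ω x) (e : E) :
    ∃ c : Ω, MvPolynomial.aeval (fun o => o.elim (e + algebraMap Ω E c) fun i => x (some i)) B
      ≠ 0 := by
  by_contra hcon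
  push Not at hcon
  set p : Polynomial E := MvPolynomial.aeval
    (fun o => o.elim (Polynomial.C e + Polynomial.X) fun i => Polynomial.C (x (some i))) B with hp
  have heval : ∀ u : E, p.eval u =
      MvPolynomial.aeval (fun o => o.elim (e + u) fun i => x (some i)) B := by
    intro u
    have : ((Polynomial.aeval (R := E) u).restrictScalars Ω).comp (MvPolynomial.aeval
        (fun o : Option κ => o.elim (Polynomial.C e + Polynomial.X)
          fun i => Polynomial.C (x (some i)))) =
        MvPolynomial.aeval (R := Ω) (fun o : Option κ => o.elim (e + u) fun i => x (some i)) := by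
      ext i
      rcases i with _ | i <;> simp
    rw [← Polynomial.coe_aeval_eq_eval]
    exact DFunLike.congr_fun this B
  have h0 : p = 0 := by
    apply Polynomial.eq_zero_of_infinite_isRoot
    have hinf : (Set.range (algebraMap Ω E)).Infinite :=
      Set.infinite_range_of_injective (algebraMap Ω E).injective
    refine hinf.mono ?_
    rintro _ ⟨c, rfl⟩
    change p.eval _ = 0
    rw [heval]
    exact hcon c
  have h1 := heval (x none - e)
  rw [h0, Polynomial.eval_zero] at h1
  apply hB
  apply hx
  rw [map_zero, h1]
  congr 2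
  funext i
  rcases i with _ | i <;> simp

theorem trans_AF_option {Ω E κ : Type} [Field Ω] [Field E] [Algebra Ω E] (x : Option κ → E)
    (hx : AlgebraicIndependent Ω x) :
    Transcendental (AF Ω (Set.range fun i => x (some i))) (x none) := by
  intro h
  have h1 : IsAlgebraic (adjoin Ω (Set.range fun i => x (some i))) (x none) :=
    mem_AF.1 (AF_closed h)
  have h2 := isAlgebraic_adjoin_iff.1 h1
  have h3 := hx.transcendental_adjoin (s := Set.range some) (i := none) (by simp)
  rw [← Set.range_comp] at h3
  exact h3 h2

/-- nonconstant polynomials of degree at most `N` are not contained in the graph of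
`∑ x_i ^ ((N + 1) ^ (i + 1))` -/
theorem sum_pow_ne {M : Type} [Field M] {k N : ℕ} (c : Option (Fin k) → Polynomial M)
    (hN : ∀ i, (c i).natDegree ≤ N) (hc : ∃ i, (c i).natDegree ≠ 0) (e : M) :
    c none - ∑ i : Fin k, c (some i) ^ (N + 1) ^ ((i : ℕ) + 1) - Polynomial.C e ≠ 0 := by
  classical
  intro h0
  have hN0 : 0 < N := by
    obtain ⟨i, hi⟩ := hc
    have := hN i
    omega
  by_cases h : ∃ i : Fin k, (c (some i)).natDegree ≠ 0
  · -- the last nonconstant one
    obtain ⟨i, hi, hmax⟩ : ∃ i : Fin k, (c (some i)).natDegree ≠ 0 ∧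
        ∀ j : Fin k, i < j → (c (some j)).natDegree = 0 := by
      have hne : (Finset.univ.filter fun i : Fin k => (c (some i)).natDegree ≠ 0).Nonempty := by
        obtain ⟨i, hi⟩ := h
        exact ⟨i, Finset.mem_filter.2 ⟨Finset.mem_univ _, hi⟩⟩
      refine ⟨_, (Finset.mem_filter.1 (Finset.max'_mem _ hne)).2, fun j hj => ?_⟩
      by_contra hcon
      have := Finset.le_max' (Finset.univ.filter fun i : Fin k => (c (some i)).natDegree ≠ 0) j
        (Finset.mem_filter.2 ⟨Finset.mem_univ _, hcon⟩)
      exact absurd hj (not_lt.2 this)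
    set D : ℕ := (N + 1) ^ ((i : ℕ) + 1) * (c (some i)).natDegree with hD
    have hDge : (N + 1) ^ ((i : ℕ) + 1) ≤ D := by
      rw [hD]
      exact Nat.le_mul_of_pos_right _ (Nat.pos_of_ne_zero hi)
    have hNle : N + 1 ≤ (N + 1) ^ ((i : ℕ) + 1) := by
      calc N + 1 = (N + 1) ^ 1 := (pow_one _).symm
        _ ≤ _ := Nat.pow_le_pow_right (by omega) (by omega)
    have h1 := congrArg (fun p => Polynomial.coeff p D) h0
    simp only [Polynomial.coeff_sub, Polynomial.coeff_zero, Polynomial.finsetSum_coeff] at h1
    rw [Polynomial.coeff_eq_zero_of_natDegree_lt ((hN none).trans_lt (by omega)),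
      Polynomial.coeff_C_of_ne_zero (by omega), Finset.sum_eq_single i] at h1
    · have h2 : (c (some i) ^ (N + 1) ^ ((i : ℕ) + 1)).coeff D =
          (c (some i)).leadingCoeff ^ (N + 1) ^ ((i : ℕ) + 1) := by
        rw [← Polynomial.leadingCoeff_pow, Polynomial.leadingCoeff, Polynomial.natDegree_pow]
      rw [h2] at h1
      have h3 : (c (some i)).leadingCoeff ^ (N + 1) ^ ((i : ℕ) + 1) = 0 := by
        linear_combination -h1
      have h4 := Polynomial.leadingCoeff_eq_zero.1 (eq_zero_of_pow_eq_zero h3)
      rw [h4] at hi
      exact hi Polynomial.natDegree_zero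
    · intro j _ hj
      apply Polynomial.coeff_eq_zero_of_natDegree_lt
      rw [Polynomial.natDegree_pow]
      rcases lt_or_gt_of_ne hj with hlt | hgt
      · have h2 : (N + 1) ^ ((j : ℕ) + 1) * (c (some j)).natDegree ≤
            (N + 1) ^ ((j : ℕ) + 1) * N := Nat.mul_le_mul_left _ (hN _)
        have h3 : (N + 1) ^ ((j : ℕ) + 1) * (N + 1) ≤ (N + 1) ^ ((i : ℕ) + 1) := by
          rw [← pow_succ]
          apply Nat.pow_le_pow_right (by omega)
          have : (j : ℕ) < i := hlt
          omega
        have h4 : (N + 1) ^ ((j : ℕ) + 1) * N < (N + 1) ^ ((j : ℕ) + 1) * (N + 1) := by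
          apply Nat.mul_lt_mul_of_pos_left (by omega)
          positivity
        omega
      · rw [hmax j hgt, mul_zero]
        omega
    · intro h2
      exact absurd (Finset.mem_univ i) h2
  · push Not at h
    have hn : (c none).natDegree ≠ 0 := by
      obtain ⟨i, hi⟩ := hc
      rcases i with _ | i
      · exact hi
      · exact absurd (h i) hi
    have h1 := congrArg (fun p => Polynomial.coeff p (c none).natDegree) h0
    simp only [Polynomial.coeff_sub, Polynomial.coeff_zero, Polynomial.finsetSum_coeff] at h1
    rw [Polynomial.coeff_C_of_ne_zero hn, Finset.sum_eq_zero, sub_zero, sub_zero] at h1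
    · have h2 := Polynomial.leadingCoeff_eq_zero.1 h1
      rw [h2] at hn
      exact hn Polynomial.natDegree_zero
    · intro j _
      apply Polynomial.coeff_eq_zero_of_natDegree_lt
      rw [Polynomial.natDegree_pow, h j, mul_zero]
      exact Nat.pos_of_ne_zero hn

/-- **The set-up**: polynomial curves through the generic points of a graph, over which the double
cover is rational. -/
theorem curve_setup {Ω K : Type} [Field Ω] [IsAlgClosed Ω] [Field K] [Algebra Ω K] {k : ℕ}
    (N : ℕ) (G a b : MvPolynomial (Option (Fin k)) Ω) (hG0 : G ≠ 0) (x : Option (Fin k) → K)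
    (r : K) (hr : r ^ 2 = MvPolynomial.aeval x a * r + MvPolynomial.aeval x b)
    (hgen : adjoin Ω (Set.range x ∪ {r}) = ⊤)
    (hcurve : ∀ (E : Type) [Field E] [Algebra Ω E] (M : IntermediateField Ω E) [IsAlgClosed M]
      (P : Option (Fin k) → M), MvPolynomial.aeval P G ≠ 0 →
        ∃ c : Option (Fin k) → Polynomial M, (∀ i, (c i).natDegree ≤ N) ∧
          (∀ i, (c i).coeff 0 = P i) ∧ (∃ i, (c i).natDegree ≠ 0) ∧
          ∀ t r : E, Transcendental M t →
            r ^ 2 = MvPolynomial.aeval (fun i => Polynomial.aeval t (c i)) a * r +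
              MvPolynomial.aeval (fun i => Polynomial.aeval t (c i)) b →
            ∃ θ : E, ∀ F : IntermediateField Ω E, M ≤ F → θ ∈ F → t ∈ F ∧ r ∈ F) :
    Uniruled Ω K (k + 1) := by
  classical
  have hmem : ∀ p : MvPolynomial (Option (Fin k)) Ω,
      MvPolynomial.aeval x p ∈ adjoin Ω (Set.range x) := by
    intro p
    have h1 : MvPolynomial.aeval x p ∈ (MvPolynomial.aeval (R := Ω) x).range := ⟨p, rfl⟩
    rw [← Algebra.adjoin_range_eq_range_aeval] at h1
    exact algebra_adjoin_le_adjoin Ω _ h1
  have hK : ∀ k : K, IsAlgebraic (adjoin Ω (Set.range x)) k := by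
    intro k
    have h1 : adjoin Ω (Set.range x ∪ {r}) ≤ AF Ω (Set.range x) := by
      rw [adjoin_le_iff, Set.union_subset_iff, Set.singleton_subset_iff]
      refine ⟨subset_AF _, mem_AF.2 ?_⟩
      refine ⟨Polynomial.X ^ 2 - Polynomial.C ⟨_, hmem a⟩ * Polynomial.X -
        Polynomial.C ⟨_, hmem b⟩, ?_, ?_⟩
      · apply Polynomial.Monic.ne_zero
        monicity!
      · simp only [map_sub, map_pow, map_mul, Polynomial.aeval_X, Polynomial.aeval_C,
          IntermediateField.algebraMap_apply]
        rw [hr]
        ring
    rw [hgen] at h1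
    exact mem_AF.1 (h1 trivial)
  by_cases hx : AlgebraicIndependent Ω x
  swap
  · refine uniruled_of_dep (x ∘ finSuccEquiv k) ?_ ?_
    · intro h
      apply hx
      exact (algebraicIndependent_equiv (finSuccEquiv k)).1 h
    · rw [(finSuccEquiv k).surjective.range_comp]
      exact hK
  let E := AlgebraicClosure K
  set x' : Option (Fin k) → E := fun i => algebraMap K E (x i) with hx'
  have hx'i : AlgebraicIndependent Ω x' := by
    have := hx.map' (f := (IsScalarTower.toAlgHom Ω K E)) (algebraMap K E).injective
    exact this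
  obtain ⟨c₀, hc₀⟩ := exists_const_option G hG0 x' hx'i
    (∑ i : Fin k, x' (some i) ^ (N + 1) ^ ((i : ℕ) + 1))
  set S : Finset E := Finset.univ.image fun i : Fin k => x' (some i) with hS
  have hSE : (S : Set E) = Set.range fun i => x' (some i) := by simp [hS]
  set M : IntermediateField Ω E := AF Ω (S : Set E) with hM
  have ht : Transcendental M (x' none) := by
    have := trans_AF_option x' hx'i
    rw [hM, hSE]
    exact this
  have hms : ∀ i : Fin k, x' (some i) ∈ M := fun i => subset_AF _ (by simp [hS])
  set y : Fin k → M := fun i => ⟨x' (some i), hms i⟩ with hy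
  have hyi : AlgebraicIndependent Ω y := by
    have h1 : AlgebraicIndependent Ω (fun i : Fin k => x' (some i)) :=
      hx'i.comp _ (Option.some_injective _)
    have h2 : (fun i : Fin k => x' (some i)) = M.val ∘ y := rfl
    rw [h2] at h1
    exact AlgebraicIndependent.of_comp M.val h1
  set φ : MvPolynomial (Fin k) Ω := ∑ i : Fin k, MvPolynomial.X i ^ (N + 1) ^ ((i : ℕ) + 1) +
    MvPolynomial.C c₀ with hφ
  set P : Option (Fin k) → M := fun o => o.elim (MvPolynomial.aeval y φ) y with hP
  have hPn : P none = ∑ i : Fin k, y i ^ (N + 1) ^ ((i : ℕ) + 1) + algebraMap Ω M c₀ := by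
    change MvPolynomial.aeval y φ = _
    rw [hφ, map_add, map_sum, MvPolynomial.aeval_C]
    simp only [map_pow, MvPolynomial.aeval_X]
  have hPG : MvPolynomial.aeval P G ≠ 0 := by
    intro h0
    apply hc₀
    have h1 := congrArg (algebraMap M E) h0
    rw [map_zero, ← MvPolynomial.aeval_algebraMap_apply] at h1
    rw [← h1]
    congr 2
    funext i
    rcases i with _ | i
    · change _ = algebraMap M E (P none)
      rw [hPn, map_add, map_sum, ← IsScalarTower.algebraMap_apply]
      simp only [map_pow]
      rfl
    · rfl
  obtain ⟨c, hcN, hcP, hcne, hcr⟩ := hcurve E M P hPG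
  set L : MvPolynomial (Option (Fin k)) Ω :=
    MvPolynomial.X none - MvPolynomial.rename some φ with hL
  set x'' : Option (Fin k) → E := fun i => Polynomial.aeval (x' none) (c i) with hx''
  have hLt : MvPolynomial.aeval x'' L ≠ 0 := by
    intro h0
    apply sum_pow_ne c hcN hcne (algebraMap Ω M c₀)
    apply coeff_zero_of ht
    rw [← h0, hL, hφ]
    simp only [map_sub, map_add, map_sum, map_pow, MvPolynomial.aeval_X, Polynomial.aeval_C,
      MvPolynomial.aeval_C, MvPolynomial.rename_X, MvPolynomial.rename_C]
    rw [← IsScalarTower.algebraMap_apply]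
    ring
  have hcP' : (fun i => (c i).coeff 0) = P := funext hcP
  have hind : AlgebraicIndependent Ω x'' := by
    refine indep_curve_opt M c (x' none) ht L ?_ ?_ hLt
    · rw [hcP', hL, map_sub, MvPolynomial.aeval_X, MvPolynomial.aeval_rename, sub_eq_zero]
      rfl
    · intro G hG
      rw [hcP'] at hG
      exact dvd_of_graph_option P hyi φ rfl G hG
  obtain ⟨g, hg⟩ := exists_embedding x hx hK x'' hind
  have hgx : ∀ p : MvPolynomial (Option (Fin k)) Ω,
      g (MvPolynomial.aeval x p) = MvPolynomial.aeval x'' p := by
    intro p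
    rw [MvPolynomial.comp_aeval_apply]
    congr 2
    funext i
    exact hg i
  have hgr : g r ^ 2 = MvPolynomial.aeval x'' a * g r + MvPolynomial.aeval x'' b := by
    rw [← map_pow, hr, map_add, map_mul, hgx, hgx]
  obtain ⟨θ, hθ⟩ := hcr (x' none) (g r) ht hgr
  refine ⟨E, inferInstance, inferInstance, g, S, θ, ?_, fun k => ?_⟩
  · rw [hS]
    refine (Finset.card_image_le).trans_lt ?_
    rw [Finset.card_univ, Fintype.card_fin]
    exact Nat.lt_succ_self _
  · set F := adjoin Ω (Acl Ω (S : Set E) ∪ {θ}) with hF
    have hMF : M ≤ F := by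
      intro a ha
      exact subset_adjoin _ _ (Or.inl (mem_AF.1 ha))
    have hθF : θ ∈ F := subset_adjoin _ _ (Or.inr rfl)
    obtain ⟨h1, h2⟩ := hθ F hMF hθF
    have h3 : adjoin Ω (Set.range x ∪ {r}) ≤ F.comap g := by
      rw [adjoin_le_iff, Set.union_subset_iff, Set.singleton_subset_iff]
      constructor
      · rintro _ ⟨i, rfl⟩
        change g (x i) ∈ F
        rw [hg i]
        change Polynomial.aeval (x' none) (c i) ∈ F
        rw [Polynomial.aeval_eq_sum_range]
        refine sum_mem fun j _ => ?_
        rw [Algebra.smul_def]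
        exact F.mul_mem (hMF ((c i).coeff j).2) (pow_mem h1 j)
      · exact h2
    rw [hgen] at h3
    exact h3 trivial

end Pool.Agent.Helper40.SD
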