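import Pool.Agent.Helper40.SD.Curve

/-!
# Characteristic two: the covers `r² + B^m r = B F(x)`

In characteristic two a curve `x(t)`, `B(t)` over which the double cover is a conic: `B = h B'` with
`h` linear, `r = S + Q ρ` with `Q = h^(m-1) B'^m` and `ρ² + h ρ = e`, `deg e ≤ 2`.
-/

set_option autoImplicit false

namespace Pool.Agent.Helper40.SD

open Polynomial

/-- a conic over an algebraically closed subfield is rational, in every characteristic -/
theorem conic_param_lin {Ω E : Type} [Field Ω] [Field E] [Algebra Ω E] (M : IntermediateField Ω E)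
    [IsAlgClosed M] (h c₀ c₁ c₂ : M) (t ρ : E)
    (H : ρ ^ 2 + (1 + h * t) * ρ = c₀ + c₁ * t + c₂ * t ^ 2) :
    ∃ θ : E, ∀ F : IntermediateField Ω E, M ≤ F → θ ∈ F → t ∈ F ∧ ρ ∈ F := by
  obtain ⟨s, hs⟩ := IsAlgClosed.exists_root (X ^ 2 + C h * X - C c₂ : M[X]) (by
    have : (X ^ 2 + C h * X - C c₂ : M[X]).degree = 2 := by
      compute_degree!
    rw [this]
    norm_num)
  rw [IsRoot.def] at hs
  simp only [eval_sub, eval_add, eval_pow, eval_X, eval_C, eval_mul] at hs
  have hs' : ((s : E)) ^ 2 + h * s - c₂ = 0 := by exact_mod_cast congrArg Subtype.val hs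
  set v : E := ρ - s * t with hv
  have h1 : v ^ 2 + v - c₀ + t * ((2 * s + h) * v + s - c₁) = 0 := by
    rw [hv]
    linear_combination H - t ^ 2 * hs'
  have hρ : ρ = v + s * t := by rw [hv]; ring
  by_cases h3 : (2 * s + h) * v + s - c₁ = 0
  · rw [h3, mul_zero, add_zero] at h1
    obtain ⟨u, hu⟩ := IsAlgClosed.exists_root (X ^ 2 + X - C c₀ : M[X]) (by
      have : (X ^ 2 + X - C c₀ : M[X]).degree = 2 := by
        compute_degree!
      rw [this]
      norm_num)
    rw [IsRoot.def] at hu
    simp only [eval_sub, eval_add, eval_pow, eval_X, eval_C] at hu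
    have hu' : ((u : E)) ^ 2 + u - c₀ = 0 := by exact_mod_cast congrArg Subtype.val hu
    have h4 : (v - u) * (v + u + 1) = 0 := by linear_combination h1 - hu'
    have hvM : v ∈ M := by
      rcases mul_eq_zero.1 h4 with h5 | h5
      · rw [sub_eq_zero.1 h5]
        exact u.2
      · have h6 : v = -(u + 1) := by linear_combination h5
        rw [h6]
        exact M.neg_mem (M.add_mem u.2 M.one_mem)
    refine ⟨t, fun F hF hθ => ⟨hθ, ?_⟩⟩
    rw [hρ]
    exact F.add_mem (hF hvM) (F.mul_mem (hF s.2) hθ)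
  · refine ⟨v, fun F hF hθ => ?_⟩
    have h4 : t = -(v ^ 2 + v - c₀) / ((2 * s + h) * v + s - c₁) := by
      rw [eq_div_iff h3]
      linear_combination h1
    have h5 : (2 : E) ∈ F := by exact_mod_cast F.natCast_mem 2
    have ht : t ∈ F := by
      rw [h4]
      refine F.div_mem (F.neg_mem (F.sub_mem (F.add_mem (pow_mem hθ 2) hθ) (hF c₀.2))) ?_
      exact F.sub_mem (F.add_mem (F.mul_mem (F.add_mem (F.mul_mem h5 (hF s.2)) (hF h.2)) hθ)
        (hF s.2)) (hF c₁.2)
    refine ⟨ht, ?_⟩
    rw [hρ]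
    exact F.add_mem hθ (F.mul_mem (hF s.2) ht)

/-- The curves. -/
theorem exists_curve_char_two {M : Type} [Field M] [IsAlgClosed M] {k : ℕ} (w : Fin k → ℕ) (D m : ℕ)
    (hD : 0 < D) (hm : 0 < m) (hcount : m * D ≤ ∑ i, w i + D) (F : MvPolynomial (Fin k) M)
    (hF : ∀ s ∈ F.support, ∑ i, s i * w i ≤ (2 * m - 1) * D) (P : Option (Fin k) → M)
    (hP : P none ≠ 0) :
    ∃ (c : Option (Fin k) → M[X]) (S Q e : M[X]) (h₁ : M),
      (∀ i, (c i).natDegree ≤ ∑ i, w i + D) ∧ (∀ i, (c i).coeff 0 = P i) ∧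
      (∃ i, (c i).natDegree ≠ 0) ∧ Q ≠ 0 ∧ e.natDegree ≤ 2 ∧ c none ^ m = Q * (1 + C h₁ * X) ∧
      S ^ 2 + S * c none ^ m + Q ^ 2 * e = c none * MvPolynomial.aeval (fun i => c (some i)) F := by
  classical
  obtain ⟨m, rfl⟩ : ∃ m', m = m' + 1 := ⟨m - 1, by omega⟩
  set b := P none with hb
  set c₀ : M := b * MvPolynomial.eval (fun i => P (some i)) F / (b ^ (m + 1)) ^ 2 with hc₀
  have hc₀' : (b ^ (m + 1)) ^ 2 * c₀ = b * MvPolynomial.eval (fun i => P (some i)) F := by
    rw [hc₀]
    field_simp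
  let σ : Type := (Σ i : Fin k, Fin (w i)) ⊕ Fin 1 ⊕ Fin (D - 1) ⊕ Fin ((m + 1) * D - 1) ⊕ Fin 2
  let R := MvPolynomial σ M
  let cx : Fin k → R[X] := fun i => C (MvPolynomial.C (P (some i))) +
    pl 1 (fun j => (MvPolynomial.X (Sum.inl ⟨i, j⟩) : R))
  let h : R[X] := C (MvPolynomial.C 1) +
    pl 1 (fun j : Fin 1 => (MvPolynomial.X (Sum.inr (Sum.inl j)) : R))
  let B : R[X] := C (MvPolynomial.C b) +
    pl 1 (fun j : Fin (D - 1) => (MvPolynomial.X (Sum.inr (Sum.inr (Sum.inl j))) : R))
  let S : R[X] :=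
    pl 2 (fun j : Fin ((m + 1) * D - 1) => (MvPolynomial.X (Sum.inr (Sum.inr (Sum.inr (Sum.inl j)))) : R))
  let e : R[X] := C (MvPolynomial.C c₀) +
    pl 1 (fun j : Fin 2 => (MvPolynomial.X (Sum.inr (Sum.inr (Sum.inr (Sum.inr j)))) : R))
  let Φ : R[X] := S ^ 2 + S * (h * B) ^ (m + 1) + (h ^ m * B ^ (m + 1)) ^ 2 * e -
    h * B * MvPolynomial.aeval cx F
  have hvc : ∀ (x : σ → M) (i : Fin k), vl x (cx i) = C (P (some i)) +
      pl 1 (fun j => x (Sum.inl ⟨i, j⟩)) := by
    intro x i
    change vl x (C (MvPolynomial.C (P (some i))) + pl 1 _) = _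
    rw [map_add, vl_C, vl_pl, MvPolynomial.aeval_C]
    simp only [MvPolynomial.aeval_X, Algebra.algebraMap_self_apply]
  have hvh : ∀ x : σ → M, vl x h = C 1 + pl 1 (fun j => x (Sum.inr (Sum.inl j))) := by
    intro x
    change vl x (C (MvPolynomial.C 1) + pl 1 _) = _
    rw [map_add, vl_C, vl_pl, MvPolynomial.aeval_C]
    simp only [MvPolynomial.aeval_X, Algebra.algebraMap_self_apply]
  have hvB : ∀ x : σ → M, vl x B = C b + pl 1 (fun j => x (Sum.inr (Sum.inr (Sum.inl j)))) := by
    intro x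
    change vl x (C (MvPolynomial.C b) + pl 1 _) = _
    rw [map_add, vl_C, vl_pl, MvPolynomial.aeval_C]
    simp only [MvPolynomial.aeval_X, Algebra.algebraMap_self_apply]
  have hvS : ∀ x : σ → M, vl x S = pl 2 (fun j => x (Sum.inr (Sum.inr (Sum.inr (Sum.inl j))))) := by
    intro x
    change vl x (pl 2 _) = _
    rw [vl_pl]
    simp only [MvPolynomial.aeval_X]
  have hve : ∀ x : σ → M, vl x e = C c₀ +
      pl 1 (fun j => x (Sum.inr (Sum.inr (Sum.inr (Sum.inr j))))) := by
    intro x
    change vl x (C (MvPolynomial.C c₀) + pl 1 _) = _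
    rw [map_add, vl_C, vl_pl, MvPolynomial.aeval_C]
    simp only [MvPolynomial.aeval_X, Algebra.algebraMap_self_apply]
  have hvΦ : ∀ x : σ → M, vl x Φ = vl x S ^ 2 + vl x S * (vl x h * vl x B) ^ (m + 1) +
      (vl x h ^ m * vl x B ^ (m + 1)) ^ 2 * vl x e -
      vl x h * vl x B * MvPolynomial.aeval (fun i => vl x (cx i)) F := by
    intro x
    change vl x (S ^ 2 + S * (h * B) ^ (m + 1) + (h ^ m * B ^ (m + 1)) ^ 2 * e -
      h * B * MvPolynomial.aeval cx F) = _
    simp only [map_sub, map_add, map_mul, map_pow, MvPolynomial.comp_aeval_apply]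
  have hdc : ∀ (x : σ → M) (i : Fin k), (vl x (cx i)).natDegree ≤ w i := by
    intro x i
    rw [hvc]
    exact natDegree_C_add_pl _ _
  have hdh : ∀ x : σ → M, (vl x h).natDegree ≤ 1 := by
    intro x
    rw [hvh]
    exact natDegree_C_add_pl _ _
  have hdB : ∀ x : σ → M, (vl x B).natDegree ≤ D - 1 := by
    intro x
    rw [hvB]
    exact natDegree_C_add_pl _ _
  have hdS : ∀ x : σ → M, (vl x S).natDegree ≤ (m + 1) * D := by
    intro x
    rw [hvS]
    refine (natDegree_pl _ _).trans ?_
    have : 0 < (m + 1) * D := by positivity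
    omega
  have hde : ∀ x : σ → M, (vl x e).natDegree ≤ 2 := by
    intro x
    rw [hve]
    exact natDegree_C_add_pl _ _
  have hcc : ∀ (x : σ → M) (i : Fin k), (vl x (cx i)).coeff 0 = P (some i) := by
    intro x i
    rw [hvc, coeff_add, coeff_C_zero, coeff_pl_zero 1 one_pos, add_zero]
  have hch : ∀ x : σ → M, (vl x h).coeff 0 = 1 := by
    intro x
    rw [hvh, coeff_add, coeff_C_zero, coeff_pl_zero 1 one_pos, add_zero]
  have hcB : ∀ x : σ → M, (vl x B).coeff 0 = b := by
    intro x
    rw [hvB, coeff_add, coeff_C_zero, coeff_pl_zero 1 one_pos, add_zero]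
  have hcS : ∀ x : σ → M, (vl x S).coeff 0 = 0 := by
    intro x
    rw [hvS, coeff_pl_zero 2 two_pos]
  have hce : ∀ x : σ → M, (vl x e).coeff 0 = c₀ := by
    intro x
    rw [hve, coeff_add, coeff_C_zero, coeff_pl_zero 1 one_pos, add_zero]
  have hdhB : ∀ x : σ → M, (vl x h * vl x B).natDegree ≤ D := by
    intro x
    refine natDegree_mul_le.trans ?_
    have h1 := hdh x
    have h2 := hdB x
    omega
  have hcard : 2 * ((m + 1) * D) < Nat.card σ := by
    rw [Nat.card_eq_fintype_card]
    change 2 * ((m + 1) * D) < Fintype.card ((Σ i : Fin k, Fin (w i)) ⊕ Fin 1 ⊕ Fin (D - 1) ⊕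
      Fin ((m + 1) * D - 1) ⊕ Fin 2)
    simp only [Fintype.card_sum, Fintype.card_sigma, Fintype.card_fin]
    have : 0 < (m + 1) * D := by positivity
    omega
  obtain ⟨x, hx0, hx⟩ := exists_pol (2 * ((m + 1) * D)) hcard Φ (fun x => by
      rw [hvΦ]
      refine (natDegree_sub_le _ _).trans (max_le ((natDegree_add_le _ _).trans (max_le
        ((natDegree_add_le _ _).trans (max_le ?_ ?_)) ?_)) ?_)
      · refine natDegree_pow_le.trans ?_
        exact Nat.mul_le_mul_left _ (hdS x)
      · refine natDegree_mul_le.trans ?_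
        have h1 : ((vl x h * vl x B) ^ (m + 1)).natDegree ≤ (m + 1) * D :=
          natDegree_pow_le.trans (Nat.mul_le_mul_left _ (hdhB x))
        have h2 := hdS x
        omega
      · refine natDegree_mul_le.trans ?_
        have h1 : (vl x h ^ m).natDegree ≤ m * 1 :=
          natDegree_pow_le.trans (Nat.mul_le_mul_left _ (hdh x))
        have h2 : (vl x B ^ (m + 1)).natDegree ≤ (m + 1) * (D - 1) :=
          natDegree_pow_le.trans (Nat.mul_le_mul_left _ (hdB x))
        have h3 : (vl x h ^ m * vl x B ^ (m + 1)).natDegree ≤ m + (m + 1) * (D - 1) :=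
          natDegree_mul_le.trans (by omega)
        have h4 : ((vl x h ^ m * vl x B ^ (m + 1)) ^ 2).natDegree ≤
            2 * (m + (m + 1) * (D - 1)) := natDegree_pow_le.trans (Nat.mul_le_mul_left _ h3)
        have h5 := hde x
        obtain ⟨D', rfl⟩ : ∃ D', D = D' + 1 := ⟨D - 1, by omega⟩
        simp only [Nat.add_sub_cancel] at h4
        have h6 : 2 * (m + (m + 1) * D') + 2 = 2 * ((m + 1) * (D' + 1)) := by ring
        omega
      · refine natDegree_mul_le.trans ?_
        have h1 := natDegree_aeval_le w ((2 * (m + 1) - 1) * D) F hF _ (hdc x)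
        have h2 := hdhB x
        have h3 : D + (2 * (m + 1) - 1) * D = 2 * ((m + 1) * D) := by
          have : 2 * (m + 1) - 1 = 2 * m + 1 := by omega
          rw [this]
          ring
        omega) (fun x => by
      rw [hvΦ]
      have hf : ∀ p : M[X], p.coeff 0 = constantCoeff p := fun p => rfl
      rw [hf]
      simp only [map_sub, map_add, map_mul, map_pow, constantCoeff_apply, hch, hcB, hcS, hce,
        coeff_aeval, hcc]
      rw [one_pow, one_mul, one_mul, hc₀']
      ring) (by
      rw [hvΦ, hvh, hvB, hvS, hve]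
      simp only [hvc]
      have e1 : ∀ i : Fin k, (C (P (some i)) + pl 1 (fun j => (0 : σ → M) (Sum.inl ⟨i, j⟩)) : M[X])
          = C (P (some i)) := by
        intro i
        have : (fun j : Fin (w i) => (0 : σ → M) (Sum.inl ⟨i, j⟩)) = 0 := rfl
        rw [this, pl_zero, add_zero]
      have e2 : (fun j : Fin 1 => (0 : σ → M) (Sum.inr (Sum.inl j))) = 0 := rfl
      have e3 : (fun j : Fin (D - 1) => (0 : σ → M) (Sum.inr (Sum.inr (Sum.inl j)))) = 0 := rfl
      have e4 : (fun j : Fin ((m + 1) * D - 1) =>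
        (0 : σ → M) (Sum.inr (Sum.inr (Sum.inr (Sum.inl j))))) = 0 := rfl
      have e5 : (fun j : Fin 2 => (0 : σ → M) (Sum.inr (Sum.inr (Sum.inr (Sum.inr j))))) = 0 := rfl
      simp only [e1]
      rw [e2, e3, e4, e5, pl_zero, pl_zero, pl_zero, pl_zero, add_zero, add_zero, add_zero,
        aeval_const, C_1, one_pow, one_mul, one_mul, ← C_mul, ← hc₀', C_mul, C_pow, C_pow]
      ring)
  rw [hvΦ, sub_eq_zero] at hx
  have hh0 : vl x h ≠ 0 := by
    intro h0
    have h1 := hch x
    rw [h0, coeff_zero] at h1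
    exact zero_ne_one h1
  have hB0 : vl x B ≠ 0 := by
    intro h0
    have h1 := hcB x
    rw [h0, coeff_zero] at h1
    exact hP h1.symm
  have hh1 : vl x h = 1 + C ((vl x h).coeff 1) * X := by
    have h1 := hch x
    conv_lhs => rw [eq_X_add_C_of_natDegree_le_one (hdh x)]
    rw [h1, C_1]
    ring
  refine ⟨fun o => o.elim (vl x h * vl x B) fun i => vl x (cx i), vl x S,
    vl x h ^ m * vl x B ^ (m + 1), vl x e, (vl x h).coeff 1, ?_, ?_, ?_, ?_, hde x, ?_, hx⟩
  · intro i
    rcases i with _ | i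
    · exact (hdhB x).trans (Nat.le_add_left _ _)
    · refine (hdc x i).trans (le_trans ?_ (Nat.le_add_right _ _))
      exact Finset.single_le_sum (f := w) (fun _ _ => Nat.zero_le _) (Finset.mem_univ i)
  · intro i
    rcases i with _ | i
    · change (vl x h * vl x B).coeff 0 = _
      rw [mul_coeff_zero, hch, hcB, one_mul]
    · exact hcc x i
  · by_contra hcon
    push Not at hcon
    apply hx0
    have z1 : ∀ i : Fin k, (fun j => x (Sum.inl ⟨i, j⟩)) = (0 : Fin (w i) → M) := by
      intro i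
      apply eq_zero_of_const (P (some i))
      rw [← hvc]
      exact hcon (some i)
    have hn := hcon none
    change (vl x h * vl x B).natDegree = 0 at hn
    rw [natDegree_mul hh0 hB0] at hn
    have z2 : (fun j => x (Sum.inr (Sum.inl j))) = (0 : Fin 1 → M) := by
      apply eq_zero_of_const 1
      rw [← hvh]
      omega
    have z3 : (fun j => x (Sum.inr (Sum.inr (Sum.inl j)))) = (0 : Fin (D - 1) → M) := by
      apply eq_zero_of_const b
      rw [← hvB]
      omega
    have e1 : ∀ i : Fin k, vl x (cx i) = C (P (some i)) := by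
      intro i
      rw [hvc, z1, pl_zero, add_zero]
    have e2 : vl x h = 1 := by rw [hvh, z2, pl_zero, add_zero, C_1]
    have e3 : vl x B = C b := by rw [hvB, z3, pl_zero, add_zero]
    simp only [e1] at hx
    rw [aeval_const, e2, e3, one_pow, one_mul, one_mul] at hx
    have hx2 : vl x S ^ 2 + vl x S * C b ^ (m + 1) =
        C (b * MvPolynomial.eval (fun i => P (some i)) F) - C ((b ^ (m + 1)) ^ 2) * vl x e := by
      rw [C_mul, C_pow, C_pow]
      linear_combination hx
    have hS0 : vl x S = 0 := by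
      by_contra hS
      have hlead : (vl x S).coeff (vl x S).natDegree ≠ 0 := by
        rw [coeff_natDegree]
        exact leadingCoeff_ne_zero.2 hS
      have hge : 2 ≤ (vl x S).natDegree := by
        by_contra hlt
        apply hlead
        rw [hvS]
        unfold pl
        rw [finsetSum_coeff]
        refine Finset.sum_eq_zero fun j _ => ?_
        rw [coeff_C_mul, coeff_X_pow, if_neg, mul_zero]
        have h5 : (∑ i : Fin ((m + 1) * D - 1),
          C (x (Sum.inr (Sum.inr (Sum.inr (Sum.inl i))))) * X ^ ((i : ℕ) + 2) : M[X]) = vl x S := by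
          rw [hvS]
          rfl
        rw [h5]
        omega
      have h1 : (vl x S ^ 2 + vl x S * C b ^ (m + 1)).natDegree = 2 * (vl x S).natDegree := by
        rw [natDegree_add_eq_left_of_natDegree_lt, natDegree_pow]
        rw [natDegree_pow, ← C_pow]
        refine (natDegree_mul_C_le _ _).trans_lt ?_
        omega
      rw [hx2] at h1
      have h2 : (C (b * MvPolynomial.eval (fun i => P (some i)) F) -
          C ((b ^ (m + 1)) ^ 2) * vl x e).natDegree ≤ 2 := by
        refine (natDegree_sub_le _ _).trans (max_le (by rw [natDegree_C]; omega) ?_)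
        exact (natDegree_C_mul_le _ _).trans (hde x)
      omega
    have z4 : (fun j => x (Sum.inr (Sum.inr (Sum.inr (Sum.inl j))))) =
        (0 : Fin ((m + 1) * D - 1) → M) := by
      apply pl_eq_zero 2
      intro j _
      rw [← hvS, hS0, coeff_zero]
    rw [hS0] at hx2
    have hbm : (b ^ (m + 1)) ^ 2 ≠ 0 := pow_ne_zero _ (pow_ne_zero _ hP)
    have z5 : (fun j => x (Sum.inr (Sum.inr (Sum.inr (Sum.inr j))))) = (0 : Fin 2 → M) := by
      apply eq_zero_of_const c₀
      rw [← hve]
      have h1 : C ((b ^ (m + 1)) ^ 2) * vl x e =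
          C (b * MvPolynomial.eval (fun i => P (some i)) F) := by
        linear_combination hx2
      have h2 := congrArg natDegree h1
      rw [natDegree_C, natDegree_C_mul hbm] at h2
      exact h2
    funext s
    rcases s with ⟨i, j⟩ | j | j | j | j
    · exact congrFun (z1 i) j
    · exact congrFun z2 j
    · exact congrFun z3 j
    · exact congrFun z4 j
    · exact congrFun z5 j
  · exact mul_ne_zero (pow_ne_zero _ hh0) (pow_ne_zero _ hB0)
  · change (vl x h * vl x B) ^ (m + 1) = _
    rw [← hh1]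
    ring

end Pool.Agent.Helper40.SD
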