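import Pool.Agent.Helper40.SD.Pdt

/-!
# Polynomial curves with unknown coefficients

`exists_pol`: an equation of degree `K` between polynomials with more than `K` unknown coefficients
has a solution which is not `0`. `exists_conic_curve`: curves on which a polynomial is the product
of a square and of a polynomial of degree two.
-/

set_option autoImplicit false

namespace Pool.Agent.Helper40.SD

open Polynomial

section pl

variable {R : Type} [CommRing R]

/-- polynomials with given coefficients in the degrees `s, …, s + N - 1` -/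
noncomputable def pl {N : ℕ} (s : ℕ) (d : Fin N → R) : R[X] :=
  ∑ i : Fin N, C (d i) * X ^ ((i : ℕ) + s)

theorem coeff_pl {N : ℕ} (s : ℕ) (d : Fin N → R) (i : Fin N) : (pl s d).coeff (i + s) = d i := by
  unfold pl
  rw [finsetSum_coeff, Finset.sum_eq_single i]
  · rw [coeff_C_mul, coeff_X_pow, if_pos rfl, mul_one]
  · intro j _ hj
    rw [coeff_C_mul, coeff_X_pow, if_neg, mul_zero]
    intro h
    apply hj
    apply Fin.ext
    omega
  · intro h
    exact absurd (Finset.mem_univ i) h

theorem coeff_pl_zero {N : ℕ} (s : ℕ) (hs : 0 < s) (d : Fin N → R) : (pl s d).coeff 0 = 0 := by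
  unfold pl
  rw [finsetSum_coeff]
  refine Finset.sum_eq_zero fun j _ => ?_
  rw [coeff_C_mul, coeff_X_pow, if_neg (by omega), mul_zero]

theorem natDegree_pl {N : ℕ} (s : ℕ) (d : Fin N → R) : (pl s d).natDegree ≤ N + s - 1 := by
  unfold pl
  refine natDegree_sum_le_of_forall_le _ _ fun i _ => ?_
  refine (natDegree_C_mul_X_pow_le _ _).trans ?_
  have := i.2
  omega

theorem map_pl {R' : Type} [CommRing R'] (φ : R →+* R') {N : ℕ} (s : ℕ) (d : Fin N → R) :
    (pl s d).map φ = pl s (fun i => φ (d i)) := by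
  unfold pl
  rw [Polynomial.map_sum]
  refine Finset.sum_congr rfl fun i _ => ?_
  rw [Polynomial.map_mul, map_C, Polynomial.map_pow, map_X]

theorem pl_eq_zero {N : ℕ} (s : ℕ) (d : Fin N → R) (h : ∀ j, s ≤ j → (pl s d).coeff j = 0) :
    d = 0 := by
  funext i
  rw [← coeff_pl s d i]
  exact h _ (by omega)

theorem pl_zero {N : ℕ} (s : ℕ) : pl s (0 : Fin N → R) = 0 := by
  unfold pl
  simp

/-- a polynomial with the given constant term -/
theorem natDegree_C_add_pl {N : ℕ} (b : R) (d : Fin N → R) : (C b + pl 1 d).natDegree ≤ N := by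
  refine (natDegree_add_le _ _).trans (max_le (by simp) ?_)
  have := natDegree_pl 1 d
  omega

theorem eq_zero_of_const {N : ℕ} (b : R) (d : Fin N → R) (h : (C b + pl 1 d).natDegree = 0) :
    d = 0 := by
  apply pl_eq_zero 1
  intro j hj
  have h1 : (C b + pl 1 d).coeff j = 0 := coeff_eq_zero_of_natDegree_lt (by omega)
  rw [coeff_add, coeff_C_of_ne_zero (by omega), zero_add] at h1
  exact h1

end pl

/-- the values of the unknowns -/
noncomputable def vl {M σ : Type} [Field M] (x : σ → M) :
    (MvPolynomial σ M)[X] →ₐ[M] M[X] := mapAlgHom (MvPolynomial.aeval x)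

theorem vl_C {M σ : Type} [Field M] (x : σ → M) (p : MvPolynomial σ M) :
    vl x (C p) = C (MvPolynomial.aeval x p) := by
  unfold vl
  rw [coe_mapAlgHom, map_C]
  rfl

theorem vl_pl {M σ : Type} [Field M] (x : σ → M) {N : ℕ} (s : ℕ)
    (d : Fin N → MvPolynomial σ M) : vl x (pl s d) = pl s (fun i => MvPolynomial.aeval x (d i)) := by
  unfold vl
  rw [coe_mapAlgHom, map_pl]
  rfl

theorem coeff_vl {M σ : Type} [Field M] (x : σ → M) (Φ : (MvPolynomial σ M)[X]) (j : ℕ) :
    (vl x Φ).coeff j = MvPolynomial.eval x (Φ.coeff j) := by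
  unfold vl
  rw [coe_mapAlgHom, coeff_map]
  rfl

theorem exists_pol {M σ : Type} [Field M] [IsAlgClosed M] [Finite σ] (K : ℕ)
    (hK : K < Nat.card σ) (Φ : (MvPolynomial σ M)[X]) (hdeg : ∀ x : σ → M,
      (vl x Φ).natDegree ≤ K) (hc : ∀ x : σ → M, (vl x Φ).coeff 0 = 0) (h0 : vl (0 : σ → M) Φ = 0) :
    ∃ x : σ → M, x ≠ 0 ∧ vl x Φ = 0 := by
  obtain ⟨x, hx0, hx⟩ := exists_zero (k := M) (σ := σ) (ι := Fin K) (fun j => Φ.coeff (j + 1))
    (fun j => by
      have h1 := congrArg (fun p => coeff p (j + 1)) h0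
      simp only [coeff_vl, coeff_zero] at h1
      exact h1) (by simpa using hK)
  refine ⟨x, hx0, ?_⟩
  ext j
  rw [coeff_zero]
  rcases Nat.eq_zero_or_pos j with rfl | hj
  · exact hc x
  · by_cases hjK : j ≤ K
    · have h1 := hx ⟨j - 1, by omega⟩
      have h2 : (((⟨j - 1, by omega⟩ : Fin K) : ℕ) + 1) = j := by
        simp only
        omega
      rw [h2] at h1
      rw [coeff_vl]
      exact h1
    · exact coeff_eq_zero_of_natDegree_lt ((hdeg x).trans_lt (by omega))

/-- the degree of the restriction to a curve -/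
theorem natDegree_aeval_le {M R ι : Type} [Field M] [CommRing R] [Algebra M R] [Fintype ι]
    (w : ι → ℕ) (K : ℕ) (G : MvPolynomial ι M) (hG : ∀ m ∈ G.support, ∑ i, m i * w i ≤ K)
    (c : ι → R[X]) (hc : ∀ i, (c i).natDegree ≤ w i) :
    (MvPolynomial.aeval c G).natDegree ≤ K := by
  rw [MvPolynomial.aeval_def, MvPolynomial.eval₂_eq']
  refine natDegree_sum_le_of_forall_le _ _ fun m hm => ?_
  refine (natDegree_mul_le).trans ?_
  have h1 : (algebraMap M R[X] (G.coeff m)).natDegree = 0 := by
    rw [Polynomial.algebraMap_apply]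
    exact natDegree_C _
  rw [h1, zero_add]
  refine (natDegree_prod_le _ _).trans ((Finset.sum_le_sum fun i _ => ?_).trans (hG m hm))
  refine (natDegree_pow_le).trans (Nat.mul_le_mul_left _ (hc i))

theorem aeval_const {M ι : Type} [Field M] (G : MvPolynomial ι M) (P : ι → M) :
    MvPolynomial.aeval (fun i => (C (P i) : M[X])) G = C (MvPolynomial.eval P G) := by
  have h : (MvPolynomial.aeval (fun i => (C (P i) : M[X]))) =
      (Algebra.ofId M M[X]).comp (MvPolynomial.aeval P) := by
    apply MvPolynomial.algHom_ext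
    intro i
    rw [MvPolynomial.aeval_X, AlgHom.comp_apply, MvPolynomial.aeval_X, Algebra.ofId_apply]
    rfl
  rw [h, AlgHom.comp_apply, Algebra.ofId_apply]
  rfl

theorem coeff_aeval {M ι : Type} [Field M] (G : MvPolynomial ι M) (c : ι → M[X]) :
    (MvPolynomial.aeval c G).coeff 0 = MvPolynomial.eval (fun i => (c i).coeff 0) G := by
  rw [coeff_zero_eq_aeval_zero]
  rw [← AlgHom.comp_apply]
  have h : (aeval (0 : M)).comp (MvPolynomial.aeval c) =
      (MvPolynomial.aeval fun i => (c i).coeff 0 : MvPolynomial ι M →ₐ[M] M) := by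
    apply MvPolynomial.algHom_ext
    intro i
    rw [MvPolynomial.aeval_X, AlgHom.comp_apply, MvPolynomial.aeval_X, coeff_zero_eq_aeval_zero]
  rw [h]
  rfl

/-- Curves through a given point on which the polynomial `G` is the product of a square and of a
polynomial of degree two. -/
theorem exists_conic_curve {M ι : Type} [Field M] [IsAlgClosed M] [Fintype ι] (w : ι → ℕ) (K : ℕ)
    (hK : 0 < K) (hcount : K ≤ ∑ i, w i) (G : MvPolynomial ι M)
    (hG : ∀ m ∈ G.support, ∑ i, m i * w i ≤ 2 * K) (P : ι → M) (hP : MvPolynomial.eval P G ≠ 0) :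
    ∃ (c : ι → M[X]) (Q h : M[X]), (∀ i, (c i).natDegree ≤ w i) ∧ (∀ i, (c i).coeff 0 = P i) ∧
      (∃ i, (c i).natDegree ≠ 0) ∧ Q ≠ 0 ∧ h.natDegree ≤ 2 ∧
      MvPolynomial.aeval c G = Q ^ 2 * h := by
  classical
  set b := MvPolynomial.eval P G with hb
  let σ : Type := (Σ i : ι, Fin (w i)) ⊕ Fin (K - 1) ⊕ Fin 2
  let R := MvPolynomial σ M
  let c : ι → R[X] := fun i => C (MvPolynomial.C (P i)) +
    pl 1 (fun j => (MvPolynomial.X (Sum.inl ⟨i, j⟩) : R))
  let Q : R[X] := C (MvPolynomial.C 1) +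
    pl 1 (fun j : Fin (K - 1) => (MvPolynomial.X (Sum.inr (Sum.inl j)) : R))
  let h : R[X] := C (MvPolynomial.C b) +
    pl 1 (fun j : Fin 2 => (MvPolynomial.X (Sum.inr (Sum.inr j)) : R))
  let Φ : R[X] := MvPolynomial.aeval c G - Q ^ 2 * h
  have hvc : ∀ (x : σ → M) (i : ι), vl x (c i) = C (P i) + pl 1 (fun j => x (Sum.inl ⟨i, j⟩)) := by
    intro x i
    change vl x (C (MvPolynomial.C (P i)) + pl 1 _) = _
    rw [map_add, vl_C, vl_pl, MvPolynomial.aeval_C]
    simp only [MvPolynomial.aeval_X, Algebra.algebraMap_self_apply]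
  have hvQ : ∀ x : σ → M, vl x Q = C 1 + pl 1 (fun j => x (Sum.inr (Sum.inl j))) := by
    intro x
    change vl x (C (MvPolynomial.C 1) + pl 1 _) = _
    rw [map_add, vl_C, vl_pl, MvPolynomial.aeval_C]
    simp only [MvPolynomial.aeval_X, Algebra.algebraMap_self_apply]
  have hvh : ∀ x : σ → M, vl x h = C b + pl 1 (fun j => x (Sum.inr (Sum.inr j))) := by
    intro x
    change vl x (C (MvPolynomial.C b) + pl 1 _) = _
    rw [map_add, vl_C, vl_pl, MvPolynomial.aeval_C]
    simp only [MvPolynomial.aeval_X, Algebra.algebraMap_self_apply]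
  have hvΦ : ∀ x : σ → M, vl x Φ = MvPolynomial.aeval (fun i => vl x (c i)) G -
      vl x Q ^ 2 * vl x h := by
    intro x
    change vl x (MvPolynomial.aeval c G - Q ^ 2 * h) = _
    rw [map_sub, map_mul, map_pow, MvPolynomial.comp_aeval_apply]
  have hdc : ∀ (x : σ → M) (i : ι), (vl x (c i)).natDegree ≤ w i := by
    intro x i
    rw [hvc]
    exact natDegree_C_add_pl _ _
  have hdQ : ∀ x : σ → M, (vl x Q).natDegree ≤ K - 1 := by
    intro x
    rw [hvQ]
    exact natDegree_C_add_pl _ _
  have hdh : ∀ x : σ → M, (vl x h).natDegree ≤ 2 := by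
    intro x
    rw [hvh]
    exact natDegree_C_add_pl _ _
  have hcc : ∀ (x : σ → M) (i : ι), (vl x (c i)).coeff 0 = P i := by
    intro x i
    rw [hvc, coeff_add, coeff_C_zero, coeff_pl_zero 1 one_pos, add_zero]
  have hcard : 2 * K < Nat.card σ := by
    rw [Nat.card_eq_fintype_card]
    change 2 * K < Fintype.card ((Σ i : ι, Fin (w i)) ⊕ Fin (K - 1) ⊕ Fin 2)
    simp only [Fintype.card_sum, Fintype.card_sigma, Fintype.card_fin]
    omega
  obtain ⟨x, hx0, hx⟩ := exists_pol (2 * K) hcard Φ (fun x => by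
      rw [hvΦ]
      refine (natDegree_sub_le _ _).trans (max_le ?_ ?_)
      · exact natDegree_aeval_le w (2 * K) G hG _ (hdc x)
      · refine (natDegree_mul_le).trans ?_
        have h1 := natDegree_pow_le (p := vl x Q) (n := 2)
        have h2 := hdQ x
        have h3 := hdh x
        omega) (fun x => by
      rw [hvΦ, coeff_sub, coeff_aeval, mul_coeff_zero, pow_two, mul_coeff_zero, hvQ, hvh]
      simp only [hcc]
      rw [coeff_add, coeff_add, coeff_C_zero, coeff_C_zero, coeff_pl_zero 1 one_pos,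
        coeff_pl_zero 1 one_pos, hb]
      ring) (by
      rw [hvΦ, hvQ, hvh]
      simp only [hvc]
      have e1 : ∀ i : ι, (C (P i) + pl 1 (fun j => (0 : σ → M) (Sum.inl ⟨i, j⟩)) : M[X]) =
          C (P i) := by
        intro i
        have : (fun j : Fin (w i) => (0 : σ → M) (Sum.inl ⟨i, j⟩)) = 0 := rfl
        rw [this, pl_zero, add_zero]
      have e2 : (fun j : Fin (K - 1) => (0 : σ → M) (Sum.inr (Sum.inl j))) = 0 := rfl
      have e3 : (fun j : Fin 2 => (0 : σ → M) (Sum.inr (Sum.inr j))) = 0 := rfl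
      simp only [e1]
      rw [e2, e3, pl_zero, pl_zero, add_zero, add_zero, aeval_const, ← hb, C_1]
      ring)
  rw [hvΦ, sub_eq_zero] at hx
  refine ⟨fun i => vl x (c i), vl x Q, vl x h, hdc x, hcc x, ?_, ?_, hdh x, hx⟩
  · by_contra hcon
    push Not at hcon
    apply hx0
    have z1 : ∀ i : ι, (fun j => x (Sum.inl ⟨i, j⟩)) = (0 : Fin (w i) → M) := by
      intro i
      apply eq_zero_of_const (P i)
      rw [← hvc]
      exact hcon i
    have e1 : ∀ i : ι, vl x (c i) = C (P i) := by
      intro i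
      rw [hvc, z1, pl_zero, add_zero]
    simp only [e1] at hx
    rw [aeval_const, ← hb] at hx
    have hne : vl x Q ^ 2 * vl x h ≠ 0 := by
      rw [← hx]
      exact C_ne_zero.2 hP
    have hQ0 : vl x Q ≠ 0 := by
      rintro h0
      rw [h0] at hne
      simp at hne
    have hh0 : vl x h ≠ 0 := by
      rintro h0
      rw [h0] at hne
      simp at hne
    have hdeg := congrArg natDegree hx
    rw [natDegree_C, natDegree_mul (pow_ne_zero _ hQ0) hh0, natDegree_pow] at hdeg
    have z2 : (fun j => x (Sum.inr (Sum.inl j))) = (0 : Fin (K - 1) → M) := by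
      apply eq_zero_of_const 1
      rw [← hvQ]
      omega
    have z3 : (fun j => x (Sum.inr (Sum.inr j))) = (0 : Fin 2 → M) := by
      apply eq_zero_of_const b
      rw [← hvh]
      omega
    funext s
    rcases s with ⟨i, j⟩ | j | j
    · exact congrFun (z1 i) j
    · exact congrFun z2 j
    · exact congrFun z3 j
  · intro h0
    have h1 := congrArg (fun p => coeff p 0) (hvQ x)
    simp only [h0, coeff_add, coeff_C_zero, coeff_zero, coeff_pl_zero 1 one_pos] at h1
    simp at h1

end Pool.Agent.Helper40.SD
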