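import Pool.Agent.Helper40.SD.Curve

/-!
# Double covers of weighted projective spaces

`uni_quad`: in characteristic different from two a double cover of the affine space with the
coordinates of the weights `w_i`, branched along a hypersurface of weighted degree at most
`2 K ≤ 2 ∑ w_i`, is uniruled.
-/

set_option autoImplicit false

namespace Pool.Agent.Helper40.SD

open IntermediateField Pool.Agent.Helper75.QC

/-- a field generated by `k + 1` elements is uniruled -/
theorem uni_rat {Ω K : Type} [Field Ω] [Field K] [Algebra Ω K] {k : ℕ}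
    (x : Option (Fin k) → K) (hgen : adjoin Ω (Set.range x) = ⊤) : Uniruled Ω K (k + 1) := by
  classical
  refine ⟨K, inferInstance, inferInstance, AlgHom.id Ω K, Finset.univ.image fun i => x (some i),
    x none, ?_, fun a => ?_⟩
  · refine (Finset.card_image_le).trans_lt ?_
    rw [Finset.card_univ, Fintype.card_fin]
    exact Nat.lt_succ_self _
  · have h1 : adjoin Ω (Set.range x) ≤ adjoin Ω
        (Acl Ω ((Finset.univ.image fun i => x (some i) : Finset K) : Set K) ∪ {x none}) := by
      rw [adjoin_le_iff]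
      rintro _ ⟨i, rfl⟩
      rcases i with _ | i
      · exact subset_adjoin _ _ (Or.inr rfl)
      · exact subset_adjoin _ _ (Or.inl (mem_AF.1 (subset_AF _ (by simp))))
    rw [hgen] at h1
    exact h1 trivial

/-- **Double covers.** -/
theorem uni_quad {Ω K : Type} [Field Ω] [IsAlgClosed Ω] [Field K] [Algebra Ω K] {k : ℕ}
    (h2 : (2 : Ω) ≠ 0) (w : Option (Fin k) → ℕ) (D : ℕ) (hD : 0 < D) (hDw : D ≤ ∑ i, w i)
    (a b : MvPolynomial (Option (Fin k)) Ω)
    (hG : ∀ m ∈ (a ^ 2 + 4 * b).support, ∑ i, m i * w i ≤ 2 * D) (x : Option (Fin k) → K) (r : K)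
    (hr : r ^ 2 = MvPolynomial.aeval x a * r + MvPolynomial.aeval x b)
    (hgen : adjoin Ω (Set.range x ∪ {r}) = ⊤) : Uniruled Ω K (k + 1) := by
  classical
  by_cases hG0 : a ^ 2 + 4 * b = 0
  · refine uni_rat x ?_
    rw [← hgen]
    refine le_antisymm (adjoin.mono _ _ _ Set.subset_union_left) ?_
    rw [adjoin_le_iff, Set.union_subset_iff, Set.singleton_subset_iff]
    refine ⟨subset_adjoin _ _, ?_⟩
    have h2K : (2 : K) ≠ 0 := by
      intro h
      apply h2
      apply (algebraMap Ω K).injective
      rw [map_ofNat, map_zero, h]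
    have h1 := congrArg (MvPolynomial.aeval x) hG0
    rw [map_add, map_mul, map_pow, map_ofNat, map_zero] at h1
    have h3 : (2 * r - MvPolynomial.aeval x a) ^ 2 = 0 := by
      linear_combination 4 * hr + h1
    have h4 : r = MvPolynomial.aeval x a / 2 := by
      rw [eq_div_iff h2K]
      linear_combination eq_zero_of_pow_eq_zero h3
    have hmem : MvPolynomial.aeval x a ∈ adjoin Ω (Set.range x) := by
      have h1 : MvPolynomial.aeval x a ∈ (MvPolynomial.aeval (R := Ω) x).range := ⟨a, rfl⟩
      rw [← Algebra.adjoin_range_eq_range_aeval] at h1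
      exact algebra_adjoin_le_adjoin Ω _ h1
    rw [SetLike.mem_coe, h4]
    refine div_mem hmem ?_
    exact_mod_cast (adjoin Ω (Set.range x)).natCast_mem 2
  refine curve_setup (∑ i, w i) (a ^ 2 + 4 * b) a b hG0 x r hr hgen ?_
  intro E _ _ M _ P hP
  have h2E : (2 : E) ≠ 0 := by
    intro h
    apply h2
    apply (algebraMap Ω E).injective
    rw [map_ofNat, map_zero, h]
  set G' := MvPolynomial.map (algebraMap Ω M) (a ^ 2 + 4 * b) with hG'
  obtain ⟨c, Q, h, hcw, hcP, hcne, hQ0, hh, hcQ⟩ := exists_conic_curve w D hD hDw G'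
    (fun m hm => hG m (MvPolynomial.support_map_subset _ _ hm)) P (by
      rw [hG', MvPolynomial.eval_map]
      exact hP)
  refine ⟨c, fun i => (hcw i).trans (Finset.single_le_sum (fun _ _ => Nat.zero_le _)
    (Finset.mem_univ i)), hcP, hcne, fun t r ht hr => ?_⟩
  have hQt : Polynomial.aeval t Q ≠ 0 := by
    intro h0
    exact hQ0 (coeff_zero_of ht Q h0)
  have hcQ' := congrArg (Polynomial.aeval t) hcQ
  have hG2 : Polynomial.aeval t (MvPolynomial.aeval c G') =
      MvPolynomial.aeval (fun i => Polynomial.aeval t (c i)) (a ^ 2 + 4 * b) := by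
    rw [hG', MvPolynomial.aeval_map_algebraMap]
    have : ((Polynomial.aeval (R := M) t).restrictScalars Ω).comp (MvPolynomial.aeval c) =
        MvPolynomial.aeval (R := Ω) (fun i => Polynomial.aeval t (c i)) := by
      ext i
      simp
    exact DFunLike.congr_fun this _
  rw [hG2, map_mul, map_pow, map_add, map_mul, map_pow, map_ofNat] at hcQ'
  have hht : Polynomial.aeval t h = (h.coeff 0 : E) + (h.coeff 1 : E) * t +
      (h.coeff 2 : E) * t ^ 2 := by
    rw [Polynomial.aeval_eq_sum_range' (Nat.lt_succ_of_le hh)]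
    simp only [Finset.sum_range_succ, Finset.sum_range_zero, Algebra.smul_def,
      IntermediateField.algebraMap_apply]
    ring
  set A : E := MvPolynomial.aeval (fun i => Polynomial.aeval t (c i)) a with hA
  obtain ⟨θ, hθ⟩ := conic_param M h2E (h.coeff 0) (h.coeff 1) (h.coeff 2) t
    ((2 * r - A) / Polynomial.aeval t Q) (by
      rw [div_pow, div_eq_iff (pow_ne_zero 2 hQt), ← hht]
      linear_combination 4 * hr + hcQ')
  refine ⟨θ, fun F hF hθF => ?_⟩
  obtain ⟨e1, e2⟩ := hθ F hF hθF
  have hpol : ∀ p : Polynomial M, Polynomial.aeval t p ∈ F := by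
    intro p
    rw [Polynomial.aeval_eq_sum_range]
    refine sum_mem fun j _ => ?_
    rw [Algebra.smul_def]
    exact F.mul_mem (hF (p.coeff j).2) (pow_mem e1 j)
  have hAF : A ∈ F := by
    have h1 : A = Polynomial.aeval t (MvPolynomial.aeval c a) := by
      have : ((Polynomial.aeval (R := M) t).restrictScalars Ω).comp (MvPolynomial.aeval c) =
          MvPolynomial.aeval (R := Ω) (fun i => Polynomial.aeval t (c i)) := by
        ext i
        simp
      exact (DFunLike.congr_fun this _).symm
    rw [h1]
    exact hpol _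
  refine ⟨e1, ?_⟩
  have h5 : r = ((2 * r - A) / Polynomial.aeval t Q * Polynomial.aeval t Q + A) / 2 := by
    field_simp
    ring
  rw [h5]
  have h6 : (2 : E) ∈ F := by exact_mod_cast F.natCast_mem 2
  exact F.div_mem (F.add_mem (F.mul_mem e2 (hpol Q)) hAF) h6

end Pool.Agent.Helper40.SD
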