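import Pool.Agent.Helper40.SD.Weighted

/-!
# Double covers `r² = a r + b` in characteristic two, and in every characteristic

`uni_quad_two`: characteristic two, `deg a ≤ W`, `deg b ≤ 2 W`, `a ≠ 0`, where `W` is at most the
sum of the weights: through the general point there is a curve on which `a = Q h` with `h` linear
and `b = S² + S a + Q² e` with `deg e ≤ 2`. Over it `r = S + Q ρ`, `ρ² + h ρ = e`.
`uni_quad_all`: every characteristic.
-/

set_option autoImplicit false

namespace Pool.Agent.Helper40.SD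

section curve

open Polynomial

theorem exists_pol_pair {M σ : Type} [Field M] [IsAlgClosed M] [Finite σ] (K K' : ℕ)
    (hK : K + K' < Nat.card σ) (Φ Ψ : (MvPolynomial σ M)[X])
    (hdeg : ∀ x : σ → M, (vl x Φ).natDegree ≤ K) (hdeg' : ∀ x : σ → M, (vl x Ψ).natDegree ≤ K')
    (hc : ∀ x : σ → M, (vl x Φ).coeff 0 = 0) (hc' : ∀ x : σ → M, (vl x Ψ).coeff 0 = 0)
    (h0 : vl (0 : σ → M) Φ = 0) (h0' : vl (0 : σ → M) Ψ = 0) :
    ∃ x : σ → M, x ≠ 0 ∧ vl x Φ = 0 ∧ vl x Ψ = 0 := by
  obtain ⟨x, hx0, hx⟩ := exists_zero (k := M) (σ := σ) (ι := Fin K ⊕ Fin K')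
    (Sum.elim (fun j => Φ.coeff (j + 1)) fun j => Ψ.coeff (j + 1))
    (fun j => by
      rcases j with j | j
      · have h1 := congrArg (fun p => coeff p (j + 1)) h0
        simp only [coeff_vl, coeff_zero] at h1
        exact h1
      · have h1 := congrArg (fun p => coeff p (j + 1)) h0'
        simp only [coeff_vl, coeff_zero] at h1
        exact h1) (by simpa using hK)
  refine ⟨x, hx0, ?_, ?_⟩
  · ext j
    rw [coeff_zero]
    rcases Nat.eq_zero_or_pos j with rfl | hj
    · exact hc x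
    · by_cases hjK : j ≤ K
      · have h1 := hx (Sum.inl ⟨j - 1, by omega⟩)
        simp only [Sum.elim_inl] at h1
        rw [Nat.sub_add_cancel hj] at h1
        rw [coeff_vl]
        exact h1
      · exact coeff_eq_zero_of_natDegree_lt ((hdeg x).trans_lt (by omega))
  · ext j
    rw [coeff_zero]
    rcases Nat.eq_zero_or_pos j with rfl | hj
    · exact hc' x
    · by_cases hjK : j ≤ K'
      · have h1 := hx (Sum.inr ⟨j - 1, by omega⟩)
        simp only [Sum.elim_inr] at h1
        rw [Nat.sub_add_cancel hj] at h1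
        rw [coeff_vl]
        exact h1
      · exact coeff_eq_zero_of_natDegree_lt ((hdeg' x).trans_lt (by omega))

/-- The curves. -/
theorem exists_curve_quad {M ι : Type} [Field M] [IsAlgClosed M] [Fintype ι] (w : ι → ℕ) (W : ℕ)
    (hW : 0 < W) (hcount : W ≤ ∑ i, w i) (a b : MvPolynomial ι M) (ha : WD w W a)
    (hb : WD w (2 * W) b) (P : ι → M) (hP : MvPolynomial.eval P a ≠ 0) :
    ∃ (c : ι → M[X]) (S Q e : M[X]) (h₁ : M), (∀ i, (c i).natDegree ≤ w i) ∧
      (∀ i, (c i).coeff 0 = P i) ∧ (∃ i, (c i).natDegree ≠ 0) ∧ Q ≠ 0 ∧ e.natDegree ≤ 2 ∧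
      MvPolynomial.aeval c a = Q * (1 + C h₁ * X) ∧
      S ^ 2 + S * MvPolynomial.aeval c a + Q ^ 2 * e = MvPolynomial.aeval c b := by
  classical
  set a₀ := MvPolynomial.eval P a with ha₀
  set b₀ := MvPolynomial.eval P b with hb₀
  set e₀ : M := b₀ / a₀ ^ 2 with he₀
  have he₀' : a₀ ^ 2 * e₀ = b₀ := by
    rw [he₀]
    field_simp
  let σ : Type := (Σ i : ι, Fin (w i)) ⊕ Fin 1 ⊕ Fin (W - 1) ⊕ Fin (W - 1) ⊕ Fin 2
  let R := MvPolynomial σ M
  let c : ι → R[X] := fun i => C (MvPolynomial.C (P i)) +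
    pl 1 (fun j => (MvPolynomial.X (Sum.inl ⟨i, j⟩) : R))
  let h : R[X] := C (MvPolynomial.C 1) +
    pl 1 (fun j : Fin 1 => (MvPolynomial.X (Sum.inr (Sum.inl j)) : R))
  let Q : R[X] := C (MvPolynomial.C a₀) +
    pl 1 (fun j : Fin (W - 1) => (MvPolynomial.X (Sum.inr (Sum.inr (Sum.inl j))) : R))
  let S : R[X] :=
    pl 2 (fun j : Fin (W - 1) => (MvPolynomial.X (Sum.inr (Sum.inr (Sum.inr (Sum.inl j)))) : R))
  let e : R[X] := C (MvPolynomial.C e₀) +
    pl 1 (fun j : Fin 2 => (MvPolynomial.X (Sum.inr (Sum.inr (Sum.inr (Sum.inr j)))) : R))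
  let Φ : R[X] := S ^ 2 + S * MvPolynomial.aeval c a + Q ^ 2 * e - MvPolynomial.aeval c b
  let Ψ : R[X] := MvPolynomial.aeval c a - Q * h
  have hvc : ∀ (x : σ → M) (i : ι), vl x (c i) = C (P i) + pl 1 (fun j => x (Sum.inl ⟨i, j⟩)) := by
    intro x i
    change vl x (C (MvPolynomial.C (P i)) + pl 1 _) = _
    rw [map_add, vl_C, vl_pl, MvPolynomial.aeval_C]
    simp only [MvPolynomial.aeval_X, Algebra.algebraMap_self_apply]
  have hvh : ∀ x : σ → M, vl x h = C 1 + pl 1 (fun j => x (Sum.inr (Sum.inl j))) := by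
    intro x
    change vl x (C (MvPolynomial.C 1) + pl 1 _) = _
    rw [map_add, vl_C, vl_pl, MvPolynomial.aeval_C]
    simp only [MvPolynomial.aeval_X, Algebra.algebraMap_self_apply]
  have hvQ : ∀ x : σ → M, vl x Q = C a₀ + pl 1 (fun j => x (Sum.inr (Sum.inr (Sum.inl j)))) := by
    intro x
    change vl x (C (MvPolynomial.C a₀) + pl 1 _) = _
    rw [map_add, vl_C, vl_pl, MvPolynomial.aeval_C]
    simp only [MvPolynomial.aeval_X, Algebra.algebraMap_self_apply]
  have hvS : ∀ x : σ → M, vl x S = pl 2 (fun j => x (Sum.inr (Sum.inr (Sum.inr (Sum.inl j))))) := by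
    intro x
    change vl x (pl 2 _) = _
    rw [vl_pl]
    simp only [MvPolynomial.aeval_X]
  have hve : ∀ x : σ → M, vl x e = C e₀ +
      pl 1 (fun j => x (Sum.inr (Sum.inr (Sum.inr (Sum.inr j))))) := by
    intro x
    change vl x (C (MvPolynomial.C e₀) + pl 1 _) = _
    rw [map_add, vl_C, vl_pl, MvPolynomial.aeval_C]
    simp only [MvPolynomial.aeval_X, Algebra.algebraMap_self_apply]
  have hvΦ : ∀ x : σ → M, vl x Φ = vl x S ^ 2 +
      vl x S * MvPolynomial.aeval (fun i => vl x (c i)) a + vl x Q ^ 2 * vl x e -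
      MvPolynomial.aeval (fun i => vl x (c i)) b := by
    intro x
    change vl x (S ^ 2 + S * MvPolynomial.aeval c a + Q ^ 2 * e - MvPolynomial.aeval c b) = _
    simp only [map_sub, map_add, map_mul, map_pow, MvPolynomial.comp_aeval_apply]
  have hvΨ : ∀ x : σ → M, vl x Ψ = MvPolynomial.aeval (fun i => vl x (c i)) a -
      vl x Q * vl x h := by
    intro x
    change vl x (MvPolynomial.aeval c a - Q * h) = _
    simp only [map_sub, map_mul, MvPolynomial.comp_aeval_apply]
  have hdc : ∀ (x : σ → M) (i : ι), (vl x (c i)).natDegree ≤ w i := by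
    intro x i
    rw [hvc]
    exact natDegree_C_add_pl _ _
  have hdh : ∀ x : σ → M, (vl x h).natDegree ≤ 1 := by
    intro x
    rw [hvh]
    exact natDegree_C_add_pl _ _
  have hdQ : ∀ x : σ → M, (vl x Q).natDegree ≤ W - 1 := by
    intro x
    rw [hvQ]
    exact natDegree_C_add_pl _ _
  have hdS : ∀ x : σ → M, (vl x S).natDegree ≤ W := by
    intro x
    rw [hvS]
    refine (natDegree_pl _ _).trans ?_
    omega
  have hde : ∀ x : σ → M, (vl x e).natDegree ≤ 2 := by
    intro x
    rw [hve]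
    exact natDegree_C_add_pl _ _
  have hda : ∀ x : σ → M, (MvPolynomial.aeval (fun i => vl x (c i)) a).natDegree ≤ W := fun x =>
    natDegree_aeval_le w W a ha _ (hdc x)
  have hdb : ∀ x : σ → M, (MvPolynomial.aeval (fun i => vl x (c i)) b).natDegree ≤ 2 * W :=
    fun x => natDegree_aeval_le w (2 * W) b hb _ (hdc x)
  have hcc : ∀ (x : σ → M) (i : ι), (vl x (c i)).coeff 0 = P i := by
    intro x i
    rw [hvc, coeff_add, coeff_C_zero, coeff_pl_zero 1 one_pos, add_zero]
  have hch : ∀ x : σ → M, (vl x h).coeff 0 = 1 := by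
    intro x
    rw [hvh, coeff_add, coeff_C_zero, coeff_pl_zero 1 one_pos, add_zero]
  have hcQ : ∀ x : σ → M, (vl x Q).coeff 0 = a₀ := by
    intro x
    rw [hvQ, coeff_add, coeff_C_zero, coeff_pl_zero 1 one_pos, add_zero]
  have hcS : ∀ x : σ → M, (vl x S).coeff 0 = 0 := by
    intro x
    rw [hvS, coeff_pl_zero 2 two_pos]
  have hce : ∀ x : σ → M, (vl x e).coeff 0 = e₀ := by
    intro x
    rw [hve, coeff_add, coeff_C_zero, coeff_pl_zero 1 one_pos, add_zero]
  have hcard : 2 * W + W < Nat.card σ := by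
    rw [Nat.card_eq_fintype_card]
    change 2 * W + W < Fintype.card ((Σ i : ι, Fin (w i)) ⊕ Fin 1 ⊕ Fin (W - 1) ⊕
      Fin (W - 1) ⊕ Fin 2)
    simp only [Fintype.card_sum, Fintype.card_sigma, Fintype.card_fin]
    omega
  have hf : ∀ p : M[X], p.coeff 0 = constantCoeff p := fun p => rfl
  have hz : (∀ i : ι, vl (0 : σ → M) (c i) = C (P i)) ∧ vl (0 : σ → M) h = 1 ∧
      vl (0 : σ → M) Q = C a₀ ∧ vl (0 : σ → M) S = 0 ∧ vl (0 : σ → M) e = C e₀ := by
    have e2 : (fun j : Fin 1 => (0 : σ → M) (Sum.inr (Sum.inl j))) = 0 := rfl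
    have e3 : (fun j : Fin (W - 1) => (0 : σ → M) (Sum.inr (Sum.inr (Sum.inl j)))) = 0 := rfl
    have e4 : (fun j : Fin (W - 1) =>
      (0 : σ → M) (Sum.inr (Sum.inr (Sum.inr (Sum.inl j))))) = 0 := rfl
    have e5 : (fun j : Fin 2 => (0 : σ → M) (Sum.inr (Sum.inr (Sum.inr (Sum.inr j))))) = 0 := rfl
    refine ⟨fun i => ?_, ?_, ?_, ?_, ?_⟩
    · have e1 : (fun j : Fin (w i) => (0 : σ → M) (Sum.inl ⟨i, j⟩)) = 0 := rfl
      rw [hvc, e1, pl_zero, add_zero]
    · rw [hvh, e2, pl_zero, add_zero, C_1]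
    · rw [hvQ, e3, pl_zero, add_zero]
    · rw [hvS, e4, pl_zero]
    · rw [hve, e5, pl_zero, add_zero]
  obtain ⟨z1, z2, z3, z4, z5⟩ := hz
  obtain ⟨x, hx0, hx, hx'⟩ := exists_pol_pair (2 * W) W hcard Φ Ψ (fun x => by
      rw [hvΦ]
      refine (natDegree_sub_le _ _).trans (max_le ((natDegree_add_le _ _).trans (max_le
        ((natDegree_add_le _ _).trans (max_le ?_ ?_)) ?_)) (hdb x))
      · exact natDegree_pow_le.trans (Nat.mul_le_mul_left _ (hdS x))
      · refine natDegree_mul_le.trans ?_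
        have h1 := hda x
        have h2 := hdS x
        omega
      · refine natDegree_mul_le.trans ?_
        have h1 : (vl x Q ^ 2).natDegree ≤ 2 * (W - 1) :=
          natDegree_pow_le.trans (Nat.mul_le_mul_left _ (hdQ x))
        have h2 := hde x
        omega) (fun x => by
      rw [hvΨ]
      refine (natDegree_sub_le _ _).trans (max_le (hda x) ?_)
      refine natDegree_mul_le.trans ?_
      have h1 := hdQ x
      have h2 := hdh x
      omega) (fun x => by
      rw [hvΦ, hf]
      simp only [map_sub, map_add, map_mul, map_pow, constantCoeff_apply, hcQ, hcS, hce,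
        coeff_aeval, hcc]
      rw [he₀', ← hb₀]
      ring) (fun x => by
      rw [hvΨ, hf]
      simp only [map_sub, map_mul, constantCoeff_apply, hcQ, hch, coeff_aeval, hcc]
      rw [← ha₀]
      ring) (by
      rw [hvΦ, z3, z4, z5]
      simp only [z1]
      rw [aeval_const, aeval_const, ← ha₀, ← hb₀, ← he₀', C_mul, C_pow]
      ring) (by
      rw [hvΨ, z2, z3]
      simp only [z1]
      rw [aeval_const, ← ha₀]
      ring)
  rw [hvΦ, sub_eq_zero] at hx
  rw [hvΨ, sub_eq_zero] at hx'
  have hh0 : vl x h ≠ 0 := by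
    intro h0
    have h1 := hch x
    rw [h0, coeff_zero] at h1
    exact zero_ne_one h1
  have hQ0 : vl x Q ≠ 0 := by
    intro h0
    have h1 := hcQ x
    rw [h0, coeff_zero] at h1
    exact hP h1.symm
  have hh1 : vl x h = 1 + C ((vl x h).coeff 1) * X := by
    have h1 := hch x
    conv_lhs => rw [eq_X_add_C_of_natDegree_le_one (hdh x)]
    rw [h1, C_1]
    ring
  refine ⟨fun i => vl x (c i), vl x S, vl x Q, vl x e, (vl x h).coeff 1, hdc x, hcc x, ?_, hQ0,
    hde x, ?_, hx⟩
  · by_contra hcon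
    push Not at hcon
    apply hx0
    have y1 : ∀ i : ι, (fun j => x (Sum.inl ⟨i, j⟩)) = (0 : Fin (w i) → M) := by
      intro i
      apply eq_zero_of_const (P i)
      rw [← hvc]
      exact hcon i
    have e1 : ∀ i : ι, vl x (c i) = C (P i) := by
      intro i
      rw [hvc, y1, pl_zero, add_zero]
    simp only [e1] at hx hx'
    rw [aeval_const, ← ha₀] at hx hx'
    rw [aeval_const, ← hb₀] at hx
    have hn := congrArg natDegree hx'
    rw [natDegree_C, natDegree_mul hQ0 hh0] at hn
    have y2 : (fun j => x (Sum.inr (Sum.inl j))) = (0 : Fin 1 → M) := by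
      apply eq_zero_of_const 1
      rw [← hvh]
      omega
    have y3 : (fun j => x (Sum.inr (Sum.inr (Sum.inl j)))) = (0 : Fin (W - 1) → M) := by
      apply eq_zero_of_const a₀
      rw [← hvQ]
      omega
    have e3 : vl x Q = C a₀ := by rw [hvQ, y3, pl_zero, add_zero]
    rw [e3] at hx
    have hx2 : vl x S ^ 2 + vl x S * C a₀ = C b₀ - C (a₀ ^ 2) * vl x e := by
      rw [C_pow]
      linear_combination hx
    have hS0 : vl x S = 0 := by
      by_contra hS
      have hlead : (vl x S).coeff (vl x S).natDegree ≠ 0 := by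
        rw [coeff_natDegree]
        exact leadingCoeff_ne_zero.2 hS
      have hge : 2 ≤ (vl x S).natDegree := by
        by_contra hlt
        apply hlead
        generalize (vl x S).natDegree = d at hlt
        rw [hvS]
        unfold pl
        rw [finsetSum_coeff]
        refine Finset.sum_eq_zero fun j _ => ?_
        rw [coeff_C_mul, coeff_X_pow, if_neg (by omega), mul_zero]
      have h1 : (vl x S ^ 2 + vl x S * C a₀).natDegree = 2 * (vl x S).natDegree := by
        rw [natDegree_add_eq_left_of_natDegree_lt, natDegree_pow]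
        rw [natDegree_pow]
        refine (natDegree_mul_C_le _ _).trans_lt ?_
        omega
      rw [hx2] at h1
      have h2 : (C b₀ - C (a₀ ^ 2) * vl x e).natDegree ≤ 2 := by
        refine (natDegree_sub_le _ _).trans (max_le (by rw [natDegree_C]; omega) ?_)
        exact (natDegree_C_mul_le _ _).trans (hde x)
      omega
    have y4 : (fun j => x (Sum.inr (Sum.inr (Sum.inr (Sum.inl j))))) =
        (0 : Fin (W - 1) → M) := by
      apply pl_eq_zero 2
      intro j _
      rw [← hvS, hS0, coeff_zero]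
    rw [hS0] at hx2
    have ham : a₀ ^ 2 ≠ 0 := pow_ne_zero _ hP
    have y5 : (fun j => x (Sum.inr (Sum.inr (Sum.inr (Sum.inr j))))) = (0 : Fin 2 → M) := by
      apply eq_zero_of_const e₀
      rw [← hve]
      have h1 : C (a₀ ^ 2) * vl x e = C b₀ := by
        linear_combination hx2
      have h2 := congrArg natDegree h1
      rw [natDegree_C, natDegree_C_mul ham] at h2
      exact h2
    funext s
    rcases s with ⟨i, j⟩ | j | j | j | j
    · exact congrFun (y1 i) j
    · exact congrFun y2 j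
    · exact congrFun y3 j
    · exact congrFun y4 j
    · exact congrFun y5 j
  · rw [← hh1]
    exact hx'

end curve

open IntermediateField Pool.Agent.Helper75.QC

/-- Double covers in characteristic two. -/
theorem uni_quad_two {Ω K : Type} [Field Ω] [IsAlgClosed Ω] [Field K] [Algebra Ω K] {k : ℕ}
    (h2 : (2 : Ω) = 0) (w : Option (Fin k) → ℕ) (W : ℕ) (hW : 0 < W) (hWw : W ≤ ∑ i, w i)
    (a b : MvPolynomial (Option (Fin k)) Ω) (ha0 : a ≠ 0) (ha : WD w W a) (hb : WD w (2 * W) b)
    (x : Option (Fin k) → K) (r : K)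
    (hr : r ^ 2 = MvPolynomial.aeval x a * r + MvPolynomial.aeval x b)
    (hgen : adjoin Ω (Set.range x ∪ {r}) = ⊤) : Uniruled Ω K (k + 1) := by
  refine curve_setup (∑ i, w i) a a b ha0 x r hr hgen ?_
  intro E _ _ M _ P hP
  have h2E : (2 : E) = 0 := by
    have := congrArg (algebraMap Ω E) h2
    rwa [map_ofNat, map_zero] at this
  obtain ⟨c, S, Q, e, h₁, hcN, hcP, hcne, hQ0, he, hcQ, hS⟩ := exists_curve_quad w W hW hWw
    (MvPolynomial.map (algebraMap Ω M) a) (MvPolynomial.map (algebraMap Ω M) b)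
    (fun s hs => ha s (MvPolynomial.support_map_subset _ _ hs))
    (fun s hs => hb s (MvPolynomial.support_map_subset _ _ hs)) P (by
      rw [MvPolynomial.eval_map]
      exact hP)
  refine ⟨c, fun i => (hcN i).trans (Finset.single_le_sum (fun _ _ => Nat.zero_le _)
    (Finset.mem_univ i)), hcP, hcne, fun t r ht hr => ?_⟩
  have hQt : Polynomial.aeval t Q ≠ 0 := by
    intro h0
    exact hQ0 (coeff_zero_of ht Q h0)
  have hF2 : ∀ G : MvPolynomial (Option (Fin k)) Ω, Polynomial.aeval t (MvPolynomial.aeval c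
      (MvPolynomial.map (algebraMap Ω M) G)) =
      MvPolynomial.aeval (fun i => Polynomial.aeval t (c i)) G := by
    intro G
    rw [MvPolynomial.aeval_map_algebraMap]
    have : ((Polynomial.aeval (R := M) t).restrictScalars Ω).comp (MvPolynomial.aeval c) =
        MvPolynomial.aeval (R := Ω) (fun i => Polynomial.aeval t (c i)) := by
      ext i
      simp
    exact DFunLike.congr_fun this _
  have hS' := congrArg (Polynomial.aeval t) hS
  rw [map_add, map_add, map_mul, map_mul, map_pow, map_pow, hF2, hF2] at hS'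
  have hQ' := congrArg (Polynomial.aeval t) hcQ
  rw [hF2, map_mul, map_add, map_one, map_mul, Polynomial.aeval_C, Polynomial.aeval_X,
    IntermediateField.algebraMap_apply] at hQ'
  have het : Polynomial.aeval t e = (e.coeff 0 : E) + (e.coeff 1 : E) * t +
      (e.coeff 2 : E) * t ^ 2 := by
    rw [Polynomial.aeval_eq_sum_range' (Nat.lt_succ_of_le he)]
    simp only [Finset.sum_range_succ, Finset.sum_range_zero, Algebra.smul_def,
      IntermediateField.algebraMap_apply]
    ring
  set A := MvPolynomial.aeval (fun i => Polynomial.aeval t (c i)) a with hA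
  set B := MvPolynomial.aeval (fun i => Polynomial.aeval t (c i)) b with hB
  set s := Polynomial.aeval t S with hs
  set u := Polynomial.aeval t Q with hu
  obtain ⟨θ, hθ⟩ := conic_param_lin M h₁ (e.coeff 0) (e.coeff 1) (e.coeff 2) t
    ((r - s) / u) (by
      rw [← het]
      have h3 : ((r - s) / u) ^ 2 + (1 + (h₁ : E) * t) * ((r - s) / u) =
          ((r - s) ^ 2 + (u * (1 + (h₁ : E) * t)) * (r - s)) / u ^ 2 := by
        field_simp
      rw [h3, ← hQ', div_eq_iff (pow_ne_zero 2 hQt)]
      linear_combination hr - hS' + (s ^ 2 + A * r - r * s) * h2E)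
  refine ⟨θ, fun F hF hθF => ?_⟩
  obtain ⟨e1, e2⟩ := hθ F hF hθF
  have hpol : ∀ p : Polynomial M, Polynomial.aeval t p ∈ F := by
    intro p
    rw [Polynomial.aeval_eq_sum_range]
    refine sum_mem fun j _ => ?_
    rw [Algebra.smul_def]
    exact F.mul_mem (hF (p.coeff j).2) (pow_mem e1 j)
  refine ⟨e1, ?_⟩
  have h5 : r = (r - s) / u * u + s := by
    field_simp
    ring
  rw [h5]
  exact F.add_mem (F.mul_mem e2 (hpol Q)) (hpol S)

/-- **Double covers in every characteristic.** -/
theorem uni_quad_all {Ω K : Type} [Field Ω] [IsAlgClosed Ω] [Field K] [Algebra Ω K] {k : ℕ}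
    (w : Option (Fin k) → ℕ) (hW : 0 < ∑ i, w i) (a b : MvPolynomial (Option (Fin k)) Ω)
    (h2 : (2 : Ω) ≠ 0 ∨ a ≠ 0) (ha : WD w (∑ i, w i) a) (hb : WD w (2 * ∑ i, w i) b)
    (x : Option (Fin k) → K) (r : K)
    (hr : r ^ 2 = MvPolynomial.aeval x a * r + MvPolynomial.aeval x b)
    (hgen : adjoin Ω (Set.range x ∪ {r}) = ⊤) : Uniruled Ω K (k + 1) := by
  by_cases h2' : (2 : Ω) = 0
  · rcases h2 with h | h
    · exact absurd h2' h
    · exact uni_quad_two h2' w _ hW le_rfl a b h ha hb x r hr hgen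
  · refine uni_quad h2' w _ hW le_rfl a b ?_ x r hr hgen
    have e4 : (4 : MvPolynomial (Option (Fin k)) Ω) = MvPolynomial.C 4 := by rw [map_ofNat]
    rw [e4]
    exact WD.add (ha.pow 2) (((WD.C 4).mul hb).mono (by rw [zero_add]))

end Pool.Agent.Helper40.SD
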