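import Pool.Agent.Helper40.SD.Gen
import Pool.Agent.Helper40.SD.Bitangent

/-!
# Double solids `r² = B(x, y, z)`, `deg B ≤ 6`, are uniruled
-/

set_option autoImplicit false

namespace Pool.Agent.Helper40.SD

open IntermediateField Pool.Agent.Helper75.QC

/-- a conic over an algebraically closed subfield is rational -/
theorem conic_param {Ω E : Type} [Field Ω] [Field E] [Algebra Ω E] (M : IntermediateField Ω E)
    [IsAlgClosed M] (h2 : (2 : E) ≠ 0) (A B C : M) (μ ρ : E)
    (h : ρ ^ 2 = A + B * μ + C * μ ^ 2) :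
    ∃ θ : E, ∀ F : IntermediateField Ω E, M ≤ F → θ ∈ F → μ ∈ F ∧ ρ ∈ F := by
  by_cases hC : C = 0
  · subst hC
    by_cases hB : B = 0
    · subst hB
      obtain ⟨s, hs⟩ := IsAlgClosed.exists_pow_nat_eq A (n := 2) (by norm_num)
      have h1 : (ρ - s) * (ρ + s) = 0 := by
        have h3 : ((s : E)) ^ 2 = A := by exact_mod_cast congrArg Subtype.val hs
        have h4 : ρ ^ 2 = A := by rw [h]; simp
        linear_combination h4 - h3
      refine ⟨μ, fun F hF hθ => ⟨hθ, ?_⟩⟩
      rcases mul_eq_zero.1 h1 with h3 | h3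
      · rw [sub_eq_zero.1 h3]
        exact hF s.2
      · rw [eq_neg_of_add_eq_zero_left h3]
        exact F.neg_mem (hF s.2)
    · have hBE : (B : E) ≠ 0 := by
        intro h0
        exact hB (Subtype.ext h0)
      refine ⟨ρ, fun F hF hθ => ⟨?_, hθ⟩⟩
      have h1 : μ = (ρ ^ 2 - A) / B := by
        rw [eq_div_iff hBE, h]
        simp
        ring
      rw [h1]
      exact F.div_mem (F.sub_mem (pow_mem hθ 2) (hF A.2)) (hF B.2)
  · obtain ⟨s, hs⟩ := IsAlgClosed.exists_pow_nat_eq C (n := 2) (by norm_num)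
    have hs' : ((s : E)) ^ 2 = C := by exact_mod_cast congrArg Subtype.val hs
    have hs0 : (s : E) ≠ 0 := by
      intro h0
      apply hC
      apply Subtype.ext
      rw [← hs', h0]
      simp
    set η : E := ρ - s * μ with hη
    have h1 : η ^ 2 + 2 * s * η * μ = A + B * μ := by
      rw [hη]
      linear_combination h + μ ^ 2 * (-hs')
    have hρ : ρ = η + s * μ := by rw [hη]; ring
    by_cases h3 : 2 * s * η - B = 0
    · have h4 : η = B / (2 * s) := by
        rw [eq_div_iff (mul_ne_zero h2 hs0)]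
        linear_combination h3
      refine ⟨μ, fun F hF hθ => ⟨hθ, ?_⟩⟩
      rw [hρ, h4]
      have h5 : (2 : E) ∈ F := by exact_mod_cast F.natCast_mem 2
      exact F.add_mem (F.div_mem (hF B.2) (F.mul_mem h5 (hF s.2))) (F.mul_mem (hF s.2) hθ)
    · have h4 : μ = (A - η ^ 2) / (2 * s * η - B) := by
        rw [eq_div_iff h3]
        linear_combination h1
      refine ⟨η, fun F hF hθ => ?_⟩
      have h5 : (2 : E) ∈ F := by exact_mod_cast F.natCast_mem 2
      have hμ : μ ∈ F := by
        rw [h4]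
        exact F.div_mem (F.sub_mem (hF A.2) (pow_mem hθ 2))
          (F.sub_mem (F.mul_mem (F.mul_mem h5 (hF s.2)) hθ) (hF B.2))
      refine ⟨hμ, ?_⟩
      rw [hρ]
      exact F.add_mem hθ (F.mul_mem (hF s.2) hμ)

/-- a polynomial which vanishes at the generic point of a graph -/
theorem dvd_of_graph {Ω A : Type} [Field Ω] [Field A] [Algebra Ω A] (P : Fin 3 → A)
    (φ : MvPolynomial (Fin 3) Ω) (a : Fin 2 → A) (ha : AlgebraicIndependent Ω a)
    (φ' : MvPolynomial (Fin 2) Ω) (hφ : φ = MvPolynomial.rename Fin.castSucc φ')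
    (hP0 : P 0 = a 0) (hP1 : P 1 = a 1) (hP2 : P 2 = MvPolynomial.aeval a φ')
    (G : MvPolynomial (Fin 3) Ω) (hG : MvPolynomial.aeval P G = 0) :
    (MvPolynomial.X 2 - φ) ∣ G := by
  -- substitute `X 2 = φ`
  set σ : MvPolynomial (Fin 3) Ω →ₐ[Ω] MvPolynomial (Fin 2) Ω :=
    MvPolynomial.aeval ![MvPolynomial.X 0, MvPolynomial.X 1, φ'] with hσ
  have h1 : σ G = 0 := by
    apply ha
    rw [map_zero, ← hG]
    have : (MvPolynomial.aeval a).comp σ = MvPolynomial.aeval P := by
      ext i
      fin_cases i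
      · simp [hσ, hP0]
      · simp [hσ, hP1]
      · simp [hσ, hP2]
    exact DFunLike.congr_fun this G
  have h2 : ∀ G : MvPolynomial (Fin 3) Ω, (MvPolynomial.X 2 - φ) ∣
      G - MvPolynomial.rename Fin.castSucc (σ G) := by
    intro G
    induction G using MvPolynomial.induction_on with
    | C a => simp
    | add p q hp hq =>
      rw [map_add, map_add]
      convert dvd_add hp hq using 1
      ring
    | mul_X p i hp =>
      have h3 : (MvPolynomial.X 2 - φ) ∣ MvPolynomial.X i -
          MvPolynomial.rename Fin.castSucc (σ (MvPolynomial.X i)) := by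
        fin_cases i
        · simp [hσ]
        · simp [hσ]
        · simp [hσ, hφ]
      rw [map_mul, map_mul]
      have h4 := dvd_add (hp.mul_right (MvPolynomial.X i))
        (h3.mul_left (MvPolynomial.rename Fin.castSucc (σ p)))
      convert h4 using 1
      ring
  have h3 := h2 G
  rw [h1, map_zero, sub_zero] at h3
  exact h3

/-- a nonzero polynomial in three variables does not vanish at the generic point of a suitable
translate of the graph -/
theorem exists_const {Ω E : Type} [Field Ω] [IsAlgClosed Ω] [Field E] [Algebra Ω E]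
    (B : MvPolynomial (Fin 3) Ω) (hB : B ≠ 0) (x : Fin 3 → E) (hx : AlgebraicIndependent Ω x)
    (e : E) : ∃ c : Ω, MvPolynomial.aeval ![x 0, x 1, e + algebraMap Ω E c] B ≠ 0 := by
  by_contra hcon
  push Not at hcon
  set p : Polynomial E := MvPolynomial.aeval
    ![Polynomial.C (x 0), Polynomial.C (x 1), Polynomial.C e + Polynomial.X] B with hp
  have heval : ∀ u : E, p.eval u = MvPolynomial.aeval ![x 0, x 1, e + u] B := by
    intro u
    have : ((Polynomial.aeval (R := E) u).restrictScalars Ω).comp (MvPolynomial.aeval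
        ![Polynomial.C (x 0), Polynomial.C (x 1), Polynomial.C e + Polynomial.X]) =
        MvPolynomial.aeval (R := Ω) ![x 0, x 1, e + u] := by
      ext i
      fin_cases i <;> simp
    rw [← Polynomial.coe_aeval_eq_eval]
    exact DFunLike.congr_fun this B
  have h0 : p = 0 := by
    apply Polynomial.eq_zero_of_infinite_isRoot
    have hinf : (Set.range (algebraMap Ω E)).Infinite :=
      Set.infinite_range_of_injective (algebraMap Ω E).injective
    refine hinf.mono ?_
    rintro _ ⟨c, rfl⟩
    change p.eval _ = 0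
    rw [heval]
    exact hcon c
  have h1 := heval (x 2 - e)
  rw [h0, Polynomial.eval_zero] at h1
  apply hB
  apply hx
  rw [map_zero, h1]
  congr 2
  funext i
  fin_cases i <;> simp

theorem trans_AF {Ω E : Type} [Field Ω] [Field E] [Algebra Ω E] (x : Fin 3 → E)
    (hx : AlgebraicIndependent Ω x) : Transcendental (AF Ω {x 0, x 1}) (x 2) := by
  intro h
  have h1 : IsAlgebraic (adjoin Ω ({x 0, x 1} : Set E)) (x 2) := mem_AF.1 (AF_closed h)
  have h2 := isAlgebraic_adjoin_iff.1 h1
  have h3 := hx.transcendental_adjoin (s := {0, 1}) (i := 2) (by simp)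
  rw [Set.image_pair] at h3
  exact h3 h2

/-- the coefficients of a polynomial of degree three which vanishes at a transcendental element -/
theorem three_coeff {M E : Type} [Field M] [Field E] [Algebra M E] {t : E}
    (ht : Transcendental M t) (a b c : M)
    (h : algebraMap M E a * t + algebraMap M E b * t ^ 2 + algebraMap M E c * t ^ 3 = 0) :
    a = 0 ∧ b = 0 ∧ c = 0 := by
  have h1 : (Polynomial.C a * Polynomial.X + Polynomial.C b * Polynomial.X ^ 2 +
      Polynomial.C c * Polynomial.X ^ 3 : Polynomial M) = 0 := by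
    apply coeff_zero_of ht
    simp only [map_add, map_mul, Polynomial.aeval_C, Polynomial.aeval_X, map_pow]
    exact h
  have e1 := congrArg (fun p => Polynomial.coeff p 1) h1
  have e2 := congrArg (fun p => Polynomial.coeff p 2) h1
  have e3 := congrArg (fun p => Polynomial.coeff p 3) h1
  simp [Polynomial.coeff_X_pow] at e1 e2 e3
  exact ⟨e1, e2, e3⟩

/-- algebraicity of a root -/
theorem mem_AF_of_aeval {Ω K : Type} [Field Ω] [Field K] [Algebra Ω K] (S : Set K)
    (ψ : Polynomial Ω) (hψ : ψ.natDegree ≠ 0) (r : K) (h : Polynomial.aeval r ψ ∈ AF Ω S) :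
    r ∈ AF Ω S := by
  apply AF_closed
  set ψ' : Polynomial (AF Ω S) := ψ.map (algebraMap Ω (AF Ω S)) with hψ'
  have h1 : Polynomial.aeval r ψ' = Polynomial.aeval r ψ := by
    rw [hψ', Polynomial.aeval_map_algebraMap]
  refine IsAlgebraic.of_aeval ψ' ?_ ?_ ?_
  · rw [hψ', Polynomial.natDegree_map]
    exact hψ
  · rw [mem_nonZeroDivisors_iff_ne_zero, Polynomial.leadingCoeff_ne_zero, hψ', Ne,
      Polynomial.map_eq_zero]
    rintro rfl
    exact hψ Polynomial.natDegree_zero
  · rw [h1]
    exact isAlgebraic_algebraMap (⟨_, h⟩ : AF Ω S)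

/-- The set-up for double solids: a line through the generic point of the graph of
`x² + y³ + c` over which the double cover is rational. -/
theorem solid_setup {Ω K : Type} [Field Ω] [IsAlgClosed Ω] [Field K] [Algebra Ω K]
    (ψ : Polynomial Ω) (hψ : ψ.natDegree ≠ 0) (B : MvPolynomial (Fin 3) Ω) (x : Fin 3 → K)
    (r : K) (hr : Polynomial.aeval r ψ = MvPolynomial.aeval x B)
    (hgen : adjoin Ω (Set.range x ∪ {r}) = ⊤)
    (hline : ∀ (E : Type) [Field E] [Algebra Ω E] (M : IntermediateField Ω E) [IsAlgClosed M]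
      (P : Fin 3 → M), MvPolynomial.aeval P B ≠ 0 → ∃ d : Fin 3 → M, d ≠ 0 ∧ ∀ t r : E,
        Polynomial.aeval r ψ = MvPolynomial.aeval (fun i => (P i : E) + d i * t) B →
          ∃ θ : E, ∀ F : IntermediateField Ω E, M ≤ F → θ ∈ F → t ∈ F ∧ r ∈ F) :
    Uniruled Ω K 3 := by
  classical
  have hBK : MvPolynomial.aeval x B ∈ adjoin Ω (Set.range x) := by
    have h1 : MvPolynomial.aeval x B ∈ (MvPolynomial.aeval (R := Ω) x).range := ⟨B, rfl⟩
    rw [← Algebra.adjoin_range_eq_range_aeval] at h1
    exact algebra_adjoin_le_adjoin Ω _ h1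
  have hK : ∀ k : K, IsAlgebraic (adjoin Ω (Set.range x)) k := by
    intro k
    have h1 : adjoin Ω (Set.range x ∪ {r}) ≤ AF Ω (Set.range x) := by
      rw [adjoin_le_iff, Set.union_subset_iff, Set.singleton_subset_iff]
      refine ⟨subset_AF _, mem_AF_of_aeval _ ψ hψ r ?_⟩
      rw [hr]
      exact adjoin_le_iff.2 (subset_AF _) hBK
    rw [hgen] at h1
    exact mem_AF.1 (h1 trivial)
  by_cases hx : AlgebraicIndependent Ω x
  swap
  · exact uniruled_of_dep x hx hK
  by_cases hB0 : B = 0
  · -- `r` is a constant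
    subst hB0
    rw [map_zero] at hr
    have hr1 : IsAlgebraic Ω r := ⟨ψ, by rintro rfl; exact hψ Polynomial.natDegree_zero, hr⟩
    refine ⟨K, inferInstance, inferInstance, AlgHom.id Ω K, {x 0, x 1}, x 2, ?_, fun k => ?_⟩
    · exact (Finset.card_le_two).trans_lt (by norm_num)
    · have h1 : adjoin Ω (Set.range x ∪ {r}) ≤
          adjoin Ω (Acl Ω ((({x 0, x 1} : Finset K)) : Set K) ∪ {x 2}) := by
        rw [adjoin_le_iff, Set.union_subset_iff, Set.singleton_subset_iff]
        constructor
        · rintro _ ⟨i, rfl⟩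
          fin_cases i
          · exact subset_adjoin _ _ (Or.inl (mem_AF.1 (subset_AF _ (by simp))))
          · exact subset_adjoin _ _ (Or.inl (mem_AF.1 (subset_AF _ (by simp))))
          · exact subset_adjoin _ _ (Or.inr rfl)
        · exact subset_adjoin _ _ (Or.inl (hr1.extendScalars (algebraMap Ω _).injective))
      rw [hgen] at h1
      exact h1 trivial
  -- the generic case
  let E := AlgebraicClosure K
  set x' : Fin 3 → E := fun i => algebraMap K E (x i) with hx'
  have hx'i : AlgebraicIndependent Ω x' := by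
    have := hx.map' (f := (IsScalarTower.toAlgHom Ω K E)) (algebraMap K E).injective
    exact this
  obtain ⟨c, hc⟩ := exists_const B hB0 x' hx'i (x' 0 ^ 2 + x' 1 ^ 3)
  set S : Finset E := {x' 0, x' 1} with hS
  have hSE : (S : Set E) = {x' 0, x' 1} := by simp [hS]
  set M : IntermediateField Ω E := AF Ω (S : Set E) with hM
  have ht : Transcendental M (x' 2) := by
    have := trans_AF x' hx'i
    rw [hM, hSE]
    exact this
  have m0 : x' 0 ∈ M := subset_AF _ (by simp [hS])
  have m1 : x' 1 ∈ M := subset_AF _ (by simp [hS])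
  let P : Fin 3 → M := ![⟨x' 0, m0⟩, ⟨x' 1, m1⟩,
    (⟨x' 0, m0⟩ : M) ^ 2 + (⟨x' 1, m1⟩ : M) ^ 3 + algebraMap Ω M c]
  have hPB : MvPolynomial.aeval P B ≠ 0 := by
    intro h0
    apply hc
    have h1 := congrArg (algebraMap M E) h0
    rw [map_zero, ← MvPolynomial.aeval_algebraMap_apply] at h1
    rw [← h1]
    congr 2
    funext i
    fin_cases i
    · rfl
    · rfl
    · rfl
  obtain ⟨d, hd, hdl⟩ := hline E M P hPB
  set φ' : MvPolynomial (Fin 2) Ω := MvPolynomial.X 0 ^ 2 + MvPolynomial.X 1 ^ 3 +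
    MvPolynomial.C c with hφ'
  set L : MvPolynomial (Fin 3) Ω := MvPolynomial.X 2 - MvPolynomial.rename Fin.castSucc φ' with hL
  have hLv : ∀ (A : Type) [Field A] [Algebra Ω A] (y : Fin 3 → A), MvPolynomial.aeval y L =
      y 2 - y 0 ^ 2 - y 1 ^ 3 - algebraMap Ω A c := by
    intro A _ _ y
    simp only [hL, hφ', map_sub, map_add, map_pow, MvPolynomial.rename_X, MvPolynomial.rename_C,
      MvPolynomial.aeval_X, MvPolynomial.aeval_C]
    simp
    ring
  set x'' : Fin 3 → E := fun i => (P i : E) + d i * x' 2 with hx''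
  have hLt : MvPolynomial.aeval x'' L ≠ 0 := by
    intro h0
    rw [hLv] at h0
    have h1 := three_coeff (E := E) ht (d 2 - 2 * P 0 * d 0 - 3 * P 1 ^ 2 * d 1)
      (-(d 0) ^ 2 - 3 * P 1 * d 1 ^ 2) (-(d 1) ^ 3) (by
        rw [← h0]
        have e0 : x'' 0 = x' 0 + d 0 * x' 2 := rfl
        have e1 : x'' 1 = x' 1 + d 1 * x' 2 := rfl
        have e2 : x'' 2 = x' 0 ^ 2 + x' 1 ^ 3 + algebraMap Ω E c + d 2 * x' 2 := rfl
        have p0 : ((P 0 : M) : E) = x' 0 := rfl
        have p1 : ((P 1 : M) : E) = x' 1 := rfl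
        rw [e0, e1, e2]
        simp only [map_sub, map_mul, map_pow, map_neg, map_ofNat,
          IntermediateField.algebraMap_apply, p0, p1]
        ring)
    obtain ⟨h2, h3, h4⟩ := h1
    have d1 : d 1 = 0 := eq_zero_of_pow_eq_zero (neg_eq_zero.1 h4)
    rw [d1] at h3 h2
    have d0 : d 0 = 0 := by
      apply eq_zero_of_pow_eq_zero (n := 2)
      linear_combination -h3
    rw [d0] at h2
    apply hd
    funext i
    fin_cases i
    · exact d0
    · exact d1
    · simpa using h2
  have hind : AlgebraicIndependent Ω x'' := by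
    refine indep_line M P d (x' 2) ht L ?_ ?_ hLt
    · rw [hLv]
      change ((⟨x' 0, m0⟩ : M) ^ 2 + (⟨x' 1, m1⟩ : M) ^ 3 + algebraMap Ω M c) -
        (⟨x' 0, m0⟩ : M) ^ 2 - (⟨x' 1, m1⟩ : M) ^ 3 - algebraMap Ω M c = 0
      ring
    · intro G hG
      have ha : AlgebraicIndependent Ω (![⟨x' 0, m0⟩, ⟨x' 1, m1⟩] : Fin 2 → M) := by
        have h1 : AlgebraicIndependent Ω (fun i : Fin 2 => x' (Fin.castSucc i)) :=
          hx'i.comp _ (Fin.castSucc_injective 2)
        have h2 : (fun i : Fin 2 => x' (Fin.castSucc i)) =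
            M.val ∘ (![⟨x' 0, m0⟩, ⟨x' 1, m1⟩] : Fin 2 → M) := by
          funext i
          fin_cases i
          · rfl
          · rfl
        rw [h2] at h1
        exact AlgebraicIndependent.of_comp M.val h1
      exact dvd_of_graph P _ _ ha φ' rfl rfl rfl (by
        simp only [hφ', map_add, map_pow, MvPolynomial.aeval_X, MvPolynomial.aeval_C]
        rfl) G hG
  obtain ⟨g, hg⟩ := exists_embedding x hx hK x'' hind
  have hgr : Polynomial.aeval (g r) ψ = MvPolynomial.aeval x'' B := by
    have h1 := congrArg g hr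
    rw [← Polynomial.aeval_algHom_apply, MvPolynomial.comp_aeval_apply] at h1
    rw [h1]
    congr 2
    funext i
    exact hg i
  obtain ⟨θ, hθ⟩ := hdl (x' 2) (g r) hgr
  refine ⟨E, inferInstance, inferInstance, g, S, θ, ?_, fun k => ?_⟩
  · rw [hS]
    exact (Finset.card_le_two).trans_lt (by norm_num)
  · set F := adjoin Ω (Acl Ω (S : Set E) ∪ {θ}) with hF
    have hMF : M ≤ F := by
      intro a ha
      exact subset_adjoin _ _ (Or.inl (mem_AF.1 ha))
    have hθF : θ ∈ F := subset_adjoin _ _ (Or.inr rfl)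
    obtain ⟨h1, h2⟩ := hθ F hMF hθF
    have h3 : adjoin Ω (Set.range x ∪ {r}) ≤ F.comap g := by
      rw [adjoin_le_iff, Set.union_subset_iff, Set.singleton_subset_iff]
      constructor
      · rintro _ ⟨i, rfl⟩
        change g (x i) ∈ F
        rw [hg i]
        exact F.add_mem (hMF (P i).2) (F.mul_mem (hMF (d i).2) h1)
      · exact h2
    rw [hgen] at h3
    exact h3 trivial

end Pool.Agent.Helper40.SD
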