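import Pool.Agent.Helper40.SD.Double
import Pool.Agent.Helper40.SD.CurveTwo

/-!
# The threefolds `v (1 - v) = s^n F(x, y)` with weights

`uni_weighted`: let `x` have the degree `p` and `y` the degree `q`, and `deg F ≤ D`. If `n` is odd and
`(n - 1) D ≤ 2 n (p + q)`, or if `n` is even, the characteristic is different from two and
`(n - 2) D ≤ 2 n (p + q)`, the threefold is uniruled.
-/

set_option autoImplicit false

namespace Pool.Agent.Helper40.SD

open IntermediateField Pool.Agent.Helper75.QC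

section wd

variable {Ω ι : Type} [Field Ω] [Fintype ι]

/-- The degree of `G` with the weights `w` is at most `K`. -/
def WD (w : ι → ℕ) (K : ℕ) (G : MvPolynomial ι Ω) : Prop :=
  ∀ m ∈ G.support, ∑ i, m i * w i ≤ K

theorem WD.add {w : ι → ℕ} {K : ℕ} {G H : MvPolynomial ι Ω} (hG : WD w K G) (hH : WD w K H) :
    WD w K (G + H) := by
  classical
  intro m hm
  rcases Finset.mem_union.1 (MvPolynomial.support_add hm) with h | h
  · exact hG m h
  · exact hH m h

theorem WD.neg {w : ι → ℕ} {K : ℕ} {G : MvPolynomial ι Ω} (hG : WD w K G) : WD w K (-G) := by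
  intro m hm
  rw [MvPolynomial.support_neg] at hm
  exact hG m hm

theorem WD.mul {w : ι → ℕ} {K K' : ℕ} {G H : MvPolynomial ι Ω} (hG : WD w K G)
    (hH : WD w K' H) : WD w (K + K') (G * H) := by
  classical
  intro m hm
  obtain ⟨m₁, h₁, m₂, h₂, rfl⟩ := Finset.mem_add.1 (MvPolynomial.support_mul _ _ hm)
  simp only [Finsupp.add_apply, add_mul, Finset.sum_add_distrib]
  exact add_le_add (hG m₁ h₁) (hH m₂ h₂)

theorem WD.C {w : ι → ℕ} (a : Ω) : WD w 0 (MvPolynomial.C a : MvPolynomial ι Ω) := by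
  classical
  intro m hm
  rw [MvPolynomial.mem_support_iff, MvPolynomial.coeff_C] at hm
  have : m = 0 := by
    by_contra h
    rw [if_neg (fun h0 => h h0.symm)] at hm
    exact hm rfl
  rw [this]
  simp

theorem WD.pow {w : ι → ℕ} {K : ℕ} {G : MvPolynomial ι Ω} (hG : WD w K G) (n : ℕ) :
    WD w (n * K) (G ^ n) := by
  induction n with
  | zero =>
    rw [pow_zero, zero_mul, ← MvPolynomial.C_1]
    exact WD.C 1
  | succ n ih =>
    rw [pow_succ, Nat.succ_mul]
    exact ih.mul hG

theorem WD.X {w : ι → ℕ} (i : ι) : WD w (w i) (MvPolynomial.X i : MvPolynomial ι Ω) := by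
  classical
  intro m hm
  rw [MvPolynomial.support_X, Finset.mem_singleton] at hm
  subst hm
  rw [Finset.sum_eq_single i]
  · simp
  · intro j _ hj
    rw [Finsupp.single_eq_of_ne hj, zero_mul]
  · intro h
    exact absurd (Finset.mem_univ i) h

theorem WD.mono {w : ι → ℕ} {K K' : ℕ} {G : MvPolynomial ι Ω} (hG : WD w K G) (h : K ≤ K') :
    WD w K' G := fun m hm => (hG m hm).trans h

theorem WD.rename {κ : Type} [Fintype κ] {w : Option κ → ℕ} {K : ℕ} {G : MvPolynomial κ Ω}
    (hG : WD (fun i => w (some i)) K G) : WD w K (MvPolynomial.rename some G) := by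
  classical
  intro m hm
  rw [MvPolynomial.support_rename_of_injective (Option.some_injective _), Finset.mem_image] at hm
  obtain ⟨m', hm', rfl⟩ := hm
  refine le_trans (le_of_eq ?_) (hG m' hm')
  rw [Fintype.sum_option, Finsupp.mapDomain_of_notMem_range, zero_mul, zero_add]
  · refine Finset.sum_congr rfl fun i _ => ?_
    rw [Finsupp.mapDomain_apply (Option.some_injective _)]
  · simp

end wd

/-- The double cover `r² = B^m r - B^ε F(x)`, characteristic different from two. -/
theorem uni_cover {Ω K : Type} [Field Ω] [IsAlgClosed Ω] [Field K] [Algebra Ω K] {k : ℕ}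
    (h2 : (2 : Ω) ≠ 0) (w : Fin k → ℕ) (D m ε : ℕ) (hD : 0 < D) (hm : 0 < m) (hε : ε ≤ 2 * m)
    (hcount : m * D ≤ ∑ i, w i + D) (F : MvPolynomial (Fin k) Ω)
    (hF : WD w ((2 * m - ε) * D) F) (x : Fin k → K) (B r : K)
    (hr : r ^ 2 = B ^ m * r - B ^ ε * MvPolynomial.aeval x F)
    (hgen : adjoin Ω (Set.range x ∪ {B, r}) = ⊤) : Uniruled Ω K (k + 1) := by
  refine uni_quad h2 (fun o => o.elim D w) (m * D) (by positivity) ?_
    (MvPolynomial.X none ^ m) (-(MvPolynomial.X none ^ ε * MvPolynomial.rename some F)) ?_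
    (fun o => o.elim B x) r ?_ ?_
  · rw [Fintype.sum_option]
    simp only [Option.elim]
    omega
  · have e1 : ∀ n : ℕ, WD (fun o : Option (Fin k) => o.elim D w) (n * D)
        (MvPolynomial.X none ^ n : MvPolynomial (Option (Fin k)) Ω) := fun n =>
      WD.pow (WD.X (w := fun o : Option (Fin k) => o.elim D w) none) n
    have e2 : WD (fun o : Option (Fin k) => o.elim D w) ((2 * m - ε) * D)
        (MvPolynomial.rename some F) := WD.rename hF
    have e3 : ε * D + (2 * m - ε) * D = 2 * (m * D) := by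
      rw [← Nat.add_mul, Nat.add_sub_cancel' hε, mul_assoc]
    have e4 : (4 : MvPolynomial (Option (Fin k)) Ω) = MvPolynomial.C 4 := by rw [map_ofNat]
    refine WD.add ?_ ?_
    · rw [← pow_mul]
      exact (e1 _).mono (by rw [Nat.mul_comm m 2, Nat.mul_assoc])
    · rw [e4]
      exact ((WD.C 4).mul (((e1 ε).mul e2).neg)).mono (by rw [e3, zero_add])
  · rw [map_pow, MvPolynomial.aeval_X, map_neg, map_mul, map_pow, MvPolynomial.aeval_X,
      MvPolynomial.aeval_rename]
    change r ^ 2 = B ^ m * r + -(B ^ ε * MvPolynomial.aeval x F)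
    rw [hr]
    ring
  · rw [← hgen]
    congr 1
    ext a
    simp only [Set.mem_union, Set.mem_range, Set.mem_singleton_iff, Set.mem_insert_iff,
      Option.exists, Option.elim]
    tauto

/-- The double cover `r² = B^m r - B F(x)`, characteristic two. -/
theorem uni_cover_two {Ω K : Type} [Field Ω] [IsAlgClosed Ω] [Field K] [Algebra Ω K] {k : ℕ}
    (h2 : (2 : Ω) = 0) (w : Fin k → ℕ) (D m : ℕ) (hD : 0 < D) (hm : 0 < m)
    (hcount : m * D ≤ ∑ i, w i + D) (F : MvPolynomial (Fin k) Ω)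
    (hF : WD w ((2 * m - 1) * D) F) (x : Fin k → K) (B r : K)
    (hr : r ^ 2 = B ^ m * r - B * MvPolynomial.aeval x F)
    (hgen : adjoin Ω (Set.range x ∪ {B, r}) = ⊤) : Uniruled Ω K (k + 1) := by
  refine curve_setup (∑ i, w i + D) (MvPolynomial.X none) (MvPolynomial.X none ^ m)
    (-(MvPolynomial.X none * MvPolynomial.rename some F)) (MvPolynomial.X_ne_zero _)
    (fun o => o.elim B x) r ?_ ?_ ?_
  · rw [map_pow, MvPolynomial.aeval_X, map_neg, map_mul, MvPolynomial.aeval_X,
      MvPolynomial.aeval_rename]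
    change r ^ 2 = B ^ m * r + -(B * MvPolynomial.aeval x F)
    rw [hr]
    ring
  · rw [← hgen]
    congr 1
    ext a
    simp only [Set.mem_union, Set.mem_range, Set.mem_singleton_iff, Set.mem_insert_iff,
      Option.exists, Option.elim]
    tauto
  · intro E _ _ M _ P hP
    have h2E : (2 : E) = 0 := by
      have := congrArg (algebraMap Ω E) h2
      rwa [map_ofNat, map_zero] at this
    rw [MvPolynomial.aeval_X] at hP
    obtain ⟨c, S, Q, e, h₁, hcN, hcP, hcne, hQ0, he, hcQ, hS⟩ := exists_curve_char_two w D m hD hm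
      hcount (MvPolynomial.map (algebraMap Ω M) F)
      (fun s hs => hF s (MvPolynomial.support_map_subset _ _ hs)) P hP
    refine ⟨c, hcN, hcP, hcne, fun t r ht hr => ?_⟩
    have hQt : Polynomial.aeval t Q ≠ 0 := by
      intro h0
      exact hQ0 (coeff_zero_of ht Q h0)
    rw [map_pow, MvPolynomial.aeval_X, map_neg, map_mul, MvPolynomial.aeval_X,
      MvPolynomial.aeval_rename] at hr
    have hS' := congrArg (Polynomial.aeval t) hS
    have hF2 : Polynomial.aeval t (MvPolynomial.aeval (fun i => c (some i))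
        (MvPolynomial.map (algebraMap Ω M) F)) =
        MvPolynomial.aeval ((fun i => Polynomial.aeval t (c i)) ∘ some) F := by
      rw [MvPolynomial.aeval_map_algebraMap]
      have : ((Polynomial.aeval (R := M) t).restrictScalars Ω).comp
          (MvPolynomial.aeval (fun i => c (some i))) =
          MvPolynomial.aeval (R := Ω) ((fun i => Polynomial.aeval t (c i)) ∘ some) := by
        ext i
        simp
      exact DFunLike.congr_fun this _
    rw [map_add, map_add, map_mul, map_mul, map_mul, map_pow, map_pow, map_pow, hF2] at hS'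
    have hQ' := congrArg (Polynomial.aeval t) hcQ
    rw [map_pow, map_mul, map_add, map_one, map_mul, Polynomial.aeval_C, Polynomial.aeval_X,
      IntermediateField.algebraMap_apply] at hQ'
    have het : Polynomial.aeval t e = (e.coeff 0 : E) + (e.coeff 1 : E) * t +
        (e.coeff 2 : E) * t ^ 2 := by
      rw [Polynomial.aeval_eq_sum_range' (Nat.lt_succ_of_le he)]
      simp only [Finset.sum_range_succ, Finset.sum_range_zero, Algebra.smul_def,
        IntermediateField.algebraMap_apply]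
      ring
    set b := Polynomial.aeval t (c none) with hb
    set s := Polynomial.aeval t S with hs
    set u := Polynomial.aeval t Q with hu
    set f := MvPolynomial.aeval ((fun i => Polynomial.aeval t (c i)) ∘ some) F with hf
    obtain ⟨θ, hθ⟩ := conic_param_lin M h₁ (e.coeff 0) (e.coeff 1) (e.coeff 2) t
      ((r - s) / u) (by
        rw [← het]
        have h3 : ((r - s) / u) ^ 2 + (1 + (h₁ : E) * t) * ((r - s) / u) =
            ((r - s) ^ 2 + (u * (1 + (h₁ : E) * t)) * (r - s)) / u ^ 2 := by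
          field_simp
        rw [h3, ← hQ', div_eq_iff (pow_ne_zero 2 hQt)]
        linear_combination hr + hS' + (s * b ^ m * (-1) - r * s + b ^ m * r - b * f +
          b * f - u ^ 2 * Polynomial.aeval t e) * h2E)
    refine ⟨θ, fun F hF hθF => ?_⟩
    obtain ⟨e1, e2⟩ := hθ F hF hθF
    have hpol : ∀ p : Polynomial M, Polynomial.aeval t p ∈ F := by
      intro p
      rw [Polynomial.aeval_eq_sum_range]
      refine sum_mem fun j _ => ?_
      rw [Algebra.smul_def]
      exact F.mul_mem (hF (p.coeff j).2) (pow_mem e1 j)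
    refine ⟨e1, ?_⟩
    have h5 : r = (r - s) / u * u + s := by
      field_simp
      ring
    rw [h5]
    exact F.add_mem (F.mul_mem e2 (hpol Q)) (hpol S)

/-- **The threefolds `v (1 - v) = s^n F(x, y)`.** -/
theorem uni_weighted {Ω N : Type} [Field Ω] [IsAlgClosed Ω] [Field N] [Algebra Ω N]
    (F : MvPolynomial (Fin 2) Ω) {n p q D : ℕ} (hn : 0 < n) (hp : 0 < p)
    (hF : ∀ m ∈ F.support, p * m 0 + q * m 1 ≤ D)
    (hc : (Odd n ∧ (n - 1) * D ≤ 2 * n * (p + q)) ∨
      (Even n ∧ (2 : Ω) ≠ 0 ∧ (n - 2) * D ≤ 2 * n * (p + q)))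
    (x y v s : N) (hs0 : s ≠ 0) (hs : v * (1 - v) = s ^ n * MvPolynomial.aeval ![x, y] F) :
    Uniruled Ω (adjoin Ω {x, y, v, s} : IntermediateField Ω N) 3 := by
  -- the degree can be taken to be positive
  obtain ⟨D', hD'0, hFD', hcD'⟩ : ∃ D' : ℕ, 0 < D' ∧
      (∀ m ∈ F.support, p * m 0 + q * m 1 ≤ D') ∧
      ((Odd n ∧ (n - 1) * D' ≤ 2 * n * (p + q)) ∨
        (Even n ∧ (2 : Ω) ≠ 0 ∧ (n - 2) * D' ≤ 2 * n * (p + q))) := by
    rcases Nat.eq_zero_or_pos D with h0 | h0
    · refine ⟨1, one_pos, fun m hm => (hF m hm).trans (by omega), ?_⟩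
      have h1 : 2 * n * 1 ≤ 2 * n * (p + q) := Nat.mul_le_mul_left _ (by omega)
      rcases hc with ⟨h2, -⟩ | ⟨h2, h3, -⟩
      · exact Or.inl ⟨h2, by omega⟩
      · exact Or.inr ⟨h2, h3, by omega⟩
    · exact ⟨D, h0, hF, hc⟩
  set K := (adjoin Ω {x, y, v, s} : IntermediateField Ω N) with hK
  have mx : x ∈ K := subset_adjoin _ _ (by simp)
  have my : y ∈ K := subset_adjoin _ _ (by simp)
  have mv : v ∈ K := subset_adjoin _ _ (by simp)
  have ms : s ∈ K := subset_adjoin _ _ (by simp)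
  set X : K := ⟨x, mx⟩ with hX
  set Y : K := ⟨y, my⟩ with hY
  set V : K := ⟨v, mv⟩ with hV
  set S : K := ⟨s, ms⟩ with hS
  have hS0 : S ≠ 0 := by
    intro h
    exact hs0 (congrArg Subtype.val h)
  have hVS : V * (1 - V) = S ^ n * MvPolynomial.aeval ![X, Y] F := by
    apply Subtype.ext
    have h2 : ((MvPolynomial.aeval ![X, Y] F : K) : N) = MvPolynomial.aeval ![x, y] F :=
      map_aeval75 K.val X Y F
    change v * (1 - v) = s ^ n * _
    rw [h2, hs]
  obtain ⟨m, ε, hm, hnm, hε, hcount, h2⟩ : ∃ m ε : ℕ, 0 < m ∧ n + ε = 2 * m ∧ ε ≤ 1 ∧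
      m * D' ≤ n * p + n * q + D' ∧ ((2 : Ω) ≠ 0 ∨ ε = 1) := by
    rcases hcD' with ⟨⟨k, hk⟩, h1⟩ | ⟨⟨k, hk⟩, h2, h1⟩
    · refine ⟨k + 1, 1, by omega, by omega, le_rfl, ?_, Or.inr rfl⟩
      have h3 : n - 1 = 2 * k := by omega
      rw [h3] at h1
      nlinarith
    · refine ⟨k, 0, by omega, by omega, by omega, ?_, Or.inl h2⟩
      obtain ⟨j, rfl⟩ : ∃ j, k = j + 1 := ⟨k - 1, by omega⟩
      have h3 : n - 2 = 2 * j := by omega
      rw [h3] at h1
      nlinarith
  have hgen : ∀ r : K, V = r * S ^ m → adjoin Ω (Set.range ![X, Y] ∪ {S⁻¹, r}) = ⊤ := by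
    intro r hr
    have htop : adjoin Ω {X, Y, V, S} = ⊤ := by
      apply lift_injective K
      rw [lift_top, lift_adjoin]
      simp only [Set.image_insert_eq, Set.image_singleton]
      exact hK.symm
    rw [eq_top_iff, ← htop, adjoin_le_iff]
    have m0 : X ∈ adjoin Ω (Set.range ![X, Y] ∪ {S⁻¹, r}) :=
      subset_adjoin _ _ (Or.inl ⟨0, rfl⟩)
    have m1 : Y ∈ adjoin Ω (Set.range ![X, Y] ∪ {S⁻¹, r}) :=
      subset_adjoin _ _ (Or.inl ⟨1, rfl⟩)
    have m2 : S⁻¹ ∈ adjoin Ω (Set.range ![X, Y] ∪ {S⁻¹, r}) :=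
      subset_adjoin _ _ (Or.inr (Or.inl rfl))
    have m3 : r ∈ adjoin Ω (Set.range ![X, Y] ∪ {S⁻¹, r}) :=
      subset_adjoin _ _ (Or.inr (Or.inr rfl))
    have m4 : S ∈ adjoin Ω (Set.range ![X, Y] ∪ {S⁻¹, r}) := by
      have := inv_mem m2
      rwa [inv_inv] at this
    rintro a (rfl | rfl | rfl | rfl)
    · exact m0
    · exact m1
    · rw [SetLike.mem_coe, hr]
      exact mul_mem m3 (pow_mem m4 m)
    · exact m4
  have hWD : WD (![n * p, n * q] : Fin 2 → ℕ) ((2 * m - ε) * D') F := by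
    intro t ht
    have h3 := hFD' t ht
    have h4 : 2 * m - ε = n := by omega
    rw [Fin.sum_univ_two, h4]
    simp only [Matrix.cons_val_zero, Matrix.cons_val_one]
    calc t 0 * (n * p) + t 1 * (n * q) = n * (p * t 0 + q * t 1) := by ring
      _ ≤ n * D' := Nat.mul_le_mul_left _ h3
  have hsum : ∑ i, (![n * p, n * q] : Fin 2 → ℕ) i = n * p + n * q := by
    rw [Fin.sum_univ_two]
    rfl
  have hr : (V * (S⁻¹) ^ m) ^ 2 = (S⁻¹) ^ m * (V * (S⁻¹) ^ m) -
      (S⁻¹) ^ ε * MvPolynomial.aeval ![X, Y] F := by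
    have h3 : (S⁻¹) ^ ε * MvPolynomial.aeval ![X, Y] F = (S⁻¹) ^ (2 * m) * (V * (1 - V)) := by
      rw [hVS, ← hnm, pow_add]
      have h4 : (S⁻¹) ^ n * S ^ n = 1 := by
        rw [← mul_pow, inv_mul_cancel₀ hS0, one_pow]
      linear_combination -(S⁻¹ ^ ε * MvPolynomial.aeval ![X, Y] F) * h4
    rw [h3]
    ring
  have hV' : V = V * (S⁻¹) ^ m * S ^ m := by
    rw [mul_assoc, ← mul_pow, inv_mul_cancel₀ hS0, one_pow, mul_one]
  by_cases h2' : (2 : Ω) = 0
  · have hε1 : ε = 1 := by
      rcases h2 with h | h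
      · exact absurd h2' h
      · exact h
    subst hε1
    rw [pow_one] at hr
    exact uni_cover_two h2' _ D' m hD'0 hm (by rw [hsum]; exact hcount) F hWD ![X, Y] S⁻¹ _ hr
      (hgen _ hV')
  · exact uni_cover h2' _ D' m ε hD'0 hm (by omega) (by rw [hsum]; exact hcount) F hWD ![X, Y]
      S⁻¹ _ hr (hgen _ hV')

end Pool.Agent.Helper40.SD
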